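import Mathlib

/-!
Inequalities for binomial coefficients.
-/

set_option autoImplicit false

namespace Run7.h747

open Finset

theorem choose_sym_le (N q : ℕ) : ∀ d, d ≤ q →
    N.choose (q - d) * N.choose (q + d) ≤ (N.choose q) ^ 2 := by
  intro d
  induction d with
  | zero => intro _; rw [Nat.sub_zero, Nat.add_zero, sq]
  | succ d ih =>
    intro hd
    refine le_trans ?_ (ih (by omega))
    by_cases hN : q + d + 1 ≤ N
    · have h1 : N.choose (q - d) * (q - d) = N.choose (q - (d + 1)) * (N - (q - (d + 1))) := by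
        have := Nat.choose_succ_right_eq N (q - (d + 1))
        have e : q - (d + 1) + 1 = q - d := by omega
        rwa [e] at this
      have h2 : N.choose (q + (d + 1)) * (q + (d + 1)) = N.choose (q + d) * (N - (q + d)) :=
        Nat.choose_succ_right_eq N (q + d)
      have hp : 0 < (N - (q - (d + 1))) * (q + (d + 1)) := Nat.mul_pos (by omega) (by omega)
      apply Nat.le_of_mul_le_mul_right _ hp
      calc N.choose (q - (d + 1)) * N.choose (q + (d + 1)) *
            ((N - (q - (d + 1))) * (q + (d + 1)))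
          = (N.choose (q - (d + 1)) * (N - (q - (d + 1)))) *
            (N.choose (q + (d + 1)) * (q + (d + 1))) := by ring
        _ = (N.choose (q - d) * (q - d)) * (N.choose (q + d) * (N - (q + d))) := by
            rw [h1, h2]
        _ = (N.choose (q - d) * N.choose (q + d)) * ((N - (q + d)) * (q - d)) := by ring
        _ ≤ (N.choose (q - d) * N.choose (q + d)) *
            ((N - (q - (d + 1))) * (q + (d + 1))) := by
            apply Nat.mul_le_mul_left
            apply Nat.mul_le_mul <;> omega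
    · rw [Nat.choose_eq_zero_of_lt (show N < q + (d + 1) by omega), mul_zero]
      exact Nat.zero_le _

theorem choose_two_mul_le (N q : ℕ) :
    (2 * N).choose (2 * q) ≤ (2 * q + 1) * (N.choose q) ^ 2 := by
  rw [two_mul N, Nat.add_choose_eq]
  have h : ∀ ij ∈ antidiagonal (2 * q), N.choose ij.1 * N.choose ij.2 ≤ (N.choose q) ^ 2 := by
    intro ij hij
    rw [HasAntidiagonal.mem_antidiagonal] at hij
    rcases le_total ij.1 q with h1 | h1
    · have := choose_sym_le N q (q - ij.1) (by omega)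
      have e1 : q - (q - ij.1) = ij.1 := by omega
      have e2 : q + (q - ij.1) = ij.2 := by omega
      rwa [e1, e2] at this
    · have := choose_sym_le N q (q - ij.2) (by omega)
      have e1 : q - (q - ij.2) = ij.2 := by omega
      have e2 : q + (q - ij.2) = ij.1 := by omega
      rw [e1, e2] at this
      rwa [mul_comm]
  refine (sum_le_card_nsmul _ _ _ h).trans ?_
  rw [Nat.card_antidiagonal, smul_eq_mul]

theorem choose_up (a k u : ℕ) (hk : k ≤ a) : (a + u).choose k ≤ (a + u) ^ u * a.choose k := by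
  induction u with
  | zero => simp
  | succ u ih =>
    have h1 : (a + u + 1).choose k ≤ (a + u + 1) * (a + u).choose k := by
      have h2 := Nat.choose_mul_succ_eq (a + u) k
      -- (a+u).choose k * (a+u+1) = (a+u+1).choose k * (a+u+1-k)
      calc (a + u + 1).choose k ≤ (a + u + 1).choose k * (a + u + 1 - k) :=
            Nat.le_mul_of_pos_right _ (by omega)
        _ = (a + u + 1) * (a + u).choose k := by rw [← h2, mul_comm]
    calc (a + (u + 1)).choose k ≤ (a + u + 1) * (a + u).choose k := h1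
      _ ≤ (a + u + 1) * ((a + u) ^ u * a.choose k) := Nat.mul_le_mul_left _ ih
      _ ≤ (a + u + 1) * ((a + u + 1) ^ u * a.choose k) := by
          apply Nat.mul_le_mul_left
          apply Nat.mul_le_mul_right
          exact Nat.pow_le_pow_left (by omega) _
      _ = (a + (u + 1)) ^ (u + 1) * a.choose k := by ring

theorem choose_diag (a k t : ℕ) : (a + t).choose (k + t) ≤ (a + t) ^ t * a.choose k := by
  induction t with
  | zero => simp
  | succ t ih =>
    have h1 : (a + t + 1).choose (k + t + 1) ≤ (a + t + 1) * (a + t).choose (k + t) := by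
      have := Nat.add_one_mul_choose_eq (a + t) (k + t)
      calc (a + t + 1).choose (k + t + 1) ≤ (a + t + 1).choose (k + t + 1) * (k + t + 1) :=
            Nat.le_mul_of_pos_right _ (by omega)
        _ = (a + t + 1) * (a + t).choose (k + t) := this.symm
    calc (a + (t + 1)).choose (k + (t + 1)) ≤ (a + t + 1) * (a + t).choose (k + t) := h1
      _ ≤ (a + t + 1) * ((a + t) ^ t * a.choose k) := Nat.mul_le_mul_left _ ih
      _ ≤ (a + t + 1) * ((a + t + 1) ^ t * a.choose k) := by
          apply Nat.mul_le_mul_left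
          apply Nat.mul_le_mul_right
          exact Nat.pow_le_pow_left (by omega) _
      _ = (a + (t + 1)) ^ (t + 1) * a.choose k := by ring

theorem choose_far {a k t u n r : ℕ} (hk : k ≤ a) (hn : n = a + u + t) (hr : u + t ≤ r)
    (h0 : 0 < n) : n.choose (k + t) ≤ n ^ r * a.choose k := by
  subst hn
  calc (a + u + t).choose (k + t) ≤ (a + u + t) ^ t * (a + u).choose k := choose_diag _ _ _
    _ ≤ (a + u + t) ^ t * ((a + u) ^ u * a.choose k) :=
        Nat.mul_le_mul_left _ (choose_up a k u hk)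
    _ ≤ (a + u + t) ^ t * ((a + u + t) ^ u * a.choose k) := by
        apply Nat.mul_le_mul_left
        apply Nat.mul_le_mul_right
        exact Nat.pow_le_pow_left (by omega) _
    _ = (a + u + t) ^ (u + t) * a.choose k := by ring
    _ ≤ (a + u + t) ^ r * a.choose k := by
        apply Nat.mul_le_mul_right
        exact Nat.pow_le_pow_right h0 hr

/-- The bound for two sets. -/
theorem num2 {n l q s : ℕ} (hl : l = 4 * q + s) (hs3 : 3 ≤ s) (hs6 : s ≤ 6) (hln : l ≤ n) :
    n.choose (l / 2) ≤ n ^ 8 * (((n - s) / 2).choose q) ^ 2 := by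
  set N := (n - s) / 2 with hN
  have e : l / 2 = 2 * q + s / 2 := by omega
  rw [e]
  have h1 : n.choose (2 * q + s / 2) ≤ n ^ 7 * (2 * N).choose (2 * q) :=
    choose_far (u := n - 2 * N - s / 2) (by omega) (by omega) (by omega) (by omega)
  calc n.choose (2 * q + s / 2) ≤ n ^ 7 * (2 * N).choose (2 * q) := h1
    _ ≤ n ^ 7 * ((2 * q + 1) * (N.choose q) ^ 2) :=
        Nat.mul_le_mul_left _ (choose_two_mul_le N q)
    _ ≤ n ^ 7 * (n * (N.choose q) ^ 2) := by
        apply Nat.mul_le_mul_left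
        apply Nat.mul_le_mul_right
        omega
    _ = n ^ 8 * (N.choose q) ^ 2 := by ring

theorem num2' {n q s : ℕ} (hl : n = 4 * q + s) (hs3 : 3 ≤ s) (hs6 : s ≤ 6) :
    2 ^ n ≤ 16 * n ^ 2 * (((n - s) / 2).choose q) ^ 2 := by
  have hN : (n - s) / 2 = 2 * q := by omega
  rw [hN]
  rcases Nat.eq_zero_or_pos q with hq | hq
  · subst hq
    have h1 : 2 ^ n ≤ 2 ^ 6 := Nat.pow_le_pow_right (by norm_num) (by omega)
    have h2 : 3 ^ 2 ≤ n ^ 2 := Nat.pow_le_pow_left (by omega) 2
    simp only [Nat.mul_zero, Nat.choose_self, one_pow, mul_one]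
    omega
  · have h1 := Nat.four_pow_le_two_mul_self_mul_centralBinom q hq
    rw [Nat.centralBinom_eq_two_mul_choose] at h1
    set C := (2 * q).choose q
    have h2 : (4 ^ q) ^ 2 ≤ (2 * q * C) ^ 2 := Nat.pow_le_pow_left h1 2
    have h3 : (2 : ℕ) ^ s ≤ 2 ^ 6 := Nat.pow_le_pow_right (by norm_num) hs6
    have h4 : (4 * q) ^ 2 ≤ n ^ 2 := Nat.pow_le_pow_left (by omega) 2
    have e1 : (2 : ℕ) ^ n = 2 ^ s * (4 ^ q) ^ 2 := by
      rw [hl, pow_add, pow_mul, ← pow_mul, ← pow_mul, mul_comm]
      congr 1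
      rw [show (4 : ℕ) = 2 ^ 2 by norm_num, ← pow_mul]
      congr 1
      ring
    rw [e1]
    calc 2 ^ s * (4 ^ q) ^ 2 ≤ 2 ^ 6 * (2 * q * C) ^ 2 := Nat.mul_le_mul h3 h2
      _ = 16 * (4 * q) ^ 2 * C ^ 2 := by ring
      _ ≤ 16 * n ^ 2 * C ^ 2 := by
          apply Nat.mul_le_mul_right
          exact Nat.mul_le_mul_left _ h4

/-- The bound for four sets. -/
theorem num4 {n l q s : ℕ} (hl : l = 8 * q + s) (hs3 : 8 ≤ s) (hs6 : s ≤ 14) (hln : l ≤ n) :
    n.choose (l / 2) ≤ n ^ 20 * (((n - s) / 4).choose q) ^ 4 := by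
  set N := (n - s) / 4 with hN
  have e : l / 2 = 4 * q + s / 2 := by omega
  rw [e]
  have h1 : n.choose (2 * (2 * q) + s / 2) ≤ n ^ 17 * (2 * (2 * N)).choose (2 * (2 * q)) :=
    choose_far (u := n - 4 * N - s / 2) (by omega) (by omega) (by omega) (by omega)
  calc n.choose (4 * q + s / 2) = n.choose (2 * (2 * q) + s / 2) := by
        congr 1; omega
    _ ≤ n ^ 17 * (2 * (2 * N)).choose (2 * (2 * q)) := h1
    _ ≤ n ^ 17 * ((2 * (2 * q) + 1) * ((2 * N).choose (2 * q)) ^ 2) :=
        Nat.mul_le_mul_left _ (choose_two_mul_le (2 * N) (2 * q))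
    _ ≤ n ^ 17 * (n * ((2 * q + 1) * (N.choose q) ^ 2) ^ 2) := by
        apply Nat.mul_le_mul_left
        apply Nat.mul_le_mul
        · omega
        · exact Nat.pow_le_pow_left (choose_two_mul_le N q) 2
    _ ≤ n ^ 17 * (n * (n * (N.choose q) ^ 2) ^ 2) := by
        apply Nat.mul_le_mul_left
        apply Nat.mul_le_mul_left
        apply Nat.pow_le_pow_left
        apply Nat.mul_le_mul_right
        omega
    _ = n ^ 20 * (N.choose q) ^ 4 := by ring

theorem num4' {n q s : ℕ} (hl : n = 8 * q + s) (hs3 : 8 ≤ s) (hs6 : s ≤ 14) :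
    2 ^ n ≤ 64 * n ^ 4 * (((n - s) / 4).choose q) ^ 4 := by
  have hN : (n - s) / 4 = 2 * q := by omega
  rw [hN]
  rcases Nat.eq_zero_or_pos q with hq | hq
  · subst hq
    have h1 : 2 ^ n ≤ 2 ^ 14 := Nat.pow_le_pow_right (by norm_num) (by omega)
    have h2 : 8 ^ 4 ≤ n ^ 4 := Nat.pow_le_pow_left (by omega) 4
    simp only [Nat.mul_zero, Nat.choose_self, one_pow, mul_one]
    omega
  · have h1 := Nat.four_pow_le_two_mul_self_mul_centralBinom q hq
    rw [Nat.centralBinom_eq_two_mul_choose] at h1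
    set C := (2 * q).choose q
    have h2 : (4 ^ q) ^ 4 ≤ (2 * q * C) ^ 4 := Nat.pow_le_pow_left h1 4
    have h3 : (2 : ℕ) ^ s ≤ 2 ^ 14 := Nat.pow_le_pow_right (by norm_num) hs6
    have h4 : (8 * q) ^ 4 ≤ n ^ 4 := Nat.pow_le_pow_left (by omega) 4
    have e1 : (2 : ℕ) ^ n = 2 ^ s * (4 ^ q) ^ 4 := by
      rw [hl, pow_add, mul_comm]
      congr 1
      rw [show (4 : ℕ) = 2 ^ 2 by norm_num, ← pow_mul, ← pow_mul]
      congr 1
      ring
    rw [e1]
    calc 2 ^ s * (4 ^ q) ^ 4 ≤ 2 ^ 14 * (2 * q * C) ^ 4 := Nat.mul_le_mul h3 h2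
      _ = 64 * (8 * q) ^ 4 * C ^ 4 := by ring
      _ ≤ 64 * n ^ 4 * C ^ 4 := by
          apply Nat.mul_le_mul_right
          exact Nat.mul_le_mul_left _ h4

end Run7.h747
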