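import Pool.Agent.Run7.h747.Good

/-!
Greedy matchings by the distance of neighbourhoods, and the number of coefficients.
-/

set_option autoImplicit false

namespace Run7.h747

open Finset

variable {V : Type*} [Fintype V] [DecidableEq V]

open Classical in
/-- The number of vertices other than `u`, `v` that are adjacent to exactly one of `u`, `v`. -/
noncomputable def dst (G : SimpleGraph V) (u v : V) : ℕ :=
  (univ.filter (fun x => x ≠ u ∧ x ≠ v ∧ ¬ (G.Adj u x ↔ G.Adj v x))).card

theorem dst_comm (G : SimpleGraph V) (u v : V) : dst G u v = dst G v u := by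
  unfold dst
  congr 1
  ext x
  simp only [mem_filter, mem_univ, true_and]
  tauto

/-- `mate` is an involution which is locally best. -/
def Greedy (G : SimpleGraph V) (mate : V → V) : Prop :=
  (∀ v, mate (mate v) = v) ∧
    ∀ u v, u ≠ v → ∃ x, (x = u ∨ x = v) ∧ mate x ≠ x ∧ dst G x (mate x) ≤ dst G u v

/-- `k` pairwise disjoint pairs of vertices at distance at most `d`. -/
def Pairs (G : SimpleGraph V) (d : ℕ) (M : Finset (V × V)) : Prop :=
  (∀ p ∈ M, p.1 ≠ p.2 ∧ dst G p.1 p.2 ≤ d) ∧
    ∀ p ∈ M, ∀ q ∈ M, p ≠ q → p.1 ≠ q.1 ∧ p.1 ≠ q.2 ∧ p.2 ≠ q.1 ∧ p.2 ≠ q.2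

theorem pairs_card {V : Type*} [Fintype V] [LinearOrder V] {G : SimpleGraph V} {mate : V → V}
    (hg : Greedy G mate) {d : ℕ} {M : Finset (V × V)} (hM : Pairs G d M) :
    M.card ≤ 2 * (univ.filter (fun v => mate v < v ∧ dst G v (mate v) ≤ d)).card := by
  classical
  obtain ⟨hm, hgr⟩ := hg
  obtain ⟨h1, h2⟩ := hM
  set W := univ.filter (fun v => mate v ≠ v ∧ dst G v (mate v) ≤ d) with hW
  have e1 : M.card ≤ W.card := by
    have hx : ∀ p : V × V, ∃ x, p ∈ M → (x = p.1 ∨ x = p.2) ∧ x ∈ W := by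
      intro p
      by_cases hp : p ∈ M
      · obtain ⟨h3, h4⟩ := h1 p hp
        obtain ⟨x, h5, h6, h7⟩ := hgr p.1 p.2 h3
        refine ⟨x, fun _ => ⟨h5, ?_⟩⟩
        rw [hW, mem_filter]
        exact ⟨mem_univ _, h6, h7.trans h4⟩
      · exact ⟨p.1, fun h => absurd h hp⟩
    choose f hf using hx
    apply card_le_card_of_injOn f
    · intro p hp
      exact (hf p hp).2
    · intro p hp q hq e
      by_contra hne
      obtain ⟨a1, a2, a3, a4⟩ := h2 p hp q hq hne
      rcases (hf p hp).1 with e1 | e1 <;> rcases (hf q hq).1 with e2 | e2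
      · exact a1 (by rw [← e1, ← e2, e])
      · exact a2 (by rw [← e1, ← e2, e])
      · exact a3 (by rw [← e1, ← e2, e])
      · exact a4 (by rw [← e1, ← e2, e])
  set J := univ.filter (fun v => mate v < v ∧ dst G v (mate v) ≤ d) with hJ
  have e2 : W ⊆ J ∪ J.image mate := by
    intro v hv
    rw [hW, mem_filter] at hv
    obtain ⟨_, h3, h4⟩ := hv
    rw [mem_union]
    rcases lt_or_gt_of_ne h3 with h5 | h5
    · left; rw [hJ, mem_filter]; exact ⟨mem_univ _, h5, h4⟩
    · right
      rw [mem_image]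
      refine ⟨mate v, ?_, hm v⟩
      rw [hJ, mem_filter, hm]
      refine ⟨mem_univ _, h5, ?_⟩
      rw [dst_comm]; exact h4
  calc M.card ≤ W.card := e1
    _ ≤ (J ∪ J.image mate).card := card_le_card e2
    _ ≤ J.card + (J.image mate).card := card_union_le _ _
    _ ≤ J.card + J.card := by
        apply Nat.add_le_add_left; exact card_image_le
    _ = 2 * J.card := by ring

open Classical in
/-- The vertices (other than the block) that see a difference at `v`, closed under `mate`. -/
noncomputable def Dp (G : SimpleGraph V) (mate : V → V) (v : V) : Finset V :=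
  univ.filter (fun x => x ≠ v ∧ x ≠ mate v ∧
    (¬ (G.Adj v x ↔ G.Adj (mate v) x) ∨ ¬ (G.Adj v (mate x) ↔ G.Adj (mate v) (mate x))))

theorem Dp_closed {V : Type*} [Fintype V] [LinearOrder V] {G : SimpleGraph V} {mate : V → V}
    (hm : ∀ v, mate (mate v) = v) (v : V) :
    Closed mate (Dp G mate v) := by
  classical
  intro x hx
  unfold Dp at hx ⊢
  rw [mem_filter] at hx ⊢
  obtain ⟨_, h1, h2, h3⟩ := hx
  refine ⟨mem_univ _, ?_, ?_, ?_⟩
  · intro e; apply h2; rw [← e, hm]
  · intro e; apply h1; rw [← hm x, e, hm]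
  · rw [hm]; exact h3.symm

theorem Dp_card {V : Type*} [Fintype V] [LinearOrder V] {G : SimpleGraph V} {mate : V → V}
    (hm : ∀ v, mate (mate v) = v) (v : V) :
    (Dp G mate v).card ≤ 2 * dst G v (mate v) := by
  classical
  set A := univ.filter (fun x => x ≠ v ∧ x ≠ mate v ∧ ¬ (G.Adj v x ↔ G.Adj (mate v) x)) with hA
  have hsub : Dp G mate v ⊆ A ∪ A.image mate := by
    intro x hx
    unfold Dp at hx
    rw [mem_filter] at hx
    obtain ⟨_, h1, h2, h3⟩ := hx
    rw [mem_union]
    rcases h3 with h3 | h3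
    · left; rw [hA, mem_filter]; exact ⟨mem_univ _, h1, h2, h3⟩
    · right
      rw [mem_image]
      refine ⟨mate x, ?_, hm x⟩
      rw [hA, mem_filter]
      refine ⟨mem_univ _, ?_, ?_, h3⟩
      · intro e; apply h2; rw [← e, hm]
      · intro e; apply h1; rw [← hm x, e, hm]
  have hAc : A.card = dst G v (mate v) := by
    unfold dst; rw [hA]
  calc (Dp G mate v).card ≤ (A ∪ A.image mate).card := card_le_card hsub
    _ ≤ A.card + (A.image mate).card := card_union_le _ _
    _ ≤ A.card + A.card := by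
        apply Nat.add_le_add_left; exact card_image_le
    _ = 2 * dst G v (mate v) := by rw [hAc]; ring

/-- The number of coefficients in graphs with many near twins. -/
theorem greedy_count (d : ℕ) {δ : ℝ} (hδ : 0 < δ) : ∃ b : ℝ, 0 < b ∧ b < 2 ∧
    ∀ (n : ℕ) (G : SimpleGraph (Fin n)) (M : Finset (Fin n × Fin n)), Pairs G d M →
      δ * n ≤ M.card →
      ∀ (mate : Fin n → Fin n), Greedy G mate → ∀ (s a : Fin n), s < a →
      ∀ (j : ℕ) (w : Fin n) (S : Finset (Finset (Fin n))),
        (∀ X ∈ S, Cc G s a mate j w X ≠ 0) → (S.card : ℝ) ≤ 8 * b ^ n := by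
  classical
  obtain ⟨ρ, h0, h1, hρ⟩ := good_count (2 * d)
  refine ⟨2 * ρ ^ (δ / 2), by positivity, ?_, ?_⟩
  · have : ρ ^ (δ / 2) < 1 := Real.rpow_lt_one h0.le h1 (by positivity)
    linarith
  · intro n G M hM hMc mate hg s a hsa j w S hS
    have hJ := pairs_card hg hM
    set J := univ.filter (fun v => mate v < v ∧ dst G v (mate v) ≤ d) with hJd
    have h2 := hρ (Fin n) G s a hsa mate hg.1 (Dp G mate) (Dp_closed hg.1)
      (by
        intro v
        unfold Dp
        simp)
      (by
        intro v x e1 e2 e3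
        unfold Dp at e3
        rw [mem_filter] at e3
        by_contra hc
        exact e3 ⟨mem_univ _, e1, e2, Or.inl hc⟩)
      J (fun v hv => by rw [hJd, mem_filter] at hv; exact hv.2.1)
      (fun v hv => by
        rw [hJd, mem_filter] at hv
        exact (Dp_card hg.1 v).trans (Nat.mul_le_mul_left _ hv.2.2))
      j w S hS
    rw [Fintype.card_fin] at h2
    refine h2.trans ?_
    rw [mul_pow, mul_assoc]
    apply mul_le_mul_of_nonneg_left _ (by norm_num)
    apply mul_le_mul_of_nonneg_left _ (by positivity)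
    have e1 : δ / 2 * n ≤ (J.card : ℝ) := by
      have : (M.card : ℝ) ≤ 2 * J.card := by exact_mod_cast hJ
      linarith
    calc ρ ^ J.card = ρ ^ (J.card : ℝ) := (Real.rpow_natCast _ _).symm
      _ ≤ ρ ^ (δ / 2 * n) := Real.rpow_le_rpow_of_exponent_ge h0 h1.le e1
      _ = (ρ ^ (δ / 2)) ^ n := by rw [Real.rpow_mul h0.le, Real.rpow_natCast]

end Run7.h747
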