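import Pool.Agent.Run7.h747.Pack
import Pool.Agent.Run7.h747.Greedy

/-!
Graphs of linear neighbourhood complexity have linearly many disjoint near-twin pairs.
-/

set_option autoImplicit false

namespace Run7.h747

open Finset

theorem dim_bound {c t : ℕ} (h : 2 ^ t ≤ c * (t + 1)) : t ≤ 2 * c + 2 := by
  by_contra hc
  have h1 : 2 * c + 3 ≤ t := by omega
  obtain ⟨m, rfl⟩ : ∃ m, t = c + (m + 1) := ⟨t - c - 1, by omega⟩
  have h2 : c < 2 ^ c := Nat.lt_two_pow_self
  have h3 : m < 2 ^ m := Nat.lt_two_pow_self
  have h4 : c + (m + 1) + 1 ≤ 2 * m := by omega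
  have h5 : c * (c + (m + 1) + 1) ≤ 2 ^ c * (2 * m) := Nat.mul_le_mul h2.le h4
  have h6 : 2 ^ c * (2 * m) < 2 ^ c * (2 * 2 ^ m) :=
    Nat.mul_lt_mul_of_pos_left (by omega) (by positivity)
  have h7 : 2 ^ (c + (m + 1)) = 2 ^ c * (2 * 2 ^ m) := by rw [pow_add, pow_succ]; ring
  omega

open Classical in
theorem pairs_of_traces (c : ℕ) : ∃ d : ℕ, ∀ (n : ℕ), 3 ≤ n → ∀ (G : SimpleGraph (Fin n)),
    (∀ A : Finset (Fin n), (univ.image (fun v => A.filter (fun x => G.Adj v x))).card ≤
      c * (A.card + 1)) →
    ∃ M, Pairs G d M ∧ n ≤ 4 * M.card := by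
  refine ⟨32 * c * (2 * c + 2) + 16 * c, ?_⟩
  intro n hn G hG
  set k := 32 * c * (2 * c + 2) + 16 * c with hk
  have hc : 1 ≤ c := by
    by_contra h
    have h0 : c = 0 := by omega
    have := hG ∅
    rw [h0, Nat.zero_mul] at this
    have h2 : (univ.image (fun v : Fin n => (∅ : Finset (Fin n)).filter
        (fun x => G.Adj v x))).card = 0 := by omega
    rw [card_eq_zero, image_eq_empty] at h2
    have : (⟨0, by omega⟩ : Fin n) ∈ (univ : Finset (Fin n)) := mem_univ _
    rw [h2] at this
    exact absurd this (notMem_empty _)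
  obtain ⟨M, hM, hmax⟩ := exists_max_image (univ.filter (fun M => Pairs G k M))
    (fun M => M.card) ⟨∅, by
      rw [mem_filter]
      refine ⟨mem_univ _, ?_, ?_⟩
      · intro p hp; exact absurd hp (notMem_empty _)
      · intro p hp; exact absurd hp (notMem_empty _)⟩
  rw [mem_filter] at hM
  have hMP := hM.2
  refine ⟨M, hMP, ?_⟩
  set U := univ.filter (fun v : Fin n => ∀ p ∈ M, v ≠ p.1 ∧ v ≠ p.2) with hU
  have hcov : n ≤ U.card + 2 * M.card := by
    have h1 : (univ : Finset (Fin n)) ⊆ U ∪ (M.image Prod.fst ∪ M.image Prod.snd) := by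
      intro v _
      rw [mem_union]
      by_cases h : v ∈ U
      · exact Or.inl h
      · right
        rw [hU, mem_filter] at h
        push Not at h
        obtain ⟨p, hp, h2⟩ := h (mem_univ _)
        rw [mem_union, mem_image, mem_image]
        by_cases e : v = p.1
        · exact Or.inl ⟨p, hp, e.symm⟩
        · exact Or.inr ⟨p, hp, (h2 e).symm⟩
    have h2 := card_le_card h1
    rw [card_univ, Fintype.card_fin] at h2
    have h3 := card_union_le U (M.image Prod.fst ∪ M.image Prod.snd)
    have h4 := card_union_le (M.image Prod.fst) (M.image Prod.snd)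
    have h5 : (M.image Prod.fst).card ≤ M.card := card_image_le
    have h6 : (M.image Prod.snd).card ≤ M.card := card_image_le
    omega
  set N : Fin n → Finset (Fin n) := fun v => univ.filter (fun x => G.Adj v x) with hN
  have hfar : ∀ u ∈ U, ∀ v ∈ U, u ≠ v → k + 1 ≤ (N u \ N v).card + (N v \ N u).card := by
    intro u hu v hv huv
    rw [hU, mem_filter] at hu hv
    have h1 : k < dst G u v := by
      by_contra hle
      have hle' : dst G u v ≤ k := by omega
      have hnot : (u, v) ∉ M := fun h => (hu.2 _ h).1 rfl
      have h2 : Pairs G k (insert (u, v) M) := by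
        refine ⟨?_, ?_⟩
        · intro p hp
          rw [mem_insert] at hp
          rcases hp with rfl | hp
          · exact ⟨huv, hle'⟩
          · exact hMP.1 p hp
        · intro p hp q hq hpq
          rw [mem_insert] at hp hq
          rcases hp with rfl | hp
          · rcases hq with rfl | hq
            · exact absurd rfl hpq
            · exact ⟨(hu.2 q hq).1, (hu.2 q hq).2, (hv.2 q hq).1, (hv.2 q hq).2⟩
          · rcases hq with rfl | hq
            · exact ⟨(hu.2 p hp).1.symm, (hv.2 p hp).1.symm, (hu.2 p hp).2.symm,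
                (hv.2 p hp).2.symm⟩
            · exact hMP.2 p hp q hq hpq
      have h3 := hmax _ (mem_filter.2 ⟨mem_univ _, h2⟩)
      simp only [card_insert_of_notMem hnot] at h3
      omega
    have h2 : dst G u v ≤ ((N u \ N v) ∪ (N v \ N u)).card := by
      unfold dst
      apply card_le_card
      intro x hx
      rw [mem_filter] at hx
      obtain ⟨_, _, _, h3⟩ := hx
      rw [mem_union, mem_sdiff, mem_sdiff]
      simp only [hN, mem_filter, mem_univ, true_and]
      tauto
    have h3 := card_union_le (N u \ N v) (N v \ N u)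
    omega
  have htr : ∀ A : Finset (Fin n), (trs N U A).card ≤ c * (A.card + 1) := by
    intro A
    refine le_trans (card_le_card ?_) (hG A)
    intro S hS
    obtain ⟨u, _, rfl⟩ := mem_image.1 hS
    refine mem_image.2 ⟨u, mem_univ _, ?_⟩
    ext x
    simp only [hN, mem_filter, mem_inter, mem_univ, true_and]
    tauto
  by_cases hU2 : 2 * U.card ≤ n
  · omega
  · by_cases hU1 : U.card ≤ 1
    · omega
    · exfalso
      by_cases hn8 : n < 8 * c
      · obtain ⟨u, hu, v, hv, huv⟩ := one_lt_card.1 (show 1 < U.card by omega)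
        have h1 := hfar u hu v hv huv
        have h2 : (N u \ N v).card ≤ n := by
          refine (card_le_univ _).trans ?_
          rw [Fintype.card_fin]
        have h3 : (N v \ N u).card ≤ n := by
          refine (card_le_univ _).trans ?_
          rw [Fintype.card_fin]
        omega
      · set q := U.card / (2 * c) with hq
        have hUn : U.card ≤ n := by
          refine (card_le_univ _).trans ?_
          rw [Fintype.card_fin]
        have h2c : 0 < 2 * c := by omega
        have hq1 : 1 ≤ q := (Nat.le_div_iff_mul_le h2c).2 (by omega)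
        have hq2 : q * (2 * c) ≤ U.card := Nat.div_mul_le_self _ _
        have hq3 : U.card < (q + 1) * (2 * c) := by
          rw [mul_comm]
          exact Nat.lt_mul_div_succ _ h2c
        have hqU : q ≤ U.card := Nat.div_le_self _ _
        have hp := packing (s := q - 1) hc hfar htr (fun B hB => dim_bound hB)
          (by rw [Fintype.card_fin]; omega)
          (by rw [Nat.sub_add_cancel hq1]; rw [mul_comm]; exact hq2)
        rw [Nat.sub_add_cancel hq1, Fintype.card_fin] at hp
        have h5 : n < 8 * c * q := by
          have e1 : (q + 1) * (2 * c) ≤ (2 * q) * (2 * c) := Nat.mul_le_mul_right _ (by omega)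
          have e2 : 8 * c * q = 2 * ((2 * q) * (2 * c)) := by ring
          omega
        have h6 : 4 * (2 * c + 2) * n < 4 * (2 * c + 2) * (8 * c * q) :=
          Nat.mul_lt_mul_of_pos_left h5 (by omega)
        have h7 : 4 * (2 * c + 2) * (8 * c * q) = (32 * c * (2 * c + 2)) * q := by ring
        have h8 : (32 * c * (2 * c + 2)) * q ≤ (k + 1) * q := Nat.mul_le_mul_right _ (by omega)
        omega

end Run7.h747
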