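import Pool.Agent.Run7.h747.Enc

/-!
One level of the dynamic programme in memory, and adding a number to an entry.
-/

set_option autoImplicit false

namespace Run7.h747

open Finset Pool.Agent.H588R2 Pool.Agent.TH687.HL Pool.Agent.TH687.DCS

variable {n : ℕ}

/-- Registers that never change. -/
structure Rg (n Big Md : ℕ) (s : St) : Prop where
  r0 : s.reg 0 = n
  r2 : s.reg 2 = Big
  r3 : s.reg 3 = Md

theorem Rg.of {n Big Md : ℕ} {s s' : St} (h : Rg n Big Md s) (h0 : s'.reg 0 = s.reg 0)
    (h2 : s'.reg 2 = s.reg 2) (h3 : s'.reg 3 = s.reg 3) : Rg n Big Md s' :=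
  ⟨h0.trans h.r0, h2.trans h.r2, h3.trans h.r3⟩

/-- The level stored in the blocks `P`, …, `P + 3`. -/
structure Lev (Big Md P : ℕ) (F : Finset (Fin n) × Fin n → ZMod Md)
    (L : List (Finset (Fin n) × Fin n)) (s : St) : Prop where
  nd : L.Nodup
  lX : ∀ (i : ℕ) (h : i < L.length), bl Big s (P + 2) i = enc (L[i]).1
  lW : ∀ (i : ℕ) (h : i < L.length), bl Big s (P + 3) i = (L[i]).2
  flg : ∀ p : Finset (Fin n) × Fin n, bl Big s (P + 1) (ix p) = if p ∈ L then 1 else 0
  vlt : ∀ p : Finset (Fin n) × Fin n, bl Big s P (ix p) < Md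
  val : ∀ p : Finset (Fin n) × Fin n, ((bl Big s P (ix p) : ℕ) : ZMod Md) = F p
  out : ∀ p : Finset (Fin n) × Fin n, p ∉ L → bl Big s P (ix p) = 0

theorem nodup_len {L : List (Finset (Fin n) × Fin n)} (h : L.Nodup) : L.length ≤ 2 ^ n * n := by
  have := h.length_le_card
  rw [Fintype.card_prod, Fintype.card_finset, Fintype.card_fin] at this
  exact this

theorem nodup_len_lt {L : List (Finset (Fin n) × Fin n)} (h : L.Nodup)
    {p : Finset (Fin n) × Fin n} (hp : p ∉ L) : L.length < 2 ^ n * n := by
  have : (p :: L).Nodup := List.nodup_cons.2 ⟨hp, h⟩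
  have := nodup_len this
  rw [List.length_cons] at this
  omega

theorem Lev.keep {w Big Md Qm P : ℕ} {F : Finset (Fin n) × Fin n → ZMod Md}
    {L : List (Finset (Fin n) × Fin n)} {s s' : St} (hp : Par n w Big Md Qm)
    (h : Lev Big Md P F L s) {R : ℕ → Prop} (hk : Keep Big R s s')
    (hR : ∀ q, P ≤ q → q < P + 4 → ¬ R q) : Lev Big Md P F L s' := by
  have hl := nodup_len h.nd
  have hb := hp.nb
  have h0 : ∀ p : Finset (Fin n) × Fin n, ix p < Big := fun p => (ix_lt p).trans_le hb
  refine ⟨h.nd, ?_, ?_, ?_, ?_, ?_, ?_⟩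
  · intro i hi
    rw [hk.bl (show i < Big by omega) (hR (P + 2) (by omega) (by omega)), h.lX i hi]
  · intro i hi
    rw [hk.bl (show i < Big by omega) (hR (P + 3) (by omega) (by omega)), h.lW i hi]
  · intro p
    rw [hk.bl (h0 p) (hR (P + 1) (by omega) (by omega)), h.flg p]
  · intro p
    rw [hk.bl (h0 p) (hR P (by omega) (by omega))]
    exact h.vlt p
  · intro p
    rw [hk.bl (h0 p) (hR P (by omega) (by omega))]
    exact h.val p
  · intro p hpL
    rw [hk.bl (h0 p) (hR P (by omega) (by omega))]
    exact h.out p hpL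

theorem Lev.congr {Big Md P : ℕ} {F F' : Finset (Fin n) × Fin n → ZMod Md}
    {L : List (Finset (Fin n) × Fin n)} {s : St} (h : Lev Big Md P F L s)
    (hF : ∀ p, F p = F' p) : Lev Big Md P F' L s :=
  ⟨h.nd, h.lX, h.lW, h.flg, h.vlt, fun p => (h.val p).trans (hF p), h.out⟩

/-- Add register `21` to the entry (register `20`, register `22`) of the level in the blocks
starting at register `27`; register `24` holds the length of the list. -/
def addE : HC :=
  .seq (.asg 23 (.add (.mul (.r 20) (.r 0)) (.r 22)))
  (.seq (.asg 25 (.add (rd (.r 27) (.r 23)) (.r 21)))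
  (.seq (.ite (.r 25) (.r 3) (.sto (cell (.r 27) (.r 23)) (.r 25))
      (.sto (cell (.r 27) (.r 23)) (.sub (.r 25) (.r 3))))
   (.ite (rd (.add (.r 27) (.c 1)) (.r 23)) (.c 1)
     (.seq (.sto (cell (.add (.r 27) (.c 1)) (.r 23)) (.c 1))
     (.seq (.sto (cell (.add (.r 27) (.c 2)) (.r 24)) (.r 20))
     (.seq (.sto (cell (.add (.r 27) (.c 3)) (.r 24)) (.r 22))
       (.asg 24 (.add (.r 24) (.c 1))))))
     .skip)))

/-- Reduced sum. -/
def am (Md a b : ℕ) : ℕ := if a + b < Md then a + b else a + b - Md

theorem am_lt {Md a b : ℕ} (ha : a < Md) (hb : b < Md) : am Md a b < Md := by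
  unfold am; split_ifs <;> omega

theorem am_cast {Md a b : ℕ} : ((am Md a b : ℕ) : ZMod Md) = a + b := by
  unfold am
  split_ifs with h
  · push_cast; rfl
  · rw [Nat.cast_sub (by omega)]
    push_cast
    rw [ZMod.natCast_self, sub_zero]

/-- Update of the list. -/
def addL (L : List (Finset (Fin n) × Fin n)) (p : Finset (Fin n) × Fin n) :
    List (Finset (Fin n) × Fin n) := if p ∈ L then L else L ++ [p]

theorem addL_len (L : List (Finset (Fin n) × Fin n)) (p : Finset (Fin n) × Fin n) :
    (addL L p).length ≤ L.length + 1 := by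
  unfold addL
  split_ifs
  · omega
  · simp

theorem mem_addL {L : List (Finset (Fin n) × Fin n)} {p q : Finset (Fin n) × Fin n} :
    q ∈ addL L p ↔ q ∈ L ∨ q = p := by
  unfold addL
  split_ifs with h
  · constructor
    · exact Or.inl
    · rintro (h1 | rfl)
      · exact h1
      · exact h
  · simp

/-- The memory after adding. -/
theorem lev_add {w Big Md Qm P : ℕ} {F : Finset (Fin n) × Fin n → ZMod Md}
    {L : List (Finset (Fin n) × Fin n)} {s s1 : St} (hp : Par n w Big Md Qm)
    (h : Lev Big Md P F L s) (p : Finset (Fin n) × Fin n) (c : ℕ) (hc : c < Md)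
    (hs1 : s1.mem = (put s (P * Big + ix p) (am Md (bl Big s P (ix p)) c)).mem) {s2 : St}
    (hs2 : if p ∈ L then s2.mem = s1.mem else
      s2.mem = (put (put (put s1 ((P + 1) * Big + ix p) 1) ((P + 2) * Big + L.length) (enc p.1))
        ((P + 3) * Big + L.length) p.2).mem) :
    Lev Big Md P (fun q => F q + if q = p then (c : ZMod Md) else 0) (addL L p) s2 ∧
      Keep Big (fun q => P ≤ q ∧ q < P + 4) s s2 := by
  have hb := hp.nb
  have h0 : ∀ p : Finset (Fin n) × Fin n, ix p < Big := fun p => (ix_lt p).trans_le hb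
  have b1 : ∀ q X, X < Big → bl Big s1 q X =
      if q = P ∧ X = ix p then am Md (bl Big s P (ix p)) c else bl Big s q X := by
    intro q X hX
    have : bl Big s1 q X = bl Big (put s (P * Big + ix p) (am Md (bl Big s P (ix p)) c)) q X :=
      congrFun hs1 _
    rw [this, bl_put (h0 p) hX]
  have k1 : Keep Big (fun q => P ≤ q ∧ q < P + 4) s s1 := by
    have := keep_put (s := s) (v := am Md (bl Big s P (ix p)) c)
      (P := fun q => P ≤ q ∧ q < P + 4) (q := P) (h0 p) ⟨le_rfl, by omega⟩
    intro a ha
    rw [hs1]; exact this a ha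
  by_cases hpL : p ∈ L
  · rw [if_pos hpL] at hs2
    have b2 : ∀ q X, bl Big s2 q X = bl Big s1 q X := by
      intro q X; exact congrFun hs2 _
    have hL : addL L p = L := by unfold addL; rw [if_pos hpL]
    refine ⟨?_, ?_⟩
    · rw [hL]
      have hl := nodup_len h.nd
      refine ⟨h.nd, ?_, ?_, ?_, ?_, ?_, ?_⟩
      · intro i hi
        rw [b2, b1 _ _ (by omega), if_neg (by omega), h.lX i hi]
      · intro i hi
        rw [b2, b1 _ _ (by omega), if_neg (by omega), h.lW i hi]
      · intro q
        rw [b2, b1 _ _ (h0 q), if_neg (by omega), h.flg q]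
      · intro q
        rw [b2, b1 _ _ (h0 q)]
        split_ifs
        · exact am_lt (h.vlt p) hc
        · exact h.vlt q
      · intro q
        rw [b2, b1 _ _ (h0 q)]
        by_cases e : q = p
        · subst e
          rw [if_pos ⟨rfl, rfl⟩, if_pos rfl, am_cast, h.val]
        · rw [if_neg (fun h' => e (ix_inj h'.2)), if_neg e, add_zero, h.val]
      · intro q hq
        rw [b2, b1 _ _ (h0 q), if_neg, h.out q hq]
        rintro ⟨_, h'⟩
        exact hq (ix_inj h' ▸ hpL)
    · exact k1.trans (Keep.of_mem hs2)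
  · rw [if_neg hpL] at hs2
    have hl := nodup_len_lt h.nd hpL
    have hlB : L.length < Big := by omega
    have b2 : ∀ q X, X < Big → bl Big s2 q X =
        if q = P + 3 ∧ X = L.length then (p.2 : ℕ) else
        if q = P + 2 ∧ X = L.length then enc p.1 else
        if q = P + 1 ∧ X = ix p then 1 else bl Big s1 q X := by
      intro q X hX
      have : bl Big s2 q X = bl Big (put (put (put s1 ((P + 1) * Big + ix p) 1)
        ((P + 2) * Big + L.length) (enc p.1)) ((P + 3) * Big + L.length) p.2) q X :=
        congrFun hs2 _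
      rw [this, bl_put hlB hX, bl_put hlB hX, bl_put (h0 p) hX]
    have hL : addL L p = L ++ [p] := by unfold addL; rw [if_neg hpL]
    refine ⟨?_, ?_⟩
    · refine ⟨?_, ?_, ?_, ?_, ?_, ?_, ?_⟩
      · rw [hL, List.nodup_append]
        refine ⟨h.nd, List.nodup_singleton _, ?_⟩
        intro q hq q' hq' e
        rw [List.mem_singleton] at hq'
        subst hq'
        rw [e] at hq
        exact hpL hq
      · intro i hi
        simp only [hL] at hi ⊢
        rw [List.length_append, List.length_singleton] at hi
        by_cases e : i = L.length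
        · subst e
          rw [b2 _ _ hlB, if_neg (by omega), if_pos ⟨rfl, rfl⟩]
          simp
        · rw [b2 _ _ (by omega), if_neg (by omega), if_neg (by omega), if_neg (by omega),
            b1 _ _ (by omega), if_neg (by omega), h.lX i (by omega),
            List.getElem_append_left (by omega)]
      · intro i hi
        simp only [hL] at hi ⊢
        rw [List.length_append, List.length_singleton] at hi
        by_cases e : i = L.length
        · subst e
          rw [b2 _ _ hlB, if_pos ⟨rfl, rfl⟩]
          simp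
        · rw [b2 _ _ (by omega), if_neg (by omega), if_neg (by omega), if_neg (by omega),
            b1 _ _ (by omega), if_neg (by omega), h.lW i (by omega),
            List.getElem_append_left (by omega)]
      · intro q
        rw [b2 _ _ (h0 q), if_neg (by omega), if_neg (by omega)]
        by_cases e : q = p
        · subst e
          rw [if_pos ⟨rfl, rfl⟩, if_pos (mem_addL.2 (Or.inr rfl))]
        · rw [if_neg (fun h' => e (ix_inj h'.2)), b1 _ _ (h0 q), if_neg (by omega), h.flg q]
          simp only [mem_addL, e, or_false]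
      · intro q
        rw [b2 _ _ (h0 q), if_neg (by omega), if_neg (by omega), if_neg (by omega),
          b1 _ _ (h0 q)]
        split_ifs
        · exact am_lt (h.vlt p) hc
        · exact h.vlt q
      · intro q
        rw [b2 _ _ (h0 q), if_neg (by omega), if_neg (by omega), if_neg (by omega),
          b1 _ _ (h0 q)]
        by_cases e : q = p
        · subst e
          rw [if_pos ⟨rfl, rfl⟩, if_pos rfl, am_cast, h.val]
        · rw [if_neg (fun h' => e (ix_inj h'.2)), if_neg e, add_zero, h.val]
      · intro q hq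
        rw [mem_addL, not_or] at hq
        rw [b2 _ _ (h0 q), if_neg (by omega), if_neg (by omega), if_neg (by omega),
          b1 _ _ (h0 q), if_neg (fun h' => hq.2 (ix_inj h'.2)), h.out q hq.1]
    · refine k1.trans ?_
      have k2 := keep_put (s := s1) (v := 1)
        (P := fun q => P ≤ q ∧ q < P + 4) (q := P + 1) (h0 p) ⟨by omega, by omega⟩
      have k3 := keep_put (s := put s1 ((P + 1) * Big + ix p) 1) (v := enc p.1)
        (P := fun q => P ≤ q ∧ q < P + 4) (q := P + 2) hlB ⟨by omega, by omega⟩
      have k4 := keep_put (s := put (put s1 ((P + 1) * Big + ix p) 1)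
        ((P + 2) * Big + L.length) (enc p.1)) (v := (p.2 : ℕ))
        (P := fun q => P ≤ q ∧ q < P + 4) (q := P + 3) hlB ⟨by omega, by omega⟩
      intro a ha
      rw [hs2]
      exact ((k2.trans k3).trans k4) a ha

end Run7.h747
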