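import Pool.Agent.Run7.h747.Params

/-!
Counting all cycles of a graph: the loop over all lengths.
-/

set_option autoImplicit false

namespace Run7.h747

open Finset Pool.Agent.H588R2 Pool.Agent.TH687.HL Pool.Agent.TH687.DCS

variable {n : ℕ}

/-- `tr_allPairs` with an arbitrary first free block and an arbitrary value of the sum. -/
theorem tr_allPairs2 {w Big Md Qm P LB J : ℕ} {G : SimpleGraph (Fin n)} {mate : Fin n → Fin n}
    {s : St}
    (hp : Par n w Big Md Qm) (hE : Env G mate Big Md s) (hm : ∀ v, mate (mate v) = v)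
    (hP4 : 4 ≤ P) (hPQ : P + 4 * n * (n * n) + 4 < Qm) (hF : Fresh Big P s)
    (hGB : ∀ sv av, sv < av → ∀ (j : ℕ) (w : Fin n) (S : Finset (Finset (Fin n))),
      (∀ X ∈ S, Cc G sv av mate j w X ≠ 0) → 2 * n * (n * S.card) ≤ LB)
    (hLB1 : 1 ≤ LB) (hJ : J + 1 < n) (r1 : s.reg 1 = J) (r5 : s.reg 5 < Md)
    (r27 : s.reg 27 = P) :
    Tr w allPairs s (2020 * (n * n * n * n * LB)) (fun s' => ∃ P', P ≤ P' ∧
      P' ≤ P + 4 * n * (n * n) ∧ Fresh Big P' s' ∧
      s'.reg 27 = P' ∧ Keep Big (fun q => 3 ≤ q) s s' ∧ s'.reg 5 < Md ∧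
      ((s'.reg 5 : ℕ) : ZMod Md) = (s.reg 5 : ℕ) +
        ((∑ sv : Fin n, ∑ av : Fin n, cnt G J sv av : ℕ) : ℕ)) := by
  have h8 := hp.bw
  have hnB := hp.n1b
  have hn3 := hp.n3
  have hbp := hp.bpos
  have hmp := hp.mpos
  have hn1 : n < 2 ^ w := by omega
  have hT : n * (2010 * (n * n * n * LB) + 4) + 3 ≤ 2020 * (n * n * n * n * LB) := by
    have e1 : n * (2010 * (n * n * n * LB) + 4) = 2010 * (n * n * n * n * LB) + 4 * n := by ring
    have e2 : n ≤ n * n * n * n * LB := by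
      calc n = n * 1 * 1 * 1 * 1 := by ring
        _ ≤ n * n * n * n * LB := by
          apply Nat.mul_le_mul (Nat.mul_le_mul (Nat.mul_le_mul
            (Nat.mul_le_mul le_rfl _) _) _) hLB1 <;> omega
    omega
  refine Tr.loop (fun i s' => ∃ P', P ≤ P' ∧ P' ≤ P + 4 * n * (n * i) ∧ Fresh Big P' s' ∧
      s'.reg 27 = P' ∧ Keep Big (fun q => 3 ≤ q) s s' ∧ s'.reg 5 < Md ∧
      ((s'.reg 5 : ℕ) : ZMod Md) = (s.reg 5 : ℕ) +
        ((∑ sv ∈ univ.filter (fun v : Fin n => (v : ℕ) < i), ∑ av : Fin n,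
          cnt G J sv av : ℕ) : ℕ))
    (2010 * (n * n * n * LB)) hE.rg.r0 hn1 (by omega) hT ?_ ?_ ?_
  · refine ⟨P, le_rfl, by omega, hF, ?_, Keep.of_mem rfl, ?_, ?_⟩
    · rw [St.set_reg_ne _ _ (by decide), r27]
    · rw [St.set_reg_ne _ _ (by decide)]; exact r5
    · rw [St.set_reg_ne _ _ (by decide)]; simp
  · rintro i hi s' ⟨P', hPP, hPi, hF', g27, hk, h5, v5⟩ h6 hfr
    have hE2 : Env G mate Big Md s' := hE.keep hp hk (fun q hq h => by omega)
      (hfr 0 (by decide) (by decide)) (hfr 2 (by decide) (by decide))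
      (hfr 3 (by decide) (by decide))
    have hPb : P' + 4 * n * n ≤ P + 4 * n * (n * n) := by
      have e1 : 4 * n * (n * (i + 1)) ≤ 4 * n * (n * n) :=
        Nat.mul_le_mul_left _ (Nat.mul_le_mul_left _ hi)
      have e2 : 4 * n * (n * (i + 1)) = 4 * n * (n * i) + 4 * n * n := by ring
      omega
    refine (tr_row (LB := LB) (J := J) hp hE2 hm ⟨i, hi⟩ (by omega) (by omega) hF' (hGB ⟨i, hi⟩)
      hLB1 hJ
      (by rw [hfr 1 (by decide) (by decide), r1]) h5 g27 h6).mono le_rfl ?_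
    rintro s2 ⟨P2, k1, k2, k3, k4, k5, k6, k7⟩
    refine ⟨P2, by omega, ?_, k3, ?_, hk.trans k5, ?_, ?_⟩
    · have e2 : 4 * n * (n * (i + 1)) = 4 * n * (n * i) + 4 * n * n := by ring
      omega
    · rw [St.set_reg_ne _ _ (by decide), k4]
    · rw [St.set_reg_ne _ _ (by decide)]; exact k6
    · rw [St.set_reg_ne _ _ (by decide), k7, v5, filt_succ hi, sum_insert (filt_not hi)]
      push_cast
      ring
  · rintro s' ⟨P', hPP, hPi, hF', g27, hk, h5, v5⟩ _ _
    refine ⟨P', hPP, hPi, hF', g27, hk, h5, ?_⟩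
    rw [v5, filter_true_of_mem (fun (v : Fin n) _ => v.2)]

/-- One length. -/
def lenStep : HC := .seq (.asg 1 (.add (.r 29) (.c 1))) allPairs

/-- The whole program for all lengths. -/
def mainAll : HC := .seq ini1 (.seq (.asg 2 (.mul (.r 4) (.add (.r 0) (.c 1)))) (.seq ini2
  (.seq ini3 (.seq (.asg 28 (.sub (.r 0) (.c 2))) (.seq (.asg 5 (.c 0)) (.seq (.asg 27 (.c 4))
  (.seq mates (.seq (.loop 29 28 lenStep) (.asg 0 (.r 5))))))))))

theorem mainAll_wf : mainAll.wf = true := by decide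

/-- The number of cycles, by lengths. -/
noncomputable def lenSum (G : SimpleGraph (Fin n)) (i : ℕ) : ℕ :=
  ∑ J ∈ range i, ∑ sv : Fin n, ∑ av : Fin n, cnt G (J + 1) sv av

open Classical in
theorem tr_mainAll {w Big Md Qm LB : ℕ} {G : SimpleGraph (Fin n)} {s : St}
    (hp : Par n w Big Md Qm) (hQ : 4 * n * (n * n) * n + 16 ≤ Qm) (h0 : s.reg 0 = n)
    (hadj : ∀ u v : Fin n, s.mem (u * n + v) = if G.Adj u v then 1 else 0)
    (hz : ∀ a, n * n ≤ a → s.mem a = 0) (hcnt : lenSum G (n - 2) < Md)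
    (hGB : ∀ mate, Greedy G mate → ∀ sv av, sv < av → ∀ (j : ℕ) (w : Fin n)
      (S : Finset (Finset (Fin n))),
      (∀ X ∈ S, Cc G sv av mate j w X ≠ 0) → 2 * n * (n * S.card) ≤ LB)
    (hLB1 : 1 ≤ LB) :
    Tr w mainAll s (2500 * (n * n * n * n * n * LB)) (fun s' =>
      s'.reg 0 = lenSum G (n - 2)) := by
  have h8 := hp.bw
  have hmw := hp.mw
  have hmp := hp.mpos
  have hpb := hp.pb
  have hnB := hp.n1b
  have hn3 := hp.n3
  have hnn := hp.nn
  have hbp := hp.bpos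
  have hq8 := hp.qpos
  have hn1 : n < 2 ^ w := by omega
  have hbig := hp.big
  have hmd := hp.md
  have oc : ∀ (s : St) (k : ℕ), k < 8 → (Ex.c k).ok w s := by
    intro s k hk; simp only [Ex.ok]; omega
  have hn4 : 27 * n ≤ n * n * n * n := by
    have e1 : 9 ≤ n * n := Nat.mul_le_mul hn3 hn3
    have e2 : 27 ≤ n * n * n := Nat.mul_le_mul e1 hn3
    exact Nat.mul_le_mul_right _ e2
  have hT1 : n * n * n * n ≤ n * n * n * n * LB := Nat.le_mul_of_pos_right _ (by omega)
  have hT2 : 3 * (n * n * n * n * LB) ≤ n * (n * n * n * n * LB) := Nat.mul_le_mul_right _ hn3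
  have hT3 : n * (n * n * n * n * LB) = n * n * n * n * n * LB := by ring
  have hTl : (n - 2) * ((2020 * (n * n * n * n * LB) + 10) + 4) + 3 ≤
      2040 * (n * (n * n * n * n * LB)) := by
    have e1 : (n - 2) * ((2020 * (n * n * n * n * LB) + 10) + 4) ≤
        n * ((2020 * (n * n * n * n * LB) + 10) + 4) := Nat.mul_le_mul_right _ (by omega)
    have e2 : n * ((2020 * (n * n * n * n * LB) + 10) + 4) =
        2020 * (n * (n * n * n * n * LB)) + 14 * n := by ring
    omega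
  have hTot : (20 * n + 10) + 20 + (20 * n + 10) + (60 * n + 10) + 20 + 300 * (n * n * n * n) +
      2040 * (n * (n * n * n * n * LB)) + 30 ≤ 2500 * (n * n * n * n * n * LB) := by omega
  unfold mainAll
  apply tr_seqf _ (tr_ini1 h0 (by omega) hn1 (by omega)) (by omega)
  rintro s1 ⟨m1, a4⟩ f1
  have b0 : s1.reg 0 = n := by rw [f1 0 (by decide), h0]
  apply tr_asgs Big (by simp only [Ex.ok, Ex.ev, a4, b0]; omega)
    (by simp only [Ex.ev, a4, b0, hbig]) (by simp only [Ex.cost]; omega)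
  intro s2 m2 e2 f2
  have c0 : s2.reg 0 = n := by rw [f2 0 (by decide), b0]
  apply tr_seqf _ (tr_ini2 c0 (by omega) (by omega) (by omega)) (by simp only [Ex.cost]; omega)
  rintro s3 ⟨m3, a3⟩ f3
  have hr3 : Rg n Big Md s3 := ⟨by rw [f3 0 (by decide), c0], by rw [f3 2 (by decide), e2],
    by rw [a3, hmd]⟩
  have hm3 : s3.mem = s.mem := by rw [m3, m2, m1]
  have hb0 : ∀ X, bl Big s3 0 X = s.mem X := by
    intro X; unfold bl; rw [hm3, Nat.zero_mul, Nat.zero_add]
  apply tr_seqf _ (tr_ini3 (G := G) hp hr3 (fun u v => by rw [hb0, hadj]))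
    (by simp only [Ex.cost]; omega)
  rintro s4 ⟨hE4, k4⟩ f4
  have hF3 : Fresh Big 1 s3 := by
    intro a ha
    rw [hm3]
    exact hz a (by omega)
  have hF4 : Fresh Big 4 s4 := hF3.keep hbp (by omega) k4 (fun q h1 h2 => by omega)
  have g0 : s4.reg 0 = n := by rw [f4 0 (by decide), f3 0 (by decide), c0]
  apply tr_asgs (n - 2) (by simp only [Ex.ok, g0]; omega) (by simp only [Ex.ev, g0])
    (by simp only [Ex.cost]; omega)
  intro s5 m5 e5 f5
  apply tr_asgs 0 (oc _ _ (by omega)) rfl (by simp only [Ex.cost]; omega)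
  intro s6 m6 e6 f6
  apply tr_asgs 4 (oc _ _ (by omega)) rfl (by simp only [Ex.cost]; omega)
  intro s7 m7 e7 f7
  have hm7 : s7.mem = s4.mem := by rw [m7, m6, m5]
  have hE7 : Env G (fun v => v) Big Md s7 := hE4.keep hp (Keep.of_mem (P := fun _ => False) hm7)
    (fun _ _ h => h) (by rw [f7 0 (by decide), f6 0 (by decide), f5 0 (by decide)])
    (by rw [f7 2 (by decide), f6 2 (by decide), f5 2 (by decide)])
    (by rw [f7 3 (by decide), f6 3 (by decide), f5 3 (by decide)])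
  have hF7 : Fresh Big 4 s7 := fun a ha => by rw [hm7]; exact hF4 a ha
  apply tr_seqf _ (tr_mates hp hE7) (by simp only [Ex.cost]; omega)
  rintro s8 ⟨k8, mt, hE8, hg⟩ f8
  have hF8 : Fresh Big 4 s8 := hF7.keep hbp (by omega) k8 (fun q h1 h2 => by omega)
  have r28 : s8.reg 28 = n - 2 := by
    rw [f8 28 (by decide), f7 28 (by decide), f6 28 (by decide), e5]
  have r5 : s8.reg 5 = 0 := by rw [f8 5 (by decide), f7 5 (by decide), e6]
  have r27 : s8.reg 27 = 4 := by rw [f8 27 (by decide), e7]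
  have hloop : Tr w (.loop 29 28 lenStep) s8 (2040 * (n * (n * n * n * n * LB)))
      (fun s' => s'.reg 5 < Md ∧ ((s'.reg 5 : ℕ) : ZMod Md) = (lenSum G (n - 2) : ℕ)) := by
    refine Tr.loop (fun i s' => ∃ P', 4 ≤ P' ∧ P' ≤ 4 + 4 * n * (n * n) * i ∧ Fresh Big P' s' ∧
        s'.reg 27 = P' ∧ Keep Big (fun q => 3 ≤ q) s8 s' ∧ s'.reg 5 < Md ∧
        ((s'.reg 5 : ℕ) : ZMod Md) = (lenSum G i : ℕ))
      (2020 * (n * n * n * n * LB) + 10) r28 (by omega) (by omega) hTl ?_ ?_ ?_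
    · refine ⟨4, le_rfl, by omega, hF8, ?_, Keep.of_mem rfl, ?_, ?_⟩
      · rw [St.set_reg_ne _ _ (by decide), r27]
      · rw [St.set_reg_ne _ _ (by decide), r5]; omega
      · rw [St.set_reg_ne _ _ (by decide), r5]; simp [lenSum]
    · rintro i hi s' ⟨P', hPP, hPi, hF', g27, hk, h5, v5⟩ h29 hfr
      have hE2 : Env G mt Big Md s' := hE8.keep hp hk (fun q hq h => by omega)
        (hfr 0 (by decide) (by decide)) (hfr 2 (by decide) (by decide))
        (hfr 3 (by decide) (by decide))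
      have hPb : P' + 4 * n * (n * n) ≤ 4 + 4 * n * (n * n) * (i + 1) := by
        have e1 : 4 * n * (n * n) * (i + 1) = 4 * n * (n * n) * i + 4 * n * (n * n) := by ring
        omega
      have hPc : 4 * n * (n * n) * (i + 1) ≤ 4 * n * (n * n) * n :=
        Nat.mul_le_mul_left _ (by omega)
      unfold lenStep
      apply tr_asgs (i + 1) (by simp only [Ex.ok, Ex.ev, h29]; omega)
        (by simp only [Ex.ev, h29]) (by simp only [Ex.cost]; omega)
      intro t1 q1 q2 q3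
      have hE3 : Env G mt Big Md t1 := hE2.keep hp (Keep.of_mem (P := fun _ => False) q1)
        (fun _ _ h => h) (q3 0 (by decide)) (q3 2 (by decide)) (q3 3 (by decide))
      have hF3' : Fresh Big P' t1 := fun a ha => by rw [q1]; exact hF' a ha
      refine (tr_allPairs2 (LB := LB) (J := i + 1) hp hE3 hg.1 hPP (by omega) hF3' (hGB mt hg)
        hLB1 (by omega) q2 (by rw [q3 5 (by decide)]; exact h5)
        (by rw [q3 27 (by decide), g27])).mono (by simp only [Ex.cost]; omega) ?_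
      rintro s2 ⟨P2, k1, k2, k3, k4, k5, k6, k7⟩
      refine ⟨P2, by omega, by omega, k3, ?_, hk.trans ((Keep.of_mem q1).trans k5), ?_, ?_⟩
      · rw [St.set_reg_ne _ _ (by decide), k4]
      · rw [St.set_reg_ne _ _ (by decide)]; exact k6
      · rw [St.set_reg_ne _ _ (by decide), k7, q3 5 (by decide), v5]
        unfold lenSum
        rw [sum_range_succ]
        push_cast
        ring
    · rintro s' ⟨P', hPP, hPi, hF', g27, hk, h5, v5⟩ _ _
      exact ⟨h5, v5⟩
  apply tr_seqf _ hloop (by simp only [Ex.cost]; omega)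
  rintro s9 ⟨h5, v5⟩ f9
  apply tr_asg (s9.reg 5) (by simp only [Ex.ok]; omega) rfl (by simp only [Ex.cost]; omega)
  intro s10 m10 e10 f10
  rw [e10]
  rw [ZMod.natCast_eq_natCast_iff'] at v5
  rw [Nat.mod_eq_of_lt h5, Nat.mod_eq_of_lt hcnt] at v5
  exact v5

end Run7.h747
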