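import Pool.Agent.Run7.h747.All

/-!
Counting all cycles: parameters, the bound for the number of cycles, and the running time.
-/

set_option autoImplicit false

namespace Run7.h747

open Finset Pool.Agent.H588R2 Pool.Agent.TH687.HL Pool.Agent.TH687.DCS

theorem par_of2 {n : ℕ} (hn : 3 ≤ n) :
    Par n (8 * ((n + 1) * (Nat.log 2 (n + 1) + 1))) (2 ^ n * (n + 1)) ((n + 1) ^ n)
      (4 * n * (n * n) * n + 16) := by
  set L := Nat.log 2 (n + 1) + 1 with hL
  have h1 : n + 1 < 2 ^ L := Nat.lt_pow_succ_log_self (by norm_num) _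
  have hL2 : 2 ≤ L := by
    by_contra h
    have : L ≤ 1 := by omega
    have : 2 ^ L ≤ 2 ^ 1 := Nat.pow_le_pow_right (by norm_num) this
    omega
  have hw : 8 * ((n + 1) * L) = 8 * (n * L) + 8 * L := by ring
  have hnL : n ≤ n * L := Nat.le_mul_of_pos_right _ (by omega)
  refine ⟨hn, rfl, rfl, (par_of hn).mw, ?_,
    Nat.add_le_add_right (Nat.le_mul_of_pos_right _ (by omega)) 16⟩
  have h3 : 4 * n * (n * n) * n + 16 ≤ 2 ^ (3 + 4 * L) := by
    have e1 : 27 * 1 ≤ n * n * n * n := by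
      have : 9 ≤ n * n := Nat.mul_le_mul hn hn
      exact Nat.mul_le_mul (Nat.mul_le_mul this hn) (by omega)
    have e2 : n * n * n * n ≤ 2 ^ L * 2 ^ L * 2 ^ L * 2 ^ L :=
      Nat.mul_le_mul (Nat.mul_le_mul (Nat.mul_le_mul (by omega) (by omega)) (by omega)) (by omega)
    calc 4 * n * (n * n) * n + 16 = 4 * (n * n * n * n) + 16 := by ring
      _ ≤ 8 * (n * n * n * n) := by omega
      _ ≤ 8 * (2 ^ L * 2 ^ L * 2 ^ L * 2 ^ L) := Nat.mul_le_mul_left _ e2
      _ = 2 ^ (3 + 4 * L) := by ring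
  calc (4 * n * (n * n) * n + 16) * (2 ^ n * (n + 1)) ≤ 2 ^ (3 + 4 * L) * (2 ^ n * 2 ^ L) :=
        Nat.mul_le_mul h3 (Nat.mul_le_mul_left _ h1.le)
    _ = 2 ^ (3 + 4 * L + (n + L)) := by rw [pow_add 2 (3 + 4 * L), pow_add 2 n]
    _ ≤ 2 ^ (8 * ((n + 1) * L)) := Nat.pow_le_pow_right (by norm_num) (by omega)

open Classical in
theorem lenSum_eq {n : ℕ} (G : SimpleGraph (Fin n)) (i : ℕ) :
    lenSum G i = ∑ J ∈ range i, G.copyCount (SimpleGraph.cycleGraph (J + 3)) := by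
  unfold lenSum
  refine sum_congr rfl fun J _ => ?_
  rw [copyCount_walks (m := J) G]
  rfl

open Classical in
theorem lenSum_icc {n : ℕ} (hn : 3 ≤ n) (G : SimpleGraph (Fin n)) :
    lenSum G (n - 2) = ∑ l ∈ Icc 3 n, G.copyCount (SimpleGraph.cycleGraph l) := by
  rw [lenSum_eq]
  refine sum_bij (fun J _ => J + 3) ?_ ?_ ?_ ?_
  · intro J hJ
    rw [mem_range] at hJ
    rw [mem_Icc]
    omega
  · intro a _ b _ h
    omega
  · intro l hl
    rw [mem_Icc] at hl
    exact ⟨l - 3, mem_range.2 (by omega), by omega⟩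
  · intro J _
    rfl

open Classical in
theorem lenSum_lt {n : ℕ} (hn : 3 ≤ n) (G : SimpleGraph (Fin n)) :
    lenSum G (n - 2) < (n + 1) ^ n := by
  rw [lenSum_eq]
  have h1 : ∑ J ∈ range (n - 2), G.copyCount (SimpleGraph.cycleGraph (J + 3)) ≤
      ∑ J ∈ range (n - 2), n ^ (3 + J) := by
    refine sum_le_sum fun J _ => ?_
    rw [copyCount_eq, add_comm 3 J]
    refine (card_le_univ _).trans ?_
    rw [Fintype.card_fun, Fintype.card_fin, Fintype.card_fin]
  have h2 : ∑ j ∈ range (3 + (n - 2)), n ^ j =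
      ∑ j ∈ range 3, n ^ j + ∑ J ∈ range (n - 2), n ^ (3 + J) := sum_range_add _ _ _
  have h3 : ∑ j ∈ range (n + 1), n ^ j ≤ (n + 1) ^ n := by
    rw [add_pow]
    refine sum_le_sum fun j hj => ?_
    rw [mem_range] at hj
    rw [one_pow, mul_one]
    exact Nat.le_mul_of_pos_right _ (Nat.choose_pos (by omega))
  have h4 : 3 + (n - 2) = n + 1 := by omega
  rw [h4] at h2
  have h5 : 0 < ∑ j ∈ range 3, n ^ j := by
    rw [sum_range_succ, sum_range_succ, sum_range_one]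
    simp
  omega

open Classical in
/-- The running time, given a bound for the number of coefficients. -/
theorem halts_all {n GB : ℕ} (G : SimpleGraph (Fin n)) (hn : 3 ≤ n)
    (c : Config) (hpc : c.pc = 0) (h0 : c.st.reg 0 = n)
    (hadj : ∀ u v : Fin n, c.st.mem (u * n + v) = if G.Adj u v then 1 else 0)
    (hz : ∀ a, n * n ≤ a → c.st.mem a = 0)
    (hGB : ∀ mate, Greedy G mate → ∀ sv av, sv < av → ∀ (j : ℕ) (w : Fin n)
      (S : Finset (Finset (Fin n))),
      (∀ X ∈ S, Cc G sv av mate j w X ≠ 0) → S.card ≤ GB)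
    (hG1 : 1 ≤ GB) (T : ℝ) (hT : 5000 * (n : ℝ) ^ 7 * GB ≤ T) :
    HaltsWithin (8 * ((n + 1) * (Nat.log 2 (n + 1) + 1))) (mainAll.comp.compile 0) c T
      (∑ l ∈ Icc 3 n, G.copyCount (SimpleGraph.cycleGraph l)) := by
  have hp := par_of2 (n := n) hn
  have hLB1 : 1 ≤ 2 * n * (n * GB) := by
    have : 1 * 1 * (1 * 1) ≤ 2 * n * (n * GB) :=
      Nat.mul_le_mul (Nat.mul_le_mul (by omega) (by omega)) (Nat.mul_le_mul (by omega) hG1)
    omega
  have ht := tr_mainAll (LB := 2 * n * (n * GB)) hp le_rfl h0 hadj hz (lenSum_lt hn G)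
    (fun mate hg sv av hsa j w S hS => Nat.mul_le_mul_left _ (Nat.mul_le_mul_left _
      (hGB mate hg sv av hsa j w S hS))) hLB1
  have hc : c = ⟨0, c.st⟩ := by rw [← hpc]
  rw [hc, ← lenSum_icc hn]
  refine Tr.halts mainAll_wf ht (fun s' h => h) _ ?_
  refine le_trans (le_of_eq ?_) hT
  push_cast
  ring

end Run7.h747
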