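import Mathlib

/-!
The disjointness matrix of `q`-subsets of a set with at least `2 q` elements is nonsingular.
-/

set_option autoImplicit false

namespace Run7.h747

open Finset

variable {ι F : Type*} [DecidableEq ι] [Field F] [CharZero F]

/-- The sum of `f` over the `q`-subsets of `A` disjoint from `U`. -/
noncomputable def dsum (A : Finset ι) (q : ℕ) (f : Finset ι → F) (U : Finset ι) : F :=
  ∑ T ∈ (powersetCard q A).filter (fun T => Disjoint T U), f T

theorem dsum_zero {A : Finset ι} {q : ℕ} (hq : 2 * q ≤ A.card) {f : Finset ι → F}
    (h : ∀ U ∈ powersetCard q A, dsum A q f U = 0) :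
    ∀ k : ℕ, k ≤ q → ∀ U, U ⊆ A → U.card = q - k → dsum A q f U = 0 := by
  intro k
  induction k with
  | zero =>
    intro _ U hU hc
    apply h
    rw [mem_powersetCard]
    exact ⟨hU, by omega⟩
  | succ k ih =>
    intro hk U hU hc
    have h1 : ∑ v ∈ A \ U, dsum A q f (insert v U) = 0 := by
      apply sum_eq_zero
      intro v hv
      rw [mem_sdiff] at hv
      apply ih (by omega)
      · exact insert_subset hv.1 hU
      · rw [card_insert_of_notMem hv.2]; omega
    have h2 : ∑ v ∈ A \ U, dsum A q f (insert v U) =
        ((A.card - U.card - q : ℕ) : F) * dsum A q f U := by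
      unfold dsum
      simp_rw [sum_filter]
      rw [mul_sum, sum_comm]
      apply sum_congr rfl
      intro T hT
      rw [mem_powersetCard] at hT
      by_cases hd : Disjoint T U
      · rw [if_pos hd]
        have e1 : ∀ v ∈ A \ U, (if Disjoint T (insert v U) then f T else 0) =
            (if v ∈ T then 0 else f T) := by
          intro v _
          by_cases hvT : v ∈ T
          · rw [if_pos hvT, if_neg]
            rw [disjoint_insert_right]
            exact fun h => h.1 hvT
          · rw [if_neg hvT, if_pos]
            rw [disjoint_insert_right]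
            exact ⟨hvT, hd⟩
        rw [sum_congr rfl e1, sum_ite, sum_const_zero, zero_add, sum_const, nsmul_eq_mul]
        congr 2
        have e2 : (A \ U).filter (fun v => ¬ v ∈ T) = A \ (U ∪ T) := by
          ext v
          simp only [mem_filter, mem_sdiff, mem_union]
          tauto
        rw [e2, card_sdiff_of_subset (union_subset hU hT.1),
          card_union_of_disjoint hd.symm, hT.2]
        omega
      · rw [if_neg hd, mul_zero]
        apply sum_eq_zero
        intro v _
        rw [if_neg]
        rw [disjoint_insert_right]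
        tauto
    rw [h2] at h1
    rcases mul_eq_zero.1 h1 with h3 | h3
    · exfalso
      have h4 : A.card - U.card - q = 0 := by exact_mod_cast h3
      omega
    · exact h3

/-- The disjointness matrix is nonsingular. -/
theorem disj_nonsing {A : Finset ι} {q : ℕ} (hq : 2 * q ≤ A.card) {f : Finset ι → F}
    (h : ∀ U ∈ powersetCard q A, dsum A q f U = 0) :
    ∀ T ∈ powersetCard q A, f T = 0 := by
  intro T0 hT0
  rw [mem_powersetCard] at hT0
  have h0 : ∀ U ∈ T0.powerset, dsum A q f U = 0 := by
    intro U hU
    rw [mem_powerset] at hU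
    have hc : U.card ≤ q := hT0.2 ▸ card_le_card hU
    exact dsum_zero hq h (q - U.card) (by omega) U (hU.trans hT0.1) (by omega)
  have h1 : ∑ U ∈ T0.powerset, (-1 : F) ^ U.card * dsum A q f U = f T0 := by
    unfold dsum
    simp_rw [sum_filter, mul_sum]
    rw [sum_comm]
    have e1 : ∀ T ∈ powersetCard q A,
        (∑ U ∈ T0.powerset, (-1 : F) ^ U.card * (if Disjoint T U then f T else 0)) =
          if T = T0 then f T else 0 := by
      intro T hT
      rw [mem_powersetCard] at hT
      have e2 : ∀ U ∈ T0.powerset, (-1 : F) ^ U.card * (if Disjoint T U then f T else 0) =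
          if Disjoint T U then (-1 : F) ^ U.card * f T else 0 := by
        intro U _
        split_ifs <;> simp
      rw [sum_congr rfl e2, ← sum_filter, ← sum_mul]
      have e3 : T0.powerset.filter (fun U => Disjoint T U) = (T0 \ T).powerset := by
        ext U
        simp only [mem_filter, mem_powerset, subset_sdiff]
        rw [disjoint_comm]
      rw [e3]
      have e4 : (∑ U ∈ (T0 \ T).powerset, (-1 : F) ^ U.card) =
          if T0 \ T = ∅ then 1 else 0 := by
        have := sum_powerset_neg_one_pow_card (x := T0 \ T)
        have h5 : ((∑ U ∈ (T0 \ T).powerset, (-1 : ℤ) ^ U.card : ℤ) : F) =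
            ((if T0 \ T = ∅ then 1 else 0 : ℤ) : F) := by rw [this]
        push_cast at h5
        exact h5
      rw [e4]
      by_cases e : T = T0
      · subst e; simp
      · rw [if_neg e, if_neg, zero_mul]
        intro e5
        apply e
        rw [sdiff_eq_empty_iff_subset] at e5
        exact (eq_of_subset_of_card_le e5 (by omega)).symm
    rw [sum_congr rfl e1, sum_ite_eq' (powersetCard q A) T0 (fun T => f T)]
    rw [if_pos (mem_powersetCard.2 hT0)]
  rw [← h1]
  apply sum_eq_zero
  intro U hU
  rw [h0 U hU, mul_zero]

/-- Two-dimensional version. -/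
theorem disj_nonsing2 {A : Finset ι} {q : ℕ} (hq : 2 * q ≤ A.card)
    {f : Finset ι → Finset ι → F}
    (h : ∀ U ∈ powersetCard q A, ∀ W ∈ powersetCard q A,
      ∑ S ∈ powersetCard q A, ∑ T ∈ powersetCard q A,
        (if Disjoint S U ∧ Disjoint T W then f S T else 0) = 0) :
    ∀ S ∈ powersetCard q A, ∀ T ∈ powersetCard q A, f S T = 0 := by
  have h1 : ∀ W ∈ powersetCard q A, ∀ S ∈ powersetCard q A, dsum A q (fun T => f S T) W = 0 := by
    intro W hW
    apply disj_nonsing hq
    intro U hU
    unfold dsum
    rw [sum_filter]
    refine Eq.trans ?_ (h U hU W hW)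
    apply sum_congr rfl
    intro S _
    rw [sum_filter]
    by_cases hS : Disjoint S U
    · rw [if_pos hS]
      apply sum_congr rfl
      intro T _
      by_cases hT : Disjoint T W
      · rw [if_pos hT, if_pos ⟨hS, hT⟩]
      · rw [if_neg hT, if_neg (fun h => hT h.2)]
    · rw [if_neg hS]
      symm
      apply sum_eq_zero
      intro T _
      rw [if_neg (fun h => hS h.1)]
  intro S hS
  apply disj_nonsing hq
  intro W hW
  exact h1 W hW S hS

end Run7.h747
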