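import Mathlib

/-!
Cycles of a given length as subgraphs, and canonical cyclic sequences.
-/

set_option autoImplicit false

namespace Run7.h747

open Finset

variable {V : Type*} [Fintype V] [LinearOrder V] {m : ℕ}

/-- A cyclic sequence of `m + 3` distinct vertices, consecutive ones adjacent. -/
def IsCyc (G : SimpleGraph V) (f : Fin (m + 3) → V) : Prop :=
  Function.Injective f ∧ ∀ i, G.Adj (f i) (f (i + 1))

/-- The sequence starts at its least vertex and its last vertex is less than its second one. -/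
def Can (G : SimpleGraph V) (f : Fin (m + 3) → V) : Prop :=
  IsCyc G f ∧ (∀ i, i ≠ 0 → f 0 < f i) ∧ f (-1) < f 1

theorem cyc_adj {G : SimpleGraph V} {f : Fin (m + 3) → V} (h : IsCyc G f) {i j : Fin (m + 3)}
    (hij : (SimpleGraph.cycleGraph (m + 3)).Adj i j) : G.Adj (f i) (f j) := by
  rw [SimpleGraph.cycleGraph_adj] at hij
  rcases hij with h1 | h1
  · have : i = j + 1 := by rw [← h1]; abel
    rw [this]; exact (h.2 j).symm
  · have : j = i + 1 := by rw [← h1]; abel
    rw [this]; exact h.2 i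

/-- The copy given by a cyclic sequence. -/
def toCopy {G : SimpleGraph V} {f : Fin (m + 3) → V} (h : IsCyc G f) :
    SimpleGraph.Copy (SimpleGraph.cycleGraph (m + 3)) G :=
  ⟨⟨f, fun hij => cyc_adj h hij⟩, h.1⟩

theorem copy_isCyc {G : SimpleGraph V}
    (c : SimpleGraph.Copy (SimpleGraph.cycleGraph (m + 3)) G) :
    IsCyc G (fun i => c i) := by
  refine ⟨c.injective, ?_⟩
  intro i
  apply c.toHom.map_rel
  rw [SimpleGraph.cycleGraph_adj]
  right; abel

theorem sub_verts {G : SimpleGraph V} (c : SimpleGraph.Copy (SimpleGraph.cycleGraph (m + 3)) G)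
    (x : V) : x ∈ c.toSubgraph.verts ↔ ∃ i, c i = x := by
  simp [SimpleGraph.Copy.toSubgraph]

theorem sub_adj {G : SimpleGraph V} (c : SimpleGraph.Copy (SimpleGraph.cycleGraph (m + 3)) G)
    (x y : V) : c.toSubgraph.Adj x y ↔
      ∃ i, (c i = x ∧ c (i + 1) = y) ∨ (c i = y ∧ c (i + 1) = x) := by
  simp only [SimpleGraph.Copy.toSubgraph, SimpleGraph.Subgraph.map_adj, Relation.Map,
    SimpleGraph.Subgraph.top_adj, SimpleGraph.cycleGraph_adj]
  constructor
  · rintro ⟨i, j, h, h1, h2⟩
    rcases h with h | h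
    · refine ⟨j, Or.inr ⟨h2, ?_⟩⟩
      have : j + 1 = i := by rw [← h]; abel
      rw [this]; exact h1
    · refine ⟨i, Or.inl ⟨h1, ?_⟩⟩
      have : i + 1 = j := by rw [← h]; abel
      rw [this]; exact h2
  · rintro ⟨i, ⟨h1, h2⟩ | ⟨h1, h2⟩⟩
    · exact ⟨i, i + 1, Or.inr (by abel), h1, h2⟩
    · exact ⟨i + 1, i, Or.inl (by abel), h2, h1⟩

theorem two_ne : (1 : Fin (m + 3)) + 1 ≠ 0 := by
  intro h
  have := congrArg Fin.val h
  have h1 : ((1 : Fin (m + 3)) : ℕ) = 1 := Fin.val_one (m + 1)
  rw [Fin.val_add, h1, Nat.mod_eq_of_lt (by omega)] at this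
  simp at this

/-- The neighbours of a vertex in the subgraph. -/
theorem sub_nbr {G : SimpleGraph V} (c : SimpleGraph.Copy (SimpleGraph.cycleGraph (m + 3)) G)
    (i : Fin (m + 3)) (y : V) : c.toSubgraph.Adj (c i) y ↔ (y = c (i + 1) ∨ y = c (i - 1)) := by
  rw [sub_adj]
  constructor
  · rintro ⟨j, ⟨h1, h2⟩ | ⟨h1, h2⟩⟩
    · have : j = i := c.injective h1
      subst this
      exact Or.inl h2.symm
    · have : j + 1 = i := c.injective h2
      right
      rw [← h1]
      congr 1
      rw [← this]; abel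
  · rintro (rfl | rfl)
    · exact ⟨i, Or.inl ⟨rfl, rfl⟩⟩
    · exact ⟨i - 1, Or.inr ⟨rfl, by congr 1; abel⟩⟩

theorem can_unique {G : SimpleGraph V} {f g : Fin (m + 3) → V} (hf : Can G f) (hg : Can G g)
    (h : (toCopy hf.1).toSubgraph = (toCopy hg.1).toSubgraph) : f = g := by
  have hfv : ∀ i, toCopy hf.1 i = f i := fun _ => rfl
  have hgv : ∀ i, toCopy hg.1 i = g i := fun _ => rfl
  have hfinj := hf.1.1
  have hginj := hg.1.1
  -- same first vertex
  have h0 : f 0 = g 0 := by
    apply le_antisymm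
    · have : g 0 ∈ (toCopy hf.1).toSubgraph.verts := by
        rw [h, sub_verts]; exact ⟨0, rfl⟩
      rw [sub_verts] at this
      obtain ⟨i, hi⟩ := this
      rw [hfv] at hi
      by_cases e : i = 0
      · rw [← hi, e]
      · rw [← hi]; exact (hf.2.1 i e).le
    · have : f 0 ∈ (toCopy hg.1).toSubgraph.verts := by
        rw [← h, sub_verts]; exact ⟨0, rfl⟩
      rw [sub_verts] at this
      obtain ⟨i, hi⟩ := this
      rw [hgv] at hi
      by_cases e : i = 0
      · rw [← hi, e]
      · rw [← hi]; exact (hg.2.1 i e).le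
  have nb : ∀ i j, f i = g j → ∀ y, (y = f (i + 1) ∨ y = f (i - 1)) ↔
      (y = g (j + 1) ∨ y = g (j - 1)) := by
    intro i j hij y
    have h1 : (toCopy hf.1).toSubgraph.Adj (f i) y ↔ (y = f (i + 1) ∨ y = f (i - 1)) :=
      sub_nbr (toCopy hf.1) i y
    have h2 : (toCopy hg.1).toSubgraph.Adj (g j) y ↔ (y = g (j + 1) ∨ y = g (j - 1)) :=
      sub_nbr (toCopy hg.1) j y
    rw [← h1, ← h2, h, hij]
  have hneg : (0 : Fin (m + 3)) - 1 = -1 := by abel
  have hz : (0 : Fin (m + 3)) + 1 = 1 := by abel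
  have h1 : f 1 = g 1 ∧ f (-1) = g (-1) := by
    have a1 := nb 0 0 h0
    rw [hneg, hz] at a1
    have b1 := (a1 (f 1)).1 (Or.inl rfl)
    have b2 := (a1 (f (-1))).1 (Or.inr rfl)
    have l1 := hf.2.2
    have l2 := hg.2.2
    rcases b1 with b1 | b1 <;> rcases b2 with b2 | b2
    · rw [b1, b2] at l1; exact absurd l1 (lt_irrefl _)
    · exact ⟨b1, b2⟩
    · rw [b1, b2] at l1; exact absurd l1 (lt_asymm l2)
    · rw [b1, b2] at l1; exact absurd l1 (lt_irrefl _)
  have key : ∀ k : Fin (m + 3), f k = g k ∧ f (k + 1) = g (k + 1) := by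
    intro k
    induction k using Fin.induction with
    | zero =>
      refine ⟨h0, ?_⟩
      rw [hz]; exact h1.1
    | succ k ih =>
      have e1 : k.succ = k.castSucc + 1 := Fin.coeSucc_eq_succ.symm
      rw [e1]
      refine ⟨ih.2, ?_⟩
      have a1 := nb _ _ ih.2 (f (k.castSucc + 1 + 1))
      have a2 := a1.1 (Or.inl rfl)
      rcases a2 with a2 | a2
      · exact a2
      · exfalso
        have e2 : k.castSucc + 1 - 1 = k.castSucc := by abel
        rw [e2, ← ih.1] at a2
        have := hfinj a2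
        apply two_ne (m := m)
        have e3 : k.castSucc + (1 + 1) = k.castSucc + 0 := by
          rw [← add_assoc, this, add_zero]
        exact add_left_cancel e3
  funext i
  exact (key i).1

theorem exists_can {G : SimpleGraph V} {f : Fin (m + 3) → V} (hf : IsCyc G f) :
    ∃ g : Fin (m + 3) → V, ∃ hg : Can G g, (toCopy hg.1).toSubgraph = (toCopy hf).toSubgraph := by
  obtain ⟨k, _, hk⟩ := exists_min_image (univ : Finset (Fin (m + 3))) f ⟨0, mem_univ _⟩
  -- rotation
  have hrot : IsCyc G (fun i => f (i + k)) := by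
    refine ⟨fun i j h => add_right_cancel (hf.1 h), ?_⟩
    intro i
    have := hf.2 (i + k)
    have e : i + k + 1 = i + 1 + k := by abel
    rw [e] at this
    exact this
  have hmin : ∀ i, i ≠ 0 → f (0 + k) < f (i + k) := by
    intro i hi
    rw [zero_add]
    refine lt_of_le_of_ne (hk _ (mem_univ _)) ?_
    intro e
    apply hi
    have := hf.1 e
    have e2 : 0 + k = i + k := by rw [zero_add]; exact this
    exact (add_right_cancel e2).symm
  have hsame : ∀ (g : Fin (m + 3) → V) (hg : IsCyc G g) (σ : Fin (m + 3) → Fin (m + 3))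
      (τ : Fin (m + 3) → Fin (m + 3)), (∀ i, g i = f (σ i)) → (∀ i, f i = g (τ i)) →
      (∀ i, σ (i + 1) = σ i + 1 ∨ σ (i + 1) + 1 = σ i) →
      (∀ i, τ (i + 1) = τ i + 1 ∨ τ (i + 1) + 1 = τ i) →
      (toCopy hg).toSubgraph = (toCopy hf).toSubgraph := by
    intro g hg σ τ h1 h2 h3 h4
    have gv : ∀ i, toCopy hg i = g i := fun _ => rfl
    have fv : ∀ i, toCopy hf i = f i := fun _ => rfl
    ext x y
    · rw [sub_verts, sub_verts]
      simp only [gv, fv]
      constructor
      · rintro ⟨i, rfl⟩; exact ⟨σ i, (h1 i).symm⟩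
      · rintro ⟨i, rfl⟩; exact ⟨τ i, (h2 i).symm⟩
    · rw [sub_adj, sub_adj]
      simp only [gv, fv]
      constructor
      · rintro ⟨i, h⟩
        rw [h1, h1] at h
        rcases h3 i with e | e
        · exact ⟨σ i, by rw [← e]; exact h⟩
        · exact ⟨σ (i + 1), by rw [e]; tauto⟩
      · rintro ⟨i, h⟩
        rw [h2, h2] at h
        rcases h4 i with e | e
        · exact ⟨τ i, by rw [← e]; exact h⟩
        · exact ⟨τ (i + 1), by rw [e]; tauto⟩
  by_cases hc : f (-1 + k) < f (1 + k)
  · refine ⟨fun i => f (i + k), ⟨hrot, hmin, hc⟩, ?_⟩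
    apply hsame _ hrot (fun i => i + k) (fun i => i - k)
    · intro i; rfl
    · intro i; show f i = f (i - k + k); congr 1; abel
    · intro i; left; show i + 1 + k = i + k + 1; abel
    · intro i; left; show i + 1 - k = i - k + 1; abel
  · have hne : f (-1 + k) ≠ f (1 + k) := by
      intro e
      have := add_right_cancel (hf.1 e)
      apply two_ne (m := m)
      nth_rewrite 1 [← this]
      exact neg_add_cancel 1
    have hlt : f (1 + k) < f (-1 + k) := lt_of_le_of_ne (not_lt.1 hc) (fun e => hne e.symm)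
    have href : IsCyc G (fun i => f (-i + k)) := by
      refine ⟨fun i j h => neg_injective (add_right_cancel (hf.1 h)), ?_⟩
      intro i
      have := hf.2 (-(i + 1) + k)
      have e : -(i + 1) + k + 1 = -i + k := by abel
      rw [e] at this
      exact this.symm
    refine ⟨fun i => f (-i + k), ⟨href, ?_, ?_⟩, ?_⟩
    · intro i hi
      simp only [neg_zero]
      apply hmin
      intro e
      exact hi (neg_eq_zero.1 e)
    · simp only [neg_neg]
      exact hlt
    · apply hsame _ href (fun i => -i + k) (fun i => -(i - k))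
      · intro i; rfl
      · intro i; show f i = f (-(-(i - k)) + k); congr 1; abel
      · intro i; right; show -(i + 1) + k + 1 = -i + k; abel
      · intro i; right; show -(i + 1 - k) + 1 = -(i - k); abel

open Classical in
theorem copyCount_eq (G : SimpleGraph V) :
    G.copyCount (SimpleGraph.cycleGraph (m + 3)) =
      (univ.filter (fun f : Fin (m + 3) → V => Can G f)).card := by
  rw [SimpleGraph.copyCount_eq_card_image_copyToSubgraph]
  symm
  refine card_bij (fun f hf => (toCopy (mem_filter.1 hf).2.1).toSubgraph) ?_ ?_ ?_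
  · intro f hf
    rw [mem_image]
    exact ⟨_, mem_univ _, rfl⟩
  · intro f hf g hg h
    exact can_unique (mem_filter.1 hf).2 (mem_filter.1 hg).2 h
  · intro H hH
    rw [mem_image] at hH
    obtain ⟨c, _, rfl⟩ := hH
    obtain ⟨g, hg, h⟩ := exists_can (copy_isCyc c)
    exact ⟨g, mem_filter.2 ⟨mem_univ _, hg⟩, h⟩

end Run7.h747
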