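import Mathlib
import Pool.Agent.Run7.h747.Cyc

/-!
From the closed walk sums of all graphs to the values of single trails.
-/

set_option autoImplicit false

namespace Run7.h747

open Finset

variable {V : Type*} [Fintype V] [LinearOrder V] {m : ℕ}

/-- The edges of a cyclic sequence. -/
def eds (w : Fin (m + 3) → V) : Finset (Sym2 V) := univ.image (fun i => s(w i, w (i + 1)))

/-- The product of the weights of the vertices and of the edges of a cyclic sequence. -/
noncomputable def wt {R : Type*} [CommRing R] (x : V → R) (y : Sym2 V → R)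
    (w : Fin (m + 3) → V) : R :=
  ∏ i, x (w i) * y s(w i, w (i + 1))

open Classical in
/-- The sum of the weights of the closed walks of length `m + 3` of `G`. -/
noncomputable def wsum {R : Type*} [CommRing R] (m : ℕ) (x : V → R) (y : Sym2 V → R)
    (G : SimpleGraph V) : R :=
  ∑ w ∈ univ.filter (fun w : Fin (m + 3) → V => ∀ i, G.Adj (w i) (w (i + 1))), wt x y w

omit [Fintype V] in
theorem mem_eds {w : Fin (m + 3) → V} {a b : V} : s(a, b) ∈ eds w ↔
    ∃ i, (w i = a ∧ w (i + 1) = b) ∨ (w i = b ∧ w (i + 1) = a) := by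
  unfold eds
  simp only [mem_image, mem_univ, true_and, Sym2.eq_iff]

theorem sub_eq_iff {G : SimpleGraph V} {f g : Fin (m + 3) → V} (hf : IsCyc G f)
    (hg : IsCyc G g) : (toCopy hf).toSubgraph = (toCopy hg).toSubgraph ↔ eds f = eds g := by
  have key : ∀ {h : Fin (m + 3) → V} (hh : IsCyc G h) (a b : V),
      (toCopy hh).toSubgraph.Adj a b ↔ s(a, b) ∈ eds h := by
    intro h hh a b
    rw [sub_adj, mem_eds]
    rfl
  constructor
  · intro h
    ext e
    induction e with
    | h a b => rw [← key hf, ← key hg, h]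
  · intro h
    ext a b
    · rw [sub_verts, sub_verts]
      have k2 : ∀ {h : Fin (m + 3) → V}, (∃ i, h i = a) ↔ ∃ b, s(a, b) ∈ eds h := by
        intro h
        constructor
        · rintro ⟨i, hi⟩
          exact ⟨h (i + 1), mem_eds.2 ⟨i, Or.inl ⟨hi, rfl⟩⟩⟩
        · rintro ⟨b, hb⟩
          obtain ⟨i, ⟨h1, _⟩ | ⟨_, h1⟩⟩ := mem_eds.1 hb
          · exact ⟨i, h1⟩
          · exact ⟨i + 1, h1⟩
      show (∃ i, f i = a) ↔ (∃ i, g i = a)
      rw [k2, k2, h]
    · rw [key hf, key hg, h]

omit [Fintype V] in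
theorem two_map (w : Fin (m + 3) → V) :
    2 • (univ.val.map w) = ∑ i, (s(w i, w (i + 1))).toMultiset := by
  have h1 : ∀ a b : V, (s(a, b)).toMultiset = ({a} : Multiset V) + {b} := by
    intro a b
    rfl
  simp_rw [h1]
  rw [sum_add_distrib, two_nsmul]
  have h2 : ∑ i, ({w i} : Multiset V) = univ.val.map w := by
    have := Multiset.sum_map_singleton (univ.val.map w)
    rw [Multiset.map_map] at this
    exact this
  have h3 : ∑ i, ({w (i + 1)} : Multiset V) = ∑ i, ({w i} : Multiset V) :=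
    Equiv.sum_comp (Equiv.addRight (1 : Fin (m + 3))) (fun i => ({w i} : Multiset V))
  rw [h3, h2]

/-- The edges of the sequence are different. -/
def Tr (w : Fin (m + 3) → V) : Prop := Function.Injective (fun i => s(w i, w (i + 1)))

omit [Fintype V] in
theorem tr_of {w u : Fin (m + 3) → V} (hw : Tr w) (h : eds u = eds w) : Tr u := by
  have h1 : (eds w).card = m + 3 := by
    unfold eds
    rw [card_image_of_injective _ hw, card_univ, Fintype.card_fin]
  rw [← h] at h1
  unfold eds at h1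
  have h2 := (card_image_iff (s := (univ : Finset (Fin (m + 3))))
    (f := fun i => s(u i, u (i + 1)))).1 (by rw [h1, card_univ, Fintype.card_fin])
  intro i j hij
  exact h2 (mem_coe.2 (mem_univ i)) (mem_coe.2 (mem_univ j)) hij

omit [Fintype V] in
theorem map_eq {w u : Fin (m + 3) → V} (hw : Tr w) (h : eds u = eds w) :
    univ.val.map u = univ.val.map w := by
  have hu := tr_of hw h
  have h1 : ∀ {t : Fin (m + 3) → V}, Tr t → 2 • (univ.val.map t) =
      ∑ e ∈ eds t, e.toMultiset := by
    intro t ht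
    rw [two_map]
    unfold eds
    rw [sum_image (fun i _ j _ hij => ht hij)]
  have h2 : 2 • (univ.val.map u) = 2 • (univ.val.map w) := by
    rw [h1 hu, h1 hw, h]
  ext a
  have h3 := congrArg (Multiset.count a) h2
  rw [Multiset.count_nsmul, Multiset.count_nsmul] at h3
  omega

omit [Fintype V] in
theorem wt_eq {R : Type*} [CommRing R] (x : V → R) (y : Sym2 V → R)
    {w u : Fin (m + 3) → V} (hw : Tr w) (h : eds u = eds w) : wt x y u = wt x y w := by
  have hu := tr_of hw h
  unfold wt
  rw [prod_mul_distrib, prod_mul_distrib]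
  have h1 : ∀ {t : Fin (m + 3) → V}, Tr t → ∏ i, y s(t i, t (i + 1)) = ∏ e ∈ eds t, y e := by
    intro t ht
    unfold eds
    rw [prod_image (fun i _ j _ hij => ht hij)]
  have h2 : ∀ t : Fin (m + 3) → V, ∏ i, x (t i) = ((univ.val.map t).map x).prod := by
    intro t
    rw [Multiset.map_map]
    rfl
  rw [h1 hu, h1 hw, h, h2, h2, map_eq hw h]

omit [Fintype V] in
theorem inj_of {w u : Fin (m + 3) → V} (hw : Tr w) (h : eds u = eds w)
    (hu : Function.Injective u) : Function.Injective w := by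
  have h1 : (univ.val.map u).Nodup := Multiset.Nodup.map hu univ.nodup
  rw [map_eq hw h] at h1
  intro i j hij
  exact (Multiset.nodup_map_iff_inj_on univ.nodup).1 h1 i (mem_univ i) j (mem_univ j) hij

theorem powerset_zero {α M : Type*} [DecidableEq α] [AddCommGroup M] {f : Finset α → M}
    {P : Finset α → Prop} (hP : ∀ S E, S ⊆ E → P E → P S)
    (h : ∀ E : Finset α, P E → ∑ S ∈ E.powerset, f S = 0) : ∀ E, P E → f E = 0 := by
  intro E
  induction E using Finset.strongInduction with
  | H E ih =>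
    intro hE
    rw [← h E hE]
    symm
    apply sum_eq_single_of_mem E (mem_powerset_self E)
    intro S hS hne
    exact ih S (lt_of_le_of_ne (mem_powerset.1 hS) hne) (hP S E (mem_powerset.1 hS) hE)

section

variable {R F : Type*} [CommRing R] [Field F] [CharZero F] [Algebra F R]

open Classical in
theorem mobius (φ : R →ₗ[F] F) (x : V → R) (y : Sym2 V → R)
    {P : Finset (Sym2 V) → Prop} (hP : ∀ S E, S ⊆ E → P E → P S)
    (H : ∀ E : Finset (Sym2 V), P E →
      φ (wsum m x y (SimpleGraph.fromEdgeSet (E : Set (Sym2 V)))) =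
      ((SimpleGraph.fromEdgeSet (E : Set (Sym2 V))).copyCount
        (SimpleGraph.cycleGraph (m + 3)) : F)) (E : Finset (Sym2 V)) (hE : P E) :
    ∑ w ∈ univ.filter (fun w : Fin (m + 3) → V => (∀ i, w i ≠ w (i + 1)) ∧ eds w = E),
      φ (wt x y w) =
    ((univ.filter (fun f : Fin (m + 3) → V => Can ⊤ f ∧ eds f = E)).card : F) := by
  rw [← sub_eq_zero]
  revert E
  apply powerset_zero hP
  intro E hE
  rw [sum_sub_distrib, sub_eq_zero]
  have hG := H E hE
  have hsub : ∀ w : Fin (m + 3) → V, eds w ⊆ E ↔ ∀ i, s(w i, w (i + 1)) ∈ E := by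
    intro w
    unfold eds
    rw [image_subset_iff]
    simp
  have h1 : (∑ S ∈ E.powerset,
      ∑ w ∈ univ.filter (fun w : Fin (m + 3) → V => (∀ i, w i ≠ w (i + 1)) ∧ eds w = S),
        φ (wt x y w)) = φ (wsum m x y (SimpleGraph.fromEdgeSet (E : Set (Sym2 V)))) := by
    unfold wsum
    rw [map_sum]
    refine Eq.trans ?_ (sum_congr (s₁ := univ.filter (fun w : Fin (m + 3) → V =>
      (∀ i, w i ≠ w (i + 1)) ∧ eds w ⊆ E)) ?_ (fun _ _ => rfl))
    swap
    · ext w
      simp only [mem_filter, mem_univ, true_and]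
      rw [hsub]
      simp only [SimpleGraph.fromEdgeSet_adj, mem_coe]
      constructor
      · intro h i; exact ⟨h.2 i, h.1 i⟩
      · intro h; exact ⟨fun i => (h i).2, fun i => (h i).1⟩
    rw [← sum_fiberwise_of_maps_to (s := univ.filter (fun w : Fin (m + 3) → V =>
      (∀ i, w i ≠ w (i + 1)) ∧ eds w ⊆ E)) (t := E.powerset) (g := eds)
      (fun w hw => mem_powerset.2 (mem_filter.1 hw).2.2)]
    apply sum_congr rfl
    intro S hS
    apply sum_congr _ (fun _ _ => rfl)
    rw [filter_filter]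
    apply filter_congr
    intro w _
    constructor
    · rintro ⟨h1, h2⟩
      exact ⟨⟨h1, h2 ▸ mem_powerset.1 hS⟩, h2⟩
    · rintro ⟨⟨h1, _⟩, h2⟩
      exact ⟨h1, h2⟩
  rw [h1, hG, copyCount_eq]
  have e2 : univ.filter (fun f : Fin (m + 3) → V =>
      Can (SimpleGraph.fromEdgeSet (E : Set (Sym2 V))) f) =
      univ.filter (fun f : Fin (m + 3) → V => Can ⊤ f ∧ eds f ⊆ E) := by
    apply filter_congr
    intro f _
    rw [hsub]
    unfold Can IsCyc
    simp only [SimpleGraph.fromEdgeSet_adj, mem_coe, SimpleGraph.top_adj]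
    constructor
    · rintro ⟨⟨h1, h2⟩, h3⟩
      exact ⟨⟨⟨h1, fun i => (h2 i).2⟩, h3⟩, fun i => (h2 i).1⟩
    · rintro ⟨⟨⟨h1, h2⟩, h3⟩, h4⟩
      exact ⟨⟨h1, fun i => ⟨h4 i, h2 i⟩⟩, h3⟩
  rw [e2]
  rw [card_eq_sum_card_fiberwise (s := univ.filter (fun f : Fin (m + 3) → V =>
    Can ⊤ f ∧ eds f ⊆ E)) (t := E.powerset) (f := eds)
    (fun w hw => mem_coe.2 (mem_powerset.2 (mem_filter.1 (mem_coe.1 hw)).2.2))]
  push_cast
  apply sum_congr rfl
  intro S hS
  congr 2
  rw [filter_filter]
  apply filter_congr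
  intro w _
  constructor
  · rintro ⟨⟨h1, _⟩, h2⟩
    exact ⟨h1, h2⟩
  · rintro ⟨h1, h2⟩
    exact ⟨⟨h1, h2 ▸ mem_powerset.1 hS⟩, h2⟩

end

end Run7.h747
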