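import Mathlib
import Pool.Agent.Run7.h747.BarB

/-!
The value of a trail is zero if a vertex is repeated, and the same nonzero number otherwise.
-/

set_option autoImplicit false

namespace Run7.h747

open Finset

variable {V : Type*} [Fintype V] [LinearOrder V] {m : ℕ}
  {R F : Type*} [CommRing R] [Field F] [CharZero F] [Algebra F R]

omit [Fintype V] [LinearOrder V] in
theorem nd_of_inj {w : Fin (m + 3) → V} (hw : Function.Injective w) (i : Fin (m + 3)) :
    w i ≠ w (i + 1) := by
  intro h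
  have h1 := hw h
  have h2 : i + 0 = i + 1 := by rw [add_zero]; exact h1
  have h3 := add_left_cancel h2
  have h4 := congrArg Fin.val h3
  rw [Fin.val_one (m + 1)] at h4
  simp at h4

omit [Fintype V] in
theorem tr_of_inj {w : Fin (m + 3) → V} (hw : Function.Injective w) : Tr w := by
  intro i j hij
  have h1 : s(w i, w (i + 1)) = s(w j, w (j + 1)) := hij
  rw [Sym2.eq_iff] at h1
  rcases h1 with h1 | h1
  · exact hw h1.1
  · exfalso
    have h2 := hw h1.1
    have h3 := hw h1.2
    rw [h2] at h3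
    apply two_ne (m := m)
    have h4 : j + (1 + 1) = j + 0 := by rw [← add_assoc, add_zero]; exact h3
    exact add_left_cancel h4

open Classical in
/-- The number of closed walks with the same set of edges. -/
noncomputable def nw (w0 : Fin (m + 3) → V) : ℕ :=
  (univ.filter (fun w : Fin (m + 3) → V => (∀ i, w i ≠ w (i + 1)) ∧ eds w = eds w0)).card

open Classical in
theorem value (φ : R →ₗ[F] F) (x : V → R) (y : Sym2 V → R)
    {P : Finset (Sym2 V) → Prop} (hP : ∀ S E, S ⊆ E → P E → P S)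
    (H : ∀ E : Finset (Sym2 V), P E →
      φ (wsum m x y (SimpleGraph.fromEdgeSet (E : Set (Sym2 V)))) =
      ((SimpleGraph.fromEdgeSet (E : Set (Sym2 V))).copyCount
        (SimpleGraph.cycleGraph (m + 3)) : F)) {w0 : Fin (m + 3) → V}
    (hw0 : Tr w0) (hE : P (eds w0)) : (nw w0 : F) * φ (wt x y w0) =
    ((univ.filter (fun f : Fin (m + 3) → V => Can ⊤ f ∧ eds f = eds w0)).card : F) := by
  rw [← mobius φ x y hP H (eds w0) hE]
  have h1 : ∀ w ∈ univ.filter (fun w : Fin (m + 3) → V => (∀ i, w i ≠ w (i + 1)) ∧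
      eds w = eds w0), φ (wt x y w) = φ (wt x y w0) := by
    intro w hw
    rw [wt_eq x y hw0 (mem_filter.1 hw).2.2]
  rw [sum_congr rfl h1, sum_const, nsmul_eq_mul]
  rfl

theorem nw_pos {w0 : Fin (m + 3) → V} (h : ∀ i, w0 i ≠ w0 (i + 1)) : (nw w0 : F) ≠ 0 := by
  classical
  have : 0 < nw w0 := by
    unfold nw
    rw [card_pos]
    exact ⟨w0, mem_filter.2 ⟨mem_univ _, h, rfl⟩⟩
  exact_mod_cast this.ne'

theorem trail_zero (φ : R →ₗ[F] F) (x : V → R) (y : Sym2 V → R)
    {P : Finset (Sym2 V) → Prop} (hP : ∀ S E, S ⊆ E → P E → P S)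
    (H : ∀ E : Finset (Sym2 V), P E →
      φ (wsum m x y (SimpleGraph.fromEdgeSet (E : Set (Sym2 V)))) =
      ((SimpleGraph.fromEdgeSet (E : Set (Sym2 V))).copyCount
        (SimpleGraph.cycleGraph (m + 3)) : F)) {w0 : Fin (m + 3) → V}
    (hw0 : Tr w0) (hE : P (eds w0)) (hnd : ∀ i, w0 i ≠ w0 (i + 1))
    (hni : ¬ Function.Injective w0) :
    φ (wt x y w0) = 0 := by
  classical
  have h1 := value φ x y hP H hw0 hE
  have h2 : (univ.filter (fun f : Fin (m + 3) → V => Can ⊤ f ∧ eds f = eds w0)) = ∅ := by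
    rw [filter_eq_empty_iff]
    rintro f _ ⟨h3, h4⟩
    exact hni (inj_of hw0 h4 h3.1.1)
  rw [h2, card_empty, Nat.cast_zero] at h1
  rcases mul_eq_zero.1 h1 with h3 | h3
  · exact absurd h3 (nw_pos hnd)
  · exact h3

theorem card_can {w0 : Fin (m + 3) → V} (hw0 : Function.Injective w0) [DecidablePred
    (fun f : Fin (m + 3) → V => Can ⊤ f ∧ eds f = eds w0)] :
    (univ.filter (fun f : Fin (m + 3) → V => Can ⊤ f ∧ eds f = eds w0)).card = 1 := by
  have hc : IsCyc (⊤ : SimpleGraph V) w0 :=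
    ⟨hw0, fun i => (SimpleGraph.top_adj _ _).2 (nd_of_inj hw0 i)⟩
  obtain ⟨g, hg, h⟩ := exists_can hc
  rw [sub_eq_iff] at h
  rw [card_eq_one]
  refine ⟨g, ?_⟩
  ext f
  rw [mem_filter, mem_singleton]
  constructor
  · rintro ⟨_, h1, h2⟩
    apply can_unique h1 hg
    rw [sub_eq_iff, h2, h]
  · rintro rfl
    exact ⟨mem_univ _, hg, h⟩

theorem nw_eq {w0 w1 : Fin (m + 3) → V} (h0 : Function.Injective w0)
    (h1 : Function.Injective w1) : nw w0 = nw w1 := by
  classical
  -- a permutation taking one to the other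
  obtain ⟨π, hπ⟩ : ∃ π : Equiv.Perm V, ∀ i, π (w0 i) = w1 i := by
    let e0 := Equiv.ofInjective w0 h0
    let e1 := Equiv.ofInjective w1 h1
    let e : {v // v ∈ Set.range w0} ≃ {v // v ∈ Set.range w1} := e0.symm.trans e1
    refine ⟨e.extendSubtype, ?_⟩
    intro i
    rw [Equiv.extendSubtype_apply_of_mem e (w0 i) ⟨i, rfl⟩]
    have : e ⟨w0 i, ⟨i, rfl⟩⟩ = e1 i := by
      show e1 (e0.symm (e0 i)) = e1 i
      rw [Equiv.symm_apply_apply]
    rw [this]
    rfl
  have himg : ∀ w : Fin (m + 3) → V, eds (fun i => π (w i)) = (eds w).image (Sym2.map π) := by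
    intro w
    unfold eds
    rw [image_image]
    rfl
  have hw1 : w1 = fun i => π (w0 i) := by
    funext i; rw [hπ]
  unfold nw
  apply card_bij (fun w _ => fun i => π (w i))
  · intro w hw
    rw [mem_filter] at hw ⊢
    refine ⟨mem_univ _, fun i h => hw.2.1 i (π.injective h), ?_⟩
    rw [himg, hw.2.2, hw1, himg]
  · intro w _ u _ h
    funext i
    exact π.injective (congrFun h i)
  · intro w hw
    rw [mem_filter] at hw
    refine ⟨fun i => π.symm (w i), ?_, ?_⟩
    · rw [mem_filter]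
      refine ⟨mem_univ _, fun i h => hw.2.1 i (π.symm.injective h), ?_⟩
      have h2 : (eds (fun i => π.symm (w i))).image (Sym2.map π) =
          (eds w0).image (Sym2.map π) := by
        rw [← himg, ← himg, ← hw1]
        simp only [Equiv.apply_symm_apply]
        exact hw.2.2
      exact image_injective (Sym2.map.injective π.injective) h2
    · funext i
      simp

theorem inj_const (φ : R →ₗ[F] F) (x : V → R) (y : Sym2 V → R)
    {P : Finset (Sym2 V) → Prop} (hP : ∀ S E, S ⊆ E → P E → P S)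
    (H : ∀ E : Finset (Sym2 V), P E →
      φ (wsum m x y (SimpleGraph.fromEdgeSet (E : Set (Sym2 V)))) =
      ((SimpleGraph.fromEdgeSet (E : Set (Sym2 V))).copyCount
        (SimpleGraph.cycleGraph (m + 3)) : F)) {w0 w1 : Fin (m + 3) → V}
    (h0 : Function.Injective w0) (h1 : Function.Injective w1) (hE0 : P (eds w0))
    (hE1 : P (eds w1)) :
    φ (wt x y w0) = φ (wt x y w1) ∧ φ (wt x y w0) ≠ 0 := by
  classical
  have a0 := value φ x y hP H (tr_of_inj h0) hE0
  have a1 := value φ x y hP H (tr_of_inj h1) hE1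
  rw [card_can h0, Nat.cast_one] at a0
  rw [card_can h1, Nat.cast_one, ← nw_eq h0 h1] at a1
  have hp : (nw w0 : F) ≠ 0 := nw_pos (nd_of_inj h0)
  constructor
  · apply mul_left_cancel₀ hp
    rw [a0, a1]
  · intro h
    rw [h, mul_zero] at a0
    exact zero_ne_one a0

end Run7.h747
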