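import Mathlib

/-!
A closed trail made of a part that depends on one pair of sets and a part that depends on another.
-/

set_option autoImplicit false

namespace Run7.h747

/-- The vertex at position `p`. -/
def word (q N : ℕ) (α β α' β' : ℕ → ℕ) (p : ℕ) : ℕ :=
  if p < q then α p
  else if p = q then 2 * N
  else if p ≤ 2 * q then N + β (p - q - 1)
  else if p = 2 * q + 1 then 2 * N + 1
  else if p < 4 * q + 2 then
    (if p % 2 = 0 then α' ((p - 2 * q - 2) / 2) else N + β' ((p - 2 * q - 2) / 2))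
  else 2 * N + (p - 4 * q)

/-- Values below `N`, different for different indices below `q`. -/
def Ok (q N : ℕ) (α : ℕ → ℕ) : Prop :=
  (∀ i < q, α i < N) ∧ ∀ i < q, ∀ j < q, α i = α j → i = j

variable {q N s : ℕ} {α β α' β' : ℕ → ℕ}

theorem word_lt (hα : Ok q N α) (hβ : Ok q N β) (hα' : Ok q N α') (hβ' : Ok q N β')
    (hs : 3 ≤ s) {p : ℕ} (hp : p < 4 * q + s) : word q N α β α' β' p < 2 * N + s := by
  unfold word
  split_ifs with h1 h2 h3 h4 h5 h6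
  · have := hα.1 p h1; omega
  · omega
  · have := hβ.1 (p - q - 1) (by omega); omega
  · omega
  · have := hα'.1 ((p - 2 * q - 2) / 2) (by omega); omega
  · have := hβ'.1 ((p - 2 * q - 2) / 2) (by omega); omega
  · omega

/-- Positions of a red and of a blue vertex of the same type. -/
def Q (q p p' : ℕ) : Prop :=
  (p < q ∧ 2 * q + 2 ≤ p' ∧ p' < 4 * q + 2 ∧ p' % 2 = 0) ∨
  (p' < q ∧ 2 * q + 2 ≤ p ∧ p < 4 * q + 2 ∧ p % 2 = 0) ∨
  (q < p ∧ p ≤ 2 * q ∧ 2 * q + 2 ≤ p' ∧ p' < 4 * q + 2 ∧ p' % 2 = 1) ∨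
  (q < p' ∧ p' ≤ 2 * q ∧ 2 * q + 2 ≤ p ∧ p < 4 * q + 2 ∧ p % 2 = 1)

theorem word_kind (hα : Ok q N α) (hβ : Ok q N β) (hα' : Ok q N α') (hβ' : Ok q N β')
    (p : ℕ) :
    (∃ i < q, p = i ∧ word q N α β α' β' p = α i ∧ α i < N) ∨
    (p = q ∧ word q N α β α' β' p = 2 * N) ∨
    (∃ i < q, p = q + 1 + i ∧ word q N α β α' β' p = N + β i ∧ β i < N) ∨
    (p = 2 * q + 1 ∧ word q N α β α' β' p = 2 * N + 1) ∨
    (∃ i < q, p = 2 * q + 2 + 2 * i ∧ word q N α β α' β' p = α' i ∧ α' i < N) ∨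
    (∃ i < q, p = 2 * q + 3 + 2 * i ∧ word q N α β α' β' p = N + β' i ∧ β' i < N) ∨
    (∃ k, 2 ≤ k ∧ p = 4 * q + k ∧ word q N α β α' β' p = 2 * N + k) := by
  unfold word
  by_cases h1 : p < q
  · left
    exact ⟨p, h1, rfl, by rw [if_pos h1], hα.1 p h1⟩
  rw [if_neg h1]
  by_cases h2 : p = q
  · right; left
    exact ⟨h2, by rw [if_pos h2]⟩
  rw [if_neg h2]
  by_cases h3 : p ≤ 2 * q
  · right; right; left
    exact ⟨p - q - 1, by omega, by omega, by rw [if_pos h3], hβ.1 _ (by omega)⟩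
  rw [if_neg h3]
  by_cases h4 : p = 2 * q + 1
  · right; right; right; left
    exact ⟨h4, by rw [if_pos h4]⟩
  rw [if_neg h4]
  by_cases h5 : p < 4 * q + 2
  · rw [if_pos h5]
    by_cases h6 : p % 2 = 0
    · right; right; right; right; left
      exact ⟨(p - 2 * q - 2) / 2, by omega, by omega, by rw [if_pos h6], hα'.1 _ (by omega)⟩
    · right; right; right; right; right; left
      exact ⟨(p - 2 * q - 2) / 2, by omega, by omega, by rw [if_neg h6], hβ'.1 _ (by omega)⟩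
  · right; right; right; right; right; right
    exact ⟨p - 4 * q, by omega, by omega, by rw [if_neg h5]⟩

theorem word_eq (hα : Ok q N α) (hβ : Ok q N β) (hα' : Ok q N α') (hβ' : Ok q N β')
    {p p' : ℕ} (h : word q N α β α' β' p = word q N α β α' β' p') :
    p = p' ∨ (Q q p p' ∧ ((∃ i < q, ∃ j < q, α i = α' j) ∨ (∃ i < q, ∃ j < q, β i = β' j))) := by
  rcases word_kind hα hβ hα' hβ' p with ⟨i, hi, e1, e2, e3⟩ | ⟨e1, e2⟩ | ⟨i, hi, e1, e2, e3⟩ |
    ⟨e1, e2⟩ | ⟨i, hi, e1, e2, e3⟩ | ⟨i, hi, e1, e2, e3⟩ | ⟨i, hi, e1, e2⟩ <;>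
  rcases word_kind hα hβ hα' hβ' p' with ⟨j, hj, f1, f2, f3⟩ | ⟨f1, f2⟩ |
    ⟨j, hj, f1, f2, f3⟩ | ⟨f1, f2⟩ | ⟨j, hj, f1, f2, f3⟩ | ⟨j, hj, f1, f2, f3⟩ |
    ⟨j, hj, f1, f2⟩ <;> rw [e2, f2] at h
  all_goals try (left; omega)
  · left; have := hα.2 i hi j hj (by omega); omega
  · right; exact ⟨by unfold Q; omega, Or.inl ⟨i, hi, j, hj, by omega⟩⟩
  · left; have := hβ.2 i hi j hj (by omega); omega
  · right; exact ⟨by unfold Q; omega, Or.inr ⟨i, hi, j, hj, by omega⟩⟩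
  · right; exact ⟨by unfold Q; omega, Or.inl ⟨j, hj, i, hi, by omega⟩⟩
  · left; have := hα'.2 i hi j hj (by omega); omega
  · right; exact ⟨by unfold Q; omega, Or.inr ⟨j, hj, i, hi, by omega⟩⟩
  · left; have := hβ'.2 i hi j hj (by omega); omega

/-- The next position. -/
def nx (L p : ℕ) : ℕ := if p + 1 = L then 0 else p + 1

theorem no_par {p p' : ℕ} (hs : 3 ≤ s) (hp : p < 4 * q + s) (hp' : p' < 4 * q + s)
    (hne : p ≠ p') (h1 : p = p' ∨ Q q p p')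
    (h2 : nx (4 * q + s) p = nx (4 * q + s) p' ∨ Q q (nx (4 * q + s) p) (nx (4 * q + s) p')) :
    False := by
  unfold nx Q at *
  split_ifs at h2 <;> omega

theorem no_anti {p p' : ℕ} (hs : 3 ≤ s) (hp : p < 4 * q + s) (hp' : p' < 4 * q + s)
    (hne : p ≠ p') (h1 : p = nx (4 * q + s) p' ∨ Q q p (nx (4 * q + s) p'))
    (h2 : nx (4 * q + s) p = p' ∨ Q q (nx (4 * q + s) p) p') :
    False := by
  unfold nx Q at *
  split_ifs at h1 h2 <;> omega

end Run7.h747
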