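import Mathlib
import Pool.Agent.Run7.h747.BarA
import Pool.Agent.Run7.h747.BarC

/-!
The rank argument: a family of closed trails, each made of a part that depends on the row and a
part that depends on the column of a nonsingular 0/1 matrix.
-/

set_option autoImplicit false

namespace Run7.h747

open Finset

open Classical in
/-- The 0/1 matrix `D` is nonsingular over `F`. -/
def NS (F : Type*) [Field F] {I : Type*} [Fintype I] (D : I → I → Prop) : Prop :=
  ∀ f : I → F, (∀ j, ∑ i, (if D i j then f i else 0) = 0) → ∀ i, f i = 0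

theorem NS.prod {F : Type*} [Field F] {I J : Type*} [Fintype I] [Fintype J]
    {D : I → I → Prop} {E : J → J → Prop} (hD : NS F D) (hE : NS F E) :
    NS F (fun p r : I × J => D p.1 r.1 ∧ E p.2 r.2) := by
  classical
  intro f hf p
  have h1 : ∀ b : J, ∀ i : I, (∑ j, if E j b then f (i, j) else 0) = 0 := by
    intro b
    apply hD
    intro a
    have h2 := hf (a, b)
    refine Eq.trans ?_ h2
    rw [Fintype.sum_prod_type]
    apply sum_congr rfl
    intro i _
    by_cases hi : D i a
    · rw [if_pos hi]
      apply sum_congr rfl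
      intro j _
      by_cases hj : E j b
      · rw [if_pos hj, if_pos ⟨hi, hj⟩]
      · rw [if_neg hj, if_neg (fun h => hj h.2)]
    · rw [if_neg hi]
      symm
      apply sum_eq_zero
      intro j _
      rw [if_neg (fun h => hi h.1)]
  have h3 := hE (fun j => f (p.1, j)) (fun b => h1 b p.1) p.2
  exact h3

theorem ns_disj (F : Type*) [Field F] [CharZero F] {q N : ℕ} (h : 2 * q ≤ N) :
    NS F (fun S T : powersetCard q (range N) => Disjoint S.1 T.1) := by
  classical
  intro f hf S
  let g : Finset ℕ → F := fun S => if h : S ∈ powersetCard q (range N) then f ⟨S, h⟩ else 0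
  have hg : ∀ S ∈ powersetCard q (range N), g S = 0 := by
    apply disj_nonsing (by rw [card_range]; exact h)
    intro U hU
    have h1 := hf ⟨U, hU⟩
    unfold dsum
    rw [sum_filter]
    refine Eq.trans ?_ h1
    rw [← sum_coe_sort (powersetCard q (range N)) (fun T => if Disjoint T U then g T else 0)]
    apply sum_congr rfl
    intro T _
    have h2 : g T.1 = f T := by
      simp only [g]
      rw [dif_pos T.2]
    rw [h2]
    congr
  have h3 := hg S.1 S.2
  simp only [g] at h3
  rw [dif_pos S.2] at h3
  exact h3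

variable {V : Type*} [Fintype V] [LinearOrder V] {m : ℕ}
  {R F : Type*} [CommRing R] [Field F] [CharZero F] [Algebra F R]

theorem core [Module.Finite F R] (φ : R →ₗ[F] F) (x : V → R) (y : Sym2 V → R)
    {P : Finset (Sym2 V) → Prop} (hP : ∀ S E, S ⊆ E → P E → P S)
    (H : ∀ E : Finset (Sym2 V), P E →
      φ (wsum m x y (SimpleGraph.fromEdgeSet (E : Set (Sym2 V)))) =
      ((SimpleGraph.fromEdgeSet (E : Set (Sym2 V))).copyCount
        (SimpleGraph.cycleGraph (m + 3)) : F))
    {I : Type*} [Fintype I] (w : I → I → Fin (m + 3) → V) (Rd : Fin (m + 3) → Prop)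
    (hred : ∀ i j j' p, Rd p → w i j p = w i j' p ∧ w i j (p + 1) = w i j' (p + 1))
    (hblue : ∀ i i' j p, ¬ Rd p → w i j p = w i' j p ∧ w i j (p + 1) = w i' j (p + 1))
    (hnd : ∀ i j p, w i j p ≠ w i j (p + 1)) (htr : ∀ i j, Tr (w i j))
    (hPw : ∀ i j, P (eds (w i j))) (D : I → I → Prop)
    (hD : ∀ i j, Function.Injective (w i j) ↔ D i j) (hns : NS F D)
    (w0 : Fin (m + 3) → V) (hw0 : Function.Injective w0) (hPw0 : P (eds w0)) :
    Fintype.card I ≤ Module.finrank F R := by
  classical
  rcases isEmpty_or_nonempty I with hI | ⟨⟨i0⟩⟩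
  · rw [Fintype.card_eq_zero]; exact Nat.zero_le _
  set c := φ (wt x y w0) with hc
  have hc0 : c ≠ 0 := (inj_const φ x y hP H hw0 hw0 hPw0 hPw0).2
  have hval : ∀ i j, φ (wt x y (w i j)) = if D i j then c else 0 := by
    intro i j
    by_cases h : D i j
    · rw [if_pos h]
      exact (inj_const φ x y hP H ((hD i j).2 h) hw0 (hPw i j) hPw0).1
    · rw [if_neg h]
      exact trail_zero φ x y hP H (htr i j) (hPw i j) (hnd i j) (fun h' => h ((hD i j).1 h'))
  let X : I → R := fun i => ∏ p ∈ univ.filter (fun p => Rd p),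
    x (w i i0 p) * y s(w i i0 p, w i i0 (p + 1))
  let Y : I → R := fun j => ∏ p ∈ univ.filter (fun p => ¬ Rd p),
    x (w i0 j p) * y s(w i0 j p, w i0 j (p + 1))
  have hXY : ∀ i j, wt x y (w i j) = X i * Y j := by
    intro i j
    unfold wt
    rw [← prod_filter_mul_prod_filter_not univ (fun p => Rd p)]
    congr 1
    · apply prod_congr rfl
      intro p hp
      have h1 := hred i j i0 p (mem_filter.1 hp).2
      rw [h1.1, h1.2]
    · apply prod_congr rfl
      intro p hp
      have h1 := hblue i i0 j p (mem_filter.1 hp).2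
      rw [h1.1, h1.2]
  have hli : LinearIndependent F X := by
    rw [Fintype.linearIndependent_iff]
    intro g hg
    apply hns
    intro j
    have h1 : φ ((∑ i, g i • X i) * Y j) = 0 := by
      rw [hg, zero_mul, map_zero]
    rw [sum_mul, map_sum] at h1
    have h2 : ∀ i, φ (g i • X i * Y j) = c * (if D i j then g i else 0) := by
      intro i
      rw [smul_mul_assoc, map_smul, ← hXY, hval]
      split_ifs
      · rw [smul_eq_mul, mul_comm]
      · simp
    rw [sum_congr rfl (fun i _ => h2 i), ← mul_sum] at h1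
    refine Eq.trans ?_ ((mul_eq_zero.1 h1).resolve_left hc0)
    apply sum_congr rfl
    intro i _
    congr
  exact hli.fintype_card_le_finrank

end Run7.h747
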