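import Mathlib
import Pool.Agent.Run7.h747.BarD

/-!
Bipartite closed trails: four red and four blue sets.
-/

set_option autoImplicit false

namespace Run7.h747

/-- The vertex at position `p`. -/
def word4 (q N : ℕ) (a b c d a' b' c' d' : ℕ → ℕ) (p : ℕ) : ℕ :=
  if p < 2 * q then (if p % 2 = 0 then a (p / 2) else N + b (p / 2))
  else if p < 2 * q + 2 then 4 * N + (p - 2 * q)
  else if p < 4 * q + 2 then
    (if p % 2 = 0 then 2 * N + c ((p - 2 * q - 2) / 2) else 3 * N + d ((p - 2 * q - 2) / 2))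
  else if p < 4 * q + 4 then 4 * N + (p - 4 * q)
  else if p < 6 * q + 4 then
    (if p % 2 = 0 then a' ((p - 4 * q - 4) / 2) else 3 * N + d' ((p - 4 * q - 4) / 2))
  else if p < 6 * q + 6 then 4 * N + (p - 6 * q)
  else if p < 8 * q + 6 then
    (if p % 2 = 0 then 2 * N + c' ((p - 6 * q - 6) / 2) else N + b' ((p - 6 * q - 6) / 2))
  else 4 * N + (p - 8 * q)

variable {q N s : ℕ} {a b c d a' b' c' d' : ℕ → ℕ}

theorem word4_kind (ha : Ok q N a) (hb : Ok q N b) (hc : Ok q N c) (hd : Ok q N d)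
    (ha' : Ok q N a') (hb' : Ok q N b') (hc' : Ok q N c') (hd' : Ok q N d') (p : ℕ) :
    (∃ i < q, p = 2 * i ∧ word4 q N a b c d a' b' c' d' p = a i ∧ a i < N) ∨
    (∃ i < q, p = 2 * i + 1 ∧ word4 q N a b c d a' b' c' d' p = N + b i ∧ b i < N) ∨
    (∃ i < q, p = 2 * q + 2 + 2 * i ∧ word4 q N a b c d a' b' c' d' p = 2 * N + c i ∧
      c i < N) ∨
    (∃ i < q, p = 2 * q + 3 + 2 * i ∧ word4 q N a b c d a' b' c' d' p = 3 * N + d i ∧
      d i < N) ∨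
    (∃ i < q, p = 4 * q + 4 + 2 * i ∧ word4 q N a b c d a' b' c' d' p = a' i ∧ a' i < N) ∨
    (∃ i < q, p = 4 * q + 5 + 2 * i ∧ word4 q N a b c d a' b' c' d' p = 3 * N + d' i ∧
      d' i < N) ∨
    (∃ i < q, p = 6 * q + 6 + 2 * i ∧ word4 q N a b c d a' b' c' d' p = 2 * N + c' i ∧
      c' i < N) ∨
    (∃ i < q, p = 6 * q + 7 + 2 * i ∧ word4 q N a b c d a' b' c' d' p = N + b' i ∧
      b' i < N) ∨
    (∃ k, word4 q N a b c d a' b' c' d' p = 4 * N + k ∧ ((k < 2 ∧ p = 2 * q + k) ∨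
      (2 ≤ k ∧ k < 4 ∧ p = 4 * q + k) ∨ (4 ≤ k ∧ k < 6 ∧ p = 6 * q + k) ∨
      (6 ≤ k ∧ p = 8 * q + k))) := by
  unfold word4
  by_cases h1 : p < 2 * q
  · rw [if_pos h1]
    by_cases h2 : p % 2 = 0
    · left
      exact ⟨p / 2, by omega, by omega, by rw [if_pos h2], ha.1 _ (by omega)⟩
    · right; left
      exact ⟨p / 2, by omega, by omega, by rw [if_neg h2], hb.1 _ (by omega)⟩
  rw [if_neg h1]
  by_cases h1 : p < 2 * q + 2
  · rw [if_pos h1]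
    right; right; right; right; right; right; right; right
    exact ⟨p - 2 * q, rfl, by omega⟩
  rw [if_neg h1]
  by_cases h1 : p < 4 * q + 2
  · rw [if_pos h1]
    by_cases h2 : p % 2 = 0
    · right; right; left
      exact ⟨(p - 2 * q - 2) / 2, by omega, by omega, by rw [if_pos h2], hc.1 _ (by omega)⟩
    · right; right; right; left
      exact ⟨(p - 2 * q - 2) / 2, by omega, by omega, by rw [if_neg h2], hd.1 _ (by omega)⟩
  rw [if_neg h1]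
  by_cases h1 : p < 4 * q + 4
  · rw [if_pos h1]
    right; right; right; right; right; right; right; right
    exact ⟨p - 4 * q, rfl, by omega⟩
  rw [if_neg h1]
  by_cases h1 : p < 6 * q + 4
  · rw [if_pos h1]
    by_cases h2 : p % 2 = 0
    · right; right; right; right; left
      exact ⟨(p - 4 * q - 4) / 2, by omega, by omega, by rw [if_pos h2], ha'.1 _ (by omega)⟩
    · right; right; right; right; right; left
      exact ⟨(p - 4 * q - 4) / 2, by omega, by omega, by rw [if_neg h2], hd'.1 _ (by omega)⟩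
  rw [if_neg h1]
  by_cases h1 : p < 6 * q + 6
  · rw [if_pos h1]
    right; right; right; right; right; right; right; right
    exact ⟨p - 6 * q, rfl, by omega⟩
  rw [if_neg h1]
  by_cases h1 : p < 8 * q + 6
  · rw [if_pos h1]
    by_cases h2 : p % 2 = 0
    · right; right; right; right; right; right; left
      exact ⟨(p - 6 * q - 6) / 2, by omega, by omega, by rw [if_pos h2], hc'.1 _ (by omega)⟩
    · right; right; right; right; right; right; right; left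
      exact ⟨(p - 6 * q - 6) / 2, by omega, by omega, by rw [if_neg h2], hb'.1 _ (by omega)⟩
  rw [if_neg h1]
  right; right; right; right; right; right; right; right
  exact ⟨p - 8 * q, rfl, by omega⟩

theorem word4_lt (ha : Ok q N a) (hb : Ok q N b) (hc : Ok q N c) (hd : Ok q N d)
    (ha' : Ok q N a') (hb' : Ok q N b') (hc' : Ok q N c') (hd' : Ok q N d')
    (hs : 8 ≤ s) {p : ℕ} (hp : p < 8 * q + s) :
    word4 q N a b c d a' b' c' d' p < 4 * N + s := by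
  rcases word4_kind ha hb hc hd ha' hb' hc' hd' p with ⟨i, hi, e1, e2, e3⟩ |
    ⟨i, hi, e1, e2, e3⟩ | ⟨i, hi, e1, e2, e3⟩ | ⟨i, hi, e1, e2, e3⟩ | ⟨i, hi, e1, e2, e3⟩ |
    ⟨i, hi, e1, e2, e3⟩ | ⟨i, hi, e1, e2, e3⟩ | ⟨i, hi, e1, e2, e3⟩ | ⟨k, e2, e3⟩ <;>
    rw [e2] <;> omega

/-- The colour of a vertex. -/
def col (N v : ℕ) : ℕ :=
  if v < N then 0 else if v < 2 * N then 1 else if v < 3 * N then 0 else if v < 4 * N then 1
  else (v - 4 * N) % 2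

theorem word4_col (ha : Ok q N a) (hb : Ok q N b) (hc : Ok q N c) (hd : Ok q N d)
    (ha' : Ok q N a') (hb' : Ok q N b') (hc' : Ok q N c') (hd' : Ok q N d') (p : ℕ) :
    col N (word4 q N a b c d a' b' c' d' p) = p % 2 := by
  rcases word4_kind ha hb hc hd ha' hb' hc' hd' p with ⟨i, hi, e1, e2, e3⟩ |
    ⟨i, hi, e1, e2, e3⟩ | ⟨i, hi, e1, e2, e3⟩ | ⟨i, hi, e1, e2, e3⟩ | ⟨i, hi, e1, e2, e3⟩ |
    ⟨i, hi, e1, e2, e3⟩ | ⟨i, hi, e1, e2, e3⟩ | ⟨i, hi, e1, e2, e3⟩ | ⟨k, e2, e3⟩ <;>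
    rw [e2] <;> unfold col <;> split_ifs <;> omega

/-- Positions of a red and of a blue vertex of the same type. -/
def Q1 (q p p' : ℕ) : Prop :=
  (p < 2 * q ∧ p % 2 = 0 ∧ 4 * q + 4 ≤ p' ∧ p' < 6 * q + 4 ∧ p' % 2 = 0) ∨
  (p < 2 * q ∧ p % 2 = 1 ∧ 6 * q + 6 ≤ p' ∧ p' < 8 * q + 6 ∧ p' % 2 = 1) ∨
  (2 * q + 2 ≤ p ∧ p < 4 * q + 2 ∧ p % 2 = 0 ∧ 6 * q + 6 ≤ p' ∧ p' < 8 * q + 6 ∧
    p' % 2 = 0) ∨
  (2 * q + 2 ≤ p ∧ p < 4 * q + 2 ∧ p % 2 = 1 ∧ 4 * q + 4 ≤ p' ∧ p' < 6 * q + 4 ∧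
    p' % 2 = 1)

/-- Positions of a red and of a blue vertex of the same type, in any order. -/
def Q4 (q p p' : ℕ) : Prop := Q1 q p p' ∨ Q1 q p' p

/-- The two sequences have a common value. -/
def Meet (q : ℕ) (f g : ℕ → ℕ) : Prop := ∃ i < q, ∃ j < q, f i = g j

theorem word4_eq (ha : Ok q N a) (hb : Ok q N b) (hc : Ok q N c) (hd : Ok q N d)
    (ha' : Ok q N a') (hb' : Ok q N b') (hc' : Ok q N c') (hd' : Ok q N d') {p p' : ℕ}
    (h : word4 q N a b c d a' b' c' d' p = word4 q N a b c d a' b' c' d' p') :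
    p = p' ∨ (Q4 q p p' ∧ (Meet q a a' ∨ Meet q b b' ∨ Meet q c c' ∨ Meet q d d')) := by
  rcases word4_kind ha hb hc hd ha' hb' hc' hd' p with ⟨i, hi, e1, e2, e3⟩ |
    ⟨i, hi, e1, e2, e3⟩ | ⟨i, hi, e1, e2, e3⟩ | ⟨i, hi, e1, e2, e3⟩ | ⟨i, hi, e1, e2, e3⟩ |
    ⟨i, hi, e1, e2, e3⟩ | ⟨i, hi, e1, e2, e3⟩ | ⟨i, hi, e1, e2, e3⟩ | ⟨i, e2, e1⟩ <;>
  rcases word4_kind ha hb hc hd ha' hb' hc' hd' p' with ⟨j, hj, f1, f2, f3⟩ |
    ⟨j, hj, f1, f2, f3⟩ | ⟨j, hj, f1, f2, f3⟩ | ⟨j, hj, f1, f2, f3⟩ | ⟨j, hj, f1, f2, f3⟩ |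
    ⟨j, hj, f1, f2, f3⟩ | ⟨j, hj, f1, f2, f3⟩ | ⟨j, hj, f1, f2, f3⟩ | ⟨j, f2, f1⟩ <;>
  rw [e2, f2] at h
  all_goals try (exfalso; clear e1 f1 e2 f2 ha hb hc hd ha' hb' hc' hd'; omega)
  · left; have := ha.2 i hi j hj (by clear e1 f1; omega); clear e2 f2 h; omega
  · right; exact ⟨Or.inl (Or.inl (by clear e2 f2 e3 f3 h; omega)),
      Or.inl ⟨i, hi, j, hj, by clear e1 f1; omega⟩⟩
  · left; have := hb.2 i hi j hj (by clear e1 f1; omega); clear e2 f2 h; omega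
  · right; exact ⟨Or.inl (Or.inr (Or.inl (by clear e2 f2 e3 f3 h; omega))),
      Or.inr (Or.inl ⟨i, hi, j, hj, by clear e1 f1; omega⟩)⟩
  · left; have := hc.2 i hi j hj (by clear e1 f1; omega); clear e2 f2 h; omega
  · right; exact ⟨Or.inl (Or.inr (Or.inr (Or.inl (by clear e2 f2 e3 f3 h; omega)))),
      Or.inr (Or.inr (Or.inl ⟨i, hi, j, hj, by clear e1 f1; omega⟩))⟩
  · left; have := hd.2 i hi j hj (by clear e1 f1; omega); clear e2 f2 h; omega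
  · right; exact ⟨Or.inl (Or.inr (Or.inr (Or.inr (by clear e2 f2 e3 f3 h; omega)))),
      Or.inr (Or.inr (Or.inr ⟨i, hi, j, hj, by clear e1 f1; omega⟩))⟩
  · right; exact ⟨Or.inr (Or.inl (by clear e2 f2 e3 f3 h; omega)),
      Or.inl ⟨j, hj, i, hi, by clear e1 f1; omega⟩⟩
  · left; have := ha'.2 i hi j hj (by clear e1 f1; omega); clear e2 f2 h; omega
  · right; exact ⟨Or.inr (Or.inr (Or.inr (Or.inr (by clear e2 f2 e3 f3 h; omega)))),
      Or.inr (Or.inr (Or.inr ⟨j, hj, i, hi, by clear e1 f1; omega⟩))⟩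
  · left; have := hd'.2 i hi j hj (by clear e1 f1; omega); clear e2 f2 h; omega
  · right; exact ⟨Or.inr (Or.inr (Or.inr (Or.inl (by clear e2 f2 e3 f3 h; omega)))),
      Or.inr (Or.inr (Or.inl ⟨j, hj, i, hi, by clear e1 f1; omega⟩))⟩
  · left; have := hc'.2 i hi j hj (by clear e1 f1; omega); clear e2 f2 h; omega
  · right; exact ⟨Or.inr (Or.inr (Or.inl (by clear e2 f2 e3 f3 h; omega))),
      Or.inr (Or.inl ⟨j, hj, i, hi, by clear e1 f1; omega⟩)⟩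
  · left; have := hb'.2 i hi j hj (by clear e1 f1; omega); clear e2 f2 h; omega
  · left; clear e2 f2; omega

theorem no_loop4 {p : ℕ} (hs : 8 ≤ s) (hp : p < 8 * q + s)
    (h : p = nx (8 * q + s) p ∨ Q4 q p (nx (8 * q + s) p)) : False := by
  unfold nx Q4 Q1 at h
  split_ifs at h <;>
  rcases h with h | (h | h | h | h) | (h | h | h | h) <;> omega

theorem no_par4 {p p' : ℕ} (hs : 8 ≤ s) (hp : p < 8 * q + s) (hp' : p' < 8 * q + s)
    (hne : p ≠ p') (h1 : p = p' ∨ Q4 q p p')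
    (h2 : nx (8 * q + s) p = nx (8 * q + s) p' ∨ Q4 q (nx (8 * q + s) p) (nx (8 * q + s) p')) :
    False := by
  unfold nx Q4 Q1 at *
  split_ifs at h2 <;>
  rcases h1 with h1 | (h1 | h1 | h1 | h1) | (h1 | h1 | h1 | h1) <;>
  rcases h2 with h2 | (h2 | h2 | h2 | h2) | (h2 | h2 | h2 | h2) <;> omega

theorem no_anti4 {p p' : ℕ} (hs : 8 ≤ s) (hp : p < 8 * q + s) (hp' : p' < 8 * q + s)
    (hne : p ≠ p') (h1 : p = nx (8 * q + s) p' ∨ Q4 q p (nx (8 * q + s) p'))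
    (h2 : nx (8 * q + s) p = p' ∨ Q4 q (nx (8 * q + s) p) p') :
    False := by
  unfold nx Q4 Q1 at *
  split_ifs at h1 h2 <;>
  rcases h1 with h1 | (h1 | h1 | h1 | h1) | (h1 | h1 | h1 | h1) <;>
  rcases h2 with h2 | (h2 | h2 | h2 | h2) | (h2 | h2 | h2 | h2) <;> omega

theorem no_three4 {p p' p'' : ℕ} (h1 : Q4 q p p') (h2 : Q4 q p p'') (h3 : Q4 q p' p'') :
    False := by
  unfold Q4 Q1 at *
  rcases h1 with (h1 | h1 | h1 | h1) | (h1 | h1 | h1 | h1) <;>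
  rcases h2 with (h2 | h2 | h2 | h2) | (h2 | h2 | h2 | h2) <;>
  rcases h3 with (h3 | h3 | h3 | h3) | (h3 | h3 | h3 | h3) <;> omega

end Run7.h747
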