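import Mathlib
import Pool.Agent.Run7.h747.BarF
import Pool.Agent.Run7.h747.BarG

/-!
Closed trails from sequences of numbers; degrees and colourings of their graphs.
-/

set_option autoImplicit false

namespace Run7.h747

open Finset

/-- A number as a vertex. -/
def toV {n : ℕ} (hn : 0 < n) (v : ℕ) : Fin n := ⟨v % n, Nat.mod_lt _ hn⟩

theorem toV_inj {n : ℕ} (hn : 0 < n) {u v : ℕ} (hu : u < n) (hv : v < n)
    (h : toV hn u = toV hn v) : u = v := by
  have h1 := congrArg Fin.val h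
  simp only [toV] at h1
  rwa [Nat.mod_eq_of_lt hu, Nat.mod_eq_of_lt hv] at h1

theorem val_succ {m : ℕ} (i : Fin (m + 3)) : ((i + 1 : Fin (m + 3)) : ℕ) = nx (m + 3) i := by
  rw [Fin.val_add_one]
  unfold nx
  by_cases h : i = Fin.last (m + 2)
  · rw [if_pos h, if_pos]
    rw [h, Fin.val_last]
  · rw [if_neg h, if_neg]
    intro h2
    apply h
    apply Fin.ext
    rw [Fin.val_last]
    omega

/-- The positions at which a vertex can be repeated. -/
structure Good (L : ℕ) (QQ : ℕ → ℕ → Prop) : Prop where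
  loop : ∀ p, p < L → ¬ (p = nx L p ∨ QQ p (nx L p))
  par : ∀ p p', p < L → p' < L → p ≠ p' → (p = p' ∨ QQ p p') →
    (nx L p = nx L p' ∨ QQ (nx L p) (nx L p')) → False
  anti : ∀ p p', p < L → p' < L → p ≠ p' → (p = nx L p' ∨ QQ p (nx L p')) →
    (nx L p = p' ∨ QQ (nx L p) p') → False
  three : ∀ p p' p'', QQ p p' → QQ p p'' → QQ p' p'' → False

section

variable {n m : ℕ} (hn : 0 < n) {QQ : ℕ → ℕ → Prop} (ω : ℕ → ℕ)

/-- The sequence of vertices. -/
def WW (m : ℕ) : Fin (m + 3) → Fin n := fun i => toV hn (ω i)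

variable {ω}

theorem WW_eq (hlt : ∀ p < m + 3, ω p < n) {i j : Fin (m + 3)}
    (h : WW hn ω m i = WW hn ω m j) : ω i = ω j :=
  toV_inj hn (hlt i i.2) (hlt j j.2) h

theorem WW_nd (hG : Good (m + 3) QQ) (hlt : ∀ p < m + 3, ω p < n)
    (hQ : ∀ p p', ω p = ω p' → p = p' ∨ QQ p p') (i : Fin (m + 3)) :
    WW hn ω m i ≠ WW hn ω m (i + 1) := by
  intro h
  have h1 := hQ _ _ (WW_eq hn hlt h)
  rw [val_succ] at h1
  exact hG.loop i i.2 h1

theorem WW_tr (hG : Good (m + 3) QQ) (hlt : ∀ p < m + 3, ω p < n)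
    (hQ : ∀ p p', ω p = ω p' → p = p' ∨ QQ p p') : Tr (WW hn ω m) := by
  intro i j h
  by_contra hne
  have hne' : (i : ℕ) ≠ j := fun h => hne (Fin.ext h)
  have h1 : s(WW hn ω m i, WW hn ω m (i + 1)) = s(WW hn ω m j, WW hn ω m (j + 1)) := h
  rw [Sym2.eq_iff] at h1
  rcases h1 with ⟨h1, h2⟩ | ⟨h1, h2⟩
  · have a1 := hQ _ _ (WW_eq hn hlt h1)
    have a2 := hQ _ _ (WW_eq hn hlt h2)
    rw [val_succ, val_succ] at a2
    exact hG.par i j i.2 j.2 hne' a1 a2
  · have a1 := hQ _ _ (WW_eq hn hlt h1)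
    have a2 := hQ _ _ (WW_eq hn hlt h2)
    rw [val_succ] at a1 a2
    exact hG.anti i j i.2 j.2 hne' a1 a2

theorem WW_two (hG : Good (m + 3) QQ) (hlt : ∀ p < m + 3, ω p < n)
    (hQ : ∀ p p', ω p = ω p' → p = p' ∨ QQ p p') (v : Fin n) :
    (univ.filter (fun i => WW hn ω m i = v)).card ≤ 2 := by
  by_contra hc
  rw [not_le, two_lt_card] at hc
  obtain ⟨i, hi, j, hj, k, hk, hij, hik, hjk⟩ := hc
  have e : ∀ {a b : Fin (m + 3)}, a ∈ univ.filter (fun i => WW hn ω m i = v) →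
      b ∈ univ.filter (fun i => WW hn ω m i = v) → a ≠ b → QQ a b := by
    intro a b ha hb hab
    have h1 : WW hn ω m a = WW hn ω m b := (mem_filter.1 ha).2.trans (mem_filter.1 hb).2.symm
    rcases hQ _ _ (WW_eq hn hlt h1) with h | h
    · exact absurd (Fin.ext h) hab
    · exact h
  exact hG.three _ _ _ (e hi hj hij) (e hi hk hik) (e hj hk hjk)

end

section

variable {V : Type*} [Fintype V] [LinearOrder V] {m : ℕ}

/-- Every vertex has at most four neighbours. -/
def Deg4 (G : SimpleGraph V) : Prop := ∀ v, (G.neighborSet v).ncard ≤ 4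

/-- The graph has a proper colouring with two colours. -/
def Bip (G : SimpleGraph V) : Prop := ∃ c : V → Bool, ∀ u v, G.Adj u v → c u ≠ c v

omit [LinearOrder V] in
theorem Deg4.mono {G H : SimpleGraph V} (h : G ≤ H) (hH : Deg4 H) : Deg4 G := by
  intro v
  refine (Set.ncard_le_ncard ?_ (Set.toFinite _)).trans (hH v)
  intro u hu
  exact h hu

omit [Fintype V] [LinearOrder V] in
theorem Bip.mono {G H : SimpleGraph V} (h : G ≤ H) (hH : Bip H) : Bip G := by
  obtain ⟨c, hc⟩ := hH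
  exact ⟨c, fun u v huv => hc u v (h huv)⟩

theorem deg4_of {w : Fin (m + 3) → V} (h : ∀ v, (univ.filter (fun i => w i = v)).card ≤ 2) :
    Deg4 (SimpleGraph.fromEdgeSet (eds w : Set (Sym2 V))) := by
  intro v
  have h1 : (SimpleGraph.fromEdgeSet (eds w : Set (Sym2 V))).neighborSet v ⊆
      (((univ.filter (fun i => w i = v)).image (fun i => w (i + 1)) ∪
      (univ.filter (fun i => w i = v)).image (fun i => w (i - 1)) : Finset V) : Set V) := by
    intro u hu
    rw [SimpleGraph.mem_neighborSet, SimpleGraph.fromEdgeSet_adj, mem_coe] at hu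
    obtain ⟨i, ⟨a, b⟩ | ⟨a, b⟩⟩ := mem_eds.1 hu.1
    · rw [mem_coe, mem_union]
      left
      rw [mem_image]
      exact ⟨i, mem_filter.2 ⟨mem_univ _, a⟩, b⟩
    · rw [mem_coe, mem_union]
      right
      rw [mem_image]
      refine ⟨i + 1, mem_filter.2 ⟨mem_univ _, b⟩, ?_⟩
      rw [← a]
      congr 1
      abel
  refine (Set.ncard_le_ncard h1 (Finset.finite_toSet _)).trans ?_
  rw [Set.ncard_coe_finset]
  refine (card_union_le _ _).trans ?_
  have h2 := (card_image_le (s := univ.filter (fun i => w i = v)) (f := fun i => w (i + 1)))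
  have h3 := (card_image_le (s := univ.filter (fun i => w i = v)) (f := fun i => w (i - 1)))
  have h4 := h v
  omega

omit [Fintype V] in
theorem bip_of {w : Fin (m + 3) → V} (c : V → Bool) (h : ∀ i, c (w i) ≠ c (w (i + 1))) :
    Bip (SimpleGraph.fromEdgeSet (eds w : Set (Sym2 V))) := by
  refine ⟨c, ?_⟩
  intro u v huv
  rw [SimpleGraph.fromEdgeSet_adj, mem_coe] at huv
  obtain ⟨i, ⟨a, b⟩ | ⟨a, b⟩⟩ := mem_eds.1 huv.1
  · rw [← a, ← b]; exact h i
  · rw [← a, ← b]; exact (h i).symm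

theorem two_of_inj {w : Fin (m + 3) → V} (h : Function.Injective w) (v : V) :
    (univ.filter (fun i => w i = v)).card ≤ 2 := by
  refine le_trans ?_ one_le_two
  rw [card_le_one]
  intro a ha b hb
  exact h ((mem_filter.1 ha).2.trans (mem_filter.1 hb).2.symm)

end

theorem exists_en (T : Finset ℕ) : ∃ e : ℕ → ℕ, (∀ i < T.card, e i ∈ T) ∧
    (∀ i < T.card, ∀ j < T.card, e i = e j → i = j) ∧ (∀ v ∈ T, ∃ i < T.card, e i = v) := by
  refine ⟨fun i => if h : i < T.card then (T.equivFin.symm ⟨i, h⟩ : ℕ) else 0, ?_, ?_, ?_⟩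
  · intro i hi
    simp only [dif_pos hi]
    exact (T.equivFin.symm ⟨i, hi⟩).2
  · intro i hi j hj h
    simp only [dif_pos hi, dif_pos hj] at h
    have h2 := T.equivFin.symm.injective (Subtype.ext h)
    exact congrArg Fin.val h2
  · intro v hv
    refine ⟨T.equivFin ⟨v, hv⟩, (T.equivFin ⟨v, hv⟩).2, ?_⟩
    simp

/-- An enumeration of a finite set. -/
noncomputable def en (T : Finset ℕ) : ℕ → ℕ := (exists_en T).choose

theorem en_spec (T : Finset ℕ) : (∀ i < T.card, en T i ∈ T) ∧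
    (∀ i < T.card, ∀ j < T.card, en T i = en T j → i = j) ∧
    (∀ v ∈ T, ∃ i < T.card, en T i = v) := (exists_en T).choose_spec

theorem en_ok {q N : ℕ} (T : powersetCard q (range N)) : Ok q N (en T.1) := by
  have hT := mem_powersetCard.1 T.2
  obtain ⟨h1, h2, _⟩ := en_spec T.1
  rw [hT.2] at h1 h2
  exact ⟨fun i hi => mem_range.1 (hT.1 (h1 i hi)), h2⟩

theorem en_disj {q N : ℕ} (S T : powersetCard q (range N)) :
    Disjoint S.1 T.1 ↔ ¬ Meet q (en S.1) (en T.1) := by
  have hS := mem_powersetCard.1 S.2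
  have hT := mem_powersetCard.1 T.2
  obtain ⟨a1, _, a3⟩ := en_spec S.1
  obtain ⟨b1, _, b3⟩ := en_spec T.1
  rw [hS.2] at a1 a3
  rw [hT.2] at b1 b3
  rw [disjoint_left]
  constructor
  · rintro h ⟨i, hi, j, hj, hij⟩
    apply h (a1 i hi)
    rw [hij]; exact b1 j hj
  · intro h v hv hv'
    apply h
    obtain ⟨i, hi, hi'⟩ := a3 v hv
    obtain ⟨j, hj, hj'⟩ := b3 v hv'
    exact ⟨i, hi, j, hj, hi'.trans hj'.symm⟩

end Run7.h747
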