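import Mathlib
import Pool.Agent.Run7.h747.BarH

/-!
Lower bounds for the dimension of a commutative algebra that counts cycles by closed walks.
-/

set_option autoImplicit false

namespace Run7.h747

open Finset

/-- The `q`-subsets of the first `N` numbers. -/
abbrev PS (q N : ℕ) := powersetCard q (range N)

theorem card_PS (q N : ℕ) : Fintype.card (PS q N) = N.choose q := by
  rw [Fintype.card_coe, card_powersetCard, card_range]

section two

variable {q N s : ℕ}

theorem good2 (hs : 3 ≤ s) : Good (4 * q + s) (Q q) where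
  loop := by
    intro p hp h
    unfold nx Q at h
    split_ifs at h <;> omega
  par := fun _ _ hp hp' hne h1 h2 => no_par hs hp hp' hne h1 h2
  anti := fun _ _ hp hp' hne h1 h2 => no_anti hs hp hp' hne h1 h2
  three := by
    intro p p' p'' h1 h2 h3
    unfold Q at *
    omega

theorem word_hit (α β α' β' : ℕ → ℕ) {i j : ℕ} (hi : i < q) (hj : j < q)
    (h : α i = α' j) : word q N α β α' β' i = word q N α β α' β' (2 * q + 2 + 2 * j) := by
  have e1 : word q N α β α' β' i = α i := by
    unfold word; rw [if_pos hi]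
  have e2 : word q N α β α' β' (2 * q + 2 + 2 * j) = α' j := by
    unfold word
    rw [if_neg (by omega), if_neg (by omega), if_neg (by omega), if_neg (by omega),
      if_pos (by omega), if_pos (by omega)]
    congr 1
    omega
  rw [e1, e2, h]

theorem word_hit' (α β α' β' : ℕ → ℕ) {i j : ℕ} (hi : i < q) (hj : j < q)
    (h : β i = β' j) :
    word q N α β α' β' (q + 1 + i) = word q N α β α' β' (2 * q + 3 + 2 * j) := by
  have e1 : word q N α β α' β' (q + 1 + i) = N + β i := by
    unfold word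
    rw [if_neg (by omega), if_neg (by omega), if_pos (by omega)]
    congr 2
    omega
  have e2 : word q N α β α' β' (2 * q + 3 + 2 * j) = N + β' j := by
    unfold word
    rw [if_neg (by omega), if_neg (by omega), if_neg (by omega), if_neg (by omega),
      if_pos (by omega), if_neg (by omega)]
    congr 2
    omega
  rw [e1, e2, h]

theorem word_left {α β α' β' a b : ℕ → ℕ} {p : ℕ} (hp : p ≤ 2 * q + 1 ∨
    4 * q + 2 ≤ p) : word q N α β α' β' p = word q N α β a b p := by
  unfold word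
  split_ifs <;> first | rfl | omega

theorem word_right {α β α' β' a b : ℕ → ℕ} {p : ℕ} (hp : 2 * q + 1 ≤ p) :
    word q N α β α' β' p = word q N a b α' β' p := by
  unfold word
  split_ifs <;> first | rfl | omega

/-- Positions whose factor depends on the first pair only. -/
def Rd (q m : ℕ) (i : Fin (m + 3)) : Prop := (i : ℕ) ≤ 2 * q ∨ (i : ℕ) = m + 2

/-- Lower bound for graphs of maximum degree at most four. -/
theorem bar2 {n m : ℕ} (hm : m + 3 = 4 * q + s) (hs : 3 ≤ s) (hN : 2 * N + s ≤ n)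
    (hqN : 2 * q ≤ N) {R F : Type*} [CommRing R] [Field F] [CharZero F] [Algebra F R]
    [Module.Finite F R] (φ : R →ₗ[F] F) (x : Fin n → R) (y : Sym2 (Fin n) → R)
    (H : ∀ G : SimpleGraph (Fin n), Deg4 G → φ (wsum m x y G) =
      (G.copyCount (SimpleGraph.cycleGraph (m + 3)) : F)) :
    (N.choose q) ^ 2 ≤ Module.finrank F R := by
  classical
  have hn : 0 < n := by omega
  have hG : Good (m + 3) (Q q) := by rw [hm]; exact good2 hs
  let ω : (PS q N × PS q N) → (PS q N × PS q N) → ℕ → ℕ := fun i j =>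
    word q N (en i.1.1) (en i.2.1) (en j.1.1) (en j.2.1)
  have hlt : ∀ i j, ∀ p < m + 3, ω i j p < n := by
    intro i j p hp
    have := word_lt (en_ok i.1) (en_ok i.2) (en_ok j.1) (en_ok j.2) hs (p := p) (by omega)
    show word q N _ _ _ _ p < n
    omega
  have hQ2 : ∀ i j, ∀ p p', ω i j p = ω i j p' → p = p' ∨ (Q q p p' ∧
      ((∃ a < q, ∃ b < q, en i.1.1 a = en j.1.1 b) ∨
        (∃ a < q, ∃ b < q, en i.2.1 a = en j.2.1 b))) := fun i j p p' h =>
    word_eq (en_ok i.1) (en_ok i.2) (en_ok j.1) (en_ok j.2) h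
  have hQ : ∀ i j, ∀ p p', ω i j p = ω i j p' → p = p' ∨ Q q p p' := by
    intro i j p p' h
    rcases hQ2 i j p p' h with h | h
    · exact Or.inl h
    · exact Or.inr h.1
  have h1 := core (I := PS q N × PS q N) φ x y
    (P := fun E => Deg4 (SimpleGraph.fromEdgeSet (E : Set (Sym2 (Fin n)))))
    (fun S E hSE hE => hE.mono (SimpleGraph.fromEdgeSet_mono (by exact_mod_cast hSE)))
    (fun E hE => H _ hE) (fun i j => WW hn (ω i j) m) (Rd q m) ?_ ?_
    (fun i j p => WW_nd hn hG (hlt i j) (hQ i j) p)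
    (fun i j => WW_tr hn hG (hlt i j) (hQ i j))
    (fun i j => deg4_of (WW_two hn hG (hlt i j) (hQ i j)))
    (fun p r => Disjoint p.1.1 r.1.1 ∧ Disjoint p.2.1 r.2.1) ?_
    ((ns_disj F hqN).prod (ns_disj F hqN)) (Fin.castLE (by omega))
    (Fin.castLE_injective _) (deg4_of (two_of_inj (Fin.castLE_injective _)))
  · rw [Fintype.card_prod, card_PS, ← sq] at h1
    exact h1
  · intro i j j' p hp
    unfold Rd at hp
    constructor
    · show toV hn (word q N _ _ _ _ p) = toV hn (word q N _ _ _ _ p)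
      rw [word_left (a := en j'.1.1) (b := en j'.2.1) (by omega)]
    · show toV hn (word q N _ _ _ _ _) = toV hn (word q N _ _ _ _ _)
      rw [val_succ, word_left (a := en j'.1.1) (b := en j'.2.1)]
      unfold nx
      split_ifs <;> omega
  · intro i i' j p hp
    unfold Rd at hp
    have hlt := p.2
    constructor
    · show toV hn (word q N _ _ _ _ p) = toV hn (word q N _ _ _ _ p)
      rw [word_right (a := en i'.1.1) (b := en i'.2.1) (by omega)]
    · show toV hn (word q N _ _ _ _ _) = toV hn (word q N _ _ _ _ _)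
      rw [val_succ, word_right (a := en i'.1.1) (b := en i'.2.1)]
      unfold nx
      split_ifs <;> omega
  · intro i j
    show _ ↔ (Disjoint _ _ ∧ Disjoint _ _)
    rw [en_disj, en_disj]
    constructor
    · intro hinj
      constructor
      · rintro ⟨a, ha, b, hb, hab⟩
        have h2 : WW hn (ω i j) m ⟨a, by omega⟩ =
            WW hn (ω i j) m ⟨2 * q + 2 + 2 * b, by omega⟩ :=
          congrArg (toV hn) (word_hit (N := N) _ (en i.2.1) _ (en j.2.1) ha hb hab)
        have h3 := congrArg Fin.val (hinj h2)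
        simp only at h3
        omega
      · rintro ⟨a, ha, b, hb, hab⟩
        have h2 : WW hn (ω i j) m ⟨q + 1 + a, by omega⟩ =
            WW hn (ω i j) m ⟨2 * q + 3 + 2 * b, by omega⟩ :=
          congrArg (toV hn) (word_hit' (N := N) (en i.1.1) _ (en j.1.1) _ ha hb hab)
        have h3 := congrArg Fin.val (hinj h2)
        simp only at h3
        omega
    · rintro ⟨h2, h3⟩ a b hab
      rcases hQ2 i j _ _ (WW_eq hn (hlt i j) hab) with h4 | ⟨_, h4 | h4⟩
      · exact Fin.ext h4
      · exact absurd h4 h2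
      · exact absurd h4 h3

end two

section four

variable {q N s : ℕ}

theorem good4 (hs : 8 ≤ s) : Good (8 * q + s) (Q4 q) where
  loop := fun _ hp h => no_loop4 hs hp h
  par := fun _ _ hp hp' hne h1 h2 => no_par4 hs hp hp' hne h1 h2
  anti := fun _ _ hp hp' hne h1 h2 => no_anti4 hs hp hp' hne h1 h2
  three := fun _ _ _ h1 h2 h3 => no_three4 h1 h2 h3

theorem word4_left {a b c d a' b' c' d' a₁ b₁ c₁ d₁ : ℕ → ℕ} {p : ℕ}
    (hp : p < 4 * q + 4 ∨ 8 * q + 6 ≤ p) :
    word4 q N a b c d a' b' c' d' p = word4 q N a b c d a₁ b₁ c₁ d₁ p := by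
  unfold word4
  split_ifs <;> first | rfl | omega

theorem word4_right {a b c d a' b' c' d' a₁ b₁ c₁ d₁ : ℕ → ℕ} {p : ℕ}
    (hp : 4 * q + 2 ≤ p) :
    word4 q N a b c d a' b' c' d' p = word4 q N a₁ b₁ c₁ d₁ a' b' c' d' p := by
  unfold word4
  split_ifs <;> first | rfl | omega

/-- Positions whose factor depends on the first four sets only. -/
def Rd4 (q m : ℕ) (i : Fin (m + 3)) : Prop := (i : ℕ) < 4 * q + 3 ∨ (i : ℕ) = m + 2

theorem hit_a (a b c d a' b' c' d' : ℕ → ℕ) {i j : ℕ} (hi : i < q) (hj : j < q)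
    (h : a i = a' j) : word4 q N a b c d a' b' c' d' (2 * i) =
      word4 q N a b c d a' b' c' d' (4 * q + 4 + 2 * j) := by
  have e1 : word4 q N a b c d a' b' c' d' (2 * i) = a i := by
    unfold word4
    rw [if_pos (by omega), if_pos (by omega)]
    congr 1
    omega
  have e2 : word4 q N a b c d a' b' c' d' (4 * q + 4 + 2 * j) = a' j := by
    unfold word4
    rw [if_neg (by omega), if_neg (by omega), if_neg (by omega), if_neg (by omega),
      if_pos (by omega), if_pos (by omega)]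
    congr 1
    omega
  rw [e1, e2, h]

theorem hit_b (a b c d a' b' c' d' : ℕ → ℕ) {i j : ℕ} (hi : i < q) (hj : j < q)
    (h : b i = b' j) : word4 q N a b c d a' b' c' d' (2 * i + 1) =
      word4 q N a b c d a' b' c' d' (6 * q + 7 + 2 * j) := by
  have e1 : word4 q N a b c d a' b' c' d' (2 * i + 1) = N + b i := by
    unfold word4
    rw [if_pos (by omega), if_neg (by omega)]
    congr 2
    omega
  have e2 : word4 q N a b c d a' b' c' d' (6 * q + 7 + 2 * j) = N + b' j := by
    unfold word4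
    rw [if_neg (by omega), if_neg (by omega), if_neg (by omega), if_neg (by omega),
      if_neg (by omega), if_neg (by omega), if_pos (by omega), if_neg (by omega)]
    congr 2
    omega
  rw [e1, e2, h]

theorem hit_c (a b c d a' b' c' d' : ℕ → ℕ) {i j : ℕ} (hi : i < q) (hj : j < q)
    (h : c i = c' j) : word4 q N a b c d a' b' c' d' (2 * q + 2 + 2 * i) =
      word4 q N a b c d a' b' c' d' (6 * q + 6 + 2 * j) := by
  have e1 : word4 q N a b c d a' b' c' d' (2 * q + 2 + 2 * i) = 2 * N + c i := by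
    unfold word4
    rw [if_neg (by omega), if_neg (by omega), if_pos (by omega), if_pos (by omega)]
    congr 2
    omega
  have e2 : word4 q N a b c d a' b' c' d' (6 * q + 6 + 2 * j) = 2 * N + c' j := by
    unfold word4
    rw [if_neg (by omega), if_neg (by omega), if_neg (by omega), if_neg (by omega),
      if_neg (by omega), if_neg (by omega), if_pos (by omega), if_pos (by omega)]
    congr 2
    omega
  rw [e1, e2, h]

theorem hit_d (a b c d a' b' c' d' : ℕ → ℕ) {i j : ℕ} (hi : i < q) (hj : j < q)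
    (h : d i = d' j) : word4 q N a b c d a' b' c' d' (2 * q + 3 + 2 * i) =
      word4 q N a b c d a' b' c' d' (4 * q + 5 + 2 * j) := by
  have e1 : word4 q N a b c d a' b' c' d' (2 * q + 3 + 2 * i) = 3 * N + d i := by
    unfold word4
    rw [if_neg (by omega), if_neg (by omega), if_pos (by omega), if_neg (by omega)]
    congr 2
    omega
  have e2 : word4 q N a b c d a' b' c' d' (4 * q + 5 + 2 * j) = 3 * N + d' j := by
    unfold word4
    rw [if_neg (by omega), if_neg (by omega), if_neg (by omega), if_neg (by omega),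
      if_pos (by omega), if_neg (by omega)]
    congr 2
    omega
  rw [e1, e2, h]

/-- The index set. -/
abbrev I4 (q N : ℕ) := (PS q N × PS q N) × (PS q N × PS q N)

/-- Lower bound for bipartite graphs of maximum degree at most four. -/
theorem bar4 {n m : ℕ} (hm : m + 3 = 8 * q + s) (hs : 8 ≤ s) (hs2 : s % 2 = 0)
    (hN : 4 * N + s ≤ n)
    (hqN : 2 * q ≤ N) {R F : Type*} [CommRing R] [Field F] [CharZero F] [Algebra F R]
    [Module.Finite F R] (φ : R →ₗ[F] F) (x : Fin n → R) (y : Sym2 (Fin n) → R)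
    (H : ∀ G : SimpleGraph (Fin n), Deg4 G → Bip G → φ (wsum m x y G) =
      (G.copyCount (SimpleGraph.cycleGraph (m + 3)) : F)) :
    (N.choose q) ^ 4 ≤ Module.finrank F R := by
  classical
  have hn : 0 < n := by omega
  have hG : Good (m + 3) (Q4 q) := by rw [hm]; exact good4 hs
  let ω : I4 q N → I4 q N → ℕ → ℕ := fun i j =>
    word4 q N (en i.1.1.1) (en i.1.2.1) (en i.2.1.1) (en i.2.2.1)
      (en j.1.1.1) (en j.1.2.1) (en j.2.1.1) (en j.2.2.1)
  have hlt : ∀ i j, ∀ p < m + 3, ω i j p < n := by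
    intro i j p hp
    have := word4_lt (en_ok i.1.1) (en_ok i.1.2) (en_ok i.2.1) (en_ok i.2.2)
      (en_ok j.1.1) (en_ok j.1.2) (en_ok j.2.1) (en_ok j.2.2) hs (p := p) (by omega)
    show word4 q N _ _ _ _ _ _ _ _ p < n
    omega
  have hQ2 : ∀ i j, ∀ p p', ω i j p = ω i j p' → p = p' ∨ (Q4 q p p' ∧
      (Meet q (en i.1.1.1) (en j.1.1.1) ∨ Meet q (en i.1.2.1) (en j.1.2.1) ∨
       Meet q (en i.2.1.1) (en j.2.1.1) ∨ Meet q (en i.2.2.1) (en j.2.2.1))) :=
    fun i j p p' h =>
    word4_eq (en_ok i.1.1) (en_ok i.1.2) (en_ok i.2.1) (en_ok i.2.2)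
      (en_ok j.1.1) (en_ok j.1.2) (en_ok j.2.1) (en_ok j.2.2) h
  have hQ : ∀ i j, ∀ p p', ω i j p = ω i j p' → p = p' ∨ Q4 q p p' := by
    intro i j p p' h
    rcases hQ2 i j p p' h with h | h
    · exact Or.inl h
    · exact Or.inr h.1
  have hpar : ∀ p : Fin (m + 3), ((p + 1 : Fin (m + 3)) : ℕ) % 2 ≠ (p : ℕ) % 2 := by
    intro p
    have := p.2
    rw [val_succ]
    unfold nx
    split_ifs <;> omega
  have hbip : ∀ i j, Bip (SimpleGraph.fromEdgeSet
      (eds (WW hn (ω i j) m) : Set (Sym2 (Fin n)))) := by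
    intro i j
    have hc : ∀ p : Fin (m + 3), col N (WW hn (ω i j) m p : ℕ) = (p : ℕ) % 2 := by
      intro p
      have e1 : ((WW hn (ω i j) m p : Fin n) : ℕ) = ω i j p :=
        Nat.mod_eq_of_lt (hlt i j p p.2)
      rw [e1]
      exact word4_col (en_ok i.1.1) (en_ok i.1.2) (en_ok i.2.1) (en_ok i.2.2)
        (en_ok j.1.1) (en_ok j.1.2) (en_ok j.2.1) (en_ok j.2.2) p
    refine bip_of (fun v => decide (col N (v : ℕ) = 0)) ?_
    intro p
    show decide (col N (WW hn (ω i j) m p : ℕ) = 0) ≠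
      decide (col N (WW hn (ω i j) m (p + 1) : ℕ) = 0)
    rw [hc, hc]
    have h5 := hpar p
    rw [Ne, decide_eq_decide]
    omega
  have h1 := core (I := I4 q N) φ x y
    (P := fun E => Deg4 (SimpleGraph.fromEdgeSet (E : Set (Sym2 (Fin n)))) ∧
      Bip (SimpleGraph.fromEdgeSet (E : Set (Sym2 (Fin n)))))
    (fun S E hSE hE => ⟨hE.1.mono (SimpleGraph.fromEdgeSet_mono (by exact_mod_cast hSE)),
      hE.2.mono (SimpleGraph.fromEdgeSet_mono (by exact_mod_cast hSE))⟩)
    (fun E hE => H _ hE.1 hE.2) (fun i j => WW hn (ω i j) m) (Rd4 q m) ?_ ?_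
    (fun i j p => WW_nd hn hG (hlt i j) (hQ i j) p)
    (fun i j => WW_tr hn hG (hlt i j) (hQ i j))
    (fun i j => ⟨deg4_of (WW_two hn hG (hlt i j) (hQ i j)), hbip i j⟩)
    (fun p r => (Disjoint p.1.1.1 r.1.1.1 ∧ Disjoint p.1.2.1 r.1.2.1) ∧
      (Disjoint p.2.1.1 r.2.1.1 ∧ Disjoint p.2.2.1 r.2.2.1)) ?_
    (((ns_disj F hqN).prod (ns_disj F hqN)).prod ((ns_disj F hqN).prod (ns_disj F hqN)))
    (Fin.castLE (by omega))
    (Fin.castLE_injective _) ⟨deg4_of (two_of_inj (Fin.castLE_injective _)), ?_⟩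
  · rw [Fintype.card_prod, Fintype.card_prod, card_PS] at h1
    calc (N.choose q) ^ 4 = N.choose q * N.choose q * (N.choose q * N.choose q) := by ring
      _ ≤ _ := h1
  · intro i j j' p hp
    unfold Rd4 at hp
    constructor
    · show toV hn (word4 q N _ _ _ _ _ _ _ _ p) = toV hn (word4 q N _ _ _ _ _ _ _ _ p)
      rw [word4_left (a₁ := en j'.1.1.1) (b₁ := en j'.1.2.1) (c₁ := en j'.2.1.1)
        (d₁ := en j'.2.2.1) (by omega)]
    · show toV hn (word4 q N _ _ _ _ _ _ _ _ _) = toV hn (word4 q N _ _ _ _ _ _ _ _ _)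
      rw [val_succ, word4_left (a₁ := en j'.1.1.1) (b₁ := en j'.1.2.1) (c₁ := en j'.2.1.1)
        (d₁ := en j'.2.2.1)]
      unfold nx
      split_ifs <;> omega
  · intro i i' j p hp
    unfold Rd4 at hp
    have hlt := p.2
    constructor
    · show toV hn (word4 q N _ _ _ _ _ _ _ _ p) = toV hn (word4 q N _ _ _ _ _ _ _ _ p)
      rw [word4_right (a₁ := en i'.1.1.1) (b₁ := en i'.1.2.1) (c₁ := en i'.2.1.1)
        (d₁ := en i'.2.2.1) (by omega)]
    · show toV hn (word4 q N _ _ _ _ _ _ _ _ _) = toV hn (word4 q N _ _ _ _ _ _ _ _ _)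
      rw [val_succ, word4_right (a₁ := en i'.1.1.1) (b₁ := en i'.1.2.1) (c₁ := en i'.2.1.1)
        (d₁ := en i'.2.2.1)]
      unfold nx
      split_ifs <;> omega
  · intro i j
    show _ ↔ ((Disjoint _ _ ∧ Disjoint _ _) ∧ (Disjoint _ _ ∧ Disjoint _ _))
    rw [en_disj, en_disj, en_disj, en_disj]
    constructor
    · intro hinj
      refine ⟨⟨?_, ?_⟩, ⟨?_, ?_⟩⟩
      · rintro ⟨a, ha, b, hb, hab⟩
        have h2 : WW hn (ω i j) m ⟨2 * a, by omega⟩ =
            WW hn (ω i j) m ⟨4 * q + 4 + 2 * b, by omega⟩ :=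
          congrArg (toV hn) (hit_a (N := N) _ (en i.1.2.1) (en i.2.1.1) (en i.2.2.1) _
            (en j.1.2.1) (en j.2.1.1) (en j.2.2.1) ha hb hab)
        have h3 := congrArg Fin.val (hinj h2)
        simp only at h3
        omega
      · rintro ⟨a, ha, b, hb, hab⟩
        have h2 : WW hn (ω i j) m ⟨2 * a + 1, by omega⟩ =
            WW hn (ω i j) m ⟨6 * q + 7 + 2 * b, by omega⟩ :=
          congrArg (toV hn) (hit_b (N := N) (en i.1.1.1) _ (en i.2.1.1) (en i.2.2.1)
            (en j.1.1.1) _ (en j.2.1.1) (en j.2.2.1) ha hb hab)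
        have h3 := congrArg Fin.val (hinj h2)
        simp only at h3
        omega
      · rintro ⟨a, ha, b, hb, hab⟩
        have h2 : WW hn (ω i j) m ⟨2 * q + 2 + 2 * a, by omega⟩ =
            WW hn (ω i j) m ⟨6 * q + 6 + 2 * b, by omega⟩ :=
          congrArg (toV hn) (hit_c (N := N) (en i.1.1.1) (en i.1.2.1) _ (en i.2.2.1)
            (en j.1.1.1) (en j.1.2.1) _ (en j.2.2.1) ha hb hab)
        have h3 := congrArg Fin.val (hinj h2)
        simp only at h3
        omega
      · rintro ⟨a, ha, b, hb, hab⟩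
        have h2 : WW hn (ω i j) m ⟨2 * q + 3 + 2 * a, by omega⟩ =
            WW hn (ω i j) m ⟨4 * q + 5 + 2 * b, by omega⟩ :=
          congrArg (toV hn) (hit_d (N := N) (en i.1.1.1) (en i.1.2.1) (en i.2.1.1) _
            (en j.1.1.1) (en j.1.2.1) (en j.2.1.1) _ ha hb hab)
        have h3 := congrArg Fin.val (hinj h2)
        simp only at h3
        omega
    · rintro ⟨⟨h2, h3⟩, ⟨h4, h5⟩⟩ a b hab
      rcases hQ2 i j _ _ (WW_eq hn (hlt i j) hab) with h6 | ⟨_, h6 | h6 | h6 | h6⟩
      · exact Fin.ext h6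
      · exact absurd h6 h2
      · exact absurd h6 h3
      · exact absurd h6 h4
      · exact absurd h6 h5
  · refine bip_of (fun v => decide ((v : ℕ) % 2 = 0)) ?_
    intro p
    show decide ((p : ℕ) % 2 = 0) ≠ decide (((p + 1 : Fin (m + 3)) : ℕ) % 2 = 0)
    have h5 := hpar p
    rw [Ne, decide_eq_decide]
    omega

/-- The algebra is not zero. -/
theorem bar_pos {n m : ℕ} (hmn : m + 3 ≤ n) (hm2 : (m + 3) % 2 = 0)
    {R F : Type*} [CommRing R] [Field F] [CharZero F] [Algebra F R]
    [Module.Finite F R] (φ : R →ₗ[F] F) (x : Fin n → R) (y : Sym2 (Fin n) → R)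
    (H : ∀ G : SimpleGraph (Fin n), Deg4 G → Bip G → φ (wsum m x y G) =
      (G.copyCount (SimpleGraph.cycleGraph (m + 3)) : F)) :
    1 ≤ Module.finrank F R := by
  classical
  have hpar : ∀ p : Fin (m + 3), ((p + 1 : Fin (m + 3)) : ℕ) % 2 ≠ (p : ℕ) % 2 := by
    intro p
    have := p.2
    rw [val_succ]
    unfold nx
    split_ifs <;> omega
  have hd : Deg4 (SimpleGraph.fromEdgeSet (eds (Fin.castLE hmn) : Set (Sym2 (Fin n)))) :=
    deg4_of (two_of_inj (Fin.castLE_injective hmn))
  have hb : Bip (SimpleGraph.fromEdgeSet (eds (Fin.castLE hmn) : Set (Sym2 (Fin n)))) := by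
    refine bip_of (fun v => decide ((v : ℕ) % 2 = 0)) ?_
    intro p
    show decide ((p : ℕ) % 2 = 0) ≠ decide (((p + 1 : Fin (m + 3)) : ℕ) % 2 = 0)
    have h5 := hpar p
    rw [Ne, decide_eq_decide]
    omega
  have h1 := core (I := Unit) φ x y
    (P := fun E => Deg4 (SimpleGraph.fromEdgeSet (E : Set (Sym2 (Fin n)))) ∧
      Bip (SimpleGraph.fromEdgeSet (E : Set (Sym2 (Fin n)))))
    (fun S E hSE hE => ⟨hE.1.mono (SimpleGraph.fromEdgeSet_mono (by exact_mod_cast hSE)),
      hE.2.mono (SimpleGraph.fromEdgeSet_mono (by exact_mod_cast hSE))⟩)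
    (fun E hE => H _ hE.1 hE.2) (fun _ _ => Fin.castLE hmn) (fun _ => True)
    (fun _ _ _ _ _ => ⟨rfl, rfl⟩) (fun _ _ _ _ h => absurd trivial h)
    (fun _ _ p => nd_of_inj (Fin.castLE_injective _) p)
    (fun _ _ => tr_of_inj (Fin.castLE_injective _))
    (fun _ _ => ⟨hd, hb⟩)
    (fun _ _ => True) (fun _ _ => ⟨fun _ => trivial, fun _ => Fin.castLE_injective _⟩)
    (by
      intro f hf i
      have := hf ()
      simpa using this)
    (Fin.castLE hmn) (Fin.castLE_injective _) ⟨hd, hb⟩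
  rwa [Fintype.card_unit] at h1

end four

end Run7.h747
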