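import Pool.Agent.Run7.h747.Block

/-!
The change of basis adapted to a pairing `mate` of the vertices.

For a pair `u < v = mate u` the label (`u` in, `v` out) stands for the sum of the two sets, and the
label (`u` out, `v` in) stands for itself. `M X Y` is the coefficient of the label `X` in the
set `Y`.
-/

set_option autoImplicit false

namespace Run7.h747

open Finset

variable {V : Type*} [Fintype V] [LinearOrder V]

/-- Coefficients for one pair. -/
def pm : Bool → Bool → Bool → Bool → ℤ
  | false, false, false, false => 1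
  | true, true, true, true => 1
  | true, false, true, false => 1
  | false, true, false, true => 1
  | false, true, true, false => -1
  | _, _, _, _ => 0

/-- Local factor at `v`. -/
def mu (mate : V → V) (X Y : Finset V) (v : V) : ℤ :=
  if mate v = v then (if (v ∈ X ↔ v ∈ Y) then 1 else 0)
  else if v < mate v then
    pm (decide (v ∈ X)) (decide (mate v ∈ X)) (decide (v ∈ Y)) (decide (mate v ∈ Y))
  else 1

/-- The coefficient of the label `X` in the set `Y`. -/
def MM (mate : V → V) (X Y : Finset V) : ℤ := ∏ v, mu mate X Y v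

theorem mu_congr {mate : V → V} {X X' Y Y' : Finset V} {v : V} (h1 : v ∈ X ↔ v ∈ X')
    (h2 : mate v ∈ X ↔ mate v ∈ X') (h3 : v ∈ Y ↔ v ∈ Y') (h4 : mate v ∈ Y ↔ mate v ∈ Y') :
    mu mate X Y v = mu mate X' Y' v := by
  unfold mu
  simp only [h1, h2, h3, h4]

/-- The representative of the block of `x`. -/
def rep (mate : V → V) (x : V) : V := if x < mate x then x else mate x

theorem mate_ne {mate : V → V} (hm : ∀ v, mate (mate v) = v) {x v : V} (h1 : v ≠ x)
    (h2 : v ≠ mate x) : mate v ≠ x ∧ mate v ≠ mate x := by
  constructor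
  · intro e; apply h2; rw [← e, hm]
  · intro e; apply h1; rw [← hm v, e, hm]

/-- Two products that differ in the block of `x` only. -/
theorem MM_split {mate : V → V} (hm : ∀ v, mate (mate v) = v) (x : V) {X X' Y Y' : Finset V}
    (hX : ∀ v, v ≠ x → v ≠ mate x → (v ∈ X ↔ v ∈ X'))
    (hY : ∀ v, v ≠ x → v ≠ mate x → (v ∈ Y ↔ v ∈ Y')) :
    ∏ v ∈ univ.erase (rep mate x), mu mate X Y v =
      ∏ v ∈ univ.erase (rep mate x), mu mate X' Y' v := by
  apply prod_congr rfl
  intro v hv
  rw [mem_erase] at hv
  have hv1 := hv.1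
  unfold rep at hv1
  by_cases h1 : v = x
  · subst h1
    have h3 : ¬ v < mate v := by
      intro h; rw [if_pos h] at hv1; exact hv1 rfl
    rw [if_neg h3] at hv1
    unfold mu
    rw [if_neg (fun e => hv1 e.symm), if_neg h3, if_neg (fun e => hv1 e.symm), if_neg h3]
  · by_cases h2 : v = mate x
    · subst h2
      have h3 : x < mate x := by
        by_contra h; rw [if_neg h] at hv1; exact hv1 rfl
      unfold mu
      rw [hm, if_neg (fun e => h1 e.symm), if_neg (lt_asymm h3), if_neg (fun e => h1 e.symm),
        if_neg (lt_asymm h3)]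
    · obtain ⟨h3, h4⟩ := mate_ne hm h1 h2
      exact mu_congr (hX v h1 h2) (hX _ h3 h4) (hY v h1 h2) (hY _ h3 h4)

theorem MM_eq (mate : V → V) (X Y : Finset V) (x : V) :
    MM mate X Y = mu mate X Y (rep mate x) * ∏ v ∈ univ.erase (rep mate x), mu mate X Y v := by
  unfold MM
  rw [mul_prod_erase _ _ (mem_univ _)]

/-- The step rule: visiting `x`, for a function `f` of the label. -/
def pull (mate : V → V) (x : V) (f : Finset V → ℤ) (X' : Finset V) : ℤ :=
  (if x ∈ X' then f (X'.erase x) else 0) +
    (if x < mate x ∧ mate x ∈ X' then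
      (if x ∈ X' then f (X'.erase (mate x)) else - f (X'.erase (mate x))) else 0)

theorem pull_MM {mate : V → V} (hm : ∀ v, mate (mate v) = v) (x : V) (X' Y : Finset V) :
    pull mate x (fun X => MM mate X Y) X' = if x ∈ Y then 0 else MM mate X' (insert x Y) := by
  have hY : ∀ v, v ≠ x → v ≠ mate x → (v ∈ Y ↔ v ∈ insert x Y) := by
    intro v h1 _
    rw [mem_insert]; tauto
  have hX1 : ∀ v, v ≠ x → v ≠ mate x → (v ∈ X'.erase x ↔ v ∈ X') := by
    intro v h1 _
    rw [mem_erase]; tauto
  have hX2 : ∀ v, v ≠ x → v ≠ mate x → (v ∈ X'.erase (mate x) ↔ v ∈ X') := by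
    intro v _ h2
    rw [mem_erase]; tauto
  unfold pull
  simp only []
  rw [MM_eq mate (X'.erase x) Y x, MM_eq mate (X'.erase (mate x)) Y x,
    MM_eq mate X' (insert x Y) x, MM_split hm x hX1 hY, MM_split hm x hX2 hY]
  generalize ∏ v ∈ univ.erase (rep mate x), mu mate X' (insert x Y) v = R
  unfold rep
  by_cases h1 : x < mate x
  · have hne : mate x ≠ x := ne_of_gt h1
    have hne' : x ≠ mate x := ne_of_lt h1
    rw [if_pos h1]
    unfold mu
    simp only [if_neg hne, if_pos h1, mem_erase, mem_insert, ne_eq, not_true_eq_false, false_and,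
      hne, hne', not_false_eq_true, true_and, true_or, false_or, decide_false, decide_true]
    by_cases a : x ∈ X' <;> by_cases b : mate x ∈ X' <;> by_cases c : x ∈ Y <;>
      by_cases d : mate x ∈ Y <;> simp [a, b, c, d, pm, h1]
  · rw [if_neg h1]
    by_cases h2 : mate x = x
    · unfold mu
      simp only [h2, if_true, mem_erase, mem_insert, ne_eq, not_true_eq_false, false_and,
        lt_irrefl, if_false, true_or]
      by_cases a : x ∈ X' <;> by_cases c : x ∈ Y <;> simp [a, c]
    · have h3 : mate x < x := lt_of_le_of_ne (not_lt.1 h1) h2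
      have hne' : x ≠ mate x := fun e => h2 e.symm
      unfold mu
      simp only [hm, if_neg hne', if_pos h3, mem_erase, mem_insert, ne_eq, not_true_eq_false,
        false_and, h2, hne', not_false_eq_true, true_and, true_or, false_or, decide_false,
        decide_true, h1, if_false, add_zero]
      by_cases a : x ∈ X' <;> by_cases b : mate x ∈ X' <;> by_cases c : x ∈ Y <;>
        by_cases d : mate x ∈ Y <;> simp [a, b, c, d, pm]

theorem MM_empty (mate : V → V) (hm : ∀ v, mate (mate v) = v) (X : Finset V) :
    MM mate X ∅ = if X = ∅ then 1 else 0 := by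
  split_ifs with h
  · subst h
    unfold MM
    apply prod_eq_one
    intro v _
    unfold mu
    simp [pm]
  · obtain ⟨x, hx⟩ := Finset.nonempty_iff_ne_empty.2 h
    rw [MM_eq mate X ∅ x]
    convert zero_mul _
    unfold rep mu
    by_cases h1 : x < mate x
    · have hne : mate x ≠ x := ne_of_gt h1
      rw [if_pos h1, if_neg hne, if_pos h1]
      by_cases b : mate x ∈ X <;> simp [hx, b, pm]
    · rw [if_neg h1]
      by_cases h2 : mate x = x
      · simp [h2, hx]
      · have h3 : mate x < x := lt_of_le_of_ne (not_lt.1 h1) h2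
        have hne' : x ≠ mate x := fun e => h2 e.symm
        rw [hm, if_neg hne', if_pos h3]
        by_cases b : mate x ∈ X <;> simp [hx, b, pm]

end Run7.h747
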