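import Mathlib

/-!
Sums of products over disjoint blocks, and the change of basis adapted to a pairing of the
vertices.
-/

set_option autoImplicit false

namespace Run7.h747

open Finset

section blocksum

variable {α ι R : Type*} [DecidableEq α] [DecidableEq ι] [CommSemiring R]

theorem sum_powerset_union (A B : Finset α) (h : Disjoint A B) (F : Finset α → R) :
    ∑ X ∈ (A ∪ B).powerset, F X = ∑ Z ∈ A.powerset, ∑ W ∈ B.powerset, F (Z ∪ W) := by
  rw [← Finset.sum_product']
  symm
  refine Finset.sum_nbij' (fun p => p.1 ∪ p.2) (fun X => (X ∩ A, X ∩ B)) ?_ ?_ ?_ ?_ ?_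
  · rintro ⟨Z, W⟩ hp
    simp only [mem_product, mem_powerset] at hp ⊢
    exact union_subset_union hp.1 hp.2
  · intro X _
    simp only [mem_product, mem_powerset]
    exact ⟨inter_subset_right, inter_subset_right⟩
  · rintro ⟨Z, W⟩ hp
    simp only [mem_product, mem_powerset] at hp
    simp only [Prod.mk.injEq]
    have hd := Finset.disjoint_left.1 h
    constructor
    · ext x
      simp only [mem_inter, mem_union]
      constructor
      · rintro ⟨h1 | h1, h2⟩
        · exact h1
        · exact absurd (hp.2 h1) (hd h2)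
      · intro h1; exact ⟨Or.inl h1, hp.1 h1⟩
    · ext x
      simp only [mem_inter, mem_union]
      constructor
      · rintro ⟨h1 | h1, h2⟩
        · exact absurd h2 (hd (hp.1 h1))
        · exact h1
      · intro h1; exact ⟨Or.inr h1, hp.2 h1⟩
  · intro X hX
    simp only [mem_powerset] at hX
    ext x
    simp only [mem_union, mem_inter]
    constructor
    · rintro (h1 | h1) <;> exact h1.1
    · intro h1
      have := hX h1
      rw [mem_union] at this
      rcases this with h2 | h2
      · exact Or.inl ⟨h1, h2⟩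
      · exact Or.inr ⟨h1, h2⟩
  · intro p _; rfl

theorem block_sum (I : Finset ι) (B : ι → Finset α)
    (hB : ∀ i ∈ I, ∀ j ∈ I, i ≠ j → Disjoint (B i) (B j)) (g : ι → Finset α → R) :
    ∑ X ∈ (I.biUnion B).powerset, ∏ i ∈ I, g i (X ∩ B i) =
      ∏ i ∈ I, ∑ Z ∈ (B i).powerset, g i Z := by
  induction I using Finset.induction_on with
  | empty => simp
  | insert i I hi ih =>
    have hB' : ∀ j ∈ I, ∀ k ∈ I, j ≠ k → Disjoint (B j) (B k) := fun j hj k hk =>
      hB j (mem_insert_of_mem hj) k (mem_insert_of_mem hk)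
    have hd : Disjoint (B i) (I.biUnion B) := by
      rw [disjoint_biUnion_right]
      intro j hj
      exact hB i (mem_insert_self _ _) j (mem_insert_of_mem hj) (fun e => hi (e ▸ hj))
    rw [biUnion_insert, sum_powerset_union _ _ hd, prod_insert hi, ← ih hB', sum_mul_sum]
    apply sum_congr rfl
    intro Z hZ
    apply sum_congr rfl
    intro W hW
    rw [mem_powerset] at hZ hW
    rw [prod_insert hi]
    have hdl := Finset.disjoint_left.1 hd
    congr 1
    · congr 1
      ext x
      simp only [mem_inter, mem_union]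
      constructor
      · rintro ⟨h1 | h1, h2⟩
        · exact h1
        · exact absurd (hW h1) (hdl h2)
      · intro h1; exact ⟨Or.inl h1, hZ h1⟩
    · apply prod_congr rfl
      intro j hj
      congr 1
      ext x
      simp only [mem_inter, mem_union]
      constructor
      · rintro ⟨h1 | h1, h2⟩
        · exact absurd (mem_biUnion.2 ⟨j, hj, h2⟩) (hdl (hZ h1))
        · exact ⟨h1, h2⟩
      · rintro ⟨h1, h2⟩; exact ⟨Or.inr h1, h2⟩

/-- The same, for all subsets of a finite type. -/
theorem block_sum_univ [Fintype α] (I : Finset ι) (B : ι → Finset α)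
    (hB : ∀ i ∈ I, ∀ j ∈ I, i ≠ j → Disjoint (B i) (B j)) (g : ι → Finset α → R) :
    ∑ X : Finset α, ∏ i ∈ I, g i (X ∩ B i) =
      (∏ i ∈ I, ∑ Z ∈ (B i).powerset, g i Z) *
        2 ^ (Fintype.card α - ∑ i ∈ I, (B i).card) := by
  have hU : (univ : Finset (Finset α)) = ((I.biUnion B) ∪ (I.biUnion B)ᶜ).powerset := by
    rw [union_compl]; ext x; simp
  have hd : Disjoint (I.biUnion B) (I.biUnion B)ᶜ := disjoint_compl_right
  rw [hU, sum_powerset_union _ _ hd]
  have h1 : ∀ Z ∈ (I.biUnion B).powerset, ∑ W ∈ ((I.biUnion B)ᶜ).powerset,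
      ∏ i ∈ I, g i ((Z ∪ W) ∩ B i) =
      (∏ i ∈ I, g i (Z ∩ B i)) * 2 ^ (Fintype.card α - ∑ i ∈ I, (B i).card) := by
    intro Z _
    have : ∀ W ∈ ((I.biUnion B)ᶜ).powerset,
        ∏ i ∈ I, g i ((Z ∪ W) ∩ B i) = ∏ i ∈ I, g i (Z ∩ B i) := by
      intro W hW
      rw [mem_powerset] at hW
      apply prod_congr rfl
      intro i hi
      congr 1
      ext x
      simp only [mem_inter, mem_union]
      constructor
      · rintro ⟨h1 | h1, h2⟩
        · exact ⟨h1, h2⟩
        · have := hW h1
          rw [mem_compl, mem_biUnion] at this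
          exact absurd ⟨i, hi, h2⟩ this
      · rintro ⟨h1, h2⟩; exact ⟨Or.inl h1, h2⟩
    rw [sum_congr rfl this, sum_const, card_powerset, card_compl,
      card_biUnion (fun i hi j hj hij => hB i hi j hj hij)]
    rw [nsmul_eq_mul, mul_comm]
    push_cast
    rfl
  rw [sum_congr rfl h1, ← sum_mul, block_sum I B hB]

end blocksum

end Run7.h747
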