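import Pool.Agent.Run7.h747.Touch

/-!
Counting the labels with a non-vanishing coefficient.
-/

set_option autoImplicit false

namespace Run7.h747

open Finset

variable {V : Type*} [Fintype V] [LinearOrder V]

open Classical in
theorem count_bound (s : V) {mate : V → V} {J : Finset V} {B : V → Finset V}
    (hB : ∀ v ∈ J, ∀ v' ∈ J, v ≠ v' → Disjoint (B v) (B v'))
    (hv : ∀ v ∈ J, v ∈ B v) (hmv : ∀ v ∈ J, mate v ∈ B v) {b : ℕ}
    (hb : ∀ v ∈ J, (B v).card ≤ b) {t : ℕ} {S : Finset (Finset V)}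
    (hS : ∀ X ∈ S, (∀ x ∈ X, s < x) ∧
      (J.filter (fun v => s < mate v ∧ X ∩ B v = {v})).card ≤ t) :
    (S.card : ℝ) ≤ 2 ^ t * (2 ^ (Fintype.card V) * (1 - (1 / 2) ^ (b + 1)) ^ J.card) := by
  set g : V → Finset V → ℝ := fun v Z =>
    if mate v ∈ Z ∧ ¬ s < mate v then 0 else if s < mate v ∧ Z = {v} then 1 / 2 else 1 with hg
  have hg0 : ∀ v Z, 0 ≤ g v Z := by
    intro v Z; simp only [hg]; split_ifs <;> norm_num
  have hg1 : ∀ v Z, g v Z ≤ 1 := by
    intro v Z; simp only [hg]; split_ifs <;> norm_num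
  have h1 : ∀ X ∈ S, (1 / 2 : ℝ) ^ t ≤ ∏ v ∈ J, g v (X ∩ B v) := by
    intro X hX
    obtain ⟨h1, h2⟩ := hS X hX
    have h3 : ∏ v ∈ J, g v (X ∩ B v) =
        ∏ v ∈ J, (if s < mate v ∧ X ∩ B v = {v} then (1 / 2 : ℝ) else 1) := by
      apply prod_congr rfl
      intro v _
      simp only [hg]
      rw [if_neg]
      rintro ⟨h4, h5⟩
      exact h5 (h1 _ (mem_inter.1 h4).1)
    rw [h3, ← prod_filter, prod_const]
    exact pow_le_pow_of_le_one (by norm_num) (by norm_num) h2
  have h2 : (S.card : ℝ) * (1 / 2) ^ t ≤ ∑ X : Finset V, ∏ v ∈ J, g v (X ∩ B v) := by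
    calc (S.card : ℝ) * (1 / 2) ^ t = ∑ X ∈ S, (1 / 2 : ℝ) ^ t := by
          rw [sum_const, nsmul_eq_mul]
      _ ≤ ∑ X ∈ S, ∏ v ∈ J, g v (X ∩ B v) := sum_le_sum h1
      _ ≤ ∑ X : Finset V, ∏ v ∈ J, g v (X ∩ B v) :=
          sum_le_sum_of_subset_of_nonneg (subset_univ _)
            (fun X _ _ => prod_nonneg (fun v _ => hg0 _ _))
  rw [block_sum_univ J B hB g] at h2
  have h3 : ∀ v ∈ J, ∑ Z ∈ (B v).powerset, g v Z ≤
      2 ^ (B v).card * (1 - (1 / 2 : ℝ) ^ (b + 1)) := by
    intro v hvJ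
    have key : ∃ Z0 ∈ (B v).powerset, g v Z0 ≤ 1 / 2 := by
      by_cases c : s < mate v
      · refine ⟨{v}, ?_, ?_⟩
        · rw [mem_powerset, singleton_subset_iff]; exact hv v hvJ
        · simp only [hg]
          rw [if_neg (fun h => h.2 c), if_pos (by exact ⟨c, trivial⟩)]
      · refine ⟨{mate v}, ?_, ?_⟩
        · rw [mem_powerset, singleton_subset_iff]; exact hmv v hvJ
        · simp only [hg]
          rw [if_pos ⟨mem_singleton_self _, c⟩]; norm_num
    obtain ⟨Z0, hZ0, hle⟩ := key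
    have e1 : ∑ Z ∈ (B v).powerset, g v Z ≤ (2 : ℝ) ^ (B v).card - 1 / 2 := by
      rw [← add_sum_erase _ _ hZ0]
      have : ∑ Z ∈ (B v).powerset.erase Z0, g v Z ≤ ∑ Z ∈ (B v).powerset.erase Z0, (1 : ℝ) :=
        sum_le_sum (fun Z _ => hg1 v Z)
      rw [sum_const, nsmul_eq_mul, mul_one, card_erase_of_mem hZ0, card_powerset] at this
      have h4 : ((2 ^ (B v).card - 1 : ℕ) : ℝ) = (2 : ℝ) ^ (B v).card - 1 := by
        rw [Nat.cast_sub Nat.one_le_two_pow]; push_cast; ring
      rw [h4] at this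
      linarith
    refine e1.trans ?_
    have e2 : (2 : ℝ) ^ (B v).card * (1 / 2) ^ (b + 1) ≤ 1 / 2 := by
      calc (2 : ℝ) ^ (B v).card * (1 / 2) ^ (b + 1) ≤ 2 ^ b * (1 / 2) ^ (b + 1) := by
            apply mul_le_mul_of_nonneg_right _ (by positivity)
            exact pow_le_pow_right₀ (by norm_num) (hb v hvJ)
        _ = 1 / 2 := by
            rw [pow_succ, ← mul_assoc, ← mul_pow]; norm_num
    nlinarith
  have h4 : ∏ v ∈ J, ∑ Z ∈ (B v).powerset, g v Z ≤
      ∏ v ∈ J, (2 ^ (B v).card * (1 - (1 / 2 : ℝ) ^ (b + 1))) :=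
    prod_le_prod (fun v _ => sum_nonneg (fun Z _ => hg0 _ _)) h3
  have h5 : ∑ v ∈ J, (B v).card ≤ Fintype.card V := by
    rw [← card_biUnion (fun i hi j hj hij => hB i hi j hj hij)]
    exact card_le_univ _
  have h6 : (S.card : ℝ) * (1 / 2) ^ t ≤
      2 ^ (Fintype.card V) * (1 - (1 / 2) ^ (b + 1)) ^ J.card := by
    refine h2.trans ?_
    calc (∏ v ∈ J, ∑ Z ∈ (B v).powerset, g v Z) * 2 ^ (Fintype.card V - ∑ v ∈ J, (B v).card)
        ≤ (∏ v ∈ J, (2 ^ (B v).card * (1 - (1 / 2 : ℝ) ^ (b + 1)))) *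
          2 ^ (Fintype.card V - ∑ v ∈ J, (B v).card) :=
          mul_le_mul_of_nonneg_right h4 (by positivity)
      _ = _ := by
          rw [prod_mul_distrib, prod_const, prod_pow_eq_pow_sum]
          have : (2 : ℝ) ^ (Fintype.card V) =
              2 ^ (∑ v ∈ J, (B v).card) * 2 ^ (Fintype.card V - ∑ v ∈ J, (B v).card) := by
            rw [← pow_add]; congr 1; omega
          rw [this]; ring
  have h7 : (S.card : ℝ) = 2 ^ t * ((S.card : ℝ) * (1 / 2) ^ t) := by
    have : (2 : ℝ) ^ t * (1 / 2) ^ t = 1 := by rw [← mul_pow]; norm_num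
    calc (S.card : ℝ) = (S.card : ℝ) * ((2 : ℝ) ^ t * (1 / 2) ^ t) := by rw [this, mul_one]
      _ = _ := by ring
  rw [h7]
  exact mul_le_mul_of_nonneg_left h6 (by positivity)

open Classical in
/-- Vertices in more than `K` of the sets `D v`, `v ∈ J0`. -/
noncomputable def hub (D : V → Finset V) (J0 : Finset V) (K : ℕ) : Finset V :=
  univ.filter (fun x => K < (J0.filter (fun v => x ∈ D v)).card)

theorem hub_closed {mate : V → V} (hm : ∀ v, mate (mate v) = v) {D : V → Finset V}
    (hDc : ∀ v, Closed mate (D v)) (J0 : Finset V) (K : ℕ) : Closed mate (hub D J0 K) := by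
  intro x hx
  unfold hub at hx ⊢
  rw [mem_filter] at hx ⊢
  refine ⟨mem_univ _, lt_of_lt_of_le hx.2 ?_⟩
  apply card_le_card
  intro v hv
  rw [mem_filter] at hv ⊢
  exact ⟨hv.1, hDc v x hv.2⟩

open Classical in
theorem choose_J {mate : V → V} (hm : ∀ v, mate (mate v) = v) {D : V → Finset V}
    {J0 : Finset V} (hJ0 : ∀ v ∈ J0, mate v < v) {e : ℕ} (he : ∀ v ∈ J0, (D v).card ≤ e)
    (K : ℕ) :
    ∃ J ⊆ J0, (∀ v ∈ J, ∀ v' ∈ J, v ≠ v' →
        Disjoint (blk mate v ∪ (D v \ hub D J0 K)) (blk mate v' ∪ (D v' \ hub D J0 K))) ∧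
      J0.card ≤ (e + 2) * (K + 1) * J.card := by
  set H := hub D J0 K with hH
  set B : V → Finset V := fun v => blk mate v ∪ (D v \ H) with hB
  have hne : (J0.powerset.filter (fun J => ∀ v ∈ J, ∀ v' ∈ J, v ≠ v' →
      Disjoint (B v) (B v'))).Nonempty := by
    refine ⟨∅, ?_⟩
    rw [mem_filter]
    exact ⟨empty_mem_powerset _, fun v hv => absurd hv (notMem_empty _)⟩
  obtain ⟨J, hJ, hmax⟩ := exists_max_image _ (fun J => J.card) hne
  rw [mem_filter, mem_powerset] at hJ
  obtain ⟨hsub, hdis⟩ := hJ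
  refine ⟨J, hsub, hdis, ?_⟩
  have hcov : J0 ⊆ (J.biUnion B).biUnion (fun x => J0.filter (fun v => x ∈ B v)) := by
    intro v hv
    rw [mem_biUnion]
    have hvB : v ∈ B v := by
      simp only [hB]; rw [mem_union]; left; unfold blk; simp
    by_cases hvJ : v ∈ J
    · exact ⟨v, mem_biUnion.2 ⟨v, hvJ, hvB⟩, mem_filter.2 ⟨hv, hvB⟩⟩
    · by_contra hcon
      push Not at hcon
      have hd : ∀ v' ∈ J, Disjoint (B v) (B v') := by
        intro v' hv'
        rw [disjoint_left]
        intro x hx hx'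
        exact hcon x (mem_biUnion.2 ⟨v', hv', hx'⟩) (mem_filter.2 ⟨hv, hx⟩)
      have := hmax (insert v J) (by
        rw [mem_filter, mem_powerset]
        refine ⟨insert_subset hv hsub, ?_⟩
        intro x hx y hy hxy
        rcases mem_insert.1 hx with rfl | hx' <;> rcases mem_insert.1 hy with rfl | hy'
        · exact absurd rfl hxy
        · exact hd y hy'
        · exact (hd x hx').symm
        · exact hdis x hx' y hy' hxy)
      rw [card_insert_of_notMem hvJ] at this
      omega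
  have h1 : ∀ x : V, (J0.filter (fun v => x ∈ B v)).card ≤ K + 1 := by
    intro x
    have hsub2 : J0.filter (fun v => x ∈ B v) ⊆ J0.filter (fun v => x ∈ blk mate v) ∪
        (if x ∈ H then ∅ else J0.filter (fun v => x ∈ D v)) := by
      intro v hv
      rw [mem_filter] at hv
      obtain ⟨hv1, hv2⟩ := hv
      simp only [hB] at hv2
      rw [mem_union] at hv2 ⊢
      rcases hv2 with h | h
      · left; exact mem_filter.2 ⟨hv1, h⟩
      · right
        rw [mem_sdiff] at h
        rw [if_neg h.2]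
        exact mem_filter.2 ⟨hv1, h.1⟩
    have h2 := card_le_card hsub2
    have h3 := card_union_le (J0.filter (fun v => x ∈ blk mate v))
      (if x ∈ H then ∅ else J0.filter (fun v => x ∈ D v))
    have h4 := card_blk_le_one hm J0 hJ0 x
    have h5 : (if x ∈ H then ∅ else J0.filter (fun v => x ∈ D v)).card ≤ K := by
      split_ifs with c
      · simp
      · rw [hH] at c
        unfold hub at c
        rw [mem_filter] at c
        by_contra h
        exact c ⟨mem_univ _, by omega⟩
    omega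
  have h2 : ∀ v ∈ J, (B v).card ≤ e + 2 := by
    intro v hv
    have h3 : (B v).card ≤ (blk mate v).card + (D v \ H).card := card_union_le _ _
    have h4 : (blk mate v).card ≤ 2 := card_le_two
    have h5 : (D v \ H).card ≤ e := (card_le_card sdiff_subset).trans (he v (hsub hv))
    omega
  calc J0.card ≤ ((J.biUnion B).biUnion (fun x => J0.filter (fun v => x ∈ B v))).card :=
        card_le_card hcov
    _ ≤ ∑ x ∈ J.biUnion B, (J0.filter (fun v => x ∈ B v)).card := card_biUnion_le
    _ ≤ ∑ x ∈ J.biUnion B, (K + 1) := sum_le_sum (fun x _ => h1 x)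
    _ = (J.biUnion B).card * (K + 1) := by rw [sum_const, smul_eq_mul]
    _ ≤ ((e + 2) * J.card) * (K + 1) := by
        apply Nat.mul_le_mul_right
        refine card_biUnion_le.trans ?_
        refine (sum_le_sum h2).trans ?_
        rw [sum_const, smul_eq_mul, mul_comm]
    _ = _ := by ring

open Classical in
theorem choose_K {D : V → Finset V} {J0 : Finset V} {e : ℕ} (he : ∀ v ∈ J0, (D v).card ≤ e)
    {κ : ℝ} (hκ : 0 < κ) {K0 : ℕ} (hK0 : (e : ℝ) < κ * ∑ K ∈ range K0, 1 / ((K : ℝ) + 1)) :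
    ∃ K < K0, ((K : ℝ) + 1) * (hub D J0 K).card ≤ κ * J0.card := by
  by_contra hcon
  push Not at hcon
  have h1 : ∑ K ∈ range K0, (hub D J0 K).card ≤ e * J0.card := by
    calc ∑ K ∈ range K0, (hub D J0 K).card
        = ∑ K ∈ range K0, ∑ x : V, (if K < (J0.filter (fun v => x ∈ D v)).card then 1 else 0) := by
          apply sum_congr rfl
          intro K _
          unfold hub
          rw [card_filter]
      _ = ∑ x : V, ∑ K ∈ range K0, (if K < (J0.filter (fun v => x ∈ D v)).card then 1 else 0) :=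
          sum_comm
      _ ≤ ∑ x : V, (J0.filter (fun v => x ∈ D v)).card := by
          apply sum_le_sum
          intro x _
          rw [← card_filter]
          calc ((range K0).filter (fun K => K < (J0.filter (fun v => x ∈ D v)).card)).card
              ≤ (range (J0.filter (fun v => x ∈ D v)).card).card := by
                apply card_le_card
                intro K hK
                rw [mem_filter] at hK
                rw [mem_range]; exact hK.2
            _ = _ := card_range _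
      _ = ∑ x : V, ∑ v ∈ J0, (if x ∈ D v then 1 else 0) := by
          apply sum_congr rfl
          intro x _
          rw [card_filter]
      _ = ∑ v ∈ J0, ∑ x : V, (if x ∈ D v then 1 else 0) := sum_comm
      _ = ∑ v ∈ J0, (D v).card := by
          apply sum_congr rfl
          intro v _
          rw [← card_filter]
          congr 1
          ext x; simp
      _ ≤ ∑ v ∈ J0, e := sum_le_sum he
      _ = e * J0.card := by rw [sum_const, smul_eq_mul, mul_comm]
  have h2 : (∑ K ∈ range K0, ((hub D J0 K).card : ℝ)) ≤ e * J0.card := by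
    exact_mod_cast h1
  have h3 : κ * J0.card * ∑ K ∈ range K0, 1 / ((K : ℝ) + 1) ≤
      ∑ K ∈ range K0, ((hub D J0 K).card : ℝ) := by
    rw [mul_sum]
    apply sum_le_sum
    intro K hK
    have h4 := hcon K (mem_range.1 hK)
    have h5 : (0 : ℝ) < (K : ℝ) + 1 := by positivity
    rw [mul_one_div, div_le_iff₀ h5]
    rw [mul_comm]
    linarith
  have hK0' : 0 < K0 := by
    rcases Nat.eq_zero_or_pos K0 with h | h
    · subst h
      simp only [range_zero, sum_empty, mul_zero] at hK0
      have : (0 : ℝ) ≤ e := Nat.cast_nonneg e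
      linarith
    · exact h
  rcases Nat.eq_zero_or_pos J0.card with h | h
  · have h4 := hcon 0 hK0'
    rw [h] at h4
    have h5 : J0 = ∅ := card_eq_zero.1 h
    have h6 : (hub D J0 0).card = 0 := by
      rw [card_eq_zero]
      unfold hub
      rw [h5]
      simp
    rw [h6] at h4
    simp at h4
  · have h' : (0 : ℝ) < J0.card := by exact_mod_cast h
    have : (e : ℝ) * J0.card < κ * J0.card * ∑ K ∈ range K0, 1 / ((K : ℝ) + 1) := by
      nlinarith
    linarith

theorem exists_K0 (e : ℕ) {κ : ℝ} (hκ : 0 < κ) :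
    ∃ K0 : ℕ, (e : ℝ) < κ * ∑ K ∈ range K0, 1 / ((K : ℝ) + 1) := by
  have h := Real.tendsto_sum_range_one_div_nat_succ_atTop
  obtain ⟨K0, hK0⟩ := (h.eventually (Filter.eventually_gt_atTop ((e : ℝ) / κ))).exists
  refine ⟨K0, ?_⟩
  rw [div_lt_iff₀ hκ] at hK0
  linarith

end Run7.h747
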