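import Pool.Agent.Run7.h747.Final

/-!
Walks as reversed lists, the coefficients of the dynamic programme, and when they vanish.
-/

set_option autoImplicit false

namespace Run7.h747

open Finset

variable {V : Type*} [Fintype V] [LinearOrder V]

/-- `l` is the reversed list of the vertices visited so far (a path that starts at `a` and uses
only vertices other than those `≤ s`), and `w` is the current vertex, adjacent to the head. -/
def PW (G : SimpleGraph V) (s a : V) : List V → V → Prop
  | [], w => w = a
  | x :: l, w => s < w ∧ G.Adj x w ∧ x ∉ l ∧ PW G s a l x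

open Classical in
/-- The lists of length `j`. -/
noncomputable def Lw (G : SimpleGraph V) (s a : V) : ℕ → V → Finset (List V)
  | 0, w => if w = a then {[]} else ∅
  | j + 1, w => if s < w then
      (univ.filter (fun x => G.Adj x w)).biUnion
        (fun x => ((Lw G s a j x).filter (fun l => x ∉ l)).image (List.cons x)) else ∅

open Classical in
/-- The coefficients of the dynamic programme. -/
noncomputable def Cc (G : SimpleGraph V) (s a : V) (mate : V → V) : ℕ → V → Finset V → ℤ
  | 0, w, X => if w = a ∧ X = ∅ then 1 else 0
  | j + 1, w, X => if s < w then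
      ∑ x ∈ univ.filter (fun x => G.Adj x w), pull mate x (Cc G s a mate j x) X else 0

theorem mem_Lw (G : SimpleGraph V) (s a : V) : ∀ (j : ℕ) (w : V) (l : List V),
    l ∈ Lw G s a j w ↔ l.length = j ∧ PW G s a l w := by
  classical
  intro j
  induction j with
  | zero =>
    intro w l
    unfold Lw
    by_cases h : w = a
    · rw [if_pos h, mem_singleton]
      constructor
      · rintro rfl; exact ⟨rfl, h⟩
      · rintro ⟨h1, _⟩; exact List.eq_nil_of_length_eq_zero h1
    · rw [if_neg h]
      simp only [notMem_empty, false_iff]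
      rintro ⟨h1, h2⟩
      have := List.eq_nil_of_length_eq_zero h1
      subst this
      exact h h2
  | succ j ih =>
    intro w l
    unfold Lw
    by_cases h : s < w
    · rw [if_pos h]
      simp only [mem_biUnion, mem_filter, mem_univ, true_and, mem_image]
      constructor
      · rintro ⟨x, hx, l', ⟨h1, h2⟩, rfl⟩
        rw [ih] at h1
        exact ⟨by simp [h1.1], h, hx, h2, h1.2⟩
      · rintro ⟨h1, h2⟩
        cases l with
        | nil => simp at h1
        | cons x l' =>
          obtain ⟨_, h3, h4, h5⟩ := h2
          refine ⟨x, h3, l', ⟨(ih x l').2 ⟨by simpa using h1, h5⟩, h4⟩, rfl⟩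
    · rw [if_neg h]
      simp only [notMem_empty, false_iff]
      rintro ⟨h1, h2⟩
      cases l with
      | nil => simp at h1
      | cons x l' => exact h h2.1

theorem Lw_zero (G : SimpleGraph V) (s a w : V) :
    Lw G s a 0 w = if w = a then {[]} else ∅ := rfl

open Classical in
theorem sum_Lw_succ (G : SimpleGraph V) (s a : V) (j : ℕ) (w : V) (F : List V → ℤ) :
    ∑ l ∈ Lw G s a (j + 1) w, F l = if s < w then
      ∑ x ∈ univ.filter (fun x => G.Adj x w),
        ∑ l ∈ (Lw G s a j x).filter (fun l => x ∉ l), F (x :: l) else 0 := by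
  by_cases h : s < w
  · rw [if_pos h]
    have : Lw G s a (j + 1) w = (univ.filter (fun x => G.Adj x w)).biUnion
        (fun x => ((Lw G s a j x).filter (fun l => x ∉ l)).image (List.cons x)) := by
      conv_lhs => unfold Lw
      rw [if_pos h]
    rw [this, sum_biUnion]
    · apply sum_congr rfl
      intro x _
      rw [sum_image]
      intro l _ l' _ e
      exact (List.cons.inj e).2
    · intro x _ y _ hxy
      rw [Function.onFun, disjoint_left]
      intro l hl hl'
      rw [mem_image] at hl hl'
      obtain ⟨l1, _, rfl⟩ := hl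
      obtain ⟨l2, _, e⟩ := hl'
      exact hxy (List.cons.inj e).1.symm
  · rw [if_neg h]
    have : Lw G s a (j + 1) w = ∅ := by
      conv_lhs => unfold Lw
      rw [if_neg h]
    rw [this, sum_empty]

theorem pull_sum {ι : Type*} (mate : V → V) (x : V) (S : Finset ι) (f : ι → Finset V → ℤ)
    (X : Finset V) :
    pull mate x (fun X => ∑ i ∈ S, f i X) X = ∑ i ∈ S, pull mate x (f i) X := by
  unfold pull
  rw [sum_add_distrib]
  congr 1
  · split_ifs
    · rfl
    · simp
  · split_ifs
    · rfl
    · rw [sum_neg_distrib]
    · simp

theorem Cc_eq (G : SimpleGraph V) (s a : V) {mate : V → V} (hm : ∀ v, mate (mate v) = v) :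
    ∀ (j : ℕ) (w : V) (X : Finset V),
      Cc G s a mate j w X = ∑ l ∈ Lw G s a j w, MM mate X l.toFinset := by
  classical
  intro j
  induction j with
  | zero =>
    intro w X
    unfold Cc
    rw [Lw_zero]
    by_cases h : w = a
    · rw [if_pos h, sum_singleton]
      simp only [h, true_and, List.toFinset_nil]
      rw [MM_empty mate hm]
    · rw [if_neg h, sum_empty, if_neg (fun h' => h h'.1)]
  | succ j ih =>
    intro w X
    rw [sum_Lw_succ]
    unfold Cc
    by_cases h : s < w
    · rw [if_pos h, if_pos h]
      apply sum_congr rfl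
      intro x _
      have : Cc G s a mate j x = fun X => ∑ l ∈ Lw G s a j x, MM mate X l.toFinset := by
        funext X; exact ih x X
      rw [this, pull_sum, sum_filter]
      apply sum_congr rfl
      intro l _
      rw [pull_MM hm]
      by_cases h1 : x ∈ l
      · rw [if_pos (by simpa using h1), if_neg (by simpa using h1)]
      · rw [if_neg (by simpa using h1), if_pos h1, List.toFinset_cons]
    · rw [if_neg h, if_neg h]

open Classical in
/-- The final sum counts the walks. -/
theorem final_sum (G : SimpleGraph V) (s a : V) {mate : V → V} (hm : ∀ v, mate (mate v) = v)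
    (j : ℕ) (w : V) :
    ∑ X : Finset V, (fin mate w X : ℤ) * Cc G s a mate j w X =
      (((Lw G s a j w).filter (fun l => w ∉ l)).card : ℤ) := by
  calc ∑ X : Finset V, (fin mate w X : ℤ) * Cc G s a mate j w X
      = ∑ X : Finset V, ∑ l ∈ Lw G s a j w, (fin mate w X : ℤ) * MM mate X l.toFinset := by
        apply sum_congr rfl
        intro X _
        rw [Cc_eq G s a hm, mul_sum]
    _ = ∑ l ∈ Lw G s a j w, ∑ X : Finset V, (fin mate w X : ℤ) * MM mate X l.toFinset :=
        sum_comm
    _ = ∑ l ∈ Lw G s a j w, if w ∈ l then 0 else 1 := by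
        apply sum_congr rfl
        intro l _
        rw [fin_sum hm]
        simp
    _ = _ := by
        rw [card_filter]
        push_cast
        apply sum_congr rfl
        intro l _
        split_ifs <;> simp_all

/-- A set of vertices that is a union of blocks. -/
def Closed (mate : V → V) (S : Finset V) : Prop := ∀ x ∈ S, mate x ∈ S

theorem swap_mem {mate : V → V} (hm : ∀ v, mate (mate v) = v) {S : Finset V}
    (hS : Closed mate S) (v x : V) : Equiv.swap v (mate v) x ∈ S ↔ x ∈ S := by
  by_cases h1 : x = v
  · subst h1
    rw [Equiv.swap_apply_left]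
    exact ⟨fun h => by rw [← hm x]; exact hS _ h, fun h => hS _ h⟩
  · by_cases h2 : x = mate v
    · subst h2
      rw [Equiv.swap_apply_right]
      exact ⟨fun h => hS _ h, fun h => by rw [← hm v]; exact hS _ h⟩
    · rw [Equiv.swap_apply_of_ne_of_ne h1 h2]

/-- The block of `v`. -/
def blk (mate : V → V) (v : V) : Finset V := {v, mate v}

theorem blk_closed {mate : V → V} (hm : ∀ v, mate (mate v) = v) (v : V) :
    Closed mate (blk mate v) := by
  intro x hx
  unfold blk at hx ⊢
  rw [mem_insert, mem_singleton] at hx ⊢
  rcases hx with rfl | rfl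
  · exact Or.inr rfl
  · exact Or.inl (hm v)

/-- No two consecutive elements of `w :: l` are one in the block of `v` and the other in `D v`. -/
def NC (mate : V → V) (D : V → Finset V) (v : V) : List V → V → Prop
  | [], _ => True
  | x :: l, w => ¬ (x ∈ blk mate v ∧ w ∈ D v) ∧ ¬ (w ∈ blk mate v ∧ x ∈ D v) ∧ NC mate D v l x

theorem NC_map {mate : V → V} (hm : ∀ v, mate (mate v) = v) {D : V → Finset V}
    (hD : ∀ v, Closed mate (D v)) (v v' : V) : ∀ (l : List V) (w : V),
    NC mate D v (l.map (Equiv.swap v' (mate v'))) (Equiv.swap v' (mate v') w) ↔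
      NC mate D v l w := by
  intro l
  induction l with
  | nil => intro w; exact Iff.rfl
  | cons x l ih =>
    intro w
    rw [List.map_cons]
    unfold NC
    rw [ih x, swap_mem hm (blk_closed hm v), swap_mem hm (blk_closed hm v),
      swap_mem hm (hD v), swap_mem hm (hD v)]

/-- Swapping the vertices of an untouched block in a walk gives a walk. -/
theorem PW_map {G : SimpleGraph V} {s a : V} {mate : V → V} (hm : ∀ v, mate (mate v) = v)
    {D : V → Finset V} {v : V}
    (hD : ∀ x, x ≠ v → x ≠ mate v → x ∉ D v → (G.Adj v x ↔ G.Adj (mate v) x))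
    (hav : a ≠ v) (ham : a ≠ mate v) (hsv : s < v) (hsm : s < mate v) :
    ∀ (l : List V) (w : V), PW G s a l w → NC mate D v l w →
      ¬ (v ∈ w :: l ∧ mate v ∈ w :: l) →
      PW G s a (l.map (Equiv.swap v (mate v))) (Equiv.swap v (mate v) w) := by
  intro l
  induction l with
  | nil =>
    intro w hw _ _
    have hw' : w = a := hw
    subst hw'
    show Equiv.swap v (mate v) w = w
    exact Equiv.swap_apply_of_ne_of_ne hav ham
  | cons x l ih =>
    intro w hw hn hb
    obtain ⟨h1, h2, h3, h4⟩ := hw
    obtain ⟨n1, n2, n3⟩ := hn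
    have hb' : ¬ (v ∈ x :: l ∧ mate v ∈ x :: l) := fun h =>
      hb ⟨List.mem_cons_of_mem _ h.1, List.mem_cons_of_mem _ h.2⟩
    rw [List.map_cons]
    refine ⟨?_, ?_, ?_, ih x h4 n3 hb'⟩
    · by_cases e1 : w = v
      · rw [e1, Equiv.swap_apply_left]; exact hsm
      · by_cases e2 : w = mate v
        · rw [e2, Equiv.swap_apply_right]; exact hsv
        · rw [Equiv.swap_apply_of_ne_of_ne e1 e2]; exact h1
    · have hne : x ≠ w := h2.ne
      unfold blk at n1 n2
      simp only [mem_insert, mem_singleton] at n1 n2
      by_cases e1 : w = v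
      · subst e1
        have hx1 : x ≠ mate w := by
          rintro rfl
          apply hb
          exact ⟨List.mem_cons_self, List.mem_cons_of_mem _ List.mem_cons_self⟩
        rw [Equiv.swap_apply_left, Equiv.swap_apply_of_ne_of_ne hne hx1]
        have hx2 : x ∉ D w := fun h => n2 ⟨Or.inl rfl, h⟩
        exact ((hD x hne hx1 hx2).1 h2.symm).symm
      · by_cases e2 : w = mate v
        · subst e2
          have hx1 : x ≠ v := by
            rintro rfl
            apply hb
            exact ⟨List.mem_cons_of_mem _ List.mem_cons_self, List.mem_cons_self⟩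
          rw [Equiv.swap_apply_right, Equiv.swap_apply_of_ne_of_ne hx1 hne]
          have hx2 : x ∉ D v := fun h => n2 ⟨Or.inr rfl, h⟩
          exact ((hD x hx1 hne hx2).2 h2.symm).symm
        · rw [Equiv.swap_apply_of_ne_of_ne e1 e2]
          by_cases e3 : x = v
          · subst e3
            rw [Equiv.swap_apply_left]
            have hx2 : w ∉ D x := fun h => n1 ⟨Or.inl rfl, h⟩
            exact (hD w e1 e2 hx2).1 h2
          · by_cases e4 : x = mate v
            · subst e4
              rw [Equiv.swap_apply_right]
              have hx2 : w ∉ D v := fun h => n1 ⟨Or.inr rfl, h⟩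
              exact (hD w e1 e2 hx2).2 h2
            · rw [Equiv.swap_apply_of_ne_of_ne e3 e4]; exact h2
    · intro h
      rw [List.mem_map] at h
      obtain ⟨y, hy, e⟩ := h
      have := (Equiv.swap v (mate v)).injective e
      rw [this] at hy
      exact h3 hy

end Run7.h747
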