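import Pool.Agent.Run7.h747.Cyc
import Pool.Agent.Run7.h747.Walk

/-!
Canonical cyclic sequences and walks.
-/

set_option autoImplicit false

namespace Run7.h747

open Finset

variable {V : Type*} [Fintype V] [LinearOrder V] {m : ℕ}

theorem PW_ofFn (G : SimpleGraph V) (s a : V) : ∀ (k : ℕ) (g : Fin k → V) (w : V),
    PW G s a (List.ofFn g) w ↔ (Function.Injective g ∧
      (∀ i : Fin k, G.Adj (g i) ((Fin.cons w g : Fin (k + 1) → V) i.castSucc)) ∧
      (∀ i : Fin k, s < (Fin.cons w g : Fin (k + 1) → V) i.castSucc) ∧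
      (Fin.cons w g : Fin (k + 1) → V) (Fin.last k) = a) := by
  intro k
  induction k with
  | zero =>
    intro g w
    rw [List.ofFn_zero]
    constructor
    · intro h
      have h' : w = a := h
      exact ⟨fun i => i.elim0, fun i => i.elim0, fun i => i.elim0, h'⟩
    · rintro ⟨_, _, _, h⟩
      exact h
  | succ k ih =>
    intro g w
    rw [List.ofFn_succ]
    have hg : (Fin.cons (g 0) (fun i : Fin k => g i.succ) : Fin (k + 1) → V) = g := by
      funext i
      refine Fin.cases ?_ (fun j => ?_) i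
      · rfl
      · rfl
    have ih' := ih (fun i => g i.succ) (g 0)
    rw [hg] at ih'
    have hPW : PW G s a (g 0 :: List.ofFn fun i => g i.succ) w ↔
        (s < w ∧ G.Adj (g 0) w ∧ g 0 ∉ List.ofFn (fun i => g i.succ) ∧
          PW G s a (List.ofFn fun i => g i.succ) (g 0)) := Iff.rfl
    rw [hPW, ih']
    have hinj : Function.Injective g ↔
        (g 0 ∉ List.ofFn (fun i => g i.succ) ∧ Function.Injective (fun i : Fin k => g i.succ)) := by
      rw [← hg, Fin.cons_injective_iff]
      simp only [Fin.cons_zero, Fin.cons_succ]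
      rw [List.mem_ofFn]
      exact Iff.rfl
    rw [hinj, Fin.forall_fin_succ, Fin.forall_fin_succ]
    have e1 : (Fin.cons w g : Fin (k + 1 + 1) → V) (Fin.castSucc 0) = w := rfl
    have e2 : ∀ i : Fin k, (Fin.cons w g : Fin (k + 1 + 1) → V) (i.succ).castSucc
        = g i.castSucc := fun i => rfl
    have e3 : (Fin.cons w g : Fin (k + 1 + 1) → V) (Fin.last (k + 1)) = g (Fin.last k) := rfl
    rw [e1, e3]
    simp only [e2]
    tauto

theorem neg_one_eq_last : (-1 : Fin (m + 3)) = Fin.last (m + 2) := by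
  rw [eq_comm, eq_neg_iff_add_eq_zero]
  exact Fin.last_add_one _

theorem can_iff (G : SimpleGraph V) (s w : V) (g : Fin (m + 1) → V) :
    Can G (Fin.cons s (Fin.cons w g) : Fin (m + 3) → V) ↔
      (s < g (Fin.last m) ∧ G.Adj s (g (Fin.last m)) ∧ g (Fin.last m) < w ∧ G.Adj w s ∧
        PW G s (g (Fin.last m)) (List.ofFn g) w ∧ w ∉ List.ofFn g) := by
  set f : Fin (m + 3) → V := Fin.cons s (Fin.cons w g) with hf
  have f0 : f 0 = s := rfl
  have f1 : f 1 = w := rfl
  have f2 : ∀ i : Fin (m + 1), f i.succ.succ = g i := fun _ => rfl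
  have fs : ∀ i : Fin (m + 2), f i.succ = (Fin.cons w g : Fin (m + 2) → V) i := fun _ => rfl
  have fl : f (-1) = g (Fin.last m) := by
    rw [neg_one_eq_last]
    exact f2 (Fin.last m)
  have fll : f (Fin.last (m + 2)) = g (Fin.last m) := f2 (Fin.last m)
  have hadj : (∀ i, G.Adj (f i) (f (i + 1))) ↔
      (G.Adj s w ∧ (∀ i : Fin (m + 1), G.Adj ((Fin.cons w g : Fin (m + 2) → V) i.castSucc) (g i)) ∧
        G.Adj (g (Fin.last m)) s) := by
    constructor
    · intro h
      refine ⟨?_, ?_, ?_⟩
      · have := h 0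
        rw [zero_add, f0, f1] at this
        exact this
      · intro i
        have := h (i.succ.castSucc)
        rw [Fin.coeSucc_eq_succ, f2] at this
        exact this
      · have := h (Fin.last (m + 2))
        rw [Fin.last_add_one, f0, fll] at this
        exact this
    · rintro ⟨h1, h2, h3⟩ i
      refine Fin.lastCases ?_ (fun j => ?_) i
      · rw [Fin.last_add_one, f0, fll]; exact h3
      · rw [Fin.coeSucc_eq_succ]
        refine Fin.cases ?_ (fun j' => ?_) j
        · exact h1
        · exact h2 j'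
  have hinj : Function.Injective f ↔ (s ∉ Set.range (Fin.cons w g : Fin (m + 2) → V) ∧
      (w ∉ Set.range g ∧ Function.Injective g)) := by
    rw [hf, Fin.cons_injective_iff, Fin.cons_injective_iff]
  have hmin : (∀ i : Fin (m + 3), i ≠ 0 → f 0 < f i) ↔
      (∀ i : Fin (m + 2), s < (Fin.cons w g : Fin (m + 2) → V) i) := by
    constructor
    · intro h i
      have := h i.succ (Fin.succ_ne_zero i)
      rw [f0, fs] at this
      exact this
    · intro h i hi
      obtain ⟨j, rfl⟩ := Fin.exists_succ_eq.2 hi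
      rw [f0, fs]; exact h j
  unfold Can IsCyc
  rw [hadj, hinj, hmin, fl, f1, PW_ofFn]
  constructor
  · rintro ⟨⟨⟨_, h2, h3⟩, h4, h5, h6⟩, h7, h8⟩
    refine ⟨h7 (Fin.last (m + 1)), h6.symm, h8, h4.symm, ⟨h3, fun i => (h5 i).symm,
      fun i => h7 i.castSucc, rfl⟩, ?_⟩
    intro h
    rw [List.mem_ofFn] at h
    exact h2 h
  · rintro ⟨h1, h2, h3, h4, ⟨h5, h6, h7, _⟩, h8⟩
    have hall : ∀ i : Fin (m + 2), s < (Fin.cons w g : Fin (m + 2) → V) i := by
      intro i
      refine Fin.lastCases ?_ (fun j => h7 j) i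
      exact h1
    refine ⟨⟨⟨?_, ?_, h5⟩, h4.symm, fun i => (h6 i).symm, h2.symm⟩, hall, h3⟩
    · rintro ⟨i, hi⟩
      have := hall i
      rw [hi] at this
      exact lt_irrefl _ this
    · intro h
      apply h8
      rw [List.mem_ofFn]
      exact h

open Classical in
theorem can_count (G : SimpleGraph V) :
    (univ.filter (fun f : Fin (m + 3) → V => Can G f)).card =
      ∑ s : V, ∑ a : V, ∑ w : V, if s < a ∧ G.Adj s a ∧ a < w ∧ G.Adj w s then
        ((Lw G s a (m + 1) w).filter (fun l => w ∉ l)).card else 0 := by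
  have h1 : (univ.filter (fun f : Fin (m + 3) → V => Can G f)).card =
      ∑ s : V, ∑ a : V, ∑ w : V, (univ.filter (fun f : Fin (m + 3) → V =>
        Can G f ∧ f 0 = s ∧ f (-1) = a ∧ f 1 = w)).card := by
    rw [card_eq_sum_card_fiberwise (f := fun f => f 0) (t := univ) (fun _ _ => mem_coe.2 (mem_univ _))]
    apply sum_congr rfl
    intro s _
    rw [card_eq_sum_card_fiberwise (f := fun f => f (-1)) (t := univ)
      (fun _ _ => mem_coe.2 (mem_univ _))]
    apply sum_congr rfl
    intro a _
    rw [card_eq_sum_card_fiberwise (f := fun f => f 1) (t := univ)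
      (fun _ _ => mem_coe.2 (mem_univ _))]
    apply sum_congr rfl
    intro w _
    congr 1
    ext f
    simp only [mem_filter, mem_univ, true_and]
    tauto
  rw [h1]
  apply sum_congr rfl
  intro s _
  apply sum_congr rfl
  intro a _
  apply sum_congr rfl
  intro w _
  have hsplit : ∀ f : Fin (m + 3) → V,
      f = Fin.cons (f 0) (Fin.cons (f 1) (fun i : Fin (m + 1) => f i.succ.succ)) := by
    intro f
    funext i
    refine Fin.cases rfl (fun j => ?_) i
    refine Fin.cases rfl (fun j' => rfl) j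
  have hlast : ∀ f : Fin (m + 3) → V, f (-1) = f (Fin.last m).succ.succ := by
    intro f; rw [neg_one_eq_last]; rfl
  split_ifs with hc
  · refine card_bij (fun f _ => List.ofFn (fun i : Fin (m + 1) => f i.succ.succ)) ?_ ?_ ?_
    · intro f hf
      rw [mem_filter] at hf
      obtain ⟨_, h2, h3, h4, h5⟩ := hf
      rw [hsplit f, can_iff] at h2
      obtain ⟨_, _, _, _, h6, h7⟩ := h2
      rw [mem_filter, mem_Lw]
      rw [← hlast f, h4, h3, h5] at h6
      rw [h5] at h7
      exact ⟨⟨List.length_ofFn, h6⟩, h7⟩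
    · intro f hf f' hf' h
      rw [mem_filter] at hf hf'
      have := List.ofFn_injective h
      rw [hsplit f, hsplit f', this, hf.2.2.1, hf'.2.2.1, hf.2.2.2.2, hf'.2.2.2.2]
    · intro l hl
      rw [mem_filter, mem_Lw] at hl
      obtain ⟨⟨h2, h3⟩, h4⟩ := hl
      obtain ⟨g, rfl⟩ : ∃ g : Fin (m + 1) → V, l = List.ofFn g := by
        refine ⟨fun i => l.get (Fin.cast h2.symm i), ?_⟩
        apply List.ext_getElem
        · rw [List.length_ofFn, h2]
        · intro i _ _
          rw [List.getElem_ofFn]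
          rfl
      have hlst : g (Fin.last m) = a := by
        have := (PW_ofFn G s a (m + 1) g w).1 h3
        exact this.2.2.2
      refine ⟨Fin.cons s (Fin.cons w g), ?_, ?_⟩
      · rw [mem_filter]
        refine ⟨mem_univ _, ?_, rfl, ?_, rfl⟩
        · rw [can_iff, hlst]
          exact ⟨hc.1, hc.2.1, hc.2.2.1, hc.2.2.2, h3, h4⟩
        · rw [hlast (Fin.cons s (Fin.cons w g))]; exact hlst
      · rfl
  · rw [card_eq_zero, filter_eq_empty_iff]
    rintro f _ ⟨h2, h3, h4, h5⟩
    apply hc
    rw [hsplit f, can_iff] at h2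
    obtain ⟨h6, h7, h8, h9, _, _⟩ := h2
    rw [← hlast f, h4, h3] at h6 h7
    rw [← hlast f, h4, h5] at h8
    rw [h3, h5] at h9
    exact ⟨h6, h7, h8, h9⟩

open Classical in
/-- The number of cycles of length `m + 3`. -/
theorem copyCount_walks (G : SimpleGraph V) :
    G.copyCount (SimpleGraph.cycleGraph (m + 3)) =
      ∑ s : V, ∑ a : V, ∑ w : V, if s < a ∧ G.Adj s a ∧ a < w ∧ G.Adj w s then
        ((Lw G s a (m + 1) w).filter (fun l => w ∉ l)).card else 0 := by
  rw [copyCount_eq, can_count]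

end Run7.h747
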