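import Mathlib

/-!
The number of edges of the unit distance graph of a set family of bounded dimension.
-/

set_option autoImplicit false

namespace Run7.h747

open Finset

variable {V : Type*} [Fintype V] [DecidableEq V]

/-- Lower end points of the edges in direction `a`. -/
def lowE (F : Finset (Finset V)) (a : V) : Finset (Finset V) :=
  F.filter (fun S => a ∉ S ∧ insert a S ∈ F)

theorem mem_lowE {F : Finset (Finset V)} {a : V} {S : Finset V} :
    S ∈ lowE F a ↔ S ∈ F ∧ a ∉ S ∧ insert a S ∈ F := by
  unfold lowE; rw [mem_filter]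

/-- Traces outside `x`. -/
def trE (F : Finset (Finset V)) (x : V) : Finset (Finset V) := F.image (fun S => S.erase x)

theorem card_split (F : Finset (Finset V)) (x : V) :
    F.card = (trE F x).card + (lowE F x).card := by
  have h1 : trE F x = F.filter (fun S => x ∉ S) ∪ (F.filter (fun S => x ∈ S)).image
      (fun S => S.erase x) := by
    ext S
    simp only [trE, mem_image, mem_union, mem_filter]
    constructor
    · rintro ⟨T, hT, rfl⟩
      by_cases h : x ∈ T
      · exact Or.inr ⟨T, ⟨hT, h⟩, rfl⟩
      · rw [erase_eq_of_notMem h]; exact Or.inl ⟨hT, h⟩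
    · rintro (⟨h1, h2⟩ | ⟨T, ⟨hT, _⟩, rfl⟩)
      · exact ⟨S, h1, erase_eq_of_notMem h2⟩
      · exact ⟨T, hT, rfl⟩
  have h2 : lowE F x = F.filter (fun S => x ∉ S) ∩ (F.filter (fun S => x ∈ S)).image
      (fun S => S.erase x) := by
    ext S
    simp only [mem_lowE, mem_inter, mem_filter, mem_image]
    constructor
    · rintro ⟨h1, h2, h3⟩
      exact ⟨⟨h1, h2⟩, insert x S, ⟨h3, mem_insert_self _ _⟩, erase_insert h2⟩
    · rintro ⟨⟨h1, h2⟩, T, ⟨hT, hxT⟩, rfl⟩
      exact ⟨h1, h2, by rw [insert_erase hxT]; exact hT⟩
  have h3 : ((F.filter (fun S => x ∈ S)).image (fun S => S.erase x)).card =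
      (F.filter (fun S => x ∈ S)).card := by
    apply card_image_of_injOn
    intro S hS T hT e
    simp only [coe_filter, Set.mem_setOf_eq] at hS hT
    have e' : S.erase x = T.erase x := e
    rw [← insert_erase hS.2, e', insert_erase hT.2]
  rw [h1, h2, card_union_add_card_inter, h3, add_comm, card_filter_add_card_filter_not]

theorem lowE_split (F : Finset (Finset V)) {x a : V} (hxa : a ≠ x) :
    (lowE F a).card ≤ (lowE (trE F x) a).card + (lowE (lowE F x) a).card := by
  set P0 := (lowE F a).filter (fun S => x ∉ S) with hP0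
  set P1 := ((lowE F a).filter (fun S => x ∈ S)).image (fun S => S.erase x) with hP1
  have h1 : P0 ∪ P1 ⊆ lowE (trE F x) a := by
    intro S hS
    rw [mem_union] at hS
    rw [mem_lowE]
    rcases hS with hS | hS
    · rw [hP0, mem_filter, mem_lowE] at hS
      obtain ⟨⟨b1, b2, b3⟩, b4⟩ := hS
      refine ⟨mem_image.2 ⟨S, b1, erase_eq_of_notMem b4⟩, b2, mem_image.2 ⟨insert a S, b3, ?_⟩⟩
      apply erase_eq_of_notMem
      rw [mem_insert]
      rintro (e | e)
      · exact hxa e.symm
      · exact b4 e
    · rw [hP1, mem_image] at hS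
      obtain ⟨T, hT, rfl⟩ := hS
      rw [mem_filter, mem_lowE] at hT
      obtain ⟨⟨b1, b2, b3⟩, b4⟩ := hT
      refine ⟨mem_image.2 ⟨T, b1, rfl⟩, fun h => b2 (mem_of_mem_erase h),
        mem_image.2 ⟨insert a T, b3, ?_⟩⟩
      rw [erase_insert_of_ne hxa]
  have h2 : P0 ∩ P1 ⊆ lowE (lowE F x) a := by
    intro S hS
    rw [mem_inter] at hS
    obtain ⟨h3, h4⟩ := hS
    rw [hP0, mem_filter, mem_lowE] at h3
    obtain ⟨⟨b1, b2, b3⟩, b4⟩ := h3
    rw [hP1, mem_image] at h4
    obtain ⟨T, hT, rfl⟩ := h4
    rw [mem_filter, mem_lowE] at hT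
    obtain ⟨⟨c1, c2, c3⟩, c4⟩ := hT
    rw [mem_lowE, mem_lowE, mem_lowE]
    refine ⟨⟨b1, b4, by rw [insert_erase c4]; exact c1⟩, b2, b3, ?_, ?_⟩
    · rw [mem_insert]
      rintro (e | e)
      · exact hxa e.symm
      · exact b4 e
    · have : insert x (insert a (T.erase x)) = insert a T := by
        rw [insert_comm, insert_erase c4]
      rw [this]; exact c3
  have h3 : P1.card = ((lowE F a).filter (fun S => x ∈ S)).card := by
    rw [hP1]
    apply card_image_of_injOn
    intro S hS T hT e
    simp only [coe_filter, Set.mem_setOf_eq] at hS hT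
    have e' : S.erase x = T.erase x := e
    rw [← insert_erase hS.2, e', insert_erase hT.2]
  have h4 : (lowE F a).card = P0.card + P1.card := by
    rw [h3, hP0, add_comm, card_filter_add_card_filter_not]
  rw [h4, ← card_union_add_card_inter]
  exact Nat.add_le_add (card_le_card h1) (card_le_card h2)

/-- The edges in directions from `E`. -/
theorem edge_bound (E : Finset V) : ∀ (F : Finset (Finset V)) (d : ℕ),
    (∀ B, B ⊆ E → F.Shatters B → B.card ≤ d) →
    ∑ a ∈ E, (lowE F a).card ≤ d * F.card := by
  induction E using Finset.induction_on with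
  | empty => intro F d _; simp
  | insert x E hx ih =>
    intro F d hF
    rw [sum_insert hx]
    have h1 : ∑ a ∈ E, (lowE F a).card ≤
        ∑ a ∈ E, (lowE (trE F x) a).card + ∑ a ∈ E, (lowE (lowE F x) a).card := by
      rw [← sum_add_distrib]
      apply sum_le_sum
      intro a ha
      apply lowE_split
      rintro rfl; exact hx ha
    have h2 : ∑ a ∈ E, (lowE (trE F x) a).card ≤ d * (trE F x).card := by
      apply ih
      intro B hB hsh
      apply hF B (hB.trans (subset_insert _ _))
      intro t ht
      obtain ⟨u, hu, e⟩ := hsh ht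
      obtain ⟨T, hT, rfl⟩ := mem_image.1 hu
      refine ⟨T, hT, ?_⟩
      rw [← e]
      ext y
      simp only [mem_inter, mem_erase]
      constructor
      · rintro ⟨b1, b2⟩
        refine ⟨b1, ?_, b2⟩
        rintro rfl; exact hx (hB b1)
      · rintro ⟨b1, _, b2⟩
        exact ⟨b1, b2⟩
    have h3 : (lowE F x).card + ∑ a ∈ E, (lowE (lowE F x) a).card ≤ d * (lowE F x).card := by
      by_cases hne : (lowE F x).Nonempty
      · have hx1 : ∀ B, B ⊆ E → (lowE F x).Shatters B → B.card + 1 ≤ d := by
          intro B hB hsh
          have hxB : x ∉ B := fun h => hx (hB h)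
          have := hF (insert x B) (insert_subset_insert _ hB) ?_
          · rw [card_insert_of_notMem hxB] at this
            exact this
          · intro t ht
            obtain ⟨u, hu, e⟩ := hsh (show t.erase x ⊆ B by
              intro y hy
              rw [mem_erase] at hy
              have := ht hy.2
              rw [mem_insert] at this
              rcases this with h | h
              · exact absurd h hy.1
              · exact h)
            rw [mem_lowE] at hu
            obtain ⟨b1, b2, b3⟩ := hu
            by_cases hxt : x ∈ t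
            · refine ⟨insert x u, b3, ?_⟩
              rw [← insert_inter_distrib, e, insert_erase hxt]
            · refine ⟨u, b1, ?_⟩
              rw [insert_inter_of_notMem b2, e, erase_eq_of_notMem hxt]
        have hd : 1 ≤ d := by
          have := hx1 ∅ (empty_subset _) (by
            intro t ht
            obtain ⟨u, hu⟩ := hne
            refine ⟨u, hu, ?_⟩
            rw [empty_inter]
            exact (subset_empty.1 ht).symm)
          simpa using this
        have h4 := ih (lowE F x) (d - 1) (fun B hB hsh => by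
          have := hx1 B hB hsh
          omega)
        calc (lowE F x).card + ∑ a ∈ E, (lowE (lowE F x) a).card
            ≤ (lowE F x).card + (d - 1) * (lowE F x).card := Nat.add_le_add_left h4 _
          _ = (d - 1 + 1) * (lowE F x).card := by ring
          _ = d * (lowE F x).card := by rw [Nat.sub_add_cancel hd]
      · rw [not_nonempty_iff_eq_empty] at hne
        rw [hne]
        simp [lowE]
    have h4 := card_split F x
    calc (lowE F x).card + ∑ a ∈ E, (lowE F a).card
        ≤ (lowE F x).card + (∑ a ∈ E, (lowE (trE F x) a).card +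
          ∑ a ∈ E, (lowE (lowE F x) a).card) := Nat.add_le_add_left h1 _
      _ = ∑ a ∈ E, (lowE (trE F x) a).card + ((lowE F x).card +
          ∑ a ∈ E, (lowE (lowE F x) a).card) := by ring
      _ ≤ d * (trE F x).card + d * (lowE F x).card := Nat.add_le_add h2 h3
      _ = d * F.card := by rw [h4]; ring

/-- The weighted version. -/
theorem weight_bound (E : Finset V) (W : Finset (Finset V)) (g : Finset V → ℕ) (d : ℕ)
    (hW : ∀ S, g S ≠ 0 → S ∈ W)
    (hd : ∀ B, B ⊆ E → W.Shatters B → B.card ≤ d) :
    ∑ a ∈ E, ∑ S ∈ W.filter (fun S => a ∉ S), min (g S) (g (insert a S)) ≤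
      d * ∑ S ∈ W, g S := by
  set T := ∑ S ∈ W, g S with hT
  have hgT : ∀ S, g S ≤ T := by
    intro S
    by_cases h : g S = 0
    · rw [h]; exact Nat.zero_le _
    · exact single_le_sum (f := g) (fun _ _ => Nat.zero_le _) (hW S h)
  have hlay : ∀ S, g S = ∑ t ∈ range T, if t < g S then 1 else 0 := by
    intro S
    rw [← card_filter]
    have : (range T).filter (fun t => t < g S) = range (g S) := by
      ext t
      simp only [mem_filter, mem_range]
      have := hgT S
      omega
    rw [this, card_range]
  have hmin : ∀ S a, min (g S) (g (insert a S)) =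
      ∑ t ∈ range T, if t < g S ∧ t < g (insert a S) then 1 else 0 := by
    intro S a
    rw [← card_filter]
    have : (range T).filter (fun t => t < g S ∧ t < g (insert a S)) =
        range (min (g S) (g (insert a S))) := by
      ext t
      simp only [mem_filter, mem_range, lt_min_iff]
      have := hgT S
      omega
    rw [this, card_range]
  have hF : ∀ t, ∑ a ∈ E, (lowE (W.filter (fun S => t < g S)) a).card ≤
      d * (W.filter (fun S => t < g S)).card := by
    intro t
    apply edge_bound
    intro B hB hsh
    apply hd B hB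
    intro s hs
    obtain ⟨u, hu, e⟩ := hsh hs
    exact ⟨u, (mem_filter.1 hu).1, e⟩
  have h1 : ∑ a ∈ E, ∑ S ∈ W.filter (fun S => a ∉ S), min (g S) (g (insert a S)) =
      ∑ t ∈ range T, ∑ a ∈ E, (lowE (W.filter (fun S => t < g S)) a).card := by
    rw [sum_comm (s := range T)]
    apply sum_congr rfl
    intro a _
    have : ∀ t, (lowE (W.filter (fun S => t < g S)) a).card =
        ∑ S ∈ W.filter (fun S => a ∉ S), if t < g S ∧ t < g (insert a S) then 1 else 0 := by
      intro t
      rw [← card_filter]
      congr 1
      ext S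
      simp only [mem_lowE, mem_filter]
      constructor
      · rintro ⟨⟨b1, b2⟩, b3, b4, b5⟩
        exact ⟨⟨b1, b3⟩, b2, b5⟩
      · rintro ⟨⟨b1, b3⟩, b2, b5⟩
        exact ⟨⟨b1, b2⟩, b3, hW _ (by omega), b5⟩
    rw [sum_congr rfl (fun t _ => this t), sum_comm]
    apply sum_congr rfl
    intro S _
    exact hmin S a
  rw [h1]
  calc ∑ t ∈ range T, ∑ a ∈ E, (lowE (W.filter (fun S => t < g S)) a).card
      ≤ ∑ t ∈ range T, d * (W.filter (fun S => t < g S)).card := sum_le_sum (fun t _ => hF t)
    _ = d * ∑ t ∈ range T, ∑ S ∈ W, (if t < g S then 1 else 0) := by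
        rw [← mul_sum]
        congr 1
        apply sum_congr rfl
        intro t _
        rw [card_filter]
    _ = d * ∑ S ∈ W, g S := by
        rw [sum_comm]
        congr 1
        apply sum_congr rfl
        intro S _
        exact (hlay S).symm

end Run7.h747
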