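import Pool.Agent.TH687.DCS.Fill

/-!
Coding of subsets of `Fin n` by numbers, and memory blocks.
-/

set_option autoImplicit false

namespace Run7.h747

open Finset Pool.Agent.H588R2 Pool.Agent.TH687.HL Pool.Agent.TH687.DCS

variable {n : ℕ}

/-- Code of the part of `X` below `k`. -/
def encK (X : Finset (Fin n)) (k : ℕ) : ℕ := ∑ v ∈ X.filter (fun v : Fin n => (v : ℕ) < k), 2 ^ (v : ℕ)

/-- Code of `X`. -/
def enc (X : Finset (Fin n)) : ℕ := ∑ v ∈ X, 2 ^ (v : ℕ)

theorem encK_n (X : Finset (Fin n)) : encK X n = enc X := by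
  unfold encK enc
  rw [filter_true_of_mem (fun v _ => v.2)]

theorem encK_zero (X : Finset (Fin n)) : encK X 0 = 0 := by
  unfold encK
  rw [filter_false_of_mem (fun (v : Fin n) _ => Nat.not_lt_zero _), sum_empty]

theorem encK_succ (X : Finset (Fin n)) {k : ℕ} (hk : k < n) :
    encK X (k + 1) = encK X k + if (⟨k, hk⟩ : Fin n) ∈ X then 2 ^ k else 0 := by
  unfold encK
  by_cases h : (⟨k, hk⟩ : Fin n) ∈ X
  · rw [if_pos h]
    have : X.filter (fun v : Fin n => (v : ℕ) < k + 1) =
        insert ⟨k, hk⟩ (X.filter (fun v : Fin n => (v : ℕ) < k)) := by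
      ext v
      simp only [mem_filter, mem_insert, Fin.ext_iff]
      constructor
      · rintro ⟨h1, h2⟩
        by_cases h3 : (v : ℕ) = k
        · exact Or.inl h3
        · exact Or.inr ⟨h1, by omega⟩
      · rintro (h1 | ⟨h1, h2⟩)
        · have : v = ⟨k, hk⟩ := Fin.ext h1
          rw [this]; exact ⟨h, by simp⟩
        · exact ⟨h1, by omega⟩
    rw [this, sum_insert (by simp), add_comm]
  · rw [if_neg h, add_zero]
    apply sum_congr _ (fun _ _ => rfl)
    ext v
    simp only [mem_filter]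
    constructor
    · rintro ⟨h1, h2⟩
      refine ⟨h1, ?_⟩
      by_contra h3
      apply h
      have : (⟨k, hk⟩ : Fin n) = v := Fin.ext (by simp; omega)
      rw [this]; exact h1
    · rintro ⟨h1, h2⟩
      exact ⟨h1, by omega⟩

theorem encK_lt (X : Finset (Fin n)) : ∀ {k : ℕ}, k ≤ n → encK X k < 2 ^ k := by
  intro k
  induction k with
  | zero => intro _; rw [encK_zero]; simp
  | succ k ih =>
    intro h
    have := ih (by omega)
    rw [encK_succ X (by omega), pow_succ]
    split_ifs <;> omega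

theorem enc_lt (X : Finset (Fin n)) : enc X < 2 ^ n := by
  rw [← encK_n]; exact encK_lt X le_rfl

theorem encK_inj {X Y : Finset (Fin n)} : ∀ {k : ℕ}, k ≤ n → encK X k = encK Y k →
    ∀ v : Fin n, (v : ℕ) < k → (v ∈ X ↔ v ∈ Y) := by
  intro k
  induction k with
  | zero => intro _ _ v hv; omega
  | succ k ih =>
    intro h e v hv
    have h1 := encK_lt X (show k ≤ n by omega)
    have h2 := encK_lt Y (show k ≤ n by omega)
    rw [encK_succ X (show k < n by omega), encK_succ Y (show k < n by omega)] at e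
    have e2 : encK X k = encK Y k ∧ ((⟨k, by omega⟩ : Fin n) ∈ X ↔ (⟨k, by omega⟩ : Fin n) ∈ Y) := by
      by_cases a : (⟨k, by omega⟩ : Fin n) ∈ X <;> by_cases b : (⟨k, by omega⟩ : Fin n) ∈ Y
      · rw [if_pos a, if_pos b] at e; exact ⟨by omega, by simp [a, b]⟩
      · rw [if_pos a, if_neg b] at e; omega
      · rw [if_neg a, if_pos b] at e; omega
      · rw [if_neg a, if_neg b] at e; exact ⟨by omega, by simp [a, b]⟩
    by_cases h3 : (v : ℕ) = k
    · have : v = ⟨k, by omega⟩ := Fin.ext h3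
      rw [this]; exact e2.2
    · exact ih (by omega) e2.1 v (by omega)

theorem enc_inj {X Y : Finset (Fin n)} (h : enc X = enc Y) : X = Y := by
  rw [← encK_n, ← encK_n] at h
  ext v
  exact encK_inj le_rfl h v v.2

theorem enc_insert {X : Finset (Fin n)} {v : Fin n} (h : v ∉ X) :
    enc (insert v X) = enc X + 2 ^ (v : ℕ) := by
  unfold enc
  rw [sum_insert h, add_comm]

theorem enc_empty : enc (∅ : Finset (Fin n)) = 0 := by
  unfold enc; rw [sum_empty]

/-- Index of an entry. -/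
def ix (p : Finset (Fin n) × Fin n) : ℕ := enc p.1 * n + p.2

theorem ix_lt (p : Finset (Fin n) × Fin n) : ix p < 2 ^ n * n := by
  unfold ix
  have h1 := enc_lt p.1
  have h2 := p.2.2
  calc enc p.1 * n + p.2 < enc p.1 * n + n := by omega
    _ = (enc p.1 + 1) * n := by ring
    _ ≤ 2 ^ n * n := Nat.mul_le_mul_right _ h1

theorem ix_inj {p q : Finset (Fin n) × Fin n} (h : ix p = ix q) : p = q := by
  unfold ix at h
  have h1 := p.2.2
  have h2 := q.2.2
  obtain ⟨a, b⟩ := cell_inj h1 h2 h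
  exact Prod.ext (enc_inj a) (Fin.ext b)

theorem bl_set {M x v q X : ℕ} {s : St} : bl M (s.set x v) q X = bl M s q X := rfl

theorem bl_put {M v q X q' X' : ℕ} {s : St} (hX : X < M) (hX' : X' < M) :
    bl M (put s (q * M + X) v) q' X' = if q' = q ∧ X' = X then v else bl M s q' X' := by
  unfold bl put
  simp only []
  by_cases h : q' = q ∧ X' = X
  · rw [if_pos h, h.1, h.2, Function.update_self]
  · rw [if_neg h, Function.update_of_ne]
    intro e
    exact h (cell_inj hX' hX e)

theorem keep_put {M v q X : ℕ} {s : St} {P : ℕ → Prop} (hX : X < M) (hq : P q) :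
    Keep M P s (put s (q * M + X) v) := by
  intro a ha
  unfold put
  simp only []
  rw [Function.update_of_ne]
  intro e
  apply ha
  rw [e, Nat.mul_comm, Nat.mul_add_div (by omega), Nat.div_eq_of_lt hX, Nat.add_zero]
  exact hq

/-- Numerical parameters. -/
structure Par (n w Big Md Qm : ℕ) : Prop where
  n3 : 3 ≤ n
  big : Big = 2 ^ n * (n + 1)
  md : Md = (n + 1) ^ n
  mw : Md + Md ≤ 2 ^ w
  qw : Qm * Big ≤ 2 ^ w
  q4 : 4 * n * (n * n) + 16 ≤ Qm

theorem Par.nb {n w Big Md Qm : ℕ} (h : Par n w Big Md Qm) : 2 ^ n * n ≤ Big := by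
  rw [h.big]; exact Nat.mul_le_mul_left _ (by omega)

theorem Par.nn {n w Big Md Qm : ℕ} (h : Par n w Big Md Qm) : n * n ≤ Big := by
  have := h.nb
  have h2 : n ≤ 2 ^ n := Nat.lt_two_pow_self.le
  exact (Nat.mul_le_mul_right n h2).trans this

theorem Par.n1b {n w Big Md Qm : ℕ} (h : Par n w Big Md Qm) : n < Big := by
  have := h.n3
  have h1 := h.nn
  nlinarith

theorem Par.pb {n w Big Md Qm : ℕ} (h : Par n w Big Md Qm) : 2 ^ n ≤ Big := by
  rw [h.big]; exact Nat.le_mul_of_pos_right _ (by omega)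

theorem Par.bpos {n w Big Md Qm : ℕ} (h : Par n w Big Md Qm) : 0 < Big := by
  have := h.n1b
  omega

theorem Par.qpos {n w Big Md Qm : ℕ} (h : Par n w Big Md Qm) : 8 ≤ Qm := by
  have := h.q4
  omega

theorem Par.bw {n w Big Md Qm : ℕ} (h : Par n w Big Md Qm) : 8 * Big ≤ 2 ^ w :=
  (Nat.mul_le_mul_right _ h.qpos).trans h.qw

theorem Par.qq {n w Big Md Qm : ℕ} (h : Par n w Big Md Qm) : Qm ≤ 2 ^ w := by
  have h1 := h.qw
  have h2 := h.bpos
  exact (Nat.le_mul_of_pos_right _ h2).trans h1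

theorem Par.mpos {n w Big Md Qm : ℕ} (h : Par n w Big Md Qm) : 1 < Md := by
  rw [h.md]
  have := h.n3
  exact Nat.one_lt_pow (by omega) (by omega)

/-- Store address. -/
theorem cell_ok {w M Qm : ℕ} {q x : Ex} {s : St} (hM : s.reg 2 = M) (hMz : M < 2 ^ w)
    (hQM : Qm * M ≤ 2 ^ w) (hqo : q.ok w s) (hxo : x.ok w s) (hq : q.ev s < Qm)
    (hx : x.ev s < M) : (cell q x).ok w s := by
  have hb : q.ev s * M + x.ev s < Qm * M := by
    calc q.ev s * M + x.ev s < q.ev s * M + M := by omega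
      _ = (q.ev s + 1) * M := by ring
      _ ≤ Qm * M := Nat.mul_le_mul_right _ hq
  refine ⟨⟨hqo, ?_, ?_⟩, hxo, ?_⟩
  · simp only [Ex.ok, hM]; exact hMz
  · simp only [Ex.ev, hM]; omega
  · simp only [Ex.ev, hM]; omega

end Run7.h747
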