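import Pool.Agent.Run7.h747.Level

/-!
Accumulating the last level.
-/

set_option autoImplicit false

namespace Run7.h747

open Finset Pool.Agent.H588R2 Pool.Agent.TH687.HL Pool.Agent.TH687.DCS

variable {n : ℕ}

/-- Register `x` := reduced sum of the registers `y` and `z`. -/
def adm (x y z : ℕ) : HC := .seq (.asg 25 (.add (.r y) (.r z)))
  (.ite (.r 25) (.r 3) (.asg x (.r 25)) (.asg x (.sub (.r 25) (.r 3))))

theorem tr_adm {w Big Md Qm : ℕ} {s : St} (hp : Par n w Big Md Qm)
    (hr : Rg n Big Md s) (x y z : ℕ) (hy : s.reg y < Md)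
    (hz : s.reg z < Md) {Q : St → Prop}
    (h : ∀ s', s'.mem = s.mem → s'.reg x = am Md (s.reg y) (s.reg z) →
      (∀ v, v ≠ x → v ≠ 25 → s'.reg v = s.reg v) → Q s') :
    Tr w (adm x y z) s 40 Q := by
  have hmw := hp.mw
  unfold adm
  apply tr_asgs (s.reg y + s.reg z) (by simp only [Ex.ok, Ex.ev]; omega) (by simp only [Ex.ev])
    (by simp only [Ex.cost]; omega)
  intro s1 m1 e1 f1
  have a3 : s1.reg 3 = Md := by rw [f1 3 (by decide), hr.r3]
  have o25 : (Ex.r 25).ok w s1 := by simp only [Ex.ok, e1]; omega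
  have o3 : (Ex.r 3).ok w s1 := by simp only [Ex.ok, a3]; omega
  apply Tr.ite (T := 20) o25 o3 (by simp only [Ex.cost]; omega)
  · intro hlt
    simp only [Ex.ev, e1, a3] at hlt
    apply tr_asg (am Md (s.reg y) (s.reg z)) o25
      (by simp only [Ex.ev, e1]; unfold am; rw [if_pos hlt]) (by simp only [Ex.cost]; omega)
    intro s2 m2 e2 f2
    exact h s2 (m2.trans m1) e2 (fun v h1 h2 => by rw [f2 v h1, f1 v h2])
  · intro hlt
    simp only [Ex.ev, e1, a3] at hlt
    apply tr_asg (e := .sub (.r 25) (.r 3)) (am Md (s.reg y) (s.reg z)) ⟨o25, o3⟩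
      (by simp only [Ex.ev, e1, a3]; unfold am; rw [if_neg hlt]) (by simp only [Ex.cost]; omega)
    intro s2 m2 e2 f2
    exact h s2 (m2.trans m1) e2 (fun v h1 h2 => by rw [f2 v h1, f1 v h2])

/-- Absolute difference. -/
def ad (a b : Ex) : Ex := .add (.sub a b) (.sub b a)

theorem ad_ok {w : ℕ} {a b : Ex} {s : St} (ha : a.ok w s) (hb : b.ok w s) : (ad a b).ok w s := by
  have h1 := Ex.ev_lt a ha
  have h2 := Ex.ev_lt b hb
  refine ⟨⟨ha, hb⟩, ⟨hb, ha⟩, ?_⟩
  simp only [Ex.ev]
  omega

theorem ad_pos {a b : Ex} {s : St} {A B : ℕ} (ha : a.ev s = A) (hb : b.ev s = B) :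
    0 < (ad a b).ev s ↔ A ≠ B := by
  simp only [ad, Ex.ev, ha, hb]
  omega

/-- Zero the value if the entry is killed. -/
def kill : HC := .ite (.r 16) (.c 1) .skip
  (.ite (.r 13) (.r 15) (.ite (.r 17) (.c 1) .skip (.asg 14 (.c 0))) (.asg 14 (.c 0)))

theorem tr_kill {w Big Md Qm : ℕ} {mate : Fin n → Fin n} {s : St} (hp : Par n w Big Md Qm)
    (X : Finset (Fin n)) (x : Fin n) (c : ℕ) (r13 : s.reg 13 = x) (r15 : s.reg 15 = mate x)
    (r14 : s.reg 14 = c)
    (r16 : s.reg 16 = if x ∈ X then 1 else 0) (r17 : s.reg 17 = if mate x ∈ X then 1 else 0) :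
    Tr w kill s 40 (fun s' => s'.mem = s.mem ∧
      s'.reg 14 = if Killed mate x X then 0 else c) := by
  have h8 := hp.bw
  have hnB := hp.n1b
  have hn3 := hp.n3
  have hn1 : n < 2 ^ w := by omega
  have hx := x.2
  have hmx := (mate x).2
  have oc : ∀ (s : St) (k : ℕ), k < 8 → (Ex.c k).ok w s := by
    intro s k hk; simp only [Ex.ok]; omega
  unfold kill
  have hskip : ¬ Killed mate x X → (s.mem = s.mem ∧
      s.reg 14 = if Killed mate x X then 0 else c) := by
    intro h; rw [if_neg h]; exact ⟨rfl, r14⟩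
  apply Tr.ite (T := 30) (by simp only [Ex.ok, r16]; split_ifs <;> omega) (oc _ _ (by omega))
    (by decide)
  · intro h
    simp only [Ex.ev, r16] at h
    have hxX : x ∉ X := by
      intro hxX; rw [if_pos hxX] at h; omega
    exact Tr.skip (hskip (fun h => hxX h.1))
  · intro h
    simp only [Ex.ev, r16] at h
    have hxX : x ∈ X := by
      by_contra hxX; rw [if_neg hxX] at h; omega
    apply Tr.ite (T := 20) (by simp only [Ex.ok, r13]; omega) (by simp only [Ex.ok, r15]; omega)
      (by decide)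
    · intro h
      simp only [Ex.ev, r13, r15] at h
      have hxm : x < mate x := h
      apply Tr.ite (T := 10) (by simp only [Ex.ok, r17]; split_ifs <;> omega) (oc _ _ (by omega))
        (by decide)
      · intro h
        simp only [Ex.ev, r17] at h
        have hmX : mate x ∉ X := by
          intro hxX; rw [if_pos hxX] at h; omega
        exact Tr.skip (hskip (fun h => hmX (h.2 hxm)))
      · intro h
        simp only [Ex.ev, r17] at h
        have hmX : mate x ∈ X := by
          by_contra hxX; rw [if_neg hxX] at h; omega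
        apply tr_asg 0 (oc _ _ (by omega)) rfl (by decide)
        intro s1 m1 e1 _
        refine ⟨m1, ?_⟩
        rw [if_pos ⟨hxX, fun _ => hmX⟩]; exact e1
    · intro h
      simp only [Ex.ev, r13, r15] at h
      have hxm : ¬ x < mate x := h
      apply tr_asg 0 (oc _ _ (by omega)) rfl (by decide)
      intro s1 m1 e1 _
      refine ⟨m1, ?_⟩
      rw [if_pos ⟨hxX, fun h => absurd h hxm⟩]; exact e1

/-- Double the value for every suitable pair. -/
def dbl : HC := .loop 26 0 (.seq (.asg 23 (rd (.c 1) (.r 26)))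
  (.ite (.r 26) (.r 23) (.ite (.c 0) (ad (.r 26) (.r 13)) (.ite (.c 0) (ad (.r 23) (.r 13))
    (.ite (.c 0) (rd (.c 3) (.r 26)) (.ite (rd (.c 3) (.r 23)) (.c 1) (adm 14 14 14)
      .skip) .skip) .skip) .skip) .skip))

theorem filt_succ {k : ℕ} (hk : k < n) : (univ.filter (fun v : Fin n => (v : ℕ) < k + 1)) =
    insert ⟨k, hk⟩ (univ.filter (fun v : Fin n => (v : ℕ) < k)) := by
  ext v
  simp only [mem_filter, mem_univ, true_and, mem_insert, Fin.ext_iff]
  omega

theorem filt_not {k : ℕ} (hk : k < n) :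
    (⟨k, hk⟩ : Fin n) ∉ (univ.filter (fun v : Fin n => (v : ℕ) < k)) := by
  simp

theorem tr_dbl {w Big Md Qm : ℕ} {G : SimpleGraph (Fin n)} {mate : Fin n → Fin n} {s : St}
    (hp : Par n w Big Md Qm) (hE : Env G mate Big Md s) (X : Finset (Fin n)) (x : Fin n) (c : ℕ)
    (hc : c < Md) (r13 : s.reg 13 = x) (r14 : s.reg 14 = c)
    (hb3 : ∀ v : Fin n, bl Big s 3 v = if v ∈ X then 1 else 0) :
    Tr w dbl s (200 * n) (fun s' => s'.mem = s.mem ∧ s'.reg 14 < Md ∧
      ((s'.reg 14 : ℕ) : ZMod Md) = c * ∏ v : Fin n,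
        (if v < mate v ∧ v ≠ x ∧ mate v ≠ x ∧ v ∈ X ∧ mate v ∉ X then 2 else 1)) := by
  have h8 := hp.bw
  have hnB := hp.n1b
  have hn3 := hp.n3
  have hmw := hp.mw
  have hq8 := hp.qpos
  have hn1 : n < 2 ^ w := by omega
  have hx := x.2
  have oc : ∀ (s : St) (k : ℕ), k < 8 → (Ex.c k).ok w s := by
    intro s k hk; simp only [Ex.ok]; omega
  unfold dbl
  refine Tr.loop (fun i s' => s'.mem = s.mem ∧ s'.reg 14 < Md ∧
      ((s'.reg 14 : ℕ) : ZMod Md) = c * ∏ v ∈ univ.filter (fun v : Fin n => (v : ℕ) < i),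
        (if v < mate v ∧ v ≠ x ∧ mate v ≠ x ∧ v ∈ X ∧ mate v ∉ X then 2 else 1)) 150
    hE.rg.r0 hn1 (by omega) (by omega) ?_ ?_ ?_
  · refine ⟨rfl, ?_, ?_⟩
    · rw [St.set_reg_ne _ _ (by decide), r14]; exact hc
    · rw [St.set_reg_ne _ _ (by decide), r14]; simp
  · rintro i hi s' ⟨hm, hlt, hval⟩ h26 hfr
    set v : Fin n := ⟨i, hi⟩ with hv
    have hE2 : Env G mate Big Md s' := hE.keep hp (Keep.of_mem (P := fun _ => False) hm)
      (fun _ _ h => h) (hfr 0 (by decide) (by decide)) (hfr 2 (by decide) (by decide))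
      (hfr 3 (by decide) (by decide))
    have hmv := (mate v).2
    have hmt := hE2.mt v
    have hvi : (v : ℕ) = i := rfl
    have o26 : (Ex.r 26).ok w s' := by simp only [Ex.ok, h26]; omega
    apply tr_asgs (mate v : ℕ)
      (rd_okp (Q := 1) (X := v) hp hE2.rg (oc _ _ (by omega)) o26 rfl h26 (by omega) (by omega)
        (by rw [hmt]; omega))
      (rd_evq (Q := 1) (X := v) hE2.rg (by exact rfl) (by exact h26) (by rw [hmt])) (by decide)
    intro s1 m1 e1 f1
    have hr1 : Rg n Big Md s1 := hE2.rg.of (f1 0 (by decide)) (f1 2 (by decide))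
      (f1 3 (by decide))
    have a26 : s1.reg 26 = v := by rw [f1 26 (by decide), h26]
    have a14 : s1.reg 14 = s'.reg 14 := f1 14 (by decide)
    have a13 : s1.reg 13 = x := by rw [f1 13 (by decide), hfr 13 (by decide) (by decide), r13]
    have hm1 : s1.mem = s.mem := m1.trans hm
    have o26 : (Ex.r 26).ok w s1 := by simp only [Ex.ok, a26]; omega
    have o23 : (Ex.r 23).ok w s1 := by simp only [Ex.ok, e1]; omega
    have o13 : (Ex.r 13).ok w s1 := by simp only [Ex.ok, a13]; omega
    have hfil := filt_succ hi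
    have hfin := filt_not hi
    have hskip : ¬ (v < mate v ∧ v ≠ x ∧ mate v ≠ x ∧ v ∈ X ∧ mate v ∉ X) →
        ((s1.set 26 (i + 1)).mem = s.mem ∧ (s1.set 26 (i + 1)).reg 14 < Md ∧
      (((s1.set 26 (i + 1)).reg 14 : ℕ) : ZMod Md) = c *
        ∏ v ∈ univ.filter (fun v : Fin n => (v : ℕ) < i + 1),
        (if v < mate v ∧ v ≠ x ∧ mate v ≠ x ∧ v ∈ X ∧ mate v ∉ X then 2 else 1)) := by
      intro h
      refine ⟨hm1, ?_, ?_⟩
      · rw [St.set_reg_ne _ _ (by decide), a14]; exact hlt
      · rw [St.set_reg_ne _ _ (by decide), a14, hfil, prod_insert hfin, if_neg h, one_mul]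
        exact hval
    have hb31 : bl Big s1 3 v = if v ∈ X then 1 else 0 := by rw [bl_mem hm1, hb3]
    have hb32 : bl Big s1 3 (mate v) = if mate v ∈ X then 1 else 0 := by rw [bl_mem hm1, hb3]
    apply Tr.ite (T := 120) o26 o23 (by decide)
    · intro h
      simp only [Ex.ev, a26, e1] at h
      have h1 : v < mate v := h
      apply Tr.ite (T := 105) (oc _ _ (by omega)) (ad_ok o26 o13) (by decide)
      · intro h
        have h2 : v ≠ x := by
          have := (ad_pos (a := .r 26) (b := .r 13) a26 a13).1 h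
          exact fun e => this (by rw [e])
        apply Tr.ite (T := 90) (oc _ _ (by omega)) (ad_ok o23 o13) (by decide)
        · intro h
          have h3 : mate v ≠ x := by
            have := (ad_pos (a := .r 23) (b := .r 13) e1 a13).1 h
            exact fun e => this (by rw [e])
          apply Tr.ite (T := 75) (oc _ _ (by omega))
            (rd_okp (Q := 3) (X := v) hp hr1 (oc _ _ (by omega)) o26 rfl a26 (by omega) (by omega)
              (by rw [hb31]; split_ifs <;> omega)) (by decide)
          · intro h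
            have e4 : (rd (.c 3) (.r 26)).ev s1 = if v ∈ X then 1 else 0 :=
              rd_evq (Q := 3) (X := v) hr1 (by exact rfl) (by exact a26) hb31
            rw [e4] at h
            have h4 : v ∈ X := by
              by_contra h4; rw [if_neg h4] at h; simp [Ex.ev] at h
            apply Tr.ite (T := 50)
              (rd_okp (Q := 3) (X := mate v) hp hr1 (oc _ _ (by omega)) o23 rfl e1 (by omega)
                (by omega) (by rw [hb32]; split_ifs <;> omega)) (oc _ _ (by omega)) (by decide)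
            · intro h
              have e5 : (rd (.c 3) (.r 23)).ev s1 = if mate v ∈ X then 1 else 0 :=
                rd_evq (Q := 3) (X := mate v) hr1 (by exact rfl) (by exact e1) hb32
              rw [e5] at h
              have h5 : mate v ∉ X := by
                intro h5; rw [if_pos h5] at h; simp [Ex.ev] at h
              refine (tr_adm hp hr1 14 14 14 (by rw [a14]; exact hlt) (by rw [a14]; exact hlt)
                ?_).mono (by omega) (fun _ h => h)
              intro s2 m2 g14 f2
              refine ⟨m2.trans hm1, ?_, ?_⟩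
              · rw [St.set_reg_ne _ _ (by decide), g14]
                exact am_lt (by rw [a14]; exact hlt) (by rw [a14]; exact hlt)
              · rw [St.set_reg_ne _ _ (by decide), g14, am_cast, a14, hval, hfil,
                  prod_insert hfin, if_pos ⟨h1, h2, h3, h4, h5⟩]
                ring
            · intro h
              have e5 : (rd (.c 3) (.r 23)).ev s1 = if mate v ∈ X then 1 else 0 :=
                rd_evq (Q := 3) (X := mate v) hr1 (by exact rfl) (by exact e1) hb32
              rw [e5] at h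
              apply Tr.skip
              apply hskip
              rintro ⟨_, _, _, _, h5⟩
              rw [if_neg h5] at h
              simp [Ex.ev] at h
          · intro h
            have e4 : (rd (.c 3) (.r 26)).ev s1 = if v ∈ X then 1 else 0 :=
              rd_evq (Q := 3) (X := v) hr1 (by exact rfl) (by exact a26) hb31
            rw [e4] at h
            apply Tr.skip
            apply hskip
            rintro ⟨_, _, _, h4, _⟩
            rw [if_pos h4] at h
            simp [Ex.ev] at h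
        · intro h
          apply Tr.skip
          apply hskip
          rintro ⟨_, _, h3, _, _⟩
          exact h ((ad_pos (a := .r 23) (b := .r 13) e1 a13).2 (fun e => h3 (Fin.ext e)))
      · intro h
        apply Tr.skip
        apply hskip
        rintro ⟨_, h2, _, _, _⟩
        exact h ((ad_pos (a := .r 26) (b := .r 13) a26 a13).2 (fun e => h2 (Fin.ext e)))
    · intro h
      simp only [Ex.ev, a26, e1] at h
      apply Tr.skip
      apply hskip
      rintro ⟨h1, _⟩
      exact h h1
  · rintro s' ⟨h1, h2, h3⟩ _ _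
    refine ⟨h1, h2, ?_⟩
    rw [h3]
    congr 1
    rw [filter_true_of_mem (fun (v : Fin n) _ => v.2)]

/-- Add the weight of one entry of the last level to register `5`. -/
def finE : HC := .seq loadE
  (.ite (.r 7) (.r 13) (.ite (.c 0) (rd (.c 0) (.add (.mul (.r 13) (.r 0)) (.r 6)))
    (.seq bits (.seq kill (.seq dbl (adm 5 5 14)))) .skip) .skip)

open Classical in
theorem tr_finE {w Big Md Qm P : ℕ} {G : SimpleGraph (Fin n)} {mate : Fin n → Fin n}
    {F : Finset (Fin n) × Fin n → ZMod Md}
    {L : List (Finset (Fin n) × Fin n)} {s : St} (hp : Par n w Big Md Qm)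
    (hE : Env G mate Big Md s) (hL : Lev Big Md P F L s)
    (hP : P + 3 < Qm) (sv av : Fin n) {i : ℕ} (hi : i < L.length)
    (r8 : s.reg 8 = P) (r11 : s.reg 11 = i) (r6 : s.reg 6 = sv) (r7 : s.reg 7 = av)
    (r5 : s.reg 5 < Md) :
    Tr w finE s (1000 * n) (fun s' => Keep Big (fun q => q = 3) s s' ∧ s'.reg 5 < Md ∧
      ((s'.reg 5 : ℕ) : ZMod Md) = (s.reg 5 : ℕ) +
        if av < (L[i]).2 ∧ G.Adj (L[i]).2 sv then
          (fin mate (L[i]).2 (L[i]).1 : ZMod Md) * F L[i] else 0) := by
  have hb := hp.nb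
  have hpb := hp.pb
  have h8 := hp.bw
  have hmw := hp.mw
  have hqq := hp.qq
  have hq8 := hp.qpos
  have hnB := hp.n1b
  have hnn := hp.nn
  have hn3 := hp.n3
  have hn1 : n < 2 ^ w := by omega
  have hvl := hL.vlt L[i]
  have hval := hL.val L[i]
  have hx := (L[i]).2.2
  have hav := av.2
  have oc : ∀ (s : St) (k : ℕ), k < 8 → (Ex.c k).ok w s := by
    intro s k hk; simp only [Ex.ok]; omega
  unfold finE
  apply tr_seqf _ (tr_loadE hp hE.rg hL hP hi r8 r11) (by omega)
  rintro s1 ⟨m1, g12, g13, g14⟩ f1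
  have hE1 : Env G mate Big Md s1 := hE.keep hp
      (Keep.of_mem (P := fun _ => False) m1) (fun _ _ h => h)
      (f1 0 (by decide)) (f1 2 (by decide)) (f1 3 (by decide))
  have g5 : s1.reg 5 = s.reg 5 := f1 5 (by decide)
  have g6 : s1.reg 6 = sv := by rw [f1 6 (by decide), r6]
  have g7 : s1.reg 7 = av := by rw [f1 7 (by decide), r7]
  have hskip : ¬ (av < (L[i]).2 ∧ G.Adj (L[i]).2 sv) →
      (Keep Big (fun q => q = 3) s s1 ∧ s1.reg 5 < Md ∧
      ((s1.reg 5 : ℕ) : ZMod Md) = (s.reg 5 : ℕ) +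
        if av < (L[i]).2 ∧ G.Adj (L[i]).2 sv then
          (fin mate (L[i]).2 (L[i]).1 : ZMod Md) * F L[i] else 0) := by
    intro h
    refine ⟨Keep.of_mem m1, by rw [g5]; exact r5, ?_⟩
    rw [if_neg h, add_zero, g5]
  apply Tr.ite (T := 890 * n) (by simp only [Ex.ok, g7]; omega)
    (by simp only [Ex.ok, g13]; omega) (by simp only [Ex.cost]; omega)
  · intro h
    simp only [Ex.ev, g7, g13] at h
    have h1 : av < (L[i]).2 := h
    have huv := uv_lt (L[i]).2 sv
    have hadj := hE1.adj (L[i]).2 sv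
    have hr1 := hE1.rg
    have oi : (Ex.add (.mul (.r 13) (.r 0)) (.r 6)).ok w s1 := by
      simp only [Ex.ok, Ex.ev, hr1.r0, g13, g6]
      omega
    have vi : (Ex.add (.mul (.r 13) (.r 0)) (.r 6)).ev s1 = (L[i]).2 * n + sv := by
      simp only [Ex.ev, hr1.r0, g13, g6]
    have ei : (rd (.c 0) (.add (.mul (.r 13) (.r 0)) (.r 6))).ev s1 =
        if G.Adj (L[i]).2 sv then 1 else 0 :=
      rd_evq (Q := 0) (X := (L[i]).2 * n + sv) hr1 (by exact rfl) (by exact vi) hadj
    apply Tr.ite (T := 860 * n) (oc _ _ (by omega))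
      (rd_okp (Q := 0) (X := (L[i]).2 * n + sv) hp hr1 (oc _ _ (by omega)) oi rfl vi (by omega)
        (by omega) (by rw [hadj]; split_ifs <;> omega)) (by simp only [rd, cell, Ex.cost]; omega)
    · intro h
      rw [ei] at h
      have h2 : G.Adj (L[i]).2 sv := by
        by_contra h2; rw [if_neg h2] at h; simp [Ex.ev] at h
      apply tr_seqf _ (tr_bits hp hE1 (L[i]).1 (L[i]).2 g12 g13) (by omega)
      rintro s2 ⟨k2, hbit, h15, h16, h17⟩ f2
      have hE2 : Env G mate Big Md s2 := hE1.keep hp k2 (fun q hq h => by omega)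
        (f2 0 (by decide)) (f2 2 (by decide)) (f2 3 (by decide))
      apply tr_seqf _ (tr_kill hp (L[i]).1 (L[i]).2 (bl Big s P (ix L[i]))
        (by rw [f2 13 (by decide), g13]) h15
        (by rw [f2 14 (by decide), g14]) h16 h17) (by omega)
      rintro s3 ⟨m3, h14⟩ f3
      have hE3 : Env G mate Big Md s3 := hE2.keep hp
        (Keep.of_mem (P := fun _ => False) m3) (fun _ _ h => h)
        (f3 0 (by decide)) (f3 2 (by decide)) (f3 3 (by decide))
      set c1 : ℕ := if Killed mate (L[i]).2 (L[i]).1 then 0 else bl Big s P (ix L[i]) with hc1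
      have hc1lt : c1 < Md := by rw [hc1]; split_ifs <;> omega
      apply tr_seqf _ (tr_dbl hp hE3 (L[i]).1 (L[i]).2 c1 hc1lt
        (by rw [f3 13 (by decide), f2 13 (by decide), g13]) h14
        (fun v => by rw [bl_mem m3, hbit v])) (by omega)
      rintro s4 ⟨m4, h14lt, h14v⟩ f4
      have hr4 : Rg n Big Md s4 := hE3.rg.of (f4 0 (by decide)) (f4 2 (by decide))
        (f4 3 (by decide))
      have i5 : s4.reg 5 = s.reg 5 := by
        rw [f4 5 (by decide), f3 5 (by decide), f2 5 (by decide), g5]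
      refine (tr_adm hp hr4 5 5 14 (by rw [i5]; exact r5) h14lt ?_).mono (by omega)
        (fun _ h => h)
      intro s5 m5 j5 f5
      refine ⟨?_, ?_, ?_⟩
      · refine (Keep.of_mem m1).trans (k2.trans (Keep.of_mem ?_))
        rw [m5, m4, m3]
      · rw [j5]; exact am_lt (by rw [i5]; exact r5) h14lt
      · rw [j5, am_cast, i5, h14v, if_pos ⟨h1, h2⟩, ← hval]
        congr 1
        unfold fin
        rw [hc1]
        push_cast
        by_cases hk : Killed mate (L[i]).2 (L[i]).1
        · simp [hk]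
        · simp only [hk, if_false]
          ring
    · intro h
      rw [ei] at h
      apply Tr.skip
      apply hskip
      rintro ⟨_, h2⟩
      rw [if_pos h2] at h
      simp [Ex.ev] at h
  · intro h
    simp only [Ex.ev, g7, g13] at h
    apply Tr.skip
    apply hskip
    rintro ⟨h1, _⟩
    exact h h1

/-- Sum over the last level. -/
def finL : HC := .loop 11 9 finE

open Classical in
theorem tr_finL {w Big Md Qm P LB : ℕ} {G : SimpleGraph (Fin n)} {mate : Fin n → Fin n}
    {F : Finset (Fin n) × Fin n → ZMod Md}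
    {L : List (Finset (Fin n) × Fin n)} {s : St} (hp : Par n w Big Md Qm)
    (hE : Env G mate Big Md s) (hL : Lev Big Md P F L s) (hP4 : 4 ≤ P)
    (hP : P + 3 < Qm) (sv av : Fin n)
    (hLB : L.length ≤ LB) (hLB1 : 1 ≤ LB)
    (r8 : s.reg 8 = P) (r9 : s.reg 9 = L.length) (r6 : s.reg 6 = sv) (r7 : s.reg 7 = av)
    (r5 : s.reg 5 < Md) :
    Tr w finL s (1100 * n * LB) (fun s' => Keep Big (fun q => q = 3) s s' ∧ s'.reg 5 < Md ∧
      ((s'.reg 5 : ℕ) : ZMod Md) = (s.reg 5 : ℕ) +
        ∑ p : Finset (Fin n) × Fin n, if av < p.2 ∧ G.Adj p.2 sv then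
          (fin mate p.2 p.1 : ZMod Md) * F p else 0) := by
  have hb := hp.nb
  have hpb := hp.pb
  have h8 := hp.bw
  have hmw := hp.mw
  have hqq := hp.qq
  have hq8 := hp.qpos
  have hnB := hp.n1b
  have hn3 := hp.n3
  have hlen := nodup_len hL.nd
  have hT0 : n * LB ≥ LB := Nat.le_mul_of_pos_left _ (by omega)
  have hT1 : 1100 * n * LB = 1100 * (n * LB) := by ring
  have hT2 : L.length * (1000 * n + 4) + 3 ≤ 1000 * (n * LB) + 4 * (n * LB) + 3 := by
    have e1 : L.length * (1000 * n + 4) ≤ LB * (1000 * n + 4) := Nat.mul_le_mul_right _ hLB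
    have e2 : LB * (1000 * n + 4) = 1000 * (n * LB) + 4 * LB := by ring
    omega
  unfold finL
  refine Tr.loop (fun i s' => Keep Big (fun q => q = 3) s s' ∧ s'.reg 5 < Md ∧
      ((s'.reg 5 : ℕ) : ZMod Md) = (s.reg 5 : ℕ) +
        ((L.take i).map (fun p => if av < p.2 ∧ G.Adj p.2 sv then
          (fin mate p.2 p.1 : ZMod Md) * F p else 0)).sum) (1000 * n)
    r9 (by omega) (by omega) (by omega) ?_ ?_ ?_
  · refine ⟨Keep.of_mem rfl, ?_, ?_⟩
    · rw [St.set_reg_ne _ _ (by decide)]; exact r5
    · rw [St.set_reg_ne _ _ (by decide)]; simp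
  · rintro i hi s' ⟨hk, h5, hv5⟩ h11 hfr
    have hE2 : Env G mate Big Md s' := hE.keep hp hk (fun q hq h => by omega)
      (hfr 0 (by decide) (by decide)) (hfr 2 (by decide) (by decide))
      (hfr 3 (by decide) (by decide))
    have hL2 := hL.keep hp hk (fun q h1 h2 h3 => by omega)
    refine (tr_finE hp hE2 hL2 hP sv av hi
      (by rw [hfr 8 (by decide) (by decide), r8]) h11
      (by rw [hfr 6 (by decide) (by decide), r6])
      (by rw [hfr 7 (by decide) (by decide), r7]) h5).mono le_rfl ?_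
    rintro s2 ⟨k1, k2, k3⟩
    have htake : L.take (i + 1) = L.take i ++ [L[i]] := (List.take_append_getElem hi).symm
    refine ⟨hk.trans k1, ?_, ?_⟩
    · rw [St.set_reg_ne _ _ (by decide)]; exact k2
    · rw [St.set_reg_ne _ _ (by decide), k3, hv5, htake, List.map_append, List.sum_append]
      simp [add_assoc]
  · rintro s' ⟨hk, h5, hv5⟩ _ _
    refine ⟨hk, h5, ?_⟩
    rw [hv5, List.take_length, list_sum hL.nd]
    intro p hpL
    have h1 := hL.out p hpL
    have h2 := hL.val p
    rw [h1, Nat.cast_zero] at h2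
    rw [← h2, mul_zero, ite_self]

end Run7.h747
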