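import Pool.Agent.Run7.h747.Basis

/-!
The final functional.
-/

set_option autoImplicit false

namespace Run7.h747

open Finset

variable {V : Type*} [Fintype V] [LinearOrder V]

/-- The label `X` gives nothing when `w` is visited. -/
def Killed (mate : V → V) (w : V) (X : Finset V) : Prop :=
  w ∈ X ∧ (w < mate w → mate w ∈ X)

instance (mate : V → V) (w : V) (X : Finset V) : Decidable (Killed mate w X) := by
  unfold Killed; infer_instance

/-- Weight of the label `X` when `w` is visited last. -/
def fin (mate : V → V) (w : V) (X : Finset V) : ℕ :=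
  (if Killed mate w X then 0 else 1) *
    ∏ v, (if v < mate v ∧ v ≠ w ∧ mate v ≠ w ∧ v ∈ X ∧ mate v ∉ X then 2 else 1)

/-- Local factor of the final weight. -/
def fl (mate : V → V) (w : V) (X : Finset V) (v : V) : ℤ :=
  if v = rep mate w then (if Killed mate w X then 0 else 1)
  else if v < mate v ∧ v ∈ X ∧ mate v ∉ X then 2 else 1

theorem rep_rep {mate : V → V} (hm : ∀ v, mate (mate v) = v) (w : V) :
    (rep mate w < mate (rep mate w) ∨ rep mate w = mate (rep mate w)) ∧
      (rep mate w = w ∨ (rep mate w = mate w)) := by
  unfold rep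
  by_cases h : w < mate w
  · rw [if_pos h]; exact ⟨Or.inl h, Or.inl rfl⟩
  · rw [if_neg h, hm]
    refine ⟨?_, Or.inr rfl⟩
    rcases lt_or_eq_of_le (not_lt.1 h) with h1 | h1
    · exact Or.inl h1
    · exact Or.inr h1

theorem killed_congr {mate : V → V} {w : V} {X X' : Finset V} (h1 : w ∈ X ↔ w ∈ X')
    (h2 : mate w ∈ X ↔ mate w ∈ X') : Killed mate w X ↔ Killed mate w X' := by
  unfold Killed; rw [h1, h2]

theorem fin_eq {mate : V → V} (hm : ∀ v, mate (mate v) = v) (w : V) (X : Finset V) :
    (fin mate w X : ℤ) = ∏ v ∈ univ.filter (fun v => v ≤ mate v), fl mate w X v := by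
  have hr := rep_rep hm w
  have hmem : rep mate w ∈ univ.filter (fun v => v ≤ mate v) := by
    rw [mem_filter]
    refine ⟨mem_univ _, ?_⟩
    rcases hr.1 with h | h
    · exact le_of_lt h
    · exact le_of_eq h
  rw [← mul_prod_erase _ _ hmem]
  unfold fin
  push_cast
  congr 1
  · unfold fl; rw [if_pos rfl]
  · rw [← prod_subset (s₁ := (univ.filter (fun v => v ≤ mate v)).erase (rep mate w))
      (subset_univ _)]
    · apply prod_congr rfl
      intro v hv
      rw [mem_erase, mem_filter] at hv
      unfold fl
      rw [if_neg hv.1]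
      by_cases h1 : v < mate v
      · have h2 : v ≠ w := by
          rintro rfl; apply hv.1; unfold rep; rw [if_pos h1]
        have h3 : mate v ≠ w := by
          intro e
          apply hv.1
          unfold rep
          rw [← e, hm, if_neg (lt_asymm h1)]
        simp only [h1, h2, h3, ne_eq, not_false_eq_true, true_and]
      · simp only [h1, false_and, if_false]
    · intro v _ hv
      rw [mem_erase, mem_filter] at hv
      rw [if_neg]
      rintro ⟨h1, h2, h3, _, _⟩
      apply hv
      refine ⟨?_, mem_univ _, le_of_lt h1⟩
      rintro e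
      rcases hr.2 with h | h
      · exact h2 (e.trans h)
      · exact h3 (by rw [e, h, hm])

theorem MM_eq_filter {mate : V → V} (X Y : Finset V) :
    MM mate X Y = ∏ v ∈ univ.filter (fun v => v ≤ mate v), mu mate X Y v := by
  unfold MM
  symm
  apply prod_subset (subset_univ _)
  intro v _ hv
  rw [mem_filter] at hv
  have h1 : ¬ v ≤ mate v := fun h => hv ⟨mem_univ _, h⟩
  unfold mu
  rw [if_neg (fun e => h1 (le_of_eq e.symm)), if_neg (fun h => h1 (le_of_lt h))]

theorem sum_pairset {v m : V} (h : v ≠ m) (f : Finset V → ℤ) :
    ∑ Z ∈ ({v, m} : Finset V).powerset, f Z = f ∅ + f {m} + f {v} + f {v, m} := by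
  rw [sum_powerset_insert (by simpa using h)]
  have h1 : ({m} : Finset V).powerset = {∅, {m}} := by
    rw [← insert_empty_eq m, powerset_insert]; rfl
  rw [h1, Finset.sum_pair (by simp), Finset.sum_pair (by simp), insert_empty_eq]
  ring

theorem local_sum {mate : V → V} (hm : ∀ v, mate (mate v) = v) (w : V) (Y : Finset V) (v : V)
    (hv : v ≤ mate v) :
    ∑ Z ∈ ({v, mate v} : Finset V).powerset, fl mate w Z v * mu mate Z Y v =
      if v = rep mate w then (if w ∈ Y then 0 else 1) else 1 := by
  by_cases h1 : mate v = v
  · rw [h1, pair_eq_singleton]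
    have h2 : ({v} : Finset V).powerset = {∅, {v}} := by
      rw [← insert_empty_eq v, powerset_insert]; rfl
    rw [h2, Finset.sum_pair (by simp)]
    unfold mu fl
    by_cases h3 : v = rep mate w
    · have h4 : w = v := by
        rcases (rep_rep hm w).2 with h | h
        · rw [h3, h]
        · have : v = mate w := by rw [h3, h]
          rw [← h1, this, hm]
      subst h4
      unfold Killed
      by_cases c : w ∈ Y <;> simp [h1, h3.symm, c]
    · by_cases c : v ∈ Y <;> simp [h1, h3, c]
  · have h2 : v < mate v := lt_of_le_of_ne hv (fun e => h1 e.symm)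
    have h2' : v ≠ mate v := ne_of_lt h2
    rw [sum_pairset h2']
    unfold mu fl
    simp only [if_neg h1, if_pos h2]
    by_cases h3 : v = rep mate w
    · simp only [if_pos h3]
      rcases (rep_rep hm w).2 with h | h
      · have h4 : w = v := by rw [h3, h]
        subst h4
        unfold Killed
        by_cases c : w ∈ Y <;> by_cases d : mate w ∈ Y <;>
          simp [c, d, pm, h2, h2', h1]
      · have h4 : v = mate w := by rw [h3, h]
        have h5 : w = mate v := by rw [h4, hm]
        rw [h5]
        simp only [Killed, hm]
        have h6 : ¬ mate v < v := lt_asymm h2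
        by_cases c : v ∈ Y <;> by_cases d : mate v ∈ Y <;>
          simp [c, d, pm, h2, h2', h1, h6]
    · simp only [if_neg h3]
      by_cases c : v ∈ Y <;> by_cases d : mate v ∈ Y <;>
        simp [c, d, pm, h2, h2', h1]

theorem fin_sum {mate : V → V} (hm : ∀ v, mate (mate v) = v) (w : V) (Y : Finset V) :
    ∑ X : Finset V, (fin mate w X : ℤ) * MM mate X Y = if w ∈ Y then 0 else 1 := by
  have hr := rep_rep hm w
  have hmem : rep mate w ∈ univ.filter (fun v => v ≤ mate v) := by
    rw [mem_filter]
    refine ⟨mem_univ _, ?_⟩
    rcases hr.1 with h | h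
    · exact le_of_lt h
    · exact le_of_eq h
  have h1 : ∀ X : Finset V, (fin mate w X : ℤ) * MM mate X Y =
      ∏ v ∈ univ.filter (fun v => v ≤ mate v),
        (fun v (Z : Finset V) => fl mate w Z v * mu mate Z Y v) v (X ∩ {v, mate v}) := by
    intro X
    rw [fin_eq hm, MM_eq_filter, ← prod_mul_distrib]
    apply prod_congr rfl
    intro v hv
    simp only []
    congr 1
    · unfold fl
      by_cases e : v = rep mate w
      · rw [if_pos e, if_pos e]
        have hw : w ∈ ({v, mate v} : Finset V) ∧ mate w ∈ ({v, mate v} : Finset V) := by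
          rcases hr.2 with h | h
          · rw [h] at e; subst e; simp
          · rw [h] at e; subst e; simp [hm]
        have : Killed mate w X ↔ Killed mate w (X ∩ {v, mate v}) :=
          killed_congr (by simp only [mem_inter, hw.1, and_true])
            (by simp only [mem_inter, hw.2, and_true])
        simp only [this]
      · rw [if_neg e, if_neg e]
        simp
    · apply mu_congr <;> simp
  have hB : ∀ v ∈ univ.filter (fun v => v ≤ mate v), ∀ v' ∈ univ.filter (fun v => v ≤ mate v),
      v ≠ v' → Disjoint ({v, mate v} : Finset V) {v', mate v'} := by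
    intro v hv v' hv' hne
    rw [mem_filter] at hv hv'
    rw [disjoint_left]
    intro x hx hx'
    simp only [mem_insert, mem_singleton] at hx hx'
    apply hne
    rcases hx with rfl | rfl <;> rcases hx' with h | h
    · exact h
    · rw [h, hm] at hv
      exact le_antisymm (by rw [h]; exact hv.2) (by rw [h]; exact hv'.2)
    · rw [← h, hm] at hv'
      exact le_antisymm (by rw [← h]; exact hv.2) (by rw [← h]; exact hv'.2)
    · rw [← hm v, ← hm v', h]
  refine (sum_congr rfl (fun X _ => h1 X)).trans ?_
  refine (block_sum_univ (univ.filter (fun v => v ≤ mate v)) (fun v => ({v, mate v} : Finset V)) hB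
    (fun v (Z : Finset V) => fl mate w Z v * mu mate Z Y v)).trans ?_
  · have h2 : ∀ v ∈ univ.filter (fun v => v ≤ mate v),
        ∑ Z ∈ ({v, mate v} : Finset V).powerset, fl mate w Z v * mu mate Z Y v =
        if v = rep mate w then (if w ∈ Y then 0 else 1) else 1 := by
      intro v hv
      rw [mem_filter] at hv
      exact local_sum hm w Y v hv.2
    rw [prod_congr rfl h2, prod_ite_eq' _ (rep mate w), if_pos hmem]
    have h3 : ∑ v ∈ univ.filter (fun v => v ≤ mate v), ({v, mate v} : Finset V).card =
        Fintype.card V := by
      rw [← card_biUnion, ← card_univ]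
      · congr 1
        ext x
        simp only [mem_biUnion, mem_filter, mem_univ, true_and, mem_insert, mem_singleton,
          iff_true]
        rcases le_total x (mate x) with h | h
        · exact ⟨x, h, Or.inl rfl⟩
        · exact ⟨mate x, by rw [hm]; exact h, Or.inr (hm x).symm⟩
      · intro v hv v' hv' hne
        exact hB v hv v' hv' hne
    rw [h3, Nat.sub_self, pow_zero, mul_one]

end Run7.h747
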