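import Pool.Agent.Run7.h747.Count

/-!
The number of non-vanishing coefficients.
-/

set_option autoImplicit false

namespace Run7.h747

open Finset

theorem good_count (e : ℕ) : ∃ ρ : ℝ, 0 < ρ ∧ ρ < 1 ∧
    ∀ (V : Type) [Fintype V] [LinearOrder V] (G : SimpleGraph V) (s a : V) (_ : s < a)
      (mate : V → V) (_ : ∀ v, mate (mate v) = v) (D : V → Finset V)
      (_ : ∀ v, Closed mate (D v)) (_ : ∀ v, v ∉ D v ∧ mate v ∉ D v)
      (_ : ∀ v x, x ≠ v → x ≠ mate v → x ∉ D v → (G.Adj v x ↔ G.Adj (mate v) x))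
      (J0 : Finset V) (_ : ∀ v ∈ J0, mate v < v) (_ : ∀ v ∈ J0, (D v).card ≤ e)
      (j : ℕ) (w : V) (S : Finset (Finset V)) (_ : ∀ X ∈ S, Cc G s a mate j w X ≠ 0),
      (S.card : ℝ) ≤ 8 * 2 ^ (Fintype.card V) * ρ ^ J0.card := by
  classical
  set q : ℝ := (1 / 2) ^ (e + 2 + 1) with hq
  have hq0 : 0 < q := by positivity
  have hq1 : q ≤ 1 / 2 := by
    rw [hq]
    calc (1 / 2 : ℝ) ^ (e + 2 + 1) ≤ (1 / 2) ^ 1 :=
          pow_le_pow_of_le_one (by norm_num) (by norm_num) (by omega)
      _ = 1 / 2 := by norm_num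
  have hl4 : 0 < Real.log 4 := Real.log_pos (by norm_num)
  have hlq : 0 < Real.log (1 + q) := Real.log_pos (by linarith)
  set x : ℝ := Real.log (1 + q) / Real.log 4 with hx
  have hx0 : 0 < x := div_pos hlq hl4
  set κ : ℝ := x / (e + 2) with hκdef
  have he2 : (0 : ℝ) < (e : ℝ) + 2 := by positivity
  have hκ : 0 < κ := div_pos hx0 he2
  obtain ⟨K0, hK0⟩ := exists_K0 e hκ
  have hK0' : 0 < K0 := by
    rcases Nat.eq_zero_or_pos K0 with h | h
    · subst h
      simp only [range_zero, sum_empty, mul_zero] at hK0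
      have : (0 : ℝ) ≤ e := Nat.cast_nonneg e
      linarith
    · exact h
  have hqq : 0 < 1 - q ^ 2 := by nlinarith
  have hqq1 : 1 - q ^ 2 < 1 := by nlinarith
  have hlqq : Real.log (1 - q ^ 2) < 0 := Real.log_neg hqq hqq1
  have hKpos : (0 : ℝ) < ((e : ℝ) + 2) * K0 := by
    have : (0 : ℝ) < K0 := by exact_mod_cast hK0'
    positivity
  refine ⟨Real.exp (Real.log (1 - q ^ 2) / (((e : ℝ) + 2) * K0)), Real.exp_pos _, ?_, ?_⟩
  · rw [Real.exp_lt_one_iff]
    exact div_neg_of_neg_of_pos hlqq hKpos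
  · intro V _ _ G s a hsa mate hm D hDc hDn hD J0 hJ0 he j w S hS
    obtain ⟨K, hK, hKle⟩ := choose_K he hκ hK0
    obtain ⟨J, hJ, hdis, hJcard⟩ := choose_J hm hJ0 he K
    have hJ' : ∀ v ∈ J, mate v < v := fun v hv => hJ0 v (hJ hv)
    have hfew : ∀ X ∈ S, (∀ x ∈ X, s < x) ∧
        (J.filter (fun v => s < mate v ∧
          X ∩ (blk mate v ∪ (D v \ hub D J0 K)) = {v})).card ≤ 2 * (hub D J0 K).card + 3 := by
      intro X hX
      exact few_untouched hsa hm hDc hDn hD hJ' (hub_closed hm hDc J0 K) (hS X hX)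
    have hb : ∀ v ∈ J, (blk mate v ∪ (D v \ hub D J0 K)).card ≤ e + 2 := by
      intro v hv
      have h3 := card_union_le (blk mate v) (D v \ hub D J0 K)
      have h4 : (blk mate v).card ≤ 2 := card_le_two
      have h5 : (D v \ hub D J0 K).card ≤ e := (card_le_card sdiff_subset).trans (he v (hJ hv))
      omega
    have hcb := count_bound (s := s) (mate := mate) (J := J)
      (B := fun v => blk mate v ∪ (D v \ hub D J0 K)) hdis
      (fun v _ => mem_union_left _ (by unfold blk; simp))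
      (fun v _ => mem_union_left _ (by unfold blk; simp)) hb hfew
    set h := (hub D J0 K).card with hh
    -- the number of hubs is small
    have h1 : (h : ℝ) ≤ x * J.card := by
      have e1 : ((K : ℝ) + 1) * h ≤ κ * (((e : ℝ) + 2) * (K + 1) * J.card) := by
        refine hKle.trans ?_
        apply mul_le_mul_of_nonneg_left _ hκ.le
        exact_mod_cast hJcard
      have e2 : κ * (((e : ℝ) + 2) * (K + 1) * J.card) = ((K : ℝ) + 1) * (x * J.card) := by
        rw [hκdef]; field_simp
      rw [e2] at e1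
      exact le_of_mul_le_mul_left e1 (by positivity)
    have h2 : (2 : ℝ) ^ (2 * h + 3) ≤ 8 * (1 + q) ^ J.card := by
      have e1 : (2 : ℝ) ^ (2 * h + 3) = 8 * 4 ^ h := by
        rw [pow_add, pow_mul]; norm_num; ring
      rw [e1]
      apply mul_le_mul_of_nonneg_left _ (by norm_num)
      have e2 : (4 : ℝ) ^ h = Real.exp (h * Real.log 4) := by
        rw [Real.exp_nat_mul, Real.exp_log (by norm_num)]
      have e3 : (1 + q) ^ J.card = Real.exp (J.card * Real.log (1 + q)) := by
        rw [Real.exp_nat_mul, Real.exp_log (by linarith)]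
      rw [e2, e3, Real.exp_le_exp]
      calc (h : ℝ) * Real.log 4 ≤ (x * J.card) * Real.log 4 :=
            mul_le_mul_of_nonneg_right h1 hl4.le
        _ = J.card * Real.log (1 + q) := by
            rw [hx]; field_simp
    have h3 : (1 - q ^ 2) ^ J.card ≤
        (Real.exp (Real.log (1 - q ^ 2) / (((e : ℝ) + 2) * K0))) ^ J0.card := by
      have e1 : (1 - q ^ 2) ^ J.card = Real.exp (J.card * Real.log (1 - q ^ 2)) := by
        rw [Real.exp_nat_mul, Real.exp_log hqq]
      rw [e1, ← Real.exp_nat_mul, Real.exp_le_exp]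
      have e2 : (J0.card : ℝ) ≤ (((e : ℝ) + 2) * K0) * J.card := by
        have : J0.card ≤ (e + 2) * K0 * J.card := by
          refine hJcard.trans ?_
          apply Nat.mul_le_mul_right
          apply Nat.mul_le_mul_left
          omega
        exact_mod_cast this
      rw [mul_div_assoc', le_div_iff₀ hKpos]
      nlinarith
    have hq' : (1 : ℝ) - (1 / 2) ^ (e + 2 + 1) = 1 - q := by rw [hq]
    calc (S.card : ℝ) ≤ 2 ^ (2 * h + 3) * (2 ^ (Fintype.card V) *
          (1 - (1 / 2) ^ (e + 2 + 1)) ^ J.card) := hcb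
      _ = 2 ^ (2 * h + 3) * (2 ^ (Fintype.card V) * (1 - q) ^ J.card) := by rw [hq']
      _ ≤ (8 * (1 + q) ^ J.card) * (2 ^ (Fintype.card V) * (1 - q) ^ J.card) := by
          apply mul_le_mul_of_nonneg_right h2
          have : 0 ≤ 1 - q := by linarith
          positivity
      _ = 8 * 2 ^ (Fintype.card V) * (1 - q ^ 2) ^ J.card := by
          have : (1 - q ^ 2) ^ J.card = (1 + q) ^ J.card * (1 - q) ^ J.card := by
            rw [← mul_pow]; congr 1; ring
          rw [this]; ring
      _ ≤ _ := by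
          apply mul_le_mul_of_nonneg_left h3
          positivity

end Run7.h747
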