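import Pool.Agent.Run7.h747.Sum

/-!
One level, and all levels.
-/

set_option autoImplicit false

namespace Run7.h747

open Finset Pool.Agent.H588R2 Pool.Agent.TH687.HL Pool.Agent.TH687.DCS

variable {n : ℕ}

/-- The memory is zero from block `P` on. -/
def Fresh (Big P : ℕ) (s : St) : Prop := ∀ a, P * Big ≤ a → s.mem a = 0

theorem Fresh.keep {Big P P' : ℕ} {s s' : St} (hB : 0 < Big) (h : Fresh Big P s)
    (hPP : P ≤ P') {R : ℕ → Prop} (hk : Keep Big R s s') (hR : ∀ q, P' ≤ q → ¬ R q) :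
    Fresh Big P' s' := by
  intro a ha
  have h1 : P' ≤ a / Big := (Nat.le_div_iff_mul_le hB).2 ha
  rw [hk a (hR _ h1)]
  exact h a ((Nat.mul_le_mul_right _ hPP).trans ha)

theorem Fresh.bl {Big P : ℕ} {s : St} (h : Fresh Big P s) {q : ℕ} (hq : P ≤ q) (X : ℕ) :
    bl Big s q X = 0 :=
  h _ ((Nat.mul_le_mul_right _ hq).trans (Nat.le_add_right _ _))

theorem Fresh.lev {Big Md P : ℕ} {s : St} (hM : 0 < Md) (h : Fresh Big P s) :
    Lev (n := n) Big Md P (fun _ => 0) [] s := by
  refine ⟨List.nodup_nil, ?_, ?_, ?_, ?_, ?_, ?_⟩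
  · intro i hi; simp at hi
  · intro i hi; simp at hi
  · intro p; rw [h.bl (by omega)]; simp
  · intro p; rw [h.bl (by omega)]; exact hM
  · intro p; rw [h.bl (by omega)]; simp
  · intro p _; exact h.bl (by omega) _

/-- Make the new level the current one. -/
def finishLevel : HC := .seq (.asg 8 (.r 27)) (.seq (.asg 9 (.r 24)) (.asg 27 (.add (.r 27) (.c 4))))

/-- Compute the next level. -/
def level : HC := .seq (.asg 24 (.c 0)) (.seq (.loop 11 9 stepE) finishLevel)

theorem tr_finishLevel {w Big Md Qm P N : ℕ} {s : St} (hp : Par n w Big Md Qm)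
    (hP : P + 4 < Qm) (r27 : s.reg 27 = P) (r24 : s.reg 24 = N) (hN : N < 2 ^ w) :
    Tr w finishLevel s 20 (fun s' => s'.mem = s.mem ∧ s'.reg 8 = P ∧ s'.reg 9 = N ∧
      s'.reg 27 = P + 4) := by
  have hqq := hp.qq
  unfold finishLevel
  apply tr_asgs P (by simp only [Ex.ok, r27]; omega) (by simp only [Ex.ev, r27]) (by decide)
  intro s1 m1 e1 f1
  have a24 : s1.reg 24 = N := by rw [f1 24 (by decide), r24]
  apply tr_asgs N (by simp only [Ex.ok, a24]; omega) (by simp only [Ex.ev, a24]) (by decide)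
  intro s2 m2 e2 f2
  have a27 : s2.reg 27 = P := by rw [f2 27 (by decide), f1 27 (by decide), r27]
  apply tr_asg (P + 4) (by simp only [Ex.ok, Ex.ev, a27]; omega) (by simp only [Ex.ev, a27])
    (by decide)
  intro s3 m3 e3 f3
  refine ⟨by rw [m3, m2, m1], ?_, ?_, e3⟩
  · rw [f3 8 (by decide), f2 8 (by decide), e1]
  · rw [f3 9 (by decide), e2]

theorem tr_level {w Big Md Qm P P1 LB : ℕ} {G : SimpleGraph (Fin n)} {mate : Fin n → Fin n}
    {L : List (Finset (Fin n) × Fin n)} {s : St} (hp : Par n w Big Md Qm)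
    (hE : Env G mate Big Md s) (sv a : Fin n) (j : ℕ)
    (hL : Lev Big Md P (FC (ZMod Md) G mate sv a j) L s) (hP3 : 4 ≤ P) (hPP : P + 4 ≤ P1)
    (hP : P1 + 4 < Qm) (hF : Fresh Big P1 s)
    (hGB : ∀ (w : Fin n) (S : Finset (Finset (Fin n))),
      (∀ X ∈ S, Cc G sv a mate j w X ≠ 0) → 2 * n * (n * S.card) ≤ LB)
    (hLB : L.length ≤ LB) (hLB1 : 1 ≤ LB)
    (r8 : s.reg 8 = P) (r9 : s.reg 9 = L.length) (r27 : s.reg 27 = P1) (r6 : s.reg 6 = sv) :
    Tr w level s (1100 * n * LB) (fun s' => ∃ L', Lev Big Md P1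
        (FC (ZMod Md) G mate sv a (j + 1)) L' s' ∧
      Keep Big (fun q => q = 3 ∨ (P1 ≤ q ∧ q < P1 + 4)) s s' ∧
        s'.reg 8 = P1 ∧ s'.reg 9 = L'.length ∧ s'.reg 27 = P1 + 4 ∧ L'.length ≤ LB) := by
  classical
  have hb := hp.nb
  have hpb := hp.pb
  have h8 := hp.bw
  have hmw := hp.mw
  have hqq := hp.qq
  have hq8 := hp.qpos
  have hnB := hp.n1b
  have hn3 := hp.n3
  have hmp := hp.mpos
  have hn1 : n < 2 ^ w := by omega
  have hlen := nodup_len hL.nd
  have hT0 : n * LB ≥ LB := Nat.le_mul_of_pos_left _ (by omega)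
  have hT1 : 1100 * n * LB = 1100 * (n * LB) := by ring
  have hT2 : L.length * (1000 * n + 4) + 3 ≤ 1000 * (n * LB) + 4 * (n * LB) + 3 := by
    have e1 : L.length * (1000 * n + 4) ≤ LB * (1000 * n + 4) := Nat.mul_le_mul_right _ hLB
    have e2 : LB * (1000 * n + 4) = 1000 * (n * LB) + 4 * LB := by ring
    omega
  have hT3 : 3 ≤ n * LB := by
    calc 3 ≤ n := hn3
      _ = n * 1 := (mul_one n).symm
      _ ≤ n * LB := Nat.mul_le_mul_left _ hLB1
  unfold level
  apply tr_asgs 0 (by simp only [Ex.ok]; omega) rfl (by simp only [Ex.cost]; omega)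
  intro s1 m1 e1 f1
  have hE1 : Env G mate Big Md s1 := hE.keep hp
      (Keep.of_mem (P := fun _ => False) m1) (fun _ _ h => h)
      (f1 0 (by decide)) (f1 2 (by decide)) (f1 3 (by decide))
  have hF1 : Fresh Big P1 s1 := fun a ha => by rw [m1]; exact hF a ha
  have hL1 := hL.mem m1
  have hloop : Tr w (.loop 11 9 stepE) s1 (1010 * (n * LB)) (fun s' => ∃ L', Lev Big Md P1
        (FC (ZMod Md) G mate sv a (j + 1)) L' s' ∧
      Keep Big (fun q => q = 3 ∨ (P1 ≤ q ∧ q < P1 + 4)) s s' ∧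
        s'.reg 24 = L'.length ∧ L'.length ≤ LB) := by
    refine Tr.loop (fun i s' => ∃ L', Lev Big Md P1 (fun q =>
        ((L.take i).map (fun p => ctb G mate sv p (FC (ZMod Md) G mate sv a j p) q)).sum) L' s' ∧
        Keep Big (fun q => q = 3 ∨ (P1 ≤ q ∧ q < P1 + 4)) s1 s' ∧
        s'.reg 24 = L'.length ∧ L'.length ≤ 2 * n *
          ((L.take i).filter (fun p => FC (ZMod Md) G mate sv a j p ≠ 0)).length) (1000 * n)
      (by rw [f1 9 (by decide), r9]) (by omega) (by omega) (by omega) ?_ ?_ ?_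
    · refine ⟨[], ((hF1.lev (by omega)).set _ _).congr ?_, Keep.of_mem rfl, ?_, ?_⟩
      · intro q; simp
      · rw [St.set_reg_ne _ _ (by decide), e1]; rfl
      · simp
    · rintro i hi s' ⟨L', hL', hk, h24, hlen'⟩ h11 hfr
      have hE2 : Env G mate Big Md s' := hE1.keep hp hk (fun q hq h => by omega)
        (hfr 0 (by decide) (by decide)) (hfr 2 (by decide) (by decide))
        (hfr 3 (by decide) (by decide))
      have hL2 := hL1.keep hp hk (fun q h1 h2 h3 => by omega)
      refine (tr_stepE hp hE2 hL2 hP3 hPP (by omega) hL' sv hi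
        (by rw [hfr 8 (by decide) (by decide), f1 8 (by decide), r8]) h11
        (by rw [hfr 27 (by decide) (by decide), f1 27 (by decide), r27])
        (by rw [hfr 6 (by decide) (by decide), f1 6 (by decide), r6]) h24).mono le_rfl ?_
      rintro s2 ⟨L'', k1, k2, k3, k4⟩
      have htake : L.take (i + 1) = L.take i ++ [L[i]] := (List.take_append_getElem hi).symm
      refine ⟨L'', (k1.set _ _).congr ?_, hk.trans k2, ?_, ?_⟩
      · intro q
        rw [htake, List.map_append, List.sum_append]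
        simp
      · rw [St.set_reg_ne _ _ (by decide), k3]
      · rw [htake, List.filter_append, List.length_append]
        by_cases h0 : FC (ZMod Md) G mate sv a j L[i] = 0
        · rw [if_pos h0] at k4
          have : (List.filter (fun p => FC (ZMod Md) G mate sv a j p ≠ 0) [L[i]]).length = 0 := by
            rw [List.filter_singleton]; simp [h0]
          rw [this, add_zero]
          omega
        · rw [if_neg h0] at k4
          have : (List.filter (fun p => FC (ZMod Md) G mate sv a j p ≠ 0) [L[i]]).length = 1 := by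
            rw [List.filter_singleton]; simp [h0]
          rw [this, mul_add, mul_one]
          omega
    · rintro s' ⟨L', hL', hk, h24, hlen'⟩ _ _
      rw [List.take_length] at hlen'
      refine ⟨L', hL'.congr ?_, (Keep.of_mem m1).trans hk, h24, ?_⟩
      · intro q
        rw [List.take_length, list_sum hL.nd, FC_succ]
        intro p hpL
        have h1 := hL.out p hpL
        have h2 := hL.val p
        rw [h1, Nat.cast_zero] at h2
        rw [← h2, ctb_zero]
      · refine hlen'.trans ?_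
        obtain ⟨GB, hG1, hG2⟩ : ∃ GB, (∀ (w : Fin n) (S : Finset (Finset (Fin n))),
            (∀ X ∈ S, Cc G sv a mate j w X ≠ 0) → S.card ≤ GB) ∧ 2 * n * (n * GB) ≤ LB := by
          refine ⟨univ.sup (fun w : Fin n =>
            (univ.filter (fun X : Finset (Fin n) => Cc G sv a mate j w X ≠ 0)).card), ?_, ?_⟩
          · intro w S hS
            refine le_trans (card_le_card ?_) (Finset.le_sup (f := fun w : Fin n =>
              (univ.filter (fun X : Finset (Fin n) => Cc G sv a mate j w X ≠ 0)).card)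
              (mem_univ w))
            intro X hX
            rw [mem_filter]
            exact ⟨mem_univ _, hS X hX⟩
          · obtain ⟨w0, _, hw0⟩ := exists_mem_eq_sup (univ : Finset (Fin n)) ⟨a, mem_univ _⟩
              (fun w : Fin n =>
              (univ.filter (fun X : Finset (Fin n) => Cc G sv a mate j w X ≠ 0)).card)
            rw [hw0]
            apply hGB w0
            intro X hX
            rw [mem_filter] at hX
            exact hX.2
        refine le_trans (Nat.mul_le_mul_left _ ?_) hG2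
        exact nz_count G mate sv a j GB hL.nd hG1
  apply tr_seqf _ hloop (by simp only [Ex.cost]; omega)
  rintro s2 ⟨L', h1, h2, h3, h4⟩ f2
  have hlen' := nodup_len h1.nd
  refine (tr_finishLevel hp hP
    (by rw [f2 27 (by decide), f1 27 (by decide), r27]) h3 (by omega)).mono
    (by simp only [Ex.cost]; omega) ?_
  rintro s3 ⟨m3, g8, g9, g27⟩
  exact ⟨L', h1.mem m3, h2.trans (Keep.of_mem m3), g8, g9, g27, h4⟩

/-- All levels. -/
def levels : HC := .loop 10 1 level

theorem tr_levels {w Big Md Qm P LB J : ℕ} {G : SimpleGraph (Fin n)} {mate : Fin n → Fin n}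
    {L : List (Finset (Fin n) × Fin n)} {s : St} (hp : Par n w Big Md Qm)
    (hE : Env G mate Big Md s) (sv a : Fin n)
    (hL : Lev Big Md P (FC (ZMod Md) G mate sv a 0) L s) (hP3 : 4 ≤ P)
    (hP : P + 4 * J + 4 < Qm) (hF : Fresh Big (P + 4) s)
    (hGB : ∀ (j : ℕ) (w : Fin n) (S : Finset (Finset (Fin n))),
      (∀ X ∈ S, Cc G sv a mate j w X ≠ 0) → 2 * n * (n * S.card) ≤ LB)
    (hLB : L.length ≤ LB) (hLB1 : 1 ≤ LB) (hJ : J < n)
    (r1 : s.reg 1 = J)
    (r8 : s.reg 8 = P) (r9 : s.reg 9 = L.length) (r27 : s.reg 27 = P + 4) (r6 : s.reg 6 = sv) :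
    Tr w levels s (1200 * n * n * LB) (fun s' => ∃ L', Lev Big Md (P + 4 * J)
        (FC (ZMod Md) G mate sv a J) L' s' ∧
      Keep Big (fun q => q = 3 ∨ (P ≤ q ∧ q < P + 4 * J + 4)) s s' ∧
        s'.reg 8 = P + 4 * J ∧ s'.reg 9 = L'.length ∧ s'.reg 27 = P + 4 * J + 4 ∧
        L'.length ≤ LB) := by
  have h8 := hp.bw
  have hqq := hp.qq
  have hnB := hp.n1b
  have hn3 := hp.n3
  have hbp := hp.bpos
  have hn1 : n < 2 ^ w := by omega
  have hT3 : 1 ≤ n * LB := by
    calc 1 ≤ 1 * 1 := le_rfl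
      _ ≤ n * LB := Nat.mul_le_mul (by omega) hLB1
  have hT4 : n ≤ n * n * LB := by
    calc n = n * 1 := (mul_one n).symm
      _ ≤ n * (n * LB) := Nat.mul_le_mul_left _ hT3
      _ = n * n * LB := by ring
  have hT : J * (1100 * n * LB + 4) + 3 ≤ 1200 * n * n * LB := by
    calc J * (1100 * n * LB + 4) + 3 ≤ n * (1100 * n * LB + 4) + 3 :=
          Nat.add_le_add_right (Nat.mul_le_mul_right _ hJ.le) _
      _ = 1100 * (n * n * LB) + 4 * n + 3 := by ring
      _ ≤ 1200 * (n * n * LB) := by omega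
      _ = 1200 * n * n * LB := by ring
  unfold levels
  refine Tr.loop (fun j s' => ∃ L', Lev Big Md (P + 4 * j)
        (FC (ZMod Md) G mate sv a j) L' s' ∧
      Keep Big (fun q => q = 3 ∨ (P ≤ q ∧ q < P + 4 * j + 4)) s s' ∧
        s'.reg 8 = P + 4 * j ∧ s'.reg 9 = L'.length ∧ s'.reg 27 = P + 4 * j + 4 ∧
        L'.length ≤ LB) (1100 * n * LB) r1 (by omega) (by omega) hT ?_ ?_ ?_
  · refine ⟨L, (hL.set _ _), Keep.of_mem rfl, ?_, ?_, ?_, hLB⟩
    · rw [St.set_reg_ne _ _ (by decide), r8]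
      omega
    · rw [St.set_reg_ne _ _ (by decide), r9]
    · rw [St.set_reg_ne _ _ (by decide), r27]
  · rintro j hj s' ⟨L', hL', hk, g8, g9, g27, hlen'⟩ h10 hfr
    have hE2 : Env G mate Big Md s' := hE.keep hp hk (fun q hq h => by omega)
      (hfr 0 (by decide) (by decide)) (hfr 2 (by decide) (by decide))
      (hfr 3 (by decide) (by decide))
    have hF2 : Fresh Big (P + 4 * j + 4) s' := hF.keep hbp (by omega) hk
      (fun q h1 h2 => by omega)
    refine (tr_level hp hE2 sv a j hL' (by omega) (P1 := P + 4 * j + 4) le_rfl (by omega) hF2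
      (hGB j) hlen' hLB1 g8 g9 g27
      (by rw [hfr 6 (by decide) (by decide), r6])).mono le_rfl ?_
    rintro s2 ⟨L'', k1, k2, k3, k4, k5, k6⟩
    have e : P + 4 * (j + 1) = P + 4 * j + 4 := by ring
    refine ⟨L'', ?_, ?_, ?_, ?_, ?_, k6⟩
    · rw [e]; exact k1.set _ _
    · refine (hk.mono ?_).trans (Keep.mono (P := fun q => q = 3 ∨
        (P + 4 * j + 4 ≤ q ∧ q < P + 4 * j + 4 + 4)) k2 ?_)
      · intro q h; omega
      · intro q h; omega
    · rw [St.set_reg_ne _ _ (by decide), k3, e]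
    · rw [St.set_reg_ne _ _ (by decide), k4]
    · rw [St.set_reg_ne _ _ (by decide), k5, e]
  · rintro s' h _ _
    exact h

end Run7.h747
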