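import Pool.Agent.Run7.h747.Mates

/-!
The whole program.
-/

set_option autoImplicit false

namespace Run7.h747

open Finset Pool.Agent.H588R2 Pool.Agent.TH687.HL Pool.Agent.TH687.DCS

variable {n : ℕ}

/-- Register `4` := `2 ^ n`. -/
def ini1 : HC := .seq (.asg 4 (.c 1)) (.loop 10 0 (.asg 4 (.add (.r 4) (.r 4))))

/-- Register `3` := `(n + 1) ^ n`. -/
def ini2 : HC := .seq (.asg 3 (.c 1)) (.loop 10 0 (.asg 3 (.mul (.r 3) (.add (.r 0) (.c 1)))))

/-- The tables. -/
def ini3 : HC := .seq (.asg 4 (.c 1)) (.loop 10 0 (.seq (.sto (cell (.c 2) (.r 10)) (.r 4))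
  (.seq (.sto (cell (.c 1) (.r 10)) (.r 10)) (.asg 4 (.add (.r 4) (.r 4))))))

theorem tr_ini1 {w : ℕ} {s : St} (h0 : s.reg 0 = n) (hw : 2 ^ n < 2 ^ w) (hn1 : n < 2 ^ w)
    (hw1 : 1 < 2 ^ w) :
    Tr w ini1 s (20 * n + 10) (fun s' => s'.mem = s.mem ∧ s'.reg 4 = 2 ^ n) := by
  unfold ini1
  apply tr_asgs 1 (by simp only [Ex.ok]; omega) rfl (by simp only [Ex.cost]; omega)
  intro s1 m1 e1 f1
  refine Tr.loop (fun i s' => s'.mem = s.mem ∧ s'.reg 4 = 2 ^ i) 10
    (by rw [f1 0 (by decide), h0]) hn1 hw1 (by simp only [Ex.cost]; omega) ?_ ?_ ?_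
  · refine ⟨m1, ?_⟩
    rw [St.set_reg_ne _ _ (by decide), e1, pow_zero]
  · rintro i hi s' ⟨hm, h4⟩ _ _
    have hle : 2 ^ (i + 1) ≤ 2 ^ n := Nat.pow_le_pow_right (by norm_num) hi
    rw [pow_succ] at hle
    apply tr_asg (2 ^ i * 2) (by simp only [Ex.ok, Ex.ev, h4]; omega)
      (by simp only [Ex.ev, h4]; omega) (by decide)
    intro s2 m2 e2 f2
    refine ⟨m2.trans hm, ?_⟩
    rw [St.set_reg_ne _ _ (by decide), e2, pow_succ]
  · rintro s' h _ _
    exact h

theorem tr_ini2 {w : ℕ} {s : St} (h0 : s.reg 0 = n) (hw : (n + 1) ^ n < 2 ^ w)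
    (hn1 : n + 1 < 2 ^ w) (hw1 : 1 < 2 ^ w) :
    Tr w ini2 s (20 * n + 10) (fun s' => s'.mem = s.mem ∧ s'.reg 3 = (n + 1) ^ n) := by
  unfold ini2
  apply tr_asgs 1 (by simp only [Ex.ok]; omega) rfl (by simp only [Ex.cost]; omega)
  intro s1 m1 e1 f1
  refine Tr.loop (fun i s' => s'.mem = s.mem ∧ s'.reg 3 = (n + 1) ^ i) 12
    (by rw [f1 0 (by decide), h0]) (by omega) hw1 (by simp only [Ex.cost]; omega) ?_ ?_ ?_
  · refine ⟨m1, ?_⟩
    rw [St.set_reg_ne _ _ (by decide), e1, pow_zero]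
  · rintro i hi s' ⟨hm, h3⟩ _ hfr
    have hle : (n + 1) ^ (i + 1) ≤ (n + 1) ^ n := Nat.pow_le_pow_right (by omega) hi
    have hle2 : (n + 1) ^ i ≤ (n + 1) ^ n := Nat.pow_le_pow_right (by omega) hi.le
    rw [pow_succ] at hle
    have a0 : s'.reg 0 = n := by rw [hfr 0 (by decide) (by decide), f1 0 (by decide), h0]
    apply tr_asg ((n + 1) ^ i * (n + 1)) (by simp only [Ex.ok, Ex.ev, h3, a0]; omega)
      (by simp only [Ex.ev, h3, a0]) (by decide)
    intro s2 m2 e2 f2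
    refine ⟨m2.trans hm, ?_⟩
    rw [St.set_reg_ne _ _ (by decide), e2, pow_succ]
  · rintro s' h _ _
    exact h

open Classical in
theorem tr_ini3 {w Big Md Qm : ℕ} {G : SimpleGraph (Fin n)} {s : St} (hp : Par n w Big Md Qm)
    (hr : Rg n Big Md s)
    (hadj : ∀ u v : Fin n, bl Big s 0 (u * n + v) = if G.Adj u v then 1 else 0) :
    Tr w ini3 s (60 * n + 10) (fun s' => Env G (fun v => v) Big Md s' ∧
      Keep Big (fun q => q = 1 ∨ q = 2) s s') := by
  have h8 := hp.bw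
  have hpb := hp.pb
  have hnB := hp.n1b
  have hn3 := hp.n3
  have hnn := hp.nn
  have hq8 := hp.qpos
  have hn1 : n < 2 ^ w := by omega
  have oc : ∀ (s : St) (k : ℕ), k < 8 → (Ex.c k).ok w s := by
    intro s k hk; simp only [Ex.ok]; omega
  unfold ini3
  apply tr_asgs 1 (by simp only [Ex.ok]; omega) rfl (by simp only [Ex.cost]; omega)
  intro s1 m1 e1 f1
  have hr1 : Rg n Big Md s1 := hr.of (f1 0 (by decide)) (f1 2 (by decide)) (f1 3 (by decide))
  refine Tr.loop (fun i s' => Keep Big (fun q => q = 1 ∨ q = 2) s s' ∧ s'.reg 4 = 2 ^ i ∧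
      (∀ v : Fin n, (v : ℕ) < i → bl Big s' 1 v = v) ∧
      (∀ v : Fin n, (v : ℕ) < i → bl Big s' 2 v = 2 ^ (v : ℕ))) 50
    hr1.r0 hn1 (by omega) (by simp only [Ex.cost]; omega) ?_ ?_ ?_
  · refine ⟨Keep.of_mem m1, ?_, ?_, ?_⟩
    · rw [St.set_reg_ne _ _ (by decide), e1, pow_zero]
    · intro v hv; omega
    · intro v hv; omega
  · rintro i hi s' ⟨hk, h4, hb1, hb2⟩ h10 hfr
    have hr2 : Rg n Big Md s' := hr1.of (hfr 0 (by decide) (by decide))
      (hfr 2 (by decide) (by decide)) (hfr 3 (by decide) (by decide))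
    have hle : 2 ^ (i + 1) ≤ 2 ^ n := Nat.pow_le_pow_right (by norm_num) hi
    rw [pow_succ] at hle
    have o10 : (Ex.r 10).ok w s' := by simp only [Ex.ok, h10]; omega
    have hiB : i < Big := by omega
    apply tr_stos (2 * Big + i) (2 ^ i)
      (cell_okp (Q := 2) (X := i) hp hr2 (oc _ _ (by omega)) o10 rfl h10 (by omega) hiB)
      (by simp only [Ex.ok, h4]; omega) (cell_evp (Q := 2) (X := i) hr2 rfl (by exact h10))
      (by exact h4) (by decide)
    intro s2 m2 f2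
    have hr3 : Rg n Big Md s2 := hr2.of (f2 0) (f2 2) (f2 3)
    have g10 : s2.reg 10 = i := by rw [f2, h10]
    have o10 : (Ex.r 10).ok w s2 := by simp only [Ex.ok, g10]; omega
    apply tr_stos (1 * Big + i) i
      (cell_okp (Q := 1) (X := i) hp hr3 (oc _ _ (by omega)) o10 rfl g10 (by omega) hiB)
      o10 (cell_evp (Q := 1) (X := i) hr3 rfl (by exact g10)) (by exact g10) (by decide)
    intro s3 m3 f3
    have g4 : s3.reg 4 = 2 ^ i := by rw [f3, f2, h4]
    apply tr_asg (2 ^ i * 2) (by simp only [Ex.ok, Ex.ev, g4]; omega)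
      (by simp only [Ex.ev, g4]; omega) (by decide)
    intro s4 m4 e4 f4
    have k2 : Keep Big (fun q => q = 1 ∨ q = 2) s' s2 := by
      have := keep_put (s := s') (v := 2 ^ i) (P := fun q => q = 1 ∨ q = 2) (q := 2) hiB
        (Or.inr rfl)
      intro a ha; rw [m2]; exact this a ha
    have k3 : Keep Big (fun q => q = 1 ∨ q = 2) s2 s3 := by
      have := keep_put (s := s2) (v := i) (P := fun q => q = 1 ∨ q = 2) (q := 1) hiB
        (Or.inl rfl)
      intro a ha; rw [m3]; exact this a ha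
    refine ⟨hk.trans (k2.trans (k3.trans (Keep.of_mem m4))), ?_, ?_, ?_⟩
    · rw [St.set_reg_ne _ _ (by decide), e4, pow_succ]
    · intro v hv
      have hvn := v.2
      rw [bl_set, bl_mem m4, bl_mem m3, bl_put hiB (by omega)]
      by_cases e : (v : ℕ) = i
      · rw [if_pos ⟨rfl, e⟩, e]
      · rw [if_neg (fun h => e h.2), bl_mem m2, bl_put hiB (by omega), if_neg (by omega)]
        exact hb1 v (by omega)
    · intro v hv
      have hvn := v.2
      rw [bl_set, bl_mem m4, bl_mem m3, bl_put hiB (by omega), if_neg (by omega), bl_mem m2,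
        bl_put hiB (by omega)]
      by_cases e : (v : ℕ) = i
      · rw [if_pos ⟨rfl, e⟩, e]
      · rw [if_neg (fun h => e h.2)]
        exact hb2 v (by omega)
  · rintro s' ⟨hk, _, hb1, hb2⟩ _ hfr
    refine ⟨⟨?_, ?_, ?_, ?_⟩, hk⟩
    · exact hr1.of (hfr 0 (by decide) (by decide))
        (hfr 2 (by decide) (by decide)) (hfr 3 (by decide) (by decide))
    · intro u v
      have := uv_lt u v
      rw [hk.bl (by omega) (by omega), hadj]
    · intro v; exact hb1 v v.2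
    · intro v; exact hb2 v v.2

/-- The whole program. -/
def main : HC := .seq ini1 (.seq (.asg 2 (.mul (.r 4) (.add (.r 0) (.c 1)))) (.seq ini2
  (.seq ini3 (.seq (.asg 1 (.sub (.r 1) (.c 2))) (.seq (.asg 5 (.c 0)) (.seq (.asg 27 (.c 4))
  (.seq mates (.seq allPairs (.asg 0 (.r 5))))))))))

theorem main_wf : main.wf = true := by decide

open Classical in
theorem tr_main {w Big Md Qm LB m : ℕ} {G : SimpleGraph (Fin n)} {s : St}
    (hp : Par n w Big Md Qm) (h0 : s.reg 0 = n) (h1 : s.reg 1 = m + 3) (hmn : m + 3 ≤ n)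
    (hadj : ∀ u v : Fin n, s.mem (u * n + v) = if G.Adj u v then 1 else 0)
    (hz : ∀ a, n * n ≤ a → s.mem a = 0) (hcnt : G.copyCount (SimpleGraph.cycleGraph (m + 3)) < Md)
    (hGB : ∀ mate, Greedy G mate → ∀ sv av, sv < av → ∀ (j : ℕ) (w : Fin n)
      (S : Finset (Finset (Fin n))),
      (∀ X ∈ S, Cc G sv av mate j w X ≠ 0) → 2 * n * (n * S.card) ≤ LB)
    (hLB1 : 1 ≤ LB) :
    Tr w main s (2500 * (n * n * n * n * LB)) (fun s' =>
      s'.reg 0 = G.copyCount (SimpleGraph.cycleGraph (m + 3))) := by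
  have h8 := hp.bw
  have hmw := hp.mw
  have hmp := hp.mpos
  have hpb := hp.pb
  have hnB := hp.n1b
  have hn3 := hp.n3
  have hnn := hp.nn
  have hbp := hp.bpos
  have hq8 := hp.qpos
  have hn1 : n < 2 ^ w := by omega
  have hbig := hp.big
  have hmd := hp.md
  have oc : ∀ (s : St) (k : ℕ), k < 8 → (Ex.c k).ok w s := by
    intro s k hk; simp only [Ex.ok]; omega
  have hn4 : 27 * n ≤ n * n * n * n := by
    have e1 : 9 ≤ n * n := Nat.mul_le_mul hn3 hn3
    have e2 : 27 ≤ n * n * n := Nat.mul_le_mul e1 hn3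
    exact Nat.mul_le_mul_right _ e2
  have hT1 : n * n * n * n ≤ n * n * n * n * LB := Nat.le_mul_of_pos_right _ (by omega)
  have hTot : (20 * n + 10) + 20 + (20 * n + 10) + (60 * n + 10) + 20 + 300 * (n * n * n * n) +
      2020 * (n * n * n * n * LB) + 20 ≤ 2500 * (n * n * n * n * LB) := by omega
  unfold main
  apply tr_seqf _ (tr_ini1 h0 (by omega) hn1 (by omega)) (by omega)
  rintro s1 ⟨m1, a4⟩ f1
  have b0 : s1.reg 0 = n := by rw [f1 0 (by decide), h0]
  apply tr_asgs Big (by simp only [Ex.ok, Ex.ev, a4, b0]; omega)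
    (by simp only [Ex.ev, a4, b0, hbig]) (by simp only [Ex.cost]; omega)
  intro s2 m2 e2 f2
  have c0 : s2.reg 0 = n := by rw [f2 0 (by decide), b0]
  apply tr_seqf _ (tr_ini2 c0 (by omega) (by omega) (by omega)) (by simp only [Ex.cost]; omega)
  rintro s3 ⟨m3, a3⟩ f3
  have hr3 : Rg n Big Md s3 := ⟨by rw [f3 0 (by decide), c0], by rw [f3 2 (by decide), e2],
    by rw [a3, hmd]⟩
  have hm3 : s3.mem = s.mem := by rw [m3, m2, m1]
  have hb0 : ∀ X, bl Big s3 0 X = s.mem X := by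
    intro X; unfold bl; rw [hm3, Nat.zero_mul, Nat.zero_add]
  apply tr_seqf _ (tr_ini3 (G := G) hp hr3 (fun u v => by rw [hb0, hadj]))
    (by simp only [Ex.cost]; omega)
  rintro s4 ⟨hE4, k4⟩ f4
  have hF3 : Fresh Big 1 s3 := by
    intro a ha
    rw [hm3]
    exact hz a (by omega)
  have hF4 : Fresh Big 4 s4 := hF3.keep hbp (by omega) k4 (fun q h1 h2 => by omega)
  have g1 : s4.reg 1 = m + 3 := by
    rw [f4 1 (by decide), f3 1 (by decide), f2 1 (by decide), f1 1 (by decide), h1]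
  apply tr_asgs (m + 1) (by simp only [Ex.ok, g1]; omega) (by simp only [Ex.ev, g1]; omega)
    (by simp only [Ex.cost]; omega)
  intro s5 m5 e5 f5
  apply tr_asgs 0 (oc _ _ (by omega)) rfl (by simp only [Ex.cost]; omega)
  intro s6 m6 e6 f6
  apply tr_asgs 4 (oc _ _ (by omega)) rfl (by simp only [Ex.cost]; omega)
  intro s7 m7 e7 f7
  have hm7 : s7.mem = s4.mem := by rw [m7, m6, m5]
  have hE7 : Env G (fun v => v) Big Md s7 := hE4.keep hp (Keep.of_mem (P := fun _ => False) hm7)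
    (fun _ _ h => h) (by rw [f7 0 (by decide), f6 0 (by decide), f5 0 (by decide)])
    (by rw [f7 2 (by decide), f6 2 (by decide), f5 2 (by decide)])
    (by rw [f7 3 (by decide), f6 3 (by decide), f5 3 (by decide)])
  have hF7 : Fresh Big 4 s7 := fun a ha => by rw [hm7]; exact hF4 a ha
  apply tr_seqf _ (tr_mates hp hE7) (by simp only [Ex.cost]; omega)
  rintro s8 ⟨k8, mt, hE8, hg⟩ f8
  have hF8 : Fresh Big 4 s8 := hF7.keep hbp (by omega) k8 (fun q h1 h2 => by omega)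
  apply tr_seqf _ (tr_allPairs (LB := LB) (J := m + 1) hp hE8 hg.1 hF8 (hGB mt hg) hLB1 (by omega)
    (by rw [f8 1 (by decide), f7 1 (by decide), f6 1 (by decide), e5])
    (by rw [f8 5 (by decide), f7 5 (by decide), e6])
    (by rw [f8 27 (by decide), e7])) (by simp only [Ex.cost]; omega)
  rintro s9 ⟨h5, v5⟩ f9
  apply tr_asg (s9.reg 5) (by simp only [Ex.ok]; omega) rfl (by simp only [Ex.cost]; omega)
  intro s10 m10 e10 f10
  rw [e10]
  have hcw := copyCount_walks (m := m) G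
  have hsum : (∑ sv : Fin n, ∑ av : Fin n, cnt G (m + 1) sv av : ℕ) =
      G.copyCount (SimpleGraph.cycleGraph (m + 3)) := by
    rw [hcw]; rfl
  rw [hsum, ZMod.natCast_eq_natCast_iff'] at v5
  rw [Nat.mod_eq_of_lt h5, Nat.mod_eq_of_lt hcnt] at v5
  exact v5

end Run7.h747
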