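import Pool.Agent.Run7.h747.Pairs
import Pool.Agent.Run7.h747.Greedy

/-!
Computing the mates.
-/

set_option autoImplicit false

namespace Run7.h747

open Finset Pool.Agent.H588R2 Pool.Agent.TH687.HL Pool.Agent.TH687.DCS

variable {n : ℕ}

/-- State of the greedy procedure. -/
def MI (G : SimpleGraph (Fin n)) (mt : Fin n → Fin n) (D k : ℕ) : Prop :=
  (∀ v, mt (mt v) = v) ∧ (∀ x, mt x ≠ x → dst G x (mt x) ≤ D) ∧
    (∀ D' < D, ∀ u v, u ≠ v → dst G u v ≤ D' →
      ∃ x, (x = u ∨ x = v) ∧ mt x ≠ x ∧ dst G x (mt x) ≤ D') ∧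
    (∀ u v : Fin n, (u : ℕ) * n + v < k → u ≠ v → dst G u v ≤ D →
      ∃ x, (x = u ∨ x = v) ∧ mt x ≠ x ∧ dst G x (mt x) ≤ D)

theorem MI_zero (G : SimpleGraph (Fin n)) : MI G (fun v => v) 0 0 := by
  refine ⟨fun _ => rfl, fun x h => absurd rfl h, ?_, ?_⟩
  · intro D' h; omega
  · intro u v h; omega

theorem MI_next {G : SimpleGraph (Fin n)} {mt : Fin n → Fin n} {D : ℕ}
    (h : MI G mt D (n * n)) : MI G mt (D + 1) 0 := by
  obtain ⟨h1, h2, h3, h4⟩ := h
  refine ⟨h1, fun x hx => (h2 x hx).trans (by omega), ?_, ?_⟩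
  · intro D' hD u v huv hd
    by_cases e : D' = D
    · subst e; exact h4 u v (uv_lt u v) huv hd
    · exact h3 D' (by omega) u v huv hd
  · intro u v h; omega

theorem idx_inj {u v u' v' : Fin n} (h : (u : ℕ) * n + v = u' * n + v') : u = u' ∧ v = v' := by
  obtain ⟨a, b⟩ := cell_inj v.2 v'.2 h
  exact ⟨Fin.ext a, Fin.ext b⟩

theorem MI_skip {G : SimpleGraph (Fin n)} {mt : Fin n → Fin n} {D : ℕ} {u v : Fin n}
    (h : MI G mt D ((u : ℕ) * n + v))
    (hs : mt u ≠ u ∨ mt v ≠ v ∨ u = v ∨ D < dst G u v) : MI G mt D ((u : ℕ) * n + v + 1) := by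
  obtain ⟨h1, h2, h3, h4⟩ := h
  refine ⟨h1, h2, h3, ?_⟩
  intro u' v' hlt huv hd
  by_cases e : (u' : ℕ) * n + v' = u * n + v
  · obtain ⟨rfl, rfl⟩ := idx_inj e
    rcases hs with h | h | h | h
    · exact ⟨u', Or.inl rfl, h, h2 _ h⟩
    · exact ⟨v', Or.inr rfl, h, h2 _ h⟩
    · exact absurd h huv
    · omega
  · exact h4 u' v' (by omega) huv hd

/-- The new mates. -/
def upd (mt : Fin n → Fin n) (u v : Fin n) : Fin n → Fin n :=
  Function.update (Function.update mt u v) v u

theorem MI_step {G : SimpleGraph (Fin n)} {mt : Fin n → Fin n} {D : ℕ} {u v : Fin n}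
    (h : MI G mt D ((u : ℕ) * n + v)) (hu : mt u = u) (hv : mt v = v) (huv : u ≠ v)
    (hd : dst G u v ≤ D) : MI G (upd mt u v) D ((u : ℕ) * n + v + 1) := by
  obtain ⟨h1, h2, h3, h4⟩ := h
  have eu : upd mt u v u = v := by
    unfold upd; rw [Function.update_of_ne huv, Function.update_self]
  have ev : upd mt u v v = u := by
    unfold upd; rw [Function.update_self]
  have ex : ∀ x, x ≠ u → x ≠ v → upd mt u v x = mt x := by
    intro x a b
    unfold upd; rw [Function.update_of_ne b, Function.update_of_ne a]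
  have hold : ∀ x, mt x ≠ x → x ≠ u ∧ x ≠ v := by
    intro x hx
    exact ⟨fun e => hx (by rw [e, hu]), fun e => hx (by rw [e, hv])⟩
  have hmono : ∀ D' u' v', (∃ x, (x = u' ∨ x = v') ∧ mt x ≠ x ∧ dst G x (mt x) ≤ D') →
      ∃ x, (x = u' ∨ x = v') ∧ upd mt u v x ≠ x ∧ dst G x (upd mt u v x) ≤ D' := by
    rintro D' u' v' ⟨x, a, b, c⟩
    have := ex x (hold x b).1 (hold x b).2
    exact ⟨x, a, by rw [this]; exact b, by rw [this]; exact c⟩
  refine ⟨?_, ?_, ?_, ?_⟩
  · intro x
    by_cases a : x = u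
    · subst a; rw [eu, ev]
    · by_cases b : x = v
      · subst b; rw [ev, eu]
      · rw [ex x a b]
        rw [ex _ _ _, h1]
        · intro e; apply a; rw [← h1 x, e, hu]
        · intro e; apply b; rw [← h1 x, e, hv]
  · intro x hx
    by_cases a : x = u
    · subst a; rw [eu]; exact hd
    · by_cases b : x = v
      · subst b; rw [ev, dst_comm]; exact hd
      · rw [ex x a b] at hx ⊢
        exact h2 x hx
  · intro D' hD' u' v' e1 e2
    exact hmono _ _ _ (h3 D' hD' u' v' e1 e2)
  · intro u' v' hlt e1 e2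
    by_cases e : (u' : ℕ) * n + v' = u * n + v
    · obtain ⟨rfl, rfl⟩ := idx_inj e
      exact ⟨u', Or.inl rfl, by rw [eu]; exact huv.symm, by rw [eu]; exact hd⟩
    · exact hmono _ _ _ (h4 u' v' (by omega) e1 e2)

theorem dst_lt (G : SimpleGraph (Fin n)) (u v : Fin n) : dst G u v < n := by
  classical
  have h : dst G u v ≤ (univ.erase u).card := by
    unfold dst
    apply card_le_card
    intro x hx
    rw [mem_filter] at hx
    exact mem_erase.2 ⟨hx.2.1, mem_univ _⟩
  rw [card_erase_of_mem (mem_univ _), card_univ, Fintype.card_fin] at h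
  have := u.2
  omega

theorem MI_end {G : SimpleGraph (Fin n)} {mt : Fin n → Fin n} (h : MI G mt n 0) :
    Greedy G mt := by
  obtain ⟨h1, _, h3, _⟩ := h
  exact ⟨h1, fun u v huv => h3 _ (dst_lt G u v) u v huv le_rfl⟩

/-- Distance of the vertices in the registers `11` and `12`. -/
def dstC : HC := .seq (.asg 13 (.c 0)) (.loop 14 0 (.ite (.c 0) (ad (.r 14) (.r 11))
  (.ite (.c 0) (ad (.r 14) (.r 12)) (.ite (.c 0)
    (ad (rd (.c 0) (.add (.mul (.r 11) (.r 0)) (.r 14)))
      (rd (.c 0) (.add (.mul (.r 12) (.r 0)) (.r 14))))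
    (.asg 13 (.add (.r 13) (.c 1))) .skip) .skip) .skip))

theorem tr_dstC {w Big Md Qm : ℕ} {G : SimpleGraph (Fin n)} {mt : Fin n → Fin n} {s : St}
    (hp : Par n w Big Md Qm) (hE : Env G mt Big Md s) (u v : Fin n)
    (r11 : s.reg 11 = u) (r12 : s.reg 12 = v) :
    Tr w dstC s (120 * n) (fun s' => s'.mem = s.mem ∧ s'.reg 13 = dst G u v) := by
  classical
  have h8 := hp.bw
  have hnB := hp.n1b
  have hn3 := hp.n3
  have hnn := hp.nn
  have hq8 := hp.qpos
  have hn1 : n < 2 ^ w := by omega
  have hu := u.2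
  have hv := v.2
  have oc : ∀ (s : St) (k : ℕ), k < 8 → (Ex.c k).ok w s := by
    intro s k hk; simp only [Ex.ok]; omega
  unfold dstC
  apply tr_asgs 0 (oc _ _ (by omega)) rfl (by simp only [Ex.cost]; omega)
  intro s1 m1 e1 f1
  refine Tr.loop (fun i s' => s'.mem = s.mem ∧ s'.reg 13 = (univ.filter (fun x : Fin n =>
    (x : ℕ) < i ∧ x ≠ u ∧ x ≠ v ∧ ¬ (G.Adj u x ↔ G.Adj v x))).card) 110
    (by rw [f1 0 (by decide), hE.rg.r0]) hn1 (by omega) (by simp only [Ex.cost]; omega) ?_ ?_ ?_
  · refine ⟨m1, ?_⟩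
    rw [St.set_reg_ne _ _ (by decide), e1]
    simp
  · rintro i hi s' ⟨hm, h13⟩ h14 hfr
    set x : Fin n := ⟨i, hi⟩ with hx
    have hE2 : Env G mt Big Md s' := hE.keep hp (Keep.of_mem (P := fun _ => False) hm)
      (fun _ _ h => h) (by rw [hfr 0 (by decide) (by decide), f1 0 (by decide)])
      (by rw [hfr 2 (by decide) (by decide), f1 2 (by decide)])
      (by rw [hfr 3 (by decide) (by decide), f1 3 (by decide)])
    have hr := hE2.rg
    have a11 : s'.reg 11 = u := by rw [hfr 11 (by decide) (by decide), f1 11 (by decide), r11]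
    have a12 : s'.reg 12 = v := by rw [hfr 12 (by decide) (by decide), f1 12 (by decide), r12]
    have a14 : s'.reg 14 = x := h14
    have o11 : (Ex.r 11).ok w s' := by simp only [Ex.ok, a11]; omega
    have o12 : (Ex.r 12).ok w s' := by simp only [Ex.ok, a12]; omega
    have o14 : (Ex.r 14).ok w s' := by simp only [Ex.ok, a14]; omega
    have hcard : (univ.filter (fun x : Fin n =>
        (x : ℕ) < i ∧ x ≠ u ∧ x ≠ v ∧ ¬ (G.Adj u x ↔ G.Adj v x))).card ≤ n := by
      refine (card_le_univ _).trans ?_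
      rw [Fintype.card_fin]
    have hS : (univ.filter (fun y : Fin n =>
        (y : ℕ) < i + 1 ∧ y ≠ u ∧ y ≠ v ∧ ¬ (G.Adj u y ↔ G.Adj v y))) =
        if x ≠ u ∧ x ≠ v ∧ ¬ (G.Adj u x ↔ G.Adj v x) then insert x (univ.filter (fun y : Fin n =>
        (y : ℕ) < i ∧ y ≠ u ∧ y ≠ v ∧ ¬ (G.Adj u y ↔ G.Adj v y))) else
        (univ.filter (fun y : Fin n =>
        (y : ℕ) < i ∧ y ≠ u ∧ y ≠ v ∧ ¬ (G.Adj u y ↔ G.Adj v y))) := by
      split_ifs with h
      · ext y
        simp only [mem_filter, mem_univ, true_and, mem_insert]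
        constructor
        · rintro ⟨b1, b2⟩
          by_cases e : y = x
          · exact Or.inl e
          · have : (y : ℕ) ≠ i := fun e' => e (Fin.ext e')
            exact Or.inr ⟨by omega, b2⟩
        · rintro (b1 | ⟨b1, b2⟩)
          · subst b1; exact ⟨by simp only [hx]; omega, h⟩
          · exact ⟨by omega, b2⟩
      · ext y
        simp only [mem_filter, mem_univ, true_and]
        constructor
        · rintro ⟨b1, b2⟩
          have : (y : ℕ) ≠ i := fun e' => h (by
            have : y = x := Fin.ext e'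
            rw [← this]; exact b2)
          exact ⟨by omega, b2⟩
        · rintro ⟨b1, b2⟩
          exact ⟨by omega, b2⟩
    have hxn : x ∉ (univ.filter (fun y : Fin n =>
        (y : ℕ) < i ∧ y ≠ u ∧ y ≠ v ∧ ¬ (G.Adj u y ↔ G.Adj v y))) := by
      simp [hx]
    have hskip : ¬ (x ≠ u ∧ x ≠ v ∧ ¬ (G.Adj u x ↔ G.Adj v x)) →
        (s'.set 14 (i + 1)).mem = s.mem ∧ (s'.set 14 (i + 1)).reg 13 =
        (univ.filter (fun x : Fin n =>
          (x : ℕ) < i + 1 ∧ x ≠ u ∧ x ≠ v ∧ ¬ (G.Adj u x ↔ G.Adj v x))).card := by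
      intro h
      refine ⟨hm, ?_⟩
      rw [St.set_reg_ne _ _ (by decide), h13, hS, if_neg h]
    apply Tr.ite (T := 90) (oc _ _ (by omega)) (ad_ok o14 o11) (by decide)
    · intro h
      have h1 : x ≠ u := by
        have := (ad_pos (a := .r 14) (b := .r 11) a14 a11).1 h
        exact fun e => this (by rw [e])
      apply Tr.ite (T := 75) (oc _ _ (by omega)) (ad_ok o14 o12) (by decide)
      · intro h
        have h2 : x ≠ v := by
          have := (ad_pos (a := .r 14) (b := .r 12) a14 a12).1 h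
          exact fun e => this (by rw [e])
        have hux := uv_lt u x
        have hvx := uv_lt v x
        have hau := hE2.adj u x
        have hav := hE2.adj v x
        have oi1 : (Ex.add (.mul (.r 11) (.r 0)) (.r 14)).ok w s' := by
          simp only [Ex.ok, Ex.ev, hr.r0, a11, a14]; omega
        have vi1 : (Ex.add (.mul (.r 11) (.r 0)) (.r 14)).ev s' = u * n + x := by
          simp only [Ex.ev, hr.r0, a11, a14]
        have oi2 : (Ex.add (.mul (.r 12) (.r 0)) (.r 14)).ok w s' := by
          simp only [Ex.ok, Ex.ev, hr.r0, a12, a14]; omega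
        have vi2 : (Ex.add (.mul (.r 12) (.r 0)) (.r 14)).ev s' = v * n + x := by
          simp only [Ex.ev, hr.r0, a12, a14]
        have e1 : (rd (.c 0) (.add (.mul (.r 11) (.r 0)) (.r 14))).ev s' =
            if G.Adj u x then 1 else 0 :=
          rd_evq (Q := 0) (X := u * n + x) hr (by exact rfl) (by exact vi1) hau
        have e2 : (rd (.c 0) (.add (.mul (.r 12) (.r 0)) (.r 14))).ev s' =
            if G.Adj v x then 1 else 0 :=
          rd_evq (Q := 0) (X := v * n + x) hr (by exact rfl) (by exact vi2) hav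
        have o1 : (rd (.c 0) (.add (.mul (.r 11) (.r 0)) (.r 14))).ok w s' :=
          rd_okp (Q := 0) (X := u * n + x) hp hr (oc _ _ (by omega)) oi1 rfl vi1 (by omega)
            (by omega) (by rw [hau]; split_ifs <;> omega)
        have o2 : (rd (.c 0) (.add (.mul (.r 12) (.r 0)) (.r 14))).ok w s' :=
          rd_okp (Q := 0) (X := v * n + x) hp hr (oc _ _ (by omega)) oi2 rfl vi2 (by omega)
            (by omega) (by rw [hav]; split_ifs <;> omega)
        apply Tr.ite (T := 10) (oc _ _ (by omega)) (ad_ok o1 o2) (by decide)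
        · intro h
          have h3 := (ad_pos e1 e2).1 h
          have h4 : x ≠ u ∧ x ≠ v ∧ ¬ (G.Adj u x ↔ G.Adj v x) := by
            refine ⟨h1, h2, ?_⟩
            intro h4
            apply h3
            simp only [h4]
          apply tr_asg (s'.reg 13 + 1) (by simp only [Ex.ok, Ex.ev]; omega)
            (by simp only [Ex.ev]) (by decide)
          intro s2 m2 g2 f2
          refine ⟨m2.trans hm, ?_⟩
          rw [St.set_reg_ne _ _ (by decide), g2, h13, hS, if_pos h4, card_insert_of_notMem hxn]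
        · intro h
          apply Tr.skip
          apply hskip
          rintro ⟨_, _, h4⟩
          refine h ((ad_pos e1 e2).2 ?_)
          by_cases b1 : G.Adj u x <;> by_cases b2 : G.Adj v x
          · exact absurd ⟨fun _ => b2, fun _ => b1⟩ h4
          · rw [if_pos b1, if_neg b2]; omega
          · rw [if_neg b1, if_pos b2]; omega
          · exact absurd ⟨fun h => absurd h b1, fun h => absurd h b2⟩ h4
      · intro h
        apply Tr.skip
        apply hskip
        rintro ⟨_, h2, _⟩
        exact h ((ad_pos (a := .r 14) (b := .r 12) a14 a12).2 (fun e => h2 (Fin.ext e)))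
    · intro h
      apply Tr.skip
      apply hskip
      rintro ⟨h2, _, _⟩
      exact h ((ad_pos (a := .r 14) (b := .r 11) a14 a11).2 (fun e => h2 (Fin.ext e)))
  · rintro s' ⟨hm, h13⟩ _ _
    refine ⟨hm, ?_⟩
    rw [h13]
    unfold dst
    congr 1
    ext x
    simp only [mem_filter, mem_univ, true_and, x.2]

/-- Try to match the vertices in the registers `11` and `12`. -/
def tryM : HC := .ite (ad (rd (.c 1) (.r 11)) (.r 11)) (.c 1)
  (.ite (ad (rd (.c 1) (.r 12)) (.r 12)) (.c 1)
    (.ite (.c 0) (ad (.r 11) (.r 12)) (.seq dstC (.ite (.r 13) (.add (.r 10) (.c 1))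
      (.seq (.sto (cell (.c 1) (.r 11)) (.r 12)) (.sto (cell (.c 1) (.r 12)) (.r 11))) .skip))
      .skip) .skip) .skip

theorem tr_tryM {w Big Md Qm : ℕ} {G : SimpleGraph (Fin n)} {mt : Fin n → Fin n} {s : St}
    (hp : Par n w Big Md Qm) (hE : Env G mt Big Md s) (u v : Fin n) (D : ℕ) (hD : D < n)
    (hM : MI G mt D ((u : ℕ) * n + v)) (r10 : s.reg 10 = D)
    (r11 : s.reg 11 = u) (r12 : s.reg 12 = v) :
    Tr w tryM s (200 * n) (fun s' => Keep Big (fun q => q = 1) s s' ∧
      ∃ mt', Env G mt' Big Md s' ∧ MI G mt' D ((u : ℕ) * n + v + 1)) := by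
  classical
  have h8 := hp.bw
  have hnB := hp.n1b
  have hn3 := hp.n3
  have hnn := hp.nn
  have hq8 := hp.qpos
  have hn1 : n < 2 ^ w := by omega
  have hu := u.2
  have hv := v.2
  have hmu := (mt u).2
  have hmv := (mt v).2
  have oc : ∀ (s : St) (k : ℕ), k < 8 → (Ex.c k).ok w s := by
    intro s k hk; simp only [Ex.ok]; omega
  have o11 : (Ex.r 11).ok w s := by simp only [Ex.ok, r11]; omega
  have o12 : (Ex.r 12).ok w s := by simp only [Ex.ok, r12]; omega
  have e1 : (rd (.c 1) (.r 11)).ev s = (mt u : ℕ) :=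
    rd_evq (Q := 1) (X := u) hE.rg (by exact rfl) (by exact r11) (hE.mt u)
  have e2 : (rd (.c 1) (.r 12)).ev s = (mt v : ℕ) :=
    rd_evq (Q := 1) (X := v) hE.rg (by exact rfl) (by exact r12) (hE.mt v)
  have o1 : (rd (.c 1) (.r 11)).ok w s :=
    rd_okp (Q := 1) (X := u) hp hE.rg (oc _ _ (by omega)) o11 rfl r11 (by omega)
      (by omega) (by rw [hE.mt]; omega)
  have o2 : (rd (.c 1) (.r 12)).ok w s :=
    rd_okp (Q := 1) (X := v) hp hE.rg (oc _ _ (by omega)) o12 rfl r12 (by omega)
      (by omega) (by rw [hE.mt]; omega)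
  unfold tryM
  apply Tr.ite (T := 170 * n) (ad_ok o1 o11) (oc _ _ (by omega))
    (by simp only [ad, rd, cell, Ex.cost]; omega)
  · intro h
    have h1 : mt u = u := by
      by_contra hne
      have := (ad_pos e1 (b := .r 11) r11).2 (fun e => hne (Fin.ext e))
      have h' : (ad (rd (.c 1) (.r 11)) (.r 11)).ev s < 1 := h
      omega
    apply Tr.ite (T := 150 * n) (ad_ok o2 o12) (oc _ _ (by omega))
      (by simp only [ad, rd, cell, Ex.cost]; omega)
    · intro h
      have h2 : mt v = v := by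
        by_contra hne
        have := (ad_pos e2 (b := .r 12) r12).2 (fun e => hne (Fin.ext e))
        have h' : (ad (rd (.c 1) (.r 12)) (.r 12)).ev s < 1 := h
        omega
      apply Tr.ite (T := 140 * n) (oc _ _ (by omega)) (ad_ok o11 o12)
        (by simp only [ad, Ex.cost]; omega)
      · intro h
        have h3 : u ≠ v := by
          have := (ad_pos (a := .r 11) (b := .r 12) r11 r12).1 h
          exact fun e => this (by rw [e])
        apply tr_seqf _ (tr_dstC hp hE u v r11 r12) (by omega)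
        rintro s1 ⟨m1, g13⟩ f1
        have hE1 : Env G mt Big Md s1 := hE.keep hp (Keep.of_mem (P := fun _ => False) m1)
          (fun _ _ h => h) (f1 0 (by decide)) (f1 2 (by decide)) (f1 3 (by decide))
        have hdl := dst_lt G u v
        have g10 : s1.reg 10 = D := by rw [f1 10 (by decide), r10]
        have g11 : s1.reg 11 = u := by rw [f1 11 (by decide), r11]
        have g12 : s1.reg 12 = v := by rw [f1 12 (by decide), r12]
        have o11 : (Ex.r 11).ok w s1 := by simp only [Ex.ok, g11]; omega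
        have o12 : (Ex.r 12).ok w s1 := by simp only [Ex.ok, g12]; omega
        apply Tr.ite (T := 45) (by simp only [Ex.ok, g13]; omega)
          (by simp only [Ex.ok, Ex.ev, g10]; omega) (by simp only [Ex.cost]; omega)
        · intro h
          simp only [Ex.ev, g13, g10] at h
          have hr1 := hE1.rg
          have hBu : (u : ℕ) < Big := by omega
          have hBv : (v : ℕ) < Big := by omega
          apply tr_stos (1 * Big + u) (v : ℕ)
            (cell_okp (Q := 1) (X := u) hp hr1 (oc _ _ (by omega)) o11 rfl g11 (by omega) hBu)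
            o12 (cell_evp (Q := 1) (X := u) hr1 rfl (by exact g11)) (by exact g12) (by decide)
          intro s2 m2 f2
          have hr2 : Rg n Big Md s2 := hr1.of (f2 0) (f2 2) (f2 3)
          have i11 : s2.reg 11 = u := by rw [f2, g11]
          have i12 : s2.reg 12 = v := by rw [f2, g12]
          have o11 : (Ex.r 11).ok w s2 := by simp only [Ex.ok, i11]; omega
          have o12 : (Ex.r 12).ok w s2 := by simp only [Ex.ok, i12]; omega
          apply tr_sto (1 * Big + v) (u : ℕ)
            (cell_okp (Q := 1) (X := v) hp hr2 (oc _ _ (by omega)) o12 rfl i12 (by omega) hBv)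
            o11 (cell_evp (Q := 1) (X := v) hr2 rfl (by exact i12)) (by exact i11) (by decide)
          intro s3 m3 f3
          have hk2 : Keep Big (fun q => q = 1) s1 s2 := by
            have := keep_put (s := s1) (v := (v : ℕ)) (P := fun q => q = 1) (q := 1) hBu rfl
            intro a ha; rw [m2]; exact this a ha
          have hk3 : Keep Big (fun q => q = 1) s2 s3 := by
            have := keep_put (s := s2) (v := (u : ℕ)) (P := fun q => q = 1) (q := 1) hBv rfl
            intro a ha; rw [m3]; exact this a ha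
          have hk := hk2.trans hk3
          refine ⟨(Keep.of_mem m1).trans hk, upd mt u v, ⟨?_, ?_, ?_, ?_⟩, ?_⟩
          · exact hr2.of (f3 0) (f3 2) (f3 3)
          · intro x y
            have := uv_lt x y
            rw [hk.bl (by omega) (by omega), hE1.adj]
          · intro x
            have hx := x.2
            rw [bl_mem m3, bl_put hBv (by omega), bl_mem m2, bl_put hBu (by omega)]
            unfold upd
            by_cases a : x = v
            · subst a; rw [if_pos ⟨rfl, rfl⟩, Function.update_self]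
            · rw [if_neg (fun h => a (Fin.ext h.2)), Function.update_of_ne a]
              by_cases b : x = u
              · subst b; rw [if_pos ⟨rfl, rfl⟩, Function.update_self]
              · rw [if_neg (fun h => b (Fin.ext h.2)), Function.update_of_ne b, hE1.mt]
          · intro x
            have := x.2
            rw [hk.bl (by omega) (by omega), hE1.pw]
          · exact MI_step hM h1 h2 h3 (by omega)
        · intro h
          simp only [Ex.ev, g13, g10] at h
          exact Tr.skip ⟨Keep.of_mem m1, mt, hE1,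
            MI_skip hM (Or.inr (Or.inr (Or.inr (by omega))))⟩
      · intro h
        have h3 : u = v := by
          by_contra hne
          exact h ((ad_pos (a := .r 11) (b := .r 12) r11 r12).2 (fun e => hne (Fin.ext e)))
        exact Tr.skip ⟨Keep.refl _ _ _, mt, hE, MI_skip hM (Or.inr (Or.inr (Or.inl h3)))⟩
    · intro h
      have h2 : mt v ≠ v := by
        intro he
        have h4 : ¬ 0 < (ad (rd (.c 1) (.r 12)) (.r 12)).ev s := by
          rw [ad_pos e2 (b := .r 12) r12, he]; simp
        have h' : ¬ (ad (rd (.c 1) (.r 12)) (.r 12)).ev s < 1 := h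
        omega
      exact Tr.skip ⟨Keep.refl _ _ _, mt, hE, MI_skip hM (Or.inr (Or.inl h2))⟩
  · intro h
    have h2 : mt u ≠ u := by
      intro he
      have h4 : ¬ 0 < (ad (rd (.c 1) (.r 11)) (.r 11)).ev s := by
        rw [ad_pos e1 (b := .r 11) r11, he]; simp
      have h' : ¬ (ad (rd (.c 1) (.r 11)) (.r 11)).ev s < 1 := h
      omega
    exact Tr.skip ⟨Keep.refl _ _ _, mt, hE, MI_skip hM (Or.inl h2)⟩

/-- Compute all mates. -/
def mates : HC := .loop 10 0 (.loop 11 0 (.loop 12 0 tryM))

theorem tr_mates {w Big Md Qm : ℕ} {G : SimpleGraph (Fin n)} {s : St}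
    (hp : Par n w Big Md Qm) (hE : Env G (fun v => v) Big Md s) :
    Tr w mates s (300 * (n * n * n * n)) (fun s' => Keep Big (fun q => q = 1) s s' ∧
      ∃ mt, Env G mt Big Md s' ∧ Greedy G mt) := by
  have h8 := hp.bw
  have hnB := hp.n1b
  have hn3 := hp.n3
  have hn1 : n < 2 ^ w := by omega
  have hT1 : n * (200 * n + 4) + 3 ≤ 210 * (n * n) := by
    have : n * (200 * n + 4) = 200 * (n * n) + 4 * n := by ring
    nlinarith
  have hT2 : n * (210 * (n * n) + 4) + 3 ≤ 220 * (n * n * n) := by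
    have e1 : n * (210 * (n * n) + 4) = 210 * (n * n * n) + 4 * n := by ring
    have e2 : n ≤ n * n * n := by nlinarith
    omega
  have hT3 : n * (220 * (n * n * n) + 4) + 3 ≤ 300 * (n * n * n * n) := by
    have e1 : n * (220 * (n * n * n) + 4) = 220 * (n * n * n * n) + 4 * n := by ring
    have e2 : n ≤ n * n * n := by nlinarith
    have e3 : n * n * n ≤ n * n * n * n := Nat.le_mul_of_pos_right _ (by omega)
    omega
  unfold mates
  refine Tr.loop (fun D s' => Keep Big (fun q => q = 1) s s' ∧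
      ∃ mt, Env G mt Big Md s' ∧ MI G mt D 0) (220 * (n * n * n)) hE.rg.r0 hn1 (by omega) hT3
      ?_ ?_ ?_
  · refine ⟨Keep.of_mem rfl, _, hE.keep hp (Keep.of_mem (P := fun _ => False) rfl)
      (fun _ _ h => h) ?_ ?_ ?_, MI_zero G⟩ <;> rw [St.set_reg_ne _ _ (by decide)]
  · rintro D hD s1 ⟨k1, mt1, hE1, hM1⟩ h10 f1
    refine Tr.loop (fun u s' => Keep Big (fun q => q = 1) s s' ∧
      ∃ mt, Env G mt Big Md s' ∧ MI G mt D (u * n)) (210 * (n * n)) hE1.rg.r0 hn1 (by omega) hT2
      ?_ ?_ ?_
    · refine ⟨k1, mt1, hE1.keep hp (Keep.of_mem (P := fun _ => False) rfl)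
        (fun _ _ h => h) ?_ ?_ ?_, by rw [Nat.zero_mul]; exact hM1⟩ <;>
        rw [St.set_reg_ne _ _ (by decide)]
    · rintro u hu s2 ⟨k2, mt2, hE2, hM2⟩ h11 f2
      refine Tr.loop (fun v s' => Keep Big (fun q => q = 1) s s' ∧
        ∃ mt, Env G mt Big Md s' ∧ MI G mt D (u * n + v)) (200 * n) hE2.rg.r0 hn1 (by omega) hT1
        ?_ ?_ ?_
      · refine ⟨k2, mt2, hE2.keep hp (Keep.of_mem (P := fun _ => False) rfl)
          (fun _ _ h => h) ?_ ?_ ?_, hM2⟩ <;>
          rw [St.set_reg_ne _ _ (by decide)]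
      · rintro v hv s3 ⟨k3, mt3, hE3, hM3⟩ h12 f3
        refine (tr_tryM hp hE3 ⟨u, hu⟩ ⟨v, hv⟩ D hD hM3
          (by rw [f3 10 (by decide) (by decide), f2 10 (by decide) (by decide), h10])
          (by rw [f3 11 (by decide) (by decide), h11]) h12).mono le_rfl ?_
        rintro s4 ⟨k4, mt4, hE4, hM4⟩
        refine ⟨k3.trans k4, mt4, hE4.keep hp (Keep.of_mem (P := fun _ => False) rfl)
          (fun _ _ h => h) ?_ ?_ ?_, hM4⟩ <;>
          rw [St.set_reg_ne _ _ (by decide)]
      · rintro s3 ⟨k3, mt3, hE3, hM3⟩ _ _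
        refine ⟨k3, mt3, hE3.keep hp (Keep.of_mem (P := fun _ => False) rfl)
          (fun _ _ h => h) ?_ ?_ ?_, ?_⟩
        · rw [St.set_reg_ne _ _ (by decide)]
        · rw [St.set_reg_ne _ _ (by decide)]
        · rw [St.set_reg_ne _ _ (by decide)]
        · have e : (u + 1) * n = u * n + n := by ring
          rw [e]; exact hM3
    · rintro s2 ⟨k2, mt2, hE2, hM2⟩ _ _
      refine ⟨k2, mt2, hE2.keep hp (Keep.of_mem (P := fun _ => False) rfl)
          (fun _ _ h => h) ?_ ?_ ?_, MI_next hM2⟩ <;>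
          rw [St.set_reg_ne _ _ (by decide)]
  · rintro s1 ⟨k1, mt1, hE1, hM1⟩ _ _
    exact ⟨k1, mt1, hE1, MI_end hM1⟩

end Run7.h747
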