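import Pool.Agent.Run7.h747.Edge

/-!
Haussler's packing lemma for set systems with linearly many traces.
-/

set_option autoImplicit false

namespace Run7.h747

open Finset

variable {V : Type*} [Fintype V] [DecidableEq V]

/-- The number of members of `U` with trace `S` on `A`. -/
def wt (N : V → Finset V) (U A S : Finset V) : ℕ := (U.filter (fun u => N u ∩ A = S)).card

/-- The traces on `A`. -/
def trs (N : V → Finset V) (U A : Finset V) : Finset (Finset V) := U.image (fun u => N u ∩ A)

theorem wt_ne {N : V → Finset V} {U A S : Finset V} (h : wt N U A S ≠ 0) : S ∈ trs N U A := by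
  unfold wt at h
  obtain ⟨u, hu⟩ := card_pos.1 (Nat.pos_of_ne_zero h)
  rw [mem_filter] at hu
  exact mem_image.2 ⟨u, hu.1, hu.2⟩

theorem sum_wt (N : V → Finset V) (U A : Finset V) : ∑ S ∈ trs N U A, wt N U A S = U.card := by
  unfold trs wt
  exact (card_eq_sum_card_image (fun u => N u ∩ A) U).symm

/-- The weight of the edges in direction `a`. -/
def ew (N : V → Finset V) (U A : Finset V) (a : V) : ℕ :=
  ∑ S ∈ (trs N U A).filter (fun S => a ∉ S), min (wt N U A S) (wt N U A (insert a S))

theorem class_bound {N : V → Finset V} {A C : Finset V} {k : ℕ}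
    (hC : ∀ u ∈ C, ∀ v ∈ C, N u ∩ A = N v ∩ A)
    (hk : ∀ u ∈ C, ∀ v ∈ C, u ≠ v → k + 1 ≤ (N u \ N v).card + (N v \ N u).card) :
    (k + 1) * (C.card - 1) ≤ 2 * ∑ a ∈ Aᶜ, min (C.filter (fun u => a ∉ N u)).card
      (C.filter (fun u => a ∈ N u)).card := by
  set X := ∑ a ∈ Aᶜ, min (C.filter (fun u => a ∉ N u)).card
      (C.filter (fun u => a ∈ N u)).card with hX
  rcases Nat.eq_zero_or_pos C.card with h0 | hpos
  · rw [h0]; simp
  have e1 : ∑ a ∈ Aᶜ, (C.filter (fun u => a ∉ N u)).card * (C.filter (fun u => a ∈ N u)).card =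
      ∑ u ∈ C, ∑ v ∈ C, (N u \ N v).card := by
    have h1 : ∀ a, (C.filter (fun u => a ∉ N u)).card * (C.filter (fun u => a ∈ N u)).card =
        ∑ u ∈ C, ∑ v ∈ C, if a ∈ N u \ N v then 1 else 0 := by
      intro a
      rw [mul_comm, card_filter, card_filter, sum_mul_sum]
      apply sum_congr rfl
      intro u _
      apply sum_congr rfl
      intro v _
      by_cases h1 : a ∈ N u <;> by_cases h2 : a ∈ N v <;> simp [h1, h2]
    rw [sum_congr rfl (fun a _ => h1 a), sum_comm]
    apply sum_congr rfl
    intro u hu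
    rw [sum_comm]
    apply sum_congr rfl
    intro v hv
    rw [← card_filter]
    congr 1
    ext a
    rw [mem_filter, mem_compl]
    constructor
    · exact fun h => h.2
    · intro h
      refine ⟨?_, h⟩
      intro ha
      rw [mem_sdiff] at h
      have h3 := hC u hu v hv
      have h4 : a ∈ N u ∩ A := mem_inter.2 ⟨h.1, ha⟩
      rw [h3, mem_inter] at h4
      exact h.2 h4.1
  have e2 : (k + 1) * (C.card * (C.card - 1)) ≤ 2 * ∑ u ∈ C, ∑ v ∈ C, (N u \ N v).card := by
    have h1 : 2 * ∑ u ∈ C, ∑ v ∈ C, (N u \ N v).card =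
        ∑ u ∈ C, ∑ v ∈ C, ((N u \ N v).card + (N v \ N u).card) := by
      have h2 : ∑ u ∈ C, ∑ v ∈ C, (N v \ N u).card = ∑ u ∈ C, ∑ v ∈ C, (N u \ N v).card :=
        sum_comm
      have h3 : ∑ u ∈ C, ∑ v ∈ C, ((N u \ N v).card + (N v \ N u).card) =
          ∑ u ∈ C, ∑ v ∈ C, (N u \ N v).card + ∑ u ∈ C, ∑ v ∈ C, (N v \ N u).card := by
        rw [← sum_add_distrib]
        apply sum_congr rfl
        intro u _
        rw [← sum_add_distrib]
      rw [h3, h2, two_mul]
    rw [h1]
    calc (k + 1) * (C.card * (C.card - 1)) = ∑ u ∈ C, (k + 1) * (C.card - 1) := by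
          rw [sum_const, smul_eq_mul]; ring
      _ ≤ ∑ u ∈ C, ∑ v ∈ C, ((N u \ N v).card + (N v \ N u).card) := by
          apply sum_le_sum
          intro u hu
          calc (k + 1) * (C.card - 1) = ∑ v ∈ C.erase u, (k + 1) := by
                rw [sum_const, smul_eq_mul, card_erase_of_mem hu, mul_comm]
            _ ≤ ∑ v ∈ C.erase u, ((N u \ N v).card + (N v \ N u).card) := by
                apply sum_le_sum
                intro v hv
                rw [mem_erase] at hv
                exact hk u hu v hv.2 (fun e => hv.1 e.symm)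
            _ ≤ ∑ v ∈ C, ((N u \ N v).card + (N v \ N u).card) :=
                sum_le_sum_of_subset (erase_subset _ _)
  have e3 : ∑ a ∈ Aᶜ, (C.filter (fun u => a ∉ N u)).card * (C.filter (fun u => a ∈ N u)).card ≤
      C.card * X := by
    rw [hX, mul_sum]
    apply sum_le_sum
    intro a _
    set b0 := (C.filter (fun u => a ∉ N u)).card with hb0
    set b1 := (C.filter (fun u => a ∈ N u)).card with hb1
    have h1 : b0 ≤ C.card := card_filter_le _ _
    have h2 : b1 ≤ C.card := card_filter_le _ _
    rcases le_total b0 b1 with h | h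
    · rw [min_eq_left h, mul_comm]
      exact Nat.mul_le_mul_right _ h2
    · rw [min_eq_right h]
      exact Nat.mul_le_mul_right _ h1
  have e4 : C.card * ((k + 1) * (C.card - 1)) ≤ C.card * (2 * X) := by
    calc C.card * ((k + 1) * (C.card - 1)) = (k + 1) * (C.card * (C.card - 1)) := by ring
      _ ≤ 2 * ∑ u ∈ C, ∑ v ∈ C, (N u \ N v).card := e2
      _ ≤ 2 * (C.card * X) := by rw [← e1]; exact Nat.mul_le_mul_left _ e3
      _ = C.card * (2 * X) := by ring
  exact Nat.le_of_mul_le_mul_left e4 hpos

theorem step_bound {N : V → Finset V} {U : Finset V} {k : ℕ}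
    (hk : ∀ u ∈ U, ∀ v ∈ U, u ≠ v → k + 1 ≤ (N u \ N v).card + (N v \ N u).card)
    (A : Finset V) :
    (k + 1) * (U.card - (trs N U A).card) ≤ 2 * ∑ a ∈ Aᶜ, ew N U (insert a A) a := by
  have h1 : ∀ a ∈ Aᶜ, ∑ S ∈ trs N U A, min
      ((U.filter (fun u => N u ∩ A = S)).filter (fun u => a ∉ N u)).card
      ((U.filter (fun u => N u ∩ A = S)).filter (fun u => a ∈ N u)).card ≤
      ew N U (insert a A) a := by
    intro a ha
    rw [mem_compl] at ha
    have hS : ∀ S ∈ trs N U A, a ∉ S := by
      intro S hS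
      obtain ⟨u, _, rfl⟩ := mem_image.1 hS
      intro h
      exact ha (mem_inter.1 h).2
    have h2 : ∀ S ∈ trs N U A,
        min ((U.filter (fun u => N u ∩ A = S)).filter (fun u => a ∉ N u)).card
        ((U.filter (fun u => N u ∩ A = S)).filter (fun u => a ∈ N u)).card =
        min (wt N U (insert a A) S) (wt N U (insert a A) (insert a S)) := by
      intro S hSm
      have haS := hS S hSm
      unfold wt
      congr 2
      · ext u
        simp only [mem_filter]
        constructor
        · rintro ⟨⟨b1, b2⟩, b3⟩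
          refine ⟨b1, ?_⟩
          rw [inter_insert_of_notMem b3, b2]
        · rintro ⟨b1, b2⟩
          have b3 : a ∉ N u := by
            intro h
            apply haS
            rw [← b2]
            exact mem_inter.2 ⟨h, mem_insert_self _ _⟩
          rw [inter_insert_of_notMem b3] at b2
          exact ⟨⟨b1, b2⟩, b3⟩
      · ext u
        simp only [mem_filter]
        constructor
        · rintro ⟨⟨b1, b2⟩, b3⟩
          refine ⟨b1, ?_⟩
          rw [inter_insert_of_mem b3, b2]
        · rintro ⟨b1, b2⟩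
          have b3 : a ∈ N u := by
            have : a ∈ N u ∩ insert a A := by rw [b2]; exact mem_insert_self _ _
            exact (mem_inter.1 this).1
          rw [inter_insert_of_mem b3] at b2
          have b4 : a ∉ N u ∩ A := fun h => ha (mem_inter.1 h).2
          refine ⟨⟨b1, ?_⟩, b3⟩
          rw [← erase_insert b4, b2, erase_insert haS]
    rw [sum_congr rfl h2]
    unfold ew
    apply sum_le_sum_of_ne_zero
    intro S hSm hne
    rw [mem_filter]
    refine ⟨wt_ne (fun h => hne (by rw [h]; exact Nat.zero_min _)), hS S hSm⟩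
  have h2 : ∀ S ∈ trs N U A, (k + 1) * ((U.filter (fun u => N u ∩ A = S)).card - 1) ≤
      2 * ∑ a ∈ Aᶜ, min
      ((U.filter (fun u => N u ∩ A = S)).filter (fun u => a ∉ N u)).card
      ((U.filter (fun u => N u ∩ A = S)).filter (fun u => a ∈ N u)).card := by
    intro S _
    apply class_bound
    · intro u hu v hv
      rw [mem_filter] at hu hv
      rw [hu.2, hv.2]
    · intro u hu v hv
      rw [mem_filter] at hu hv
      exact hk u hu.1 v hv.1
  have h3 : U.card - (trs N U A).card ≤
      ∑ S ∈ trs N U A, ((U.filter (fun u => N u ∩ A = S)).card - 1) := by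
    have h4 := sum_wt N U A
    have h5 : ∑ S ∈ trs N U A, wt N U A S ≤
        ∑ S ∈ trs N U A, ((U.filter (fun u => N u ∩ A = S)).card - 1) + (trs N U A).card := by
      rw [card_eq_sum_ones, ← sum_add_distrib]
      apply sum_le_sum
      intro S _
      unfold wt
      omega
    omega
  calc (k + 1) * (U.card - (trs N U A).card)
      ≤ (k + 1) * ∑ S ∈ trs N U A, ((U.filter (fun u => N u ∩ A = S)).card - 1) :=
        Nat.mul_le_mul_left _ h3
    _ = ∑ S ∈ trs N U A, (k + 1) * ((U.filter (fun u => N u ∩ A = S)).card - 1) := by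
        rw [mul_sum]
    _ ≤ ∑ S ∈ trs N U A, 2 * ∑ a ∈ Aᶜ, min
      ((U.filter (fun u => N u ∩ A = S)).filter (fun u => a ∉ N u)).card
      ((U.filter (fun u => N u ∩ A = S)).filter (fun u => a ∈ N u)).card := sum_le_sum h2
    _ = 2 * ∑ a ∈ Aᶜ, ∑ S ∈ trs N U A, min
      ((U.filter (fun u => N u ∩ A = S)).filter (fun u => a ∉ N u)).card
      ((U.filter (fun u => N u ∩ A = S)).filter (fun u => a ∈ N u)).card := by
        rw [← mul_sum, sum_comm]
    _ ≤ 2 * ∑ a ∈ Aᶜ, ew N U (insert a A) a := Nat.mul_le_mul_left _ (sum_le_sum h1)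

theorem sum_swap (f : Finset V → V → ℕ) (s : ℕ) :
    ∑ A ∈ powersetCard (s + 1) (univ : Finset V), ∑ a ∈ A, f A a =
      ∑ A ∈ powersetCard s (univ : Finset V), ∑ a ∈ Aᶜ, f (insert a A) a := by
  rw [sum_sigma', sum_sigma']
  refine sum_bij' (fun p _ => ⟨p.1.erase p.2, p.2⟩) (fun p _ => ⟨insert p.2 p.1, p.2⟩)
    ?_ ?_ ?_ ?_ ?_
  · rintro ⟨A, a⟩ h
    simp only [mem_sigma, mem_powersetCard, subset_univ, true_and, mem_compl, mem_erase, ne_eq,
      not_true_eq_false, false_and, not_false_eq_true, and_true] at h ⊢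
    rw [card_erase_of_mem h.2, h.1]; rfl
  · rintro ⟨A, a⟩ h
    simp only [mem_sigma, mem_powersetCard, subset_univ, true_and, mem_compl] at h ⊢
    rw [card_insert_of_notMem h.2, h.1]
    exact ⟨rfl, mem_insert_self _ _⟩
  · rintro ⟨A, a⟩ h
    simp only [mem_sigma, mem_powersetCard, subset_univ, true_and] at h
    simp only [insert_erase h.2]
  · rintro ⟨A, a⟩ h
    simp only [mem_sigma, mem_powersetCard, subset_univ, true_and, mem_compl] at h
    simp only [erase_insert h.2]
  · rintro ⟨A, a⟩ h
    simp only [mem_sigma, mem_powersetCard, subset_univ, true_and] at h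
    simp only [insert_erase h.2]

/-- The packing lemma. -/
theorem packing {N : V → Finset V} {U : Finset V} {k c d : ℕ} (hc : 1 ≤ c)
    (hk : ∀ u ∈ U, ∀ v ∈ U, u ≠ v → k + 1 ≤ (N u \ N v).card + (N v \ N u).card)
    (htr : ∀ A : Finset V, (trs N U A).card ≤ c * (A.card + 1))
    (hd : ∀ B : Finset V, 2 ^ B.card ≤ c * (B.card + 1) → B.card ≤ d)
    (s : ℕ) (hs : s ≤ Fintype.card V) (hU : 2 * c * (s + 1) ≤ U.card) :
    (k + 1) * (s + 1) ≤ 4 * d * Fintype.card V := by
  have hUp : 0 < U.card := by
    have : 0 < 2 * c * (s + 1) := by positivity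
    omega
  have h1 : ∀ A : Finset V, ∑ a ∈ A, ew N U A a ≤ d * U.card := by
    intro A
    rw [← sum_wt N U A]
    apply weight_bound A (trs N U A) (wt N U A) d (fun S h => wt_ne h)
    intro B hB hsh
    apply hd B
    have h2 : B.powerset ⊆ trs N U B := by
      intro t ht
      rw [mem_powerset] at ht
      obtain ⟨u, hu, e⟩ := hsh ht
      obtain ⟨x, hx, rfl⟩ := mem_image.1 hu
      apply mem_image.2
      refine ⟨x, hx, ?_⟩
      rw [← e]
      ext y
      simp only [mem_inter]
      constructor
      · rintro ⟨b1, b2⟩; exact ⟨b2, b1, hB b2⟩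
      · rintro ⟨b1, b2, _⟩; exact ⟨b2, b1⟩
    have h3 := card_le_card h2
    rw [card_powerset] at h3
    exact h3.trans (htr B)
  have h2 : (Fintype.card V).choose s * ((k + 1) * U.card) ≤
      4 * ((Fintype.card V).choose (s + 1) * (d * U.card)) := by
    have e1 : ∀ A ∈ powersetCard s (univ : Finset V),
        (k + 1) * U.card ≤ 4 * ∑ a ∈ Aᶜ, ew N U (insert a A) a := by
      intro A hA
      rw [mem_powersetCard] at hA
      have e2 := step_bound hk A
      have e3 := htr A
      rw [hA.2] at e3
      have e4 : 2 * (trs N U A).card ≤ U.card := by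
        calc 2 * (trs N U A).card ≤ 2 * (c * (s + 1)) := Nat.mul_le_mul_left _ e3
          _ = 2 * c * (s + 1) := by ring
          _ ≤ U.card := hU
      have e5 : U.card ≤ 2 * (U.card - (trs N U A).card) := by omega
      calc (k + 1) * U.card ≤ (k + 1) * (2 * (U.card - (trs N U A).card)) :=
            Nat.mul_le_mul_left _ e5
        _ = 2 * ((k + 1) * (U.card - (trs N U A).card)) := by ring
        _ ≤ 2 * (2 * ∑ a ∈ Aᶜ, ew N U (insert a A) a) := Nat.mul_le_mul_left _ e2
        _ = 4 * ∑ a ∈ Aᶜ, ew N U (insert a A) a := by ring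
    calc (Fintype.card V).choose s * ((k + 1) * U.card)
        = ∑ A ∈ powersetCard s (univ : Finset V), (k + 1) * U.card := by
          rw [sum_const, card_powersetCard, card_univ, smul_eq_mul]
      _ ≤ ∑ A ∈ powersetCard s (univ : Finset V), 4 * ∑ a ∈ Aᶜ, ew N U (insert a A) a :=
          sum_le_sum e1
      _ = 4 * ∑ A ∈ powersetCard (s + 1) (univ : Finset V), ∑ a ∈ A, ew N U A a := by
          rw [← mul_sum, sum_swap]
      _ ≤ 4 * ∑ A ∈ powersetCard (s + 1) (univ : Finset V), d * U.card :=
          Nat.mul_le_mul_left _ (sum_le_sum (fun A _ => h1 A))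
      _ = 4 * ((Fintype.card V).choose (s + 1) * (d * U.card)) := by
          rw [sum_const, card_powersetCard, card_univ, smul_eq_mul]
  have h3 := Nat.choose_succ_right_eq (Fintype.card V) s
  have hch : 0 < (Fintype.card V).choose s := Nat.choose_pos hs
  have h4 : ((Fintype.card V).choose s * U.card) * ((k + 1) * (s + 1)) ≤
      ((Fintype.card V).choose s * U.card) * (4 * d * (Fintype.card V - s)) := by
    calc ((Fintype.card V).choose s * U.card) * ((k + 1) * (s + 1))
        = (s + 1) * ((Fintype.card V).choose s * ((k + 1) * U.card)) := by ring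
      _ ≤ (s + 1) * (4 * ((Fintype.card V).choose (s + 1) * (d * U.card))) :=
          Nat.mul_le_mul_left _ h2
      _ = 4 * d * U.card * ((Fintype.card V).choose (s + 1) * (s + 1)) := by ring
      _ = 4 * d * U.card * ((Fintype.card V).choose s * (Fintype.card V - s)) := by rw [h3]
      _ = ((Fintype.card V).choose s * U.card) * (4 * d * (Fintype.card V - s)) := by ring
  have h5 := Nat.le_of_mul_le_mul_left h4 (Nat.mul_pos hch hUp)
  exact h5.trans (Nat.mul_le_mul_left _ (Nat.sub_le _ _))

end Run7.h747
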