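import Pool.Agent.Run7.h747.FinP
import Pool.Agent.Run7.h747.Cyc2

/-!
All pairs `s < a`.
-/

set_option autoImplicit false

namespace Run7.h747

open Finset Pool.Agent.H588R2 Pool.Agent.TH687.HL Pool.Agent.TH687.DCS

variable {n : ℕ}

/-- The first level. -/
def start : HC := .seq (.asg 24 (.c 0)) (.seq (.asg 20 (.c 0)) (.seq (.asg 22 (.r 7))
  (.seq (.asg 21 (.c 1)) (.seq addE finishLevel))))

theorem tr_start {w Big Md Qm P : ℕ} {G : SimpleGraph (Fin n)} {mate : Fin n → Fin n} {s : St}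
    (hp : Par n w Big Md Qm) (hE : Env G mate Big Md s) (sv av : Fin n) (hP4 : 4 ≤ P)
    (hP : P + 4 < Qm) (hF : Fresh Big P s) (r27 : s.reg 27 = P) (r7 : s.reg 7 = av) :
    Tr w start s 260 (fun s' => ∃ L', Lev Big Md P (FC (ZMod Md) G mate sv av 0) L' s' ∧
      Keep Big (fun q => P ≤ q ∧ q < P + 4) s s' ∧ s'.reg 8 = P ∧ s'.reg 9 = L'.length ∧
      s'.reg 27 = P + 4 ∧ L'.length ≤ 1) := by
  have h8 := hp.bw
  have hmw := hp.mw
  have hmp := hp.mpos
  have hnB := hp.n1b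
  have hn3 := hp.n3
  have hn1 : n < 2 ^ w := by omega
  have hav := av.2
  have oc : ∀ (s : St) (k : ℕ), k < 8 → (Ex.c k).ok w s := by
    intro s k hk; simp only [Ex.ok]; omega
  unfold start
  apply tr_asgs 0 (oc _ _ (by omega)) rfl (by decide)
  intro s1 m1 e1 f1
  apply tr_asgs 0 (oc _ _ (by omega)) rfl (by decide)
  intro s2 m2 e2 f2
  have a7 : s2.reg 7 = av := by rw [f2 7 (by decide), f1 7 (by decide), r7]
  apply tr_asgs (av : ℕ) (by simp only [Ex.ok, a7]; omega) (by simp only [Ex.ev, a7]) (by decide)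
  intro s3 m3 e3 f3
  apply tr_asgs 1 (oc _ _ (by omega)) rfl (by decide)
  intro s4 m4 e4 f4
  have hm4 : s4.mem = s.mem := by rw [m4, m3, m2, m1]
  have hfr : ∀ y, y ≠ 20 → y ≠ 21 → y ≠ 22 → y ≠ 24 → s4.reg y = s.reg y := by
    intro y h1 h2 h3 h4
    rw [f4 y h2, f3 y h3, f2 y h1, f1 y h4]
  have hr4 : Rg n Big Md s4 := hE.rg.of (hfr 0 (by decide) (by decide) (by decide) (by decide))
    (hfr 2 (by decide) (by decide) (by decide) (by decide))
    (hfr 3 (by decide) (by decide) (by decide) (by decide))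
  have hF4 : Fresh Big P s4 := fun a ha => by rw [hm4]; exact hF a ha
  apply tr_seqf _ (tr_addE hp hr4 (hF4.lev (by omega)) (by omega) ((∅ : Finset (Fin n)), av) 1 hmp
    (by rw [hfr 27 (by decide) (by decide) (by decide) (by decide), r27])
    (by rw [f4 20 (by decide), f3 20 (by decide), e2]; exact enc_empty.symm)
    (by rw [f4 22 (by decide), e3]) e4
    (by rw [f4 24 (by decide), f3 24 (by decide), f2 24 (by decide), e1]; rfl))
    (by decide)
  rintro s5 ⟨k1, k2, k3⟩ f5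
  have hl5 : (addL ([] : List (Finset (Fin n) × Fin n)) (∅, av)).length ≤ 1 := by
    have := addL_len ([] : List (Finset (Fin n) × Fin n)) (∅, av)
    simpa using this
  refine (tr_finishLevel hp hP
    (by rw [f5 27 (by decide), hfr 27 (by decide) (by decide) (by decide) (by decide), r27]) k3
    (by omega)).mono (by decide) ?_
  rintro s6 ⟨m6, g8, g9, g27⟩
  refine ⟨_, (k1.mem m6).congr ?_, ?_, g8, g9, g27, hl5⟩
  · intro q
    unfold FC Cc
    have h1 : q = ((∅ : Finset (Fin n)), av) ↔ (q.2 = av ∧ q.1 = ∅) := by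
      constructor
      · rintro rfl; exact ⟨rfl, rfl⟩
      · rintro ⟨h1, h2⟩; exact Prod.ext h2 h1
    by_cases h : q.2 = av ∧ q.1 = ∅
    · rw [if_pos (h1.2 h), if_pos h]; simp
    · rw [if_neg (fun h' => h (h1.1 h')), if_neg h]; simp
  · exact (Keep.of_mem hm4).trans (k2.trans (Keep.of_mem m6))

/-- One pair. -/
def pair : HC := .ite (.r 6) (.r 7) (.ite (.c 0) (rd (.c 0) (.add (.mul (.r 6) (.r 0)) (.r 7)))
  (.seq start (.seq levels finL)) .skip) .skip

open Classical in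
/-- The number of cycles of length `J + 2` with least vertex `sv` and last vertex `av`. -/
noncomputable def cnt (G : SimpleGraph (Fin n)) (J : ℕ) (sv av : Fin n) : ℕ :=
  ∑ v : Fin n, if sv < av ∧ G.Adj sv av ∧ av < v ∧ G.Adj v sv then
    ((Lw G sv av J v).filter (fun l => v ∉ l)).card else 0

theorem tr_pair {w Big Md Qm P LB J : ℕ} {G : SimpleGraph (Fin n)} {mate : Fin n → Fin n} {s : St}
    (hp : Par n w Big Md Qm) (hE : Env G mate Big Md s) (hm : ∀ v, mate (mate v) = v)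
    (sv av : Fin n) (hP4 : 4 ≤ P)
    (hP : P + 4 * n + 4 < Qm) (hF : Fresh Big P s)
    (hGB : sv < av → ∀ (j : ℕ) (w : Fin n) (S : Finset (Finset (Fin n))),
      (∀ X ∈ S, Cc G sv av mate j w X ≠ 0) → 2 * n * (n * S.card) ≤ LB)
    (hLB1 : 1 ≤ LB) (hJ : J + 1 < n) (r1 : s.reg 1 = J) (r5 : s.reg 5 < Md)
    (r27 : s.reg 27 = P) (r6 : s.reg 6 = sv) (r7 : s.reg 7 = av) :
    Tr w pair s (2000 * (n * n * LB)) (fun s' => ∃ P', P ≤ P' ∧ P' ≤ P + 4 * n ∧ Fresh Big P' s' ∧
      s'.reg 27 = P' ∧ Keep Big (fun q => 3 ≤ q) s s' ∧ s'.reg 5 < Md ∧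
      ((s'.reg 5 : ℕ) : ZMod Md) = (s.reg 5 : ℕ) + (cnt G J sv av : ℕ)) := by
  classical
  have h8 := hp.bw
  have hmw := hp.mw
  have hmp := hp.mpos
  have hnB := hp.n1b
  have hn3 := hp.n3
  have hbp := hp.bpos
  have hq8 := hp.qpos
  have hnn := hp.nn
  have hn1 : n < 2 ^ w := by omega
  have hsv := sv.2
  have hav := av.2
  have oc : ∀ (s : St) (k : ℕ), k < 8 → (Ex.c k).ok w s := by
    intro s k hk; simp only [Ex.ok]; omega
  have hT3 : 1 ≤ n * LB := by
    calc 1 ≤ 1 * 1 := le_rfl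
      _ ≤ n * LB := Nat.mul_le_mul (by omega) hLB1
  have hT4 : n * 1 ≤ n * n * LB := by
    calc n * 1 ≤ n * (n * LB) := Nat.mul_le_mul_left _ hT3
      _ = n * n * LB := by ring
  have hT4b : n * LB ≤ n * n * LB := by
    calc n * LB = 1 * (n * LB) := (one_mul _).symm
      _ ≤ n * (n * LB) := Nat.mul_le_mul_right _ (by omega)
      _ = n * n * LB := by ring
  have hT5 : 1200 * n * n * LB = 1200 * (n * n * LB) := by ring
  have hT6 : 1100 * n * LB ≤ 700 * (n * n * LB) := by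
    have e1 : 3 * (n * LB) ≤ n * n * LB := by
      calc 3 * (n * LB) ≤ n * (n * LB) := Nat.mul_le_mul_right _ hn3
        _ = n * n * LB := by ring
    calc 1100 * n * LB = 1100 * (n * LB) := by ring
      _ ≤ 700 * (n * n * LB) := by omega
  have hT7 : 300 + (1200 * n * n * LB + 1100 * n * LB) ≤ 2000 * (n * n * LB) := by omega
  unfold pair
  have hskip : ¬ (sv < av ∧ G.Adj sv av) → ∃ P', P ≤ P' ∧ P' ≤ P + 4 * n ∧ Fresh Big P' s ∧
      s.reg 27 = P' ∧ Keep Big (fun q => 3 ≤ q) s s ∧ s.reg 5 < Md ∧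
      ((s.reg 5 : ℕ) : ZMod Md) = (s.reg 5 : ℕ) + (cnt G J sv av : ℕ) := by
    intro h
    refine ⟨P, le_rfl, by omega, hF, r27, Keep.refl _ _ _, r5, ?_⟩
    have : cnt G J sv av = 0 := by
      unfold cnt
      apply sum_eq_zero
      intro v _
      rw [if_neg (fun h' => h ⟨h'.1, h'.2.1⟩)]
    rw [this, Nat.cast_zero, add_zero]
  apply Tr.ite (T := 300 + (1200 * n * n * LB + 1100 * n * LB) - 10)
    (by simp only [Ex.ok, r6]; omega) (by simp only [Ex.ok, r7]; omega)
    (by simp only [Ex.cost]; omega)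
  · intro h
    simp only [Ex.ev, r6, r7] at h
    have h1 : sv < av := h
    have huv := uv_lt sv av
    have hadj := hE.adj sv av
    have hr := hE.rg
    have oi : (Ex.add (.mul (.r 6) (.r 0)) (.r 7)).ok w s := by
      simp only [Ex.ok, Ex.ev, hr.r0, r6, r7]
      omega
    have vi : (Ex.add (.mul (.r 6) (.r 0)) (.r 7)).ev s = sv * n + av := by
      simp only [Ex.ev, hr.r0, r6, r7]
    have ei : (rd (.c 0) (.add (.mul (.r 6) (.r 0)) (.r 7))).ev s =
        if G.Adj sv av then 1 else 0 :=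
      rd_evq (Q := 0) (X := sv * n + av) hr (by exact rfl) (by exact vi) hadj
    apply Tr.ite (T := 260 + (1200 * n * n * LB + 1100 * n * LB)) (oc _ _ (by omega))
      (rd_okp (Q := 0) (X := sv * n + av) hp hr (oc _ _ (by omega)) oi rfl vi (by omega)
        (by omega) (by rw [hadj]; split_ifs <;> omega)) (by simp only [rd, cell, Ex.cost]; omega)
    · intro h
      rw [ei] at h
      have h2 : G.Adj sv av := by
        by_contra h2; rw [if_neg h2] at h; simp [Ex.ev] at h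
      apply tr_seqf _ (tr_start hp hE sv av hP4 (by omega) hF r27 r7) (by omega)
      rintro s1 ⟨L1, hL1, k1, g8, g9, g27, hlen1⟩ f1
      have hE1 : Env G mate Big Md s1 := hE.keep hp k1 (fun q hq h => by omega)
        (f1 0 (by decide)) (f1 2 (by decide)) (f1 3 (by decide))
      have hF1 : Fresh Big (P + 4) s1 := hF.keep hbp (by omega) k1 (fun q h1 h2 => by omega)
      apply tr_seqf _ (tr_levels (J := J) hp hE1 sv av hL1 hP4 (by omega) hF1 (hGB h1)
        (hlen1.trans hLB1) hLB1 (by omega) (by rw [f1 1 (by decide), r1]) g8 g9 g27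
        (by rw [f1 6 (by decide), r6])) (by omega)
      rintro s2 ⟨L2, hL2, k2, i8, i9, i27, hlen2⟩ f2
      have hE2 : Env G mate Big Md s2 := hE1.keep hp k2 (fun q hq h => by omega)
        (f2 0 (by decide)) (f2 2 (by decide)) (f2 3 (by decide))
      have hF2 : Fresh Big (P + 4 * J + 4) s2 := hF1.keep hbp (by omega) k2
        (fun q h1 h2 => by omega)
      have j5 : s2.reg 5 = s.reg 5 := by rw [f2 5 (by decide), f1 5 (by decide)]
      refine (Tr.fr (tr_finL (LB := LB) hp hE2 hL2 (by omega) (by omega) sv av hlen2 hLB1 i8 i9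
        (by rw [f2 6 (by decide), f1 6 (by decide), r6])
        (by rw [f2 7 (by decide), f1 7 (by decide), r7]) (by rw [j5]; exact r5))
        (by omega) ?_)
      rintro s3 ⟨k3, h5, v5⟩ f3
      refine ⟨P + 4 * J + 4, by omega, by omega, hF2.keep hbp le_rfl k3 (fun q h1 h2 => by omega),
        by rw [f3 27 (by decide), i27], ?_, h5, ?_⟩
      · refine (k1.mono (fun q h => by omega)).trans
          ((Keep.mono (P := fun q => q = 3 ∨ (P ≤ q ∧ q < P + 4 * J + 4)) k2
            (fun q h => by omega)).trans (Keep.mono (P := fun q => q = 3) k3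
              (fun q h => by omega)))
      · rw [v5, j5]
        congr 1
        rw [Fintype.sum_prod_type_right]
        unfold cnt
        push_cast
        apply sum_congr rfl
        intro v _
        by_cases h3 : av < v ∧ G.Adj v sv
        · simp only [h3, and_self, if_true, h1, h2, true_and]
          have hfs := final_sum G sv av hm J v
          have : ((((Lw G sv av J v).filter (fun l => v ∉ l)).card : ℕ) : ZMod Md) =
              (((((Lw G sv av J v).filter (fun l => v ∉ l)).card : ℕ) : ℤ) : ZMod Md) := by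
            push_cast; rfl
          rw [this, ← hfs]
          push_cast
          apply sum_congr rfl
          intro X _
          rfl
        · rw [if_neg (fun h' => h3 ⟨h'.2.2.1, h'.2.2.2⟩)]
          apply sum_eq_zero
          intro X _
          rw [if_neg h3]
    · intro h
      rw [ei] at h
      apply Tr.skip
      apply hskip
      rintro ⟨_, h2⟩
      rw [if_pos h2] at h
      simp [Ex.ev] at h
  · intro h
    simp only [Ex.ev, r6, r7] at h
    apply Tr.skip
    apply hskip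
    rintro ⟨h1, _⟩
    exact h h1

/-- All pairs. -/
def allPairs : HC := .loop 6 0 (.loop 7 0 pair)

theorem tr_row {w Big Md Qm P LB J : ℕ} {G : SimpleGraph (Fin n)} {mate : Fin n → Fin n} {s : St}
    (hp : Par n w Big Md Qm) (hE : Env G mate Big Md s) (hm : ∀ v, mate (mate v) = v)
    (sv : Fin n) (hP4 : 4 ≤ P)
    (hP : P + 4 * n * n + 4 < Qm) (hF : Fresh Big P s)
    (hGB : ∀ av, sv < av → ∀ (j : ℕ) (w : Fin n) (S : Finset (Finset (Fin n))),
      (∀ X ∈ S, Cc G sv av mate j w X ≠ 0) → 2 * n * (n * S.card) ≤ LB)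
    (hLB1 : 1 ≤ LB) (hJ : J + 1 < n) (r1 : s.reg 1 = J) (r5 : s.reg 5 < Md)
    (r27 : s.reg 27 = P) (r6 : s.reg 6 = sv) :
    Tr w (.loop 7 0 pair) s (2010 * (n * n * n * LB)) (fun s' => ∃ P', P ≤ P' ∧
      P' ≤ P + 4 * n * n ∧ Fresh Big P' s' ∧
      s'.reg 27 = P' ∧ Keep Big (fun q => 3 ≤ q) s s' ∧ s'.reg 5 < Md ∧
      ((s'.reg 5 : ℕ) : ZMod Md) = (s.reg 5 : ℕ) + ((∑ av : Fin n, cnt G J sv av : ℕ) : ℕ)) := by
  have h8 := hp.bw
  have hnB := hp.n1b
  have hn3 := hp.n3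
  have hbp := hp.bpos
  have hn1 : n < 2 ^ w := by omega
  have hT : n * (2000 * (n * n * LB) + 4) + 3 ≤ 2010 * (n * n * n * LB) := by
    have e1 : n * (2000 * (n * n * LB) + 4) = 2000 * (n * n * n * LB) + 4 * n := by ring
    have e2 : n ≤ n * n * n * LB := by
      calc n = n * 1 * 1 * 1 := by ring
        _ ≤ n * n * n * LB := by
          apply Nat.mul_le_mul (Nat.mul_le_mul (Nat.mul_le_mul le_rfl _) _) hLB1 <;> omega
    omega
  refine Tr.loop (fun i s' => ∃ P', P ≤ P' ∧ P' ≤ P + 4 * n * i ∧ Fresh Big P' s' ∧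
      s'.reg 27 = P' ∧ Keep Big (fun q => 3 ≤ q) s s' ∧ s'.reg 5 < Md ∧
      ((s'.reg 5 : ℕ) : ZMod Md) = (s.reg 5 : ℕ) +
        ((∑ av ∈ univ.filter (fun v : Fin n => (v : ℕ) < i), cnt G J sv av : ℕ) : ℕ))
    (2000 * (n * n * LB)) hE.rg.r0 hn1 (by omega) hT ?_ ?_ ?_
  · refine ⟨P, le_rfl, by omega, hF, ?_, Keep.of_mem rfl, ?_, ?_⟩
    · rw [St.set_reg_ne _ _ (by decide), r27]
    · rw [St.set_reg_ne _ _ (by decide)]; exact r5
    · rw [St.set_reg_ne _ _ (by decide)]; simp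
  · rintro i hi s' ⟨P', hPP, hPi, hF', g27, hk, h5, v5⟩ h7 hfr
    have hE2 : Env G mate Big Md s' := hE.keep hp hk (fun q hq h => by omega)
      (hfr 0 (by decide) (by decide)) (hfr 2 (by decide) (by decide))
      (hfr 3 (by decide) (by decide))
    have hPb : P' + 4 * n * 1 ≤ P + 4 * n * n := by
      have e1 : 4 * n * (i + 1) ≤ 4 * n * n := Nat.mul_le_mul_left _ hi
      have e2 : 4 * n * (i + 1) = 4 * n * i + 4 * n * 1 := by ring
      omega
    refine (tr_pair (LB := LB) (J := J) hp hE2 hm sv ⟨i, hi⟩ (by omega) (by omega) hF' (hGB ⟨i, hi⟩)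
      hLB1 hJ
      (by rw [hfr 1 (by decide) (by decide), r1]) h5 g27
      (by rw [hfr 6 (by decide) (by decide), r6]) h7).mono le_rfl ?_
    rintro s2 ⟨P2, k1, k2, k3, k4, k5, k6, k7⟩
    refine ⟨P2, by omega, ?_, k3, ?_, hk.trans k5, ?_, ?_⟩
    · have e2 : 4 * n * (i + 1) = 4 * n * i + 4 * n := by ring
      omega
    · rw [St.set_reg_ne _ _ (by decide), k4]
    · rw [St.set_reg_ne _ _ (by decide)]; exact k6
    · rw [St.set_reg_ne _ _ (by decide), k7, v5, filt_succ hi, sum_insert (filt_not hi)]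
      push_cast
      ring
  · rintro s' ⟨P', hPP, hPi, hF', g27, hk, h5, v5⟩ _ _
    refine ⟨P', hPP, hPi, hF', g27, hk, h5, ?_⟩
    rw [v5, filter_true_of_mem (fun (v : Fin n) _ => v.2)]

theorem tr_allPairs {w Big Md Qm LB J : ℕ} {G : SimpleGraph (Fin n)} {mate : Fin n → Fin n}
    {s : St}
    (hp : Par n w Big Md Qm) (hE : Env G mate Big Md s) (hm : ∀ v, mate (mate v) = v)
    (hF : Fresh Big 4 s)
    (hGB : ∀ sv av, sv < av → ∀ (j : ℕ) (w : Fin n) (S : Finset (Finset (Fin n))),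
      (∀ X ∈ S, Cc G sv av mate j w X ≠ 0) → 2 * n * (n * S.card) ≤ LB)
    (hLB1 : 1 ≤ LB) (hJ : J + 1 < n) (r1 : s.reg 1 = J) (r5 : s.reg 5 = 0)
    (r27 : s.reg 27 = 4) :
    Tr w allPairs s (2020 * (n * n * n * n * LB)) (fun s' => s'.reg 5 < Md ∧
      ((s'.reg 5 : ℕ) : ZMod Md) =
        ((∑ sv : Fin n, ∑ av : Fin n, cnt G J sv av : ℕ) : ℕ)) := by
  have h8 := hp.bw
  have hnB := hp.n1b
  have hn3 := hp.n3
  have hbp := hp.bpos
  have hmp := hp.mpos
  have hq4 := hp.q4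
  have hn1 : n < 2 ^ w := by omega
  have hT : n * (2010 * (n * n * n * LB) + 4) + 3 ≤ 2020 * (n * n * n * n * LB) := by
    have e1 : n * (2010 * (n * n * n * LB) + 4) = 2010 * (n * n * n * n * LB) + 4 * n := by ring
    have e2 : n ≤ n * n * n * n * LB := by
      calc n = n * 1 * 1 * 1 * 1 := by ring
        _ ≤ n * n * n * n * LB := by
          apply Nat.mul_le_mul (Nat.mul_le_mul (Nat.mul_le_mul
            (Nat.mul_le_mul le_rfl _) _) _) hLB1 <;> omega
    omega
  refine Tr.loop (fun i s' => ∃ P', 4 ≤ P' ∧ P' ≤ 4 + 4 * n * (n * i) ∧ Fresh Big P' s' ∧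
      s'.reg 27 = P' ∧ Keep Big (fun q => 3 ≤ q) s s' ∧ s'.reg 5 < Md ∧
      ((s'.reg 5 : ℕ) : ZMod Md) =
        ((∑ sv ∈ univ.filter (fun v : Fin n => (v : ℕ) < i), ∑ av : Fin n,
          cnt G J sv av : ℕ) : ℕ))
    (2010 * (n * n * n * LB)) hE.rg.r0 hn1 (by omega) hT ?_ ?_ ?_
  · refine ⟨4, le_rfl, by omega, hF, ?_, Keep.of_mem rfl, ?_, ?_⟩
    · rw [St.set_reg_ne _ _ (by decide), r27]
    · rw [St.set_reg_ne _ _ (by decide), r5]; omega
    · rw [St.set_reg_ne _ _ (by decide), r5]; simp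
  · rintro i hi s' ⟨P', hPP, hPi, hF', g27, hk, h5, v5⟩ h6 hfr
    have hE2 : Env G mate Big Md s' := hE.keep hp hk (fun q hq h => by omega)
      (hfr 0 (by decide) (by decide)) (hfr 2 (by decide) (by decide))
      (hfr 3 (by decide) (by decide))
    have hPb : P' + 4 * n * n ≤ 4 + 4 * n * (n * n) := by
      have e1 : 4 * n * (n * (i + 1)) ≤ 4 * n * (n * n) :=
        Nat.mul_le_mul_left _ (Nat.mul_le_mul_left _ hi)
      have e2 : 4 * n * (n * (i + 1)) = 4 * n * (n * i) + 4 * n * n := by ring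
      omega
    refine (tr_row (LB := LB) (J := J) hp hE2 hm ⟨i, hi⟩ (by omega) (by omega) hF' (hGB ⟨i, hi⟩)
      hLB1 hJ
      (by rw [hfr 1 (by decide) (by decide), r1]) h5 g27 h6).mono le_rfl ?_
    rintro s2 ⟨P2, k1, k2, k3, k4, k5, k6, k7⟩
    refine ⟨P2, by omega, ?_, k3, ?_, hk.trans k5, ?_, ?_⟩
    · have e2 : 4 * n * (n * (i + 1)) = 4 * n * (n * i) + 4 * n * n := by ring
      omega
    · rw [St.set_reg_ne _ _ (by decide), k4]
    · rw [St.set_reg_ne _ _ (by decide)]; exact k6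
    · rw [St.set_reg_ne _ _ (by decide), k7, v5, filt_succ hi, sum_insert (filt_not hi)]
      push_cast
      ring
  · rintro s' ⟨P', hPP, hPi, hF', g27, hk, h5, v5⟩ _ _
    refine ⟨h5, ?_⟩
    rw [v5, filter_true_of_mem (fun (v : Fin n) _ => v.2)]

end Run7.h747
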