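import Pool.Agent.Run7.h747.Main

/-!
Numerical parameters, the bound for the number of cycles, and the running time.
-/

set_option autoImplicit false

namespace Run7.h747

open Finset Pool.Agent.H588R2 Pool.Agent.TH687.HL Pool.Agent.TH687.DCS

theorem par_of {n : ℕ} (hn : 3 ≤ n) :
    Par n (8 * ((n + 1) * (Nat.log 2 (n + 1) + 1))) (2 ^ n * (n + 1)) ((n + 1) ^ n)
      (4 * n * (n * n) + 16) := by
  set L := Nat.log 2 (n + 1) + 1 with hL
  have h1 : n + 1 < 2 ^ L := Nat.lt_pow_succ_log_self (by norm_num) _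
  have hL2 : 2 ≤ L := by
    by_contra h
    have : L ≤ 1 := by omega
    have : 2 ^ L ≤ 2 ^ 1 := Nat.pow_le_pow_right (by norm_num) this
    omega
  have hw : 8 * ((n + 1) * L) = 8 * (n * L) + 8 * L := by ring
  have hnL : n ≤ n * L := Nat.le_mul_of_pos_right _ (by omega)
  refine ⟨hn, rfl, rfl, ?_, ?_, le_rfl⟩
  · have h2 : (n + 1) ^ n ≤ 2 ^ (n * L) := by
      rw [mul_comm, pow_mul]
      exact Nat.pow_le_pow_left h1.le _
    calc (n + 1) ^ n + (n + 1) ^ n = 2 * (n + 1) ^ n := by ring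
      _ ≤ 2 * 2 ^ (n * L) := Nat.mul_le_mul_left _ h2
      _ = 2 ^ (n * L + 1) := by ring
      _ ≤ 2 ^ (8 * ((n + 1) * L)) := Nat.pow_le_pow_right (by norm_num) (by omega)
  · have h3 : 4 * n * (n * n) + 16 ≤ 2 ^ (3 + 3 * L) := by
      have e1 : 27 ≤ n * n * n := by
        have : 9 ≤ n * n := Nat.mul_le_mul hn hn
        exact Nat.mul_le_mul this hn
      have e2 : n * n * n ≤ 2 ^ L * 2 ^ L * 2 ^ L :=
        Nat.mul_le_mul (Nat.mul_le_mul (by omega) (by omega)) (by omega)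
      calc 4 * n * (n * n) + 16 = 4 * (n * n * n) + 16 := by ring
        _ ≤ 8 * (n * n * n) := by omega
        _ ≤ 8 * (2 ^ L * 2 ^ L * 2 ^ L) := Nat.mul_le_mul_left _ e2
        _ = 2 ^ (3 + 3 * L) := by ring
    calc (4 * n * (n * n) + 16) * (2 ^ n * (n + 1)) ≤ 2 ^ (3 + 3 * L) * (2 ^ n * 2 ^ L) :=
          Nat.mul_le_mul h3 (Nat.mul_le_mul_left _ h1.le)
      _ = 2 ^ (3 + 3 * L + (n + L)) := by rw [pow_add 2 (3 + 3 * L), pow_add 2 n]
      _ ≤ 2 ^ (8 * ((n + 1) * L)) := Nat.pow_le_pow_right (by norm_num) (by omega)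

open Classical in
theorem copyCount_lt {n m : ℕ} (G : SimpleGraph (Fin n)) (hmn : m + 3 ≤ n) :
    G.copyCount (SimpleGraph.cycleGraph (m + 3)) < (n + 1) ^ n := by
  rw [copyCount_eq]
  have h1 : (univ.filter (fun f : Fin (m + 3) → Fin n => Can G f)).card ≤ n ^ (m + 3) := by
    refine (card_le_univ _).trans ?_
    rw [Fintype.card_fun, Fintype.card_fin, Fintype.card_fin]
  have h2 : n ^ (m + 3) ≤ n ^ n := Nat.pow_le_pow_right (by omega) hmn
  have h3 : n ^ n < (n + 1) ^ n := Nat.pow_lt_pow_left (by omega) (by omega)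
  omega

open Classical in
/-- The running time, given a bound for the number of coefficients. -/
theorem halts_of {n l GB : ℕ} (G : SimpleGraph (Fin n)) (hl3 : 3 ≤ l) (hln : l ≤ n)
    (c : Config) (hpc : c.pc = 0) (h0 : c.st.reg 0 = n) (h1 : c.st.reg 1 = l)
    (hadj : ∀ u v : Fin n, c.st.mem (u * n + v) = if G.Adj u v then 1 else 0)
    (hz : ∀ a, n * n ≤ a → c.st.mem a = 0)
    (hGB : ∀ mate, Greedy G mate → ∀ sv av, sv < av → ∀ (j : ℕ) (w : Fin n)
      (S : Finset (Finset (Fin n))),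
      (∀ X ∈ S, Cc G sv av mate j w X ≠ 0) → S.card ≤ GB)
    (hG1 : 1 ≤ GB) (T : ℝ) (hT : 5000 * (n : ℝ) ^ 6 * GB ≤ T) :
    HaltsWithin (8 * ((n + 1) * (Nat.log 2 (n + 1) + 1))) (main.comp.compile 0) c T
      (G.copyCount (SimpleGraph.cycleGraph l)) := by
  obtain ⟨m, rfl⟩ : ∃ m, l = m + 3 := ⟨l - 3, by omega⟩
  have hp := par_of (n := n) (by omega)
  have hLB1 : 1 ≤ 2 * n * (n * GB) := by
    have : 1 * 1 * (1 * 1) ≤ 2 * n * (n * GB) :=
      Nat.mul_le_mul (Nat.mul_le_mul (by omega) (by omega)) (Nat.mul_le_mul (by omega) hG1)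
    omega
  have ht := tr_main (m := m) (LB := 2 * n * (n * GB)) hp h0 h1 hln hadj hz (copyCount_lt G hln)
    (fun mate hg sv av hsa j w S hS => Nat.mul_le_mul_left _ (Nat.mul_le_mul_left _
      (hGB mate hg sv av hsa j w S hS))) hLB1
  have hc : c = ⟨0, c.st⟩ := by rw [← hpc]
  rw [hc]
  refine Tr.halts main_wf ht (fun s' h => h) _ ?_
  refine le_trans (le_of_eq ?_) hT
  push_cast
  ring

end Run7.h747
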