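import Pool.Agent.Run7.h747.Rules

/-!
The environment, decoding of a set, and adding a number to all continuations of a walk.
-/

set_option autoImplicit false

namespace Run7.h747

open Finset Pool.Agent.H588R2 Pool.Agent.TH687.HL Pool.Agent.TH687.DCS

variable {n : ℕ}

open Classical in
/-- The graph, the table of mates and the powers of two. -/
structure Env (G : SimpleGraph (Fin n)) (mate : Fin n → Fin n) (Big Md : ℕ) (s : St) : Prop where
  rg : Rg n Big Md s
  adj : ∀ u v : Fin n, bl Big s 0 (u * n + v) = if G.Adj u v then 1 else 0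
  mt : ∀ v : Fin n, bl Big s 1 v = mate v
  pw : ∀ v : Fin n, bl Big s 2 v = 2 ^ (v : ℕ)

theorem uv_lt (u v : Fin n) : (u : ℕ) * n + v < n * n := by
  calc (u : ℕ) * n + v < u * n + n := by omega
    _ = (u + 1) * n := by ring
    _ ≤ n * n := Nat.mul_le_mul_right _ u.2

theorem Env.keep {w Big Md Qm : ℕ} {G : SimpleGraph (Fin n)} {mate : Fin n → Fin n}
    {s s' : St} (hp : Par n w Big Md Qm) (h : Env G mate Big Md s) {R : ℕ → Prop}
    (hk : Keep Big R s s') (hR : ∀ q, q < 3 → ¬ R q) (h0 : s'.reg 0 = s.reg 0)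
    (h2 : s'.reg 2 = s.reg 2) (h3 : s'.reg 3 = s.reg 3) : Env G mate Big Md s' := by
  have hn := hp.nn
  have hb := hp.n1b
  refine ⟨h.rg.of h0 h2 h3, ?_, ?_, ?_⟩
  · intro u v
    have := uv_lt u v
    rw [hk.bl (by omega) (hR 0 (by omega)), h.adj]
  · intro v
    have := v.2
    rw [hk.bl (by omega) (hR 1 (by omega)), h.mt]
  · intro v
    have := v.2
    rw [hk.bl (by omega) (hR 2 (by omega)), h.pw]

/-- Decode register `12` into block `3`. -/
def decode : HC := .seq (.asg 18 (.r 12)) (.loop 19 0
  (.seq (.asg 23 (rd (.c 2) (.sub (.sub (.r 0) (.c 1)) (.r 19))))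
    (.ite (.r 18) (.r 23) (.sto (cell (.c 3) (.sub (.sub (.r 0) (.c 1)) (.r 19))) (.c 0))
      (.seq (.sto (cell (.c 3) (.sub (.sub (.r 0) (.c 1)) (.r 19))) (.c 1))
        (.asg 18 (.sub (.r 18) (.r 23)))))))

theorem tr_decode {w Big Md Qm : ℕ} {G : SimpleGraph (Fin n)} {mate : Fin n → Fin n} {s : St}
    (hp : Par n w Big Md Qm) (hE : Env G mate Big Md s) (X : Finset (Fin n))
    (r12 : s.reg 12 = enc X) :
    Tr w decode s (100 * n) (fun s' => Keep Big (fun q => q = 3) s s' ∧
      ∀ v : Fin n, bl Big s' 3 v = if v ∈ X then 1 else 0) := by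
  have hb := hp.nb
  have hpb := hp.pb
  have h8 := hp.bw
  have hmw := hp.mw
  have hqq := hp.qq
  have hq8 := hp.qpos
  have hnB := hp.n1b
  have hen := enc_lt X
  have hn3 := hp.n3
  have hn1 : n < 2 ^ w := by omega
  unfold decode
  apply tr_asgs (enc X) (by simp only [Ex.ok, r12]; omega) (by simp only [Ex.ev, r12])
    (by simp only [Ex.cost]; omega)
  intro s1 m1 e1 f1
  have hE1 : Env G mate Big Md s1 := hE.keep hp (Keep.of_mem (P := fun _ => False) m1)
    (fun _ _ h => h) (f1 0 (by decide)) (f1 2 (by decide)) (f1 3 (by decide))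
  refine Tr.loop (fun i s' => Keep Big (fun q => q = 3) s1 s' ∧
      s'.reg 18 = encK X (n - i) ∧
      ∀ v : Fin n, n - i ≤ v → bl Big s' 3 v = if v ∈ X then 1 else 0) 80
    hE1.rg.r0 hn1 (by omega) ?_ ?_ ?_ ?_
  · simp only [Ex.cost]; omega
  · refine ⟨Keep.of_mem rfl, ?_, ?_⟩
    · rw [St.set_reg_ne _ _ (by decide), e1, Nat.sub_zero, encK_n]
    · intro v hv
      have := v.2
      omega
  · rintro i hi s' ⟨hk, h18, hbit⟩ h19 hfr
    have hr : Rg n Big Md s' := hE1.rg.of (hfr 0 (by decide) (by decide))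
      (hfr 2 (by decide) (by decide)) (hfr 3 (by decide) (by decide))
    have hE2 : Env G mate Big Md s' := hE1.keep hp hk (fun q hq h => by omega)
      (hfr 0 (by decide) (by decide)) (hfr 2 (by decide) (by decide))
      (hfr 3 (by decide) (by decide))
    set v : Fin n := ⟨n - 1 - i, by omega⟩ with hv
    have hvv : (v : ℕ) = n - 1 - i := rfl
    have oi : (Ex.sub (.sub (.r 0) (.c 1)) (.r 19)).ok w s' := by
      simp only [Ex.ok, hr.r0, h19]; omega
    have vi : (Ex.sub (.sub (.r 0) (.c 1)) (.r 19)).ev s' = n - 1 - i := by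
      simp only [Ex.ev, hr.r0, h19]
    have hbv := hE2.pw v
    have hpv : 2 ^ (v : ℕ) < 2 ^ w := by
      have : 2 ^ (v : ℕ) ≤ 2 ^ n := Nat.pow_le_pow_right (by norm_num) v.2.le
      omega
    have hlt := encK_lt X (show n - 1 - i ≤ n by omega)
    have hrec := encK_succ X (show n - 1 - i < n by omega)
    have hni : n - i = n - 1 - i + 1 := by omega
    rw [hni, hrec] at h18
    have h18w : s'.reg 18 < 2 ^ w := by
      rw [h18]
      rw [hvv] at hpv
      have h2 : 2 ^ (n - 1 - i) + 2 ^ (n - 1 - i) ≤ 2 ^ n := by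
        have : 2 ^ (n - 1 - i + 1) ≤ 2 ^ n := Nat.pow_le_pow_right (by norm_num) (by omega)
        rw [pow_succ] at this; omega
      split_ifs <;> omega
    apply tr_asgs (2 ^ (n - 1 - i)) (rd_okp (Q := 2) (X := n - 1 - i) hp hr
      (by simp only [Ex.ok]; omega) oi rfl vi (by omega)
      (by omega) (by rw [← hvv, hbv]; exact hpv))
      (by rw [rd_evp (Q := 2) (X := n - 1 - i) _ _ hr rfl vi, ← hvv, hbv]) (by decide)
    intro s2 m2 e2 f2
    have hr2 : Rg n Big Md s2 := hr.of (f2 0 (by decide)) (f2 2 (by decide)) (f2 3 (by decide))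
    have g18 : s2.reg 18 = s'.reg 18 := f2 18 (by decide)
    have g19 : s2.reg 19 = i := by rw [f2 19 (by decide), h19]
    have oi : (Ex.sub (.sub (.r 0) (.c 1)) (.r 19)).ok w s2 := by
      simp only [Ex.ok, hr2.r0, g19]; omega
    have vi : (Ex.sub (.sub (.r 0) (.c 1)) (.r 19)).ev s2 = n - 1 - i := by
      simp only [Ex.ev, hr2.r0, g19]
    have oc : (cell (.c 3) (.sub (.sub (.r 0) (.c 1)) (.r 19))).ok w s2 :=
      cell_okp (Q := 3) (X := n - 1 - i) hp hr2 (by simp only [Ex.ok]; omega) oi rfl vi (by omega)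
        (by omega)
    have ce : (cell (.c 3) (.sub (.sub (.r 0) (.c 1)) (.r 19))).ev s2 = 3 * Big + (n - 1 - i) :=
      cell_evp hr2 rfl vi
    have o18 : (Ex.r 18).ok w s2 := by simp only [Ex.ok, g18]; exact h18w
    have o23 : (Ex.r 23).ok w s2 := by simp only [Ex.ok, e2]; rw [← hvv]; exact hpv
    have hB : n - 1 - i < Big := by omega
    apply Tr.ite (T := 40) o18 o23 (by decide)
    · intro hc
      simp only [Ex.ev, g18, e2] at hc
      have hvX : v ∉ X := by
        intro hvX
        rw [if_pos hvX] at h18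
        omega
      rw [if_neg hvX, add_zero] at h18
      apply tr_sto (3 * Big + (n - 1 - i)) 0 oc (by simp only [Ex.ok]; omega) ce rfl (by decide)
      intro s3 m3 f3
      refine ⟨?_, ?_, ?_⟩
      · refine hk.trans ?_
        intro a ha
        rw [St.set_mem, m3]
        exact (keep_put (P := fun q => q = 3) hB rfl a ha).trans (by rw [m2])
      · rw [St.set_reg_ne _ _ (by decide), f3, g18, h18]
        congr 1; omega
      · intro u hu
        rw [bl_set, bl_mem m3, bl_put hB (by have := u.2; omega)]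
        by_cases e : (u : ℕ) = n - 1 - i
        · have : u = v := Fin.ext e
          rw [if_pos ⟨rfl, e⟩, this, if_neg hvX]
        · rw [if_neg (fun h => e h.2), bl_mem m2, hbit u (by omega)]
    · intro hc
      simp only [Ex.ev, g18, e2] at hc
      have hvX : v ∈ X := by
        by_contra hvX
        rw [if_neg hvX] at h18
        omega
      rw [if_pos hvX] at h18
      apply tr_stos (3 * Big + (n - 1 - i)) 1 oc (by simp only [Ex.ok]; omega) ce rfl (by decide)
      intro s3 m3 f3
      apply tr_asg (encK X (n - 1 - i))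
        (by simp only [Ex.ok, f3, e2, g18]; exact ⟨h18w, by rw [← hvv]; exact hpv⟩)
        (by simp only [Ex.ev, f3, e2, g18, h18]; omega) (by decide)
      intro s4 m4 e4 f4
      refine ⟨?_, ?_, ?_⟩
      · refine hk.trans ?_
        intro a ha
        rw [St.set_mem, m4, m3]
        exact (keep_put (P := fun q => q = 3) hB rfl a ha).trans (by rw [m2])
      · rw [St.set_reg_ne _ _ (by decide), e4]
        congr 1; omega
      · intro u hu
        rw [bl_set, bl_mem m4, bl_mem m3, bl_put hB (by have := u.2; omega)]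
        by_cases e : (u : ℕ) = n - 1 - i
        · have : u = v := Fin.ext e
          rw [if_pos ⟨rfl, e⟩, this, if_pos hvX]
        · rw [if_neg (fun h => e h.2), bl_mem m2, hbit u (by omega)]
  · rintro s' ⟨hk, _, hbit⟩ _ _
    refine ⟨(Keep.of_mem (P := fun q => q = 3) m1).trans hk, ?_⟩
    intro v
    exact hbit v (by omega)

/-- Add register `21` to the entries (register `20`, `v`) with `v` adjacent to register `13` and
above register `6`. -/
def push : HC := .loop 22 0 (.ite (.r 6) (.r 22)
  (.ite (.c 0) (rd (.c 0) (.add (.mul (.r 13) (.r 0)) (.r 22))) addE .skip) .skip)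

open Classical in
theorem tr_push {w Big Md Qm P : ℕ} {G : SimpleGraph (Fin n)} {mate : Fin n → Fin n}
    {F : Finset (Fin n) × Fin n → ZMod Md}
    {L : List (Finset (Fin n) × Fin n)} {s : St} (hp : Par n w Big Md Qm)
    (hE : Env G mate Big Md s) (hL : Lev Big Md P F L s) (hP3 : 3 ≤ P) (hP : P + 3 < Qm)
    (X : Finset (Fin n)) (x sv : Fin n) (c : ℕ) (hc : c < Md)
    (r27 : s.reg 27 = P) (r20 : s.reg 20 = enc X) (r21 : s.reg 21 = c) (r13 : s.reg 13 = x)
    (r6 : s.reg 6 = sv) (r24 : s.reg 24 = L.length) :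
    Tr w push s (300 * n) (fun s' => ∃ L', Lev Big Md P (fun q => F q +
        if q.1 = X ∧ sv < q.2 ∧ G.Adj x q.2 then (c : ZMod Md) else 0) L' s' ∧
      Keep Big (fun q => P ≤ q ∧ q < P + 4) s s' ∧
        s'.reg 24 = L'.length ∧ L'.length ≤ L.length + n) := by
  have hb := hp.nb
  have hpb := hp.pb
  have h8 := hp.bw
  have hmw := hp.mw
  have hqq := hp.qq
  have hq8 := hp.qpos
  have hnB := hp.n1b
  have hnn := hp.nn
  have hn3 := hp.n3
  have hn1 : n < 2 ^ w := by omega
  unfold push
  refine Tr.loop (fun i s' => ∃ L', Lev Big Md P (fun q => F q +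
        if q.1 = X ∧ sv < q.2 ∧ G.Adj x q.2 ∧ (q.2 : ℕ) < i then (c : ZMod Md) else 0) L' s' ∧
      Keep Big (fun q => P ≤ q ∧ q < P + 4) s s' ∧
        s'.reg 24 = L'.length ∧ L'.length ≤ L.length + i) 250
    hE.rg.r0 hn1 (by omega) ?_ ?_ ?_ ?_
  · omega
  · refine ⟨L, (hL.set _ _).congr ?_, Keep.of_mem rfl, ?_, by omega⟩
    · intro q
      rw [if_neg (by omega), add_zero]
    · rw [St.set_reg_ne _ _ (by decide), r24]
  · rintro i hi s' ⟨L', hL', hk, h24, hlen⟩ h22 hfr
    have hE2 : Env G mate Big Md s' := hE.keep hp hk (fun q hq h => by omega)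
      (hfr 0 (by decide) (by decide)) (hfr 2 (by decide) (by decide))
      (hfr 3 (by decide) (by decide))
    have hr := hE2.rg
    set v : Fin n := ⟨i, hi⟩ with hv
    have hvv : (v : ℕ) = i := rfl
    have a6 : s'.reg 6 = sv := by rw [hfr 6 (by decide) (by decide), r6]
    have a13 : s'.reg 13 = x := by rw [hfr 13 (by decide) (by decide), r13]
    have hsv := sv.2
    have hx := x.2
    have hskip : ¬ (sv < v ∧ G.Adj x v) → ∃ L', Lev Big Md P (fun q => F q +
        if q.1 = X ∧ sv < q.2 ∧ G.Adj x q.2 ∧ (q.2 : ℕ) < i + 1 then (c : ZMod Md) else 0) L'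
          (s'.set 22 (i + 1)) ∧
      Keep Big (fun q => P ≤ q ∧ q < P + 4) s (s'.set 22 (i + 1)) ∧
        (s'.set 22 (i + 1)).reg 24 = L'.length ∧ L'.length ≤ L.length + (i + 1) := by
      intro hno
      refine ⟨L', (hL'.set _ _).congr ?_, hk, ?_, by omega⟩
      · intro q
        congr 1
        by_cases h1 : q.2 = v
        · rw [if_neg, if_neg]
          · rintro ⟨_, h2, h3, _⟩
            rw [h1] at h2 h3
            exact hno ⟨h2, h3⟩
          · rintro ⟨_, h2, h3, _⟩
            rw [h1] at h2 h3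
            exact hno ⟨h2, h3⟩
        · have h2 : (q.2 : ℕ) ≠ i := fun h => h1 (Fin.ext h)
          have h3 : (q.2 : ℕ) < i + 1 ↔ (q.2 : ℕ) < i := by omega
          simp only [h3]
      · rw [St.set_reg_ne _ _ (by decide), h24]
    apply Tr.ite (T := 240) (by simp only [Ex.ok, a6]; omega)
      (by simp only [Ex.ok, h22]; omega) (by decide)
    · intro hlt
      simp only [Ex.ev, a6, h22] at hlt
      have huv := uv_lt x v
      have hadj := hE2.adj x v
      have oi : (Ex.add (.mul (.r 13) (.r 0)) (.r 22)).ok w s' := by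
        simp only [Ex.ok, Ex.ev, hr.r0, a13, h22]
        rw [hvv] at huv
        omega
      have vi : (Ex.add (.mul (.r 13) (.r 0)) (.r 22)).ev s' = x * n + v := by
        simp only [Ex.ev, hr.r0, a13, h22]
        rfl
      apply Tr.ite (T := 200) (by simp only [Ex.ok]; omega)
        (rd_okp (Q := 0) (X := x * n + v) hp hr (by simp only [Ex.ok]; omega) oi rfl vi (by omega)
          (by omega) (by rw [hadj]; split_ifs <;> omega)) (by decide)
      · intro h2
        rw [rd_evp (Q := 0) (X := x * n + v) _ _ hr rfl vi, hadj] at h2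
        have hA : G.Adj x v := by
          by_contra hA
          rw [if_neg hA] at h2
          simp [Ex.ev] at h2
        refine (tr_addE hp hr hL' hP (X, v) c hc (by rw [hfr 27 (by decide) (by decide), r27])
          (by rw [hfr 20 (by decide) (by decide), r20]) h22
          (by rw [hfr 21 (by decide) (by decide), r21]) h24).mono le_rfl ?_
        rintro s2 ⟨k1, k2, k3⟩
        refine ⟨addL L' (X, v), (k1.set _ _).congr ?_, hk.trans k2, ?_, ?_⟩
        · intro q
          by_cases h1 : q = (X, v)
          · subst h1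
            rw [if_neg (by simp only [hvv]; omega), if_pos rfl, if_pos, add_zero]
            exact ⟨rfl, hlt, hA, by simp only [hvv]; omega⟩
          · rw [if_neg h1, add_zero]
            congr 1
            have h3 : (q.1 = X ∧ sv < q.2 ∧ G.Adj x q.2 ∧ (q.2 : ℕ) < i + 1) ↔
                (q.1 = X ∧ sv < q.2 ∧ G.Adj x q.2 ∧ (q.2 : ℕ) < i) := by
              constructor
              · rintro ⟨a1, a2, a3, a4⟩
                refine ⟨a1, a2, a3, ?_⟩
                by_contra h4
                apply h1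
                exact Prod.ext a1 (Fin.ext (by simp only [hvv]; omega))
              · rintro ⟨a1, a2, a3, a4⟩
                exact ⟨a1, a2, a3, by omega⟩
            simp only [h3]
        · rw [St.set_reg_ne _ _ (by decide), k3]
        · have := addL_len L' (X, v)
          omega
      · intro h2
        rw [rd_evp (Q := 0) (X := x * n + v) _ _ hr rfl vi, hadj] at h2
        apply Tr.skip
        apply hskip
        rintro ⟨_, hA⟩
        rw [if_pos hA] at h2
        simp [Ex.ev] at h2
    · intro hlt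
      simp only [Ex.ev, a6, h22] at hlt
      apply Tr.skip
      apply hskip
      rintro ⟨h1, _⟩
      exact hlt h1
  · rintro s' ⟨L', hL', hk, h24, hlen⟩ _ _
    refine ⟨L', hL'.congr ?_, hk, h24, hlen⟩
    intro q
    have : (q.2 : ℕ) < n := q.2.2
    simp only [this, and_true]

end Run7.h747
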