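import Pool.Agent.Run7.h747.Add

/-!
Rules for straight-line code, and the command that adds to an entry.
-/

set_option autoImplicit false

namespace Run7.h747

open Finset Pool.Agent.H588R2 Pool.Agent.TH687.HL Pool.Agent.TH687.DCS

variable {n : ℕ}

theorem tr_asg {w x T : ℕ} {e : Ex} {s : St} {Q : St → Prop} (v : ℕ) (hok : e.ok w s)
    (hv : e.ev s = v) (hT : e.cost + 2 ≤ T)
    (h : ∀ s1 : St, s1.mem = s.mem → s1.reg x = v → (∀ y, y ≠ x → s1.reg y = s.reg y) → Q s1) :
    Tr w (.asg x e) s T Q := by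
  apply Tr.asg hok hT
  refine h (s.set x (e.ev s)) rfl ?_ ?_
  · rw [St.set_reg_self, hv]
  · intro y hy; rw [St.set_reg_ne _ _ hy]

theorem tr_seq {w T : ℕ} {c d : HC} {s : St} {Q : St → Prop} (T1 : ℕ) (hT : T1 ≤ T)
    (h : Tr w c s T1 (fun s' => Tr w d s' (T - T1) Q)) : Tr w (.seq c d) s T Q := by
  have := Tr.seq h
  exact this.mono (by omega) (fun _ h => h)

theorem tr_asgs {w x T : ℕ} {e : Ex} {d : HC} {s : St} {Q : St → Prop} (v : ℕ)
    (hok : e.ok w s) (hv : e.ev s = v) (hT : e.cost + 2 ≤ T)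
    (h : ∀ s1 : St, s1.mem = s.mem → s1.reg x = v → (∀ y, y ≠ x → s1.reg y = s.reg y) →
      Tr w d s1 (T - (e.cost + 2)) Q) :
    Tr w (.seq (.asg x e) d) s T Q :=
  tr_seq (e.cost + 2) hT (tr_asg v hok hv le_rfl h)

theorem tr_sto {w T : ℕ} {a e : Ex} {s : St} {Q : St → Prop} (A v : ℕ) (hoa : a.ok w s)
    (hoe : e.ok w s) (ha : a.ev s = A) (hv : e.ev s = v) (hT : a.cost + e.cost + 1 ≤ T)
    (h : ∀ s1 : St, s1.mem = (put s A v).mem → (∀ y, s1.reg y = s.reg y) → Q s1) :
    Tr w (.sto a e) s T Q := by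
  apply Tr.sto hoa hoe hT
  refine h (put s (a.ev s) (e.ev s)) ?_ ?_
  · rw [ha, hv]
  · intro y; rfl

theorem tr_stos {w T : ℕ} {a e : Ex} {d : HC} {s : St} {Q : St → Prop} (A v : ℕ)
    (hoa : a.ok w s) (hoe : e.ok w s) (ha : a.ev s = A) (hv : e.ev s = v)
    (hT : a.cost + e.cost + 1 ≤ T)
    (h : ∀ s1 : St, s1.mem = (put s A v).mem → (∀ y, s1.reg y = s.reg y) →
      Tr w d s1 (T - (a.cost + e.cost + 1)) Q) :
    Tr w (.seq (.sto a e) d) s T Q :=
  tr_seq (a.cost + e.cost + 1) hT (tr_sto A v hoa hoe ha hv le_rfl h)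

theorem put_mem {s s' : St} (h : s'.mem = s.mem) (a v : ℕ) :
    (put s' a v).mem = (put s a v).mem := by
  unfold put; simp only [h]

theorem bl_mem {M q X : ℕ} {s s' : St} (h : s'.mem = s.mem) : bl M s' q X = bl M s q X :=
  congrFun h _

theorem Lev.mem {Big Md P : ℕ} {F : Finset (Fin n) × Fin n → ZMod Md}
    {L : List (Finset (Fin n) × Fin n)} {s s' : St}
    (h : Lev Big Md P F L s) (hm : s'.mem = s.mem) : Lev Big Md P F L s' := by
  refine ⟨h.nd, ?_, ?_, ?_, ?_, ?_, ?_⟩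
  · intro i hi; rw [bl_mem hm]; exact h.lX i hi
  · intro i hi; rw [bl_mem hm]; exact h.lW i hi
  · intro p; rw [bl_mem hm]; exact h.flg p
  · intro p; rw [bl_mem hm]; exact h.vlt p
  · intro p; rw [bl_mem hm]; exact h.val p
  · intro p hp; rw [bl_mem hm]; exact h.out p hp

theorem Lev.set {Big Md P : ℕ} {F : Finset (Fin n) × Fin n → ZMod Md}
    {L : List (Finset (Fin n) × Fin n)} {s : St}
    (h : Lev Big Md P F L s) (x v : ℕ) : Lev Big Md P F L (s.set x v) := h.mem rfl

/-- Reading a cell. -/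
theorem rd_okp {w Big Md Qm : ℕ} (hp : Par n w Big Md Qm) {q x : Ex} {s : St}
    (hr : Rg n Big Md s) {Q X : ℕ} (hqo : q.ok w s) (hxo : x.ok w s) (hq : q.ev s = Q)
    (hx : x.ev s = X) (hQ : Q < Qm) (hX : X < Big) (hv : bl Big s Q X < 2 ^ w) :
    (rd q x).ok w s := by
  have h1 := hp.bw
  have h2 := hp.bpos
  apply rd_ok hr.r2 (by omega) hp.qw hqo hxo
  · rw [hq]; exact hQ
  · rw [hx]; exact hX
  · rw [hq, hx]; exact hv

theorem rd_evp {Big Md : ℕ} (q x : Ex) {s : St} (hr : Rg n Big Md s) {Q X : ℕ}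
    (hq : q.ev s = Q) (hx : x.ev s = X) : (rd q x).ev s = bl Big s Q X := by
  rw [rd_ev hr.r2, hq, hx]

theorem rd_evq {Big Md : ℕ} {q x : Ex} {s : St} (hr : Rg n Big Md s) {Q X v : ℕ}
    (hq : q.ev s = Q) (hx : x.ev s = X) (hv : bl Big s Q X = v) : (rd q x).ev s = v := by
  rw [rd_ev hr.r2, hq, hx, hv]

theorem cell_okp {w Big Md Qm : ℕ} (hp : Par n w Big Md Qm) {q x : Ex} {s : St}
    (hr : Rg n Big Md s) {Q X : ℕ} (hqo : q.ok w s) (hxo : x.ok w s) (hq : q.ev s = Q)
    (hx : x.ev s = X) (hQ : Q < Qm) (hX : X < Big) : (cell q x).ok w s := by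
  have h1 := hp.bw
  have h2 := hp.bpos
  apply cell_ok hr.r2 (by omega) hp.qw hqo hxo
  · rw [hq]; exact hQ
  · rw [hx]; exact hX

theorem cell_evp {Big Md : ℕ} {q x : Ex} {s : St} (hr : Rg n Big Md s) {Q X : ℕ}
    (hq : q.ev s = Q) (hx : x.ev s = X) : (cell q x).ev s = Q * Big + X := by
  rw [cell_ev, hr.r2, hq, hx]

theorem tr_addE {w Big Md Qm P : ℕ} {F : Finset (Fin n) × Fin n → ZMod Md}
    {L : List (Finset (Fin n) × Fin n)} {s : St} (hp : Par n w Big Md Qm)
    (hr : Rg n Big Md s) (h : Lev Big Md P F L s) (hP : P + 3 < Qm)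
    (p : Finset (Fin n) × Fin n) (c : ℕ) (hc : c < Md)
    (r27 : s.reg 27 = P) (r20 : s.reg 20 = enc p.1) (r22 : s.reg 22 = p.2) (r21 : s.reg 21 = c)
    (r24 : s.reg 24 = L.length) :
    Tr w addE s 200 (fun s' => Lev Big Md P (fun q => F q + if q = p then (c : ZMod Md) else 0)
      (addL L p) s' ∧ Keep Big (fun q => P ≤ q ∧ q < P + 4) s s' ∧
        s'.reg 24 = (addL L p).length) := by
  have hb := hp.nb
  have hpb := hp.pb
  have h8 := hp.bw
  have hmw := hp.mw
  have hqq := hp.qq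
  have h0 : ∀ p : Finset (Fin n) × Fin n, ix p < Big := fun p => (ix_lt p).trans_le hb
  have hix := h0 p
  have hixd : ix p = enc p.1 * n + p.2 := rfl
  have hp2 := p.2.2
  have hnB := hp.n1b
  have hen := enc_lt p.1
  have hlen := nodup_len h.nd
  have hvl := h.vlt p
  have hn1 : n < 2 ^ w := by omega
  have hmul : enc p.1 * n < 2 ^ w := by omega
  unfold addE
  -- index
  apply tr_asgs (ix p) (e := .add (.mul (.r 20) (.r 0)) (.r 22))
  · simp only [Ex.ok, Ex.ev, r20, r22, hr.r0]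
    omega
  · simp only [Ex.ev, r20, r22, hr.r0, hixd]
  · decide
  intro s1 m1 e1 f1
  have hr1 : Rg n Big Md s1 := hr.of (f1 0 (by decide)) (f1 2 (by decide)) (f1 3 (by decide))
  have a27 : s1.reg 27 = P := by rw [f1 27 (by decide), r27]
  have a21 : s1.reg 21 = c := by rw [f1 21 (by decide), r21]
  have b1 : bl Big s1 P (ix p) = bl Big s P (ix p) := bl_mem m1
  have o27 : (Ex.r 27).ok w s1 := by simp only [Ex.ok, a27]; omega
  have o23 : (Ex.r 23).ok w s1 := by simp only [Ex.ok, e1]; omega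
  -- new value
  apply tr_asgs (bl Big s P (ix p) + c)
  · refine ⟨rd_okp hp hr1 o27 o23 a27 e1 (by omega) hix (by omega), ?_, ?_⟩
    · simp only [Ex.ok, a21]; omega
    · rw [rd_evp (.r 27) (.r 23) hr1 a27 e1, b1]
      simp only [Ex.ev, a21]; omega
  · show (rd (.r 27) (.r 23)).ev s1 + (Ex.r 21).ev s1 = _
    rw [rd_evp (.r 27) (.r 23) hr1 a27 e1, b1]
    simp only [Ex.ev, a21]
  · decide
  intro s2 m2 e2 f2
  have hr2 : Rg n Big Md s2 := hr1.of (f2 0 (by decide)) (f2 2 (by decide)) (f2 3 (by decide))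
  have c27 : s2.reg 27 = P := by rw [f2 27 (by decide), a27]
  have c23 : s2.reg 23 = ix p := by rw [f2 23 (by decide), e1]
  have o27 : (Ex.r 27).ok w s2 := by simp only [Ex.ok, c27]; omega
  have o23 : (Ex.r 23).ok w s2 := by simp only [Ex.ok, c23]; omega
  have o25 : (Ex.r 25).ok w s2 := by simp only [Ex.ok, e2]; omega
  have o3 : (Ex.r 3).ok w s2 := by simp only [Ex.ok, hr2.r3]; omega
  -- store the value
  apply tr_seq 30 (by decide)
  have hst : ∀ s3 : St, s3.mem = (put s2 (P * Big + ix p) (am Md (bl Big s P (ix p)) c)).mem →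
      (∀ y, s3.reg y = s2.reg y) → Tr w (.ite (rd (.add (.r 27) (.c 1)) (.r 23)) (.c 1)
     (.seq (.sto (cell (.add (.r 27) (.c 1)) (.r 23)) (.c 1))
     (.seq (.sto (cell (.add (.r 27) (.c 2)) (.r 24)) (.r 20))
     (.seq (.sto (cell (.add (.r 27) (.c 3)) (.r 24)) (.r 22))
       (.asg 24 (.add (.r 24) (.c 1))))))
     .skip) s3 (200 - ((Ex.add (.mul (.r 20) (.r 0)) (.r 22)).cost + 2) -
        ((Ex.add (rd (.r 27) (.r 23)) (.r 21)).cost + 2) - 30)
      (fun s' => Lev Big Md P (fun q => F q + if q = p then (c : ZMod Md) else 0)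
      (addL L p) s' ∧ Keep Big (fun q => P ≤ q ∧ q < P + 4) s s' ∧
        s'.reg 24 = (addL L p).length) := by
    intro s3 m3 f3
    have hr3 : Rg n Big Md s3 := hr2.of (f3 0) (f3 2) (f3 3)
    have d27 : s3.reg 27 = P := by rw [f3, c27]
    have d23 : s3.reg 23 = ix p := by rw [f3, c23]
    have d24 : s3.reg 24 = L.length := by rw [f3, f2 24 (by decide), f1 24 (by decide), r24]
    have d20 : s3.reg 20 = enc p.1 := by rw [f3, f2 20 (by decide), f1 20 (by decide), r20]
    have d22 : s3.reg 22 = p.2 := by rw [f3, f2 22 (by decide), f1 22 (by decide), r22]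
    have o27 : (Ex.add (.r 27) (.c 1)).ok w s3 := by simp only [Ex.ok, Ex.ev, d27]; omega
    have o272 : (Ex.add (.r 27) (.c 2)).ok w s3 := by simp only [Ex.ok, Ex.ev, d27]; omega
    have o273 : (Ex.add (.r 27) (.c 3)).ok w s3 := by simp only [Ex.ok, Ex.ev, d27]; omega
    have v27 : (Ex.add (.r 27) (.c 1)).ev s3 = P + 1 := by simp only [Ex.ev, d27]
    have o23 : (Ex.r 23).ok w s3 := by simp only [Ex.ok, d23]; omega
    have o24 : (Ex.r 24).ok w s3 := by simp only [Ex.ok, d24]; omega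
    have mm : s3.mem = (put s (P * Big + ix p) (am Md (bl Big s P (ix p)) c)).mem := by
      rw [m3]; exact put_mem (m2.trans m1) _ _
    have hfl : bl Big s3 (P + 1) (ix p) = if p ∈ L then 1 else 0 := by
      rw [bl_mem mm, bl_put hix hix, if_neg (by omega), h.flg]
    have oc1 : (Ex.c 1).ok w s3 := by simp only [Ex.ok]; omega
    apply Tr.ite (T := 60) (rd_okp hp hr3 o27 o23 v27 d23 (by omega) hix
      (by rw [hfl]; split_ifs <;> omega)) oc1 (by decide)
    · intro hlt
      rw [rd_evp (.add (.r 27) (.c 1)) (.r 23) hr3 v27 d23, hfl] at hlt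
      have hpL : p ∉ L := by
        intro hpL; rw [if_pos hpL] at hlt; simp [Ex.ev] at hlt
      have hlt' := nodup_len_lt h.nd hpL
      apply tr_stos ((P + 1) * Big + ix p) 1 (cell_okp hp hr3 o27 o23 v27 d23 (by omega) hix) oc1
        (cell_evp hr3 v27 d23) rfl (by decide)
      intro s4 m4 f4
      have hr4 : Rg n Big Md s4 := hr3.of (f4 0) (f4 2) (f4 3)
      have g27 : s4.reg 27 = P := by rw [f4, d27]
      have g24 : s4.reg 24 = L.length := by rw [f4, d24]
      have g20 : s4.reg 20 = enc p.1 := by rw [f4, d20]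
      have o : (Ex.add (.r 27) (.c 2)).ok w s4 := by simp only [Ex.ok, Ex.ev, g27]; omega
      have v : (Ex.add (.r 27) (.c 2)).ev s4 = P + 2 := by simp only [Ex.ev, g27]
      apply tr_stos ((P + 2) * Big + L.length) (enc p.1)
        (cell_okp (x := .r 24) hp hr4 o (by simp only [Ex.ok, g24]; omega) v g24 (by omega)
          (by omega))
        (by simp only [Ex.ok, g20]; omega) (cell_evp (x := .r 24) hr4 v g24)
        (by exact g20) (by decide)
      intro s5 m5 f5
      have hr5 : Rg n Big Md s5 := hr4.of (f5 0) (f5 2) (f5 3)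
      have i27 : s5.reg 27 = P := by rw [f5, g27]
      have i24 : s5.reg 24 = L.length := by rw [f5, g24]
      have i22 : s5.reg 22 = p.2 := by rw [f5, f4, d22]
      have o : (Ex.add (.r 27) (.c 3)).ok w s5 := by simp only [Ex.ok, Ex.ev, i27]; omega
      have v : (Ex.add (.r 27) (.c 3)).ev s5 = P + 3 := by simp only [Ex.ev, i27]
      apply tr_stos ((P + 3) * Big + L.length) (p.2)
        (cell_okp (x := .r 24) hp hr5 o (by simp only [Ex.ok, i24]; omega) v i24 (by omega)
          (by omega))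
        (by simp only [Ex.ok, i22]; omega) (cell_evp (x := .r 24) hr5 v i24)
        (by exact i22) (by decide)
      intro s6 m6 f6
      have j24 : s6.reg 24 = L.length := by rw [f6, i24]
      apply tr_asg (L.length + 1) (by simp only [Ex.ok, Ex.ev, j24]; omega)
        (by simp only [Ex.ev, j24]) (by decide)
      intro s7 m7 e7 f7
      have hm7 : s7.mem = (put (put (put s3 ((P + 1) * Big + ix p) 1)
          ((P + 2) * Big + L.length) (enc p.1)) ((P + 3) * Big + L.length) p.2).mem := by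
        rw [m7, m6]
        apply put_mem
        rw [m5]
        apply put_mem
        rw [m4]
      obtain ⟨k1, k2⟩ := lev_add hp h p c hc mm (s2 := s7) (by rw [if_neg hpL]; exact hm7)
      refine ⟨k1, k2, ?_⟩
      rw [e7]
      unfold addL
      rw [if_neg hpL]; simp
    · intro hlt
      rw [rd_evp (.add (.r 27) (.c 1)) (.r 23) hr3 v27 d23, hfl] at hlt
      have hpL : p ∈ L := by
        by_contra hpL; rw [if_neg hpL] at hlt; simp [Ex.ev] at hlt
      obtain ⟨k1, k2⟩ := lev_add hp h p c hc mm (s2 := s3) (by rw [if_pos hpL])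
      refine Tr.skip ⟨k1, k2, ?_⟩
      rw [d24]
      unfold addL
      rw [if_pos hpL]
  have oc := cell_okp hp hr2 o27 o23 c27 c23 (by omega) hix
  have ce : (cell (.r 27) (.r 23)).ev s2 = P * Big + ix p := cell_evp hr2 c27 c23
  apply Tr.ite (T := 15) o25 o3 (by decide)
  · intro hlt
    simp only [Ex.ev, e2, hr2.r3] at hlt
    apply tr_sto (P * Big + ix p) (am Md (bl Big s P (ix p)) c) oc o25 ce
      (by simp only [Ex.ev, e2]; unfold am; rw [if_pos hlt]) (by decide)
    exact hst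
  · intro hlt
    simp only [Ex.ev, e2, hr2.r3] at hlt
    apply tr_sto (e := .sub (.r 25) (.r 3)) (P * Big + ix p) (am Md (bl Big s P (ix p)) c) oc
      ⟨o25, o3⟩ ce
      (by simp only [Ex.ev, e2, hr2.r3]; unfold am; rw [if_neg hlt]) (by decide)
    exact hst

end Run7.h747
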