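import Pool.Agent.Run7.h747.Push

/-!
Processing one entry of a level.
-/

set_option autoImplicit false

namespace Run7.h747

open Finset Pool.Agent.H588R2 Pool.Agent.TH687.HL Pool.Agent.TH687.DCS

variable {n : ℕ}

theorem tr_seqf {w T : ℕ} {c d : HC} {s : St} {Q Q1 : St → Prop} (T1 : ℕ)
    (h : Tr w c s T1 Q1) (hT : T1 ≤ T)
    (h2 : ∀ s', Q1 s' → (∀ y, y ∉ c.wr → s'.reg y = s.reg y) → Tr w d s' (T - T1) Q) :
    Tr w (.seq c d) s T Q :=
  tr_seq T1 hT (h.fr le_rfl h2)

/-- Load entry number (register `11`) of the level at register `8`. -/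
def loadE : HC :=
  .seq (.asg 12 (rd (.add (.r 8) (.c 2)) (.r 11)))
  (.seq (.asg 13 (rd (.add (.r 8) (.c 3)) (.r 11)))
    (.asg 14 (rd (.r 8) (.add (.mul (.r 12) (.r 0)) (.r 13)))))

theorem tr_loadE {w Big Md Qm P : ℕ} {F : Finset (Fin n) × Fin n → ZMod Md}
    {L : List (Finset (Fin n) × Fin n)} {s : St} (hp : Par n w Big Md Qm)
    (hr : Rg n Big Md s) (hL : Lev Big Md P F L s) (hP : P + 3 < Qm) {i : ℕ} (hi : i < L.length)
    (r8 : s.reg 8 = P) (r11 : s.reg 11 = i) :
    Tr w loadE s 100 (fun s' => s'.mem = s.mem ∧ s'.reg 12 = enc (L[i]).1 ∧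
      s'.reg 13 = (L[i]).2 ∧ s'.reg 14 = bl Big s P (ix L[i])) := by
  have hb := hp.nb
  have hpb := hp.pb
  have h8 := hp.bw
  have hmw := hp.mw
  have hqq := hp.qq
  have hq8 := hp.qpos
  have hnB := hp.n1b
  have hn3 := hp.n3
  have hn1 : n < 2 ^ w := by omega
  have hlen := nodup_len hL.nd
  have hen := enc_lt (L[i]).1
  have hx := (L[i]).2.2
  have hlX := hL.lX i hi
  have hlW := hL.lW i hi
  have hix := ix_lt L[i]
  have hixd : ix L[i] = enc (L[i]).1 * n + (L[i]).2 := rfl
  have hvl := hL.vlt L[i]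
  have hmul : enc (L[i]).1 * n < 2 ^ w := by omega
  unfold loadE
  have o2 : (Ex.add (.r 8) (.c 2)).ok w s := by simp only [Ex.ok, Ex.ev, r8]; omega
  have v2 : (Ex.add (.r 8) (.c 2)).ev s = P + 2 := by simp only [Ex.ev, r8]
  have o11 : (Ex.r 11).ok w s := by simp only [Ex.ok, r11]; omega
  apply tr_asgs (enc (L[i]).1)
    (rd_okp (Q := P + 2) (X := i) hp hr o2 o11 v2 r11 (by omega) (by omega)
      (by rw [hlX]; omega))
    (rd_evq (Q := P + 2) (X := i) hr (by exact v2) (by exact r11) (by rw [hlX])) (by decide)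
  intro s1 m1 e1 f1
  have hr1 : Rg n Big Md s1 := hr.of (f1 0 (by decide)) (f1 2 (by decide)) (f1 3 (by decide))
  have a8 : s1.reg 8 = P := by rw [f1 8 (by decide), r8]
  have a11 : s1.reg 11 = i := by rw [f1 11 (by decide), r11]
  have o3 : (Ex.add (.r 8) (.c 3)).ok w s1 := by simp only [Ex.ok, Ex.ev, a8]; omega
  have v3 : (Ex.add (.r 8) (.c 3)).ev s1 = P + 3 := by simp only [Ex.ev, a8]
  have o11 : (Ex.r 11).ok w s1 := by simp only [Ex.ok, a11]; omega
  apply tr_asgs ((L[i]).2 : ℕ)
    (rd_okp (Q := P + 3) (X := i) hp hr1 o3 o11 v3 a11 (by omega) (by omega)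
      (by rw [bl_mem m1, hlW]; omega))
    (rd_evq (Q := P + 3) (X := i) hr1 (by exact v3) (by exact a11) (by rw [bl_mem m1, hlW])) (by decide)
  intro s2 m2 e2 f2
  have hr2 : Rg n Big Md s2 := hr1.of (f2 0 (by decide)) (f2 2 (by decide)) (f2 3 (by decide))
  have b8 : s2.reg 8 = P := by rw [f2 8 (by decide), a8]
  have b12 : s2.reg 12 = enc (L[i]).1 := by rw [f2 12 (by decide), e1]
  have o8 : (Ex.r 8).ok w s2 := by simp only [Ex.ok, b8]; omega
  have oi : (Ex.add (.mul (.r 12) (.r 0)) (.r 13)).ok w s2 := by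
    simp only [Ex.ok, Ex.ev, b12, e2, hr2.r0]; omega
  have vi : (Ex.add (.mul (.r 12) (.r 0)) (.r 13)).ev s2 = ix L[i] := by
    simp only [Ex.ev, b12, e2, hr2.r0, hixd]
  apply tr_asg (bl Big s P (ix L[i]))
    (rd_okp (Q := P) (X := ix L[i]) hp hr2 o8 oi b8 vi (by omega) (by omega)
      (by rw [bl_mem m2, bl_mem m1]; omega))
    (rd_evq (Q := P) (X := ix L[i]) hr2 (by exact b8) (by exact vi) (by rw [bl_mem m2, bl_mem m1])) (by decide)
  intro s3 m3 e3 f3
  refine ⟨by rw [m3, m2, m1], ?_, ?_, e3⟩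
  · rw [f3 12 (by decide), b12]
  · rw [f3 13 (by decide), e2]

/-- Decode, and load the mate and the two bits. -/
def bits : HC :=
  .seq decode
    (.seq (.asg 15 (rd (.c 1) (.r 13)))
    (.seq (.asg 16 (rd (.c 3) (.r 13)))
      (.asg 17 (rd (.c 3) (.r 15)))))

theorem tr_bits {w Big Md Qm : ℕ} {G : SimpleGraph (Fin n)} {mate : Fin n → Fin n} {s : St}
    (hp : Par n w Big Md Qm) (hE : Env G mate Big Md s) (X : Finset (Fin n)) (x : Fin n)
    (r12 : s.reg 12 = enc X) (r13 : s.reg 13 = x) :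
    Tr w bits s (150 * n) (fun s' => Keep Big (fun q => q = 3) s s' ∧
      (∀ v : Fin n, bl Big s' 3 v = if v ∈ X then 1 else 0) ∧ s'.reg 15 = mate x ∧
      (s'.reg 16 = if x ∈ X then 1 else 0) ∧ (s'.reg 17 = if mate x ∈ X then 1 else 0)) := by
  have hb := hp.nb
  have hpb := hp.pb
  have h8 := hp.bw
  have hmw := hp.mw
  have hqq := hp.qq
  have hq8 := hp.qpos
  have hnB := hp.n1b
  have hn3 := hp.n3
  have hn1 : n < 2 ^ w := by omega
  have hx := x.2
  have hmx := (mate x).2
  unfold bits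
  apply tr_seqf _ (tr_decode hp hE X r12) (by omega)
  rintro s1 ⟨k1, hbit⟩ f1
  have hE1 : Env G mate Big Md s1 := hE.keep hp k1 (fun q hq h => by omega)
    (f1 0 (by decide)) (f1 2 (by decide)) (f1 3 (by decide))
  have hr1 := hE1.rg
  have a13 : s1.reg 13 = x := by rw [f1 13 (by decide), r13]
  have o13 : (Ex.r 13).ok w s1 := by simp only [Ex.ok, a13]; omega
  have oc : ∀ (s : St) (k : ℕ), k < 8 → (Ex.c k).ok w s := by
    intro s k hk; simp only [Ex.ok]; omega
  have hmt := hE1.mt x
  apply tr_asgs (mate x : ℕ)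
    (rd_okp (Q := 1) (X := x) hp hr1 (oc _ _ (by omega)) o13 rfl a13 (by omega) (by omega)
      (by rw [hmt]; omega))
    (rd_evq (Q := 1) (X := x) hr1 (by exact rfl) (by exact a13) (by rw [hmt])) (by simp only [rd, cell, Ex.cost]; omega)
  intro s2 m2 e2 f2
  have hr2 : Rg n Big Md s2 := hr1.of (f2 0 (by decide)) (f2 2 (by decide)) (f2 3 (by decide))
  have b13 : s2.reg 13 = x := by rw [f2 13 (by decide), a13]
  have o13 : (Ex.r 13).ok w s2 := by simp only [Ex.ok, b13]; omega
  have hb2 : bl Big s2 3 x = if x ∈ X then 1 else 0 := by rw [bl_mem m2, hbit x]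
  apply tr_asgs (if x ∈ X then 1 else 0)
    (rd_okp (Q := 3) (X := x) hp hr2 (oc _ _ (by omega)) o13 rfl b13 (by omega) (by omega)
      (by rw [hb2]; split_ifs <;> omega))
    (rd_evq (Q := 3) (X := x) hr2 (by exact rfl) (by exact b13) (by rw [hb2])) (by simp only [rd, cell, Ex.cost]; omega)
  intro s3 m3 e3 f3
  have hr3 : Rg n Big Md s3 := hr2.of (f3 0 (by decide)) (f3 2 (by decide)) (f3 3 (by decide))
  have c15 : s3.reg 15 = mate x := by rw [f3 15 (by decide), e2]
  have o15 : (Ex.r 15).ok w s3 := by simp only [Ex.ok, c15]; omega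
  have hb3 : bl Big s3 3 (mate x) = if mate x ∈ X then 1 else 0 := by
    rw [bl_mem m3, bl_mem m2, hbit (mate x)]
  apply tr_asg (if mate x ∈ X then 1 else 0)
    (rd_okp (Q := 3) (X := mate x) hp hr3 (oc _ _ (by omega)) o15 rfl c15 (by omega) (by omega)
      (by rw [hb3]; split_ifs <;> omega))
    (rd_evq (Q := 3) (X := mate x) hr3 (by exact rfl) (by exact c15) (by rw [hb3]))
    (by simp only [rd, cell, Ex.cost]; omega)
  intro s4 m4 e4 f4
  refine ⟨k1.trans (Keep.of_mem (m4.trans (m3.trans m2))), ?_, ?_, ?_, ?_⟩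
  · intro v
    rw [bl_mem m4, bl_mem m3, bl_mem m2, hbit v]
  · rw [f4 15 (by decide), c15]
  · rw [f4 16 (by decide), e3]
  · exact e4

/-- The first continuation. -/
def pushA : HC := .ite (.r 16) (.c 1)
  (.seq (.asg 20 (.add (.r 12) (rd (.c 2) (.r 13)))) (.seq (.asg 21 (.r 14)) push)) .skip

/-- The second continuation. -/
def pushB : HC := .ite (.r 13) (.r 15) (.ite (.r 17) (.c 1)
  (.seq (.asg 20 (.add (.r 12) (rd (.c 2) (.r 15))))
    (.seq (.ite (.r 16) (.c 1) (.asg 21 (.sub (.r 3) (.r 14))) (.asg 21 (.r 14))) push))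
  .skip) .skip

open Classical in
theorem tr_pushA {w Big Md Qm P : ℕ} {G : SimpleGraph (Fin n)} {mate : Fin n → Fin n}
    {F : Finset (Fin n) × Fin n → ZMod Md}
    {L : List (Finset (Fin n) × Fin n)} {s : St} (hp : Par n w Big Md Qm)
    (hE : Env G mate Big Md s) (hL : Lev Big Md P F L s) (hP3 : 3 ≤ P) (hP : P + 3 < Qm)
    (X : Finset (Fin n)) (x sv : Fin n) (c : ℕ) (hc : c < Md)
    (r27 : s.reg 27 = P) (r12 : s.reg 12 = enc X) (r14 : s.reg 14 = c) (r13 : s.reg 13 = x)
    (r16 : s.reg 16 = if x ∈ X then 1 else 0)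
    (r6 : s.reg 6 = sv) (r24 : s.reg 24 = L.length) :
    Tr w pushA s (340 * n) (fun s' => ∃ L', Lev Big Md P (fun q => F q +
        if x ∉ X ∧ q.1 = insert x X ∧ sv < q.2 ∧ G.Adj x q.2 then (c : ZMod Md) else 0) L' s' ∧
      Keep Big (fun q => P ≤ q ∧ q < P + 4) s s' ∧
        s'.reg 24 = L'.length ∧ L'.length ≤ L.length + n) := by
  have hb := hp.nb
  have hpb := hp.pb
  have h8 := hp.bw
  have hmw := hp.mw
  have hqq := hp.qq
  have hq8 := hp.qpos
  have hnB := hp.n1b
  have hn3 := hp.n3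
  have hn1 : n < 2 ^ w := by omega
  have hx := x.2
  have hen := enc_lt X
  have oc : ∀ (s : St) (k : ℕ), k < 8 → (Ex.c k).ok w s := by
    intro s k hk; simp only [Ex.ok]; omega
  unfold pushA
  apply Tr.ite (T := 335 * n) (by simp only [Ex.ok, r16]; split_ifs <;> omega) (oc _ _ (by omega))
    (by simp only [Ex.cost]; omega)
  · intro h
    simp only [Ex.ev, r16] at h
    have hxX : x ∉ X := by
      intro hxX; rw [if_pos hxX] at h; omega
    have o13 : (Ex.r 13).ok w s := by simp only [Ex.ok, r13]; omega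
    have hpw := hE.pw x
    have hins := enc_insert hxX
    have hins2 := enc_lt (insert x X)
    have ho : (rd (.c 2) (.r 13)).ok w s :=
      rd_okp (Q := 2) (X := x) hp hE.rg (oc _ _ (by omega)) o13 rfl r13 (by omega) (by omega)
        (by rw [hpw]; omega)
    have hv : (rd (.c 2) (.r 13)).ev s = 2 ^ (x : ℕ) := by
      exact rd_evq (Q := 2) (X := x) hE.rg (by exact rfl) (by exact r13) (by rw [hpw])
    apply tr_asgs (enc (insert x X))
    · refine ⟨by simp only [Ex.ok, r12]; omega, ho, ?_⟩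
      rw [hv]; simp only [Ex.ev, r12]; omega
    · show (Ex.r 12).ev s + (rd (.c 2) (.r 13)).ev s = _
      rw [hv]; simp only [Ex.ev, r12]; omega
    · simp only [rd, cell, Ex.cost]; omega
    intro s1 m1 e1 f1
    have a14 : s1.reg 14 = c := by rw [f1 14 (by decide), r14]
    apply tr_asgs c (by simp only [Ex.ok, a14]; omega) (by simp only [Ex.ev, a14])
      (by simp only [rd, cell, Ex.cost]; omega)
    intro s2 m2 e2 f2
    have hE2 : Env G mate Big Md s2 := hE.keep hp
      (Keep.of_mem (P := fun _ => False) (m2.trans m1)) (fun _ _ h => h)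
      (by rw [f2 0 (by decide), f1 0 (by decide)]) (by rw [f2 2 (by decide), f1 2 (by decide)])
      (by rw [f2 3 (by decide), f1 3 (by decide)])
    refine (tr_push hp hE2 (hL.mem (m2.trans m1)) hP3 hP (insert x X) x sv c hc
      (by rw [f2 27 (by decide), f1 27 (by decide), r27])
      (by rw [f2 20 (by decide), e1]) e2
      (by rw [f2 13 (by decide), f1 13 (by decide), r13])
      (by rw [f2 6 (by decide), f1 6 (by decide), r6])
      (by rw [f2 24 (by decide), f1 24 (by decide), r24])).mono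
      (by simp only [rd, cell, Ex.cost]; omega) ?_
    rintro s3 ⟨L', h1, h2, h3, h4⟩
    refine ⟨L', h1.congr ?_, (Keep.of_mem (m2.trans m1)).trans h2, h3, h4⟩
    intro q
    congr 1
    by_cases e : q.1 = insert x X ∧ sv < q.2 ∧ G.Adj x q.2
    · rw [if_pos e, if_pos ⟨hxX, e⟩]
    · rw [if_neg e, if_neg (fun h' => e h'.2)]
  · intro h
    simp only [Ex.ev, r16] at h
    have hxX : x ∈ X := by
      by_contra hxX; rw [if_neg hxX] at h; omega
    refine Tr.skip ⟨L, hL.congr ?_, Keep.refl _ _ _, r24, by omega⟩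
    intro q
    rw [if_neg (fun h' => h'.1 hxX), add_zero]

open Classical in
theorem tr_pushB {w Big Md Qm P : ℕ} {G : SimpleGraph (Fin n)} {mate : Fin n → Fin n}
    {F : Finset (Fin n) × Fin n → ZMod Md}
    {L : List (Finset (Fin n) × Fin n)} {s : St} (hp : Par n w Big Md Qm)
    (hE : Env G mate Big Md s) (hL : Lev Big Md P F L s) (hP3 : 3 ≤ P) (hP : P + 3 < Qm)
    (X : Finset (Fin n)) (x sv : Fin n) (c : ℕ) (hc0 : 0 < c) (hc : c < Md)
    (r27 : s.reg 27 = P) (r12 : s.reg 12 = enc X) (r14 : s.reg 14 = c) (r13 : s.reg 13 = x)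
    (r15 : s.reg 15 = mate x)
    (r16 : s.reg 16 = if x ∈ X then 1 else 0) (r17 : s.reg 17 = if mate x ∈ X then 1 else 0)
    (r6 : s.reg 6 = sv) (r24 : s.reg 24 = L.length) :
    Tr w pushB s (360 * n) (fun s' => ∃ L', Lev Big Md P (fun q => F q +
        if x < mate x ∧ mate x ∉ X ∧ q.1 = insert (mate x) X ∧ sv < q.2 ∧ G.Adj x q.2
          then (if x ∈ X then (c : ZMod Md) else -c) else 0) L' s' ∧
      Keep Big (fun q => P ≤ q ∧ q < P + 4) s s' ∧
        s'.reg 24 = L'.length ∧ L'.length ≤ L.length + n) := by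
  have hb := hp.nb
  have hpb := hp.pb
  have h8 := hp.bw
  have hmw := hp.mw
  have hqq := hp.qq
  have hq8 := hp.qpos
  have hnB := hp.n1b
  have hn3 := hp.n3
  have hn1 : n < 2 ^ w := by omega
  have hx := x.2
  have hmx := (mate x).2
  have hen := enc_lt X
  have oc : ∀ (s : St) (k : ℕ), k < 8 → (Ex.c k).ok w s := by
    intro s k hk; simp only [Ex.ok]; omega
  have hskip : ¬ (x < mate x ∧ mate x ∉ X) → ∃ L', Lev Big Md P (fun q => F q +
        if x < mate x ∧ mate x ∉ X ∧ q.1 = insert (mate x) X ∧ sv < q.2 ∧ G.Adj x q.2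
          then (if x ∈ X then (c : ZMod Md) else -c) else 0) L' s ∧
      Keep Big (fun q => P ≤ q ∧ q < P + 4) s s ∧
        s.reg 24 = L'.length ∧ L'.length ≤ L.length + n := by
    intro h
    refine ⟨L, hL.congr ?_, Keep.refl _ _ _, r24, by omega⟩
    intro q
    rw [if_neg (fun h' => h ⟨h'.1, h'.2.1⟩), add_zero]
  unfold pushB
  have o13 : (Ex.r 13).ok w s := by simp only [Ex.ok, r13]; omega
  have o15 : (Ex.r 15).ok w s := by simp only [Ex.ok, r15]; omega
  apply Tr.ite (T := 355 * n) o13 o15 (by simp only [Ex.cost]; omega)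
  · intro h
    simp only [Ex.ev, r13, r15] at h
    have hxm : x < mate x := h
    apply Tr.ite (T := 350 * n) (by simp only [Ex.ok, r17]; split_ifs <;> omega)
      (oc _ _ (by omega)) (by simp only [Ex.cost]; omega)
    · intro h
      simp only [Ex.ev, r17] at h
      have hmX : mate x ∉ X := by
        intro hxX; rw [if_pos hxX] at h; omega
      have hpw := hE.pw (mate x)
      have hins := enc_insert hmX
      have hins2 := enc_lt (insert (mate x) X)
      have ho : (rd (.c 2) (.r 15)).ok w s :=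
        rd_okp (Q := 2) (X := mate x) hp hE.rg (oc _ _ (by omega)) o15 rfl r15 (by omega) (by omega)
          (by rw [hpw]; omega)
      have hv : (rd (.c 2) (.r 15)).ev s = 2 ^ (mate x : ℕ) := by
        exact rd_evq (Q := 2) (X := mate x) hE.rg (by exact rfl) (by exact r15) (by rw [hpw])
      apply tr_asgs (enc (insert (mate x) X))
      · refine ⟨by simp only [Ex.ok, r12]; omega, ho, ?_⟩
        rw [hv]; simp only [Ex.ev, r12]; omega
      · show (Ex.r 12).ev s + (rd (.c 2) (.r 15)).ev s = _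
        rw [hv]; simp only [Ex.ev, r12]; omega
      · simp only [rd, cell, Ex.cost]; omega
      intro s1 m1 e1 f1
      have a14 : s1.reg 14 = c := by rw [f1 14 (by decide), r14]
      have a16 : s1.reg 16 = if x ∈ X then 1 else 0 := by rw [f1 16 (by decide), r16]
      have a3 : s1.reg 3 = Md := by rw [f1 3 (by decide), hE.rg.r3]
      set c' : ℕ := if x ∈ X then c else Md - c with hc'
      have hc'lt : c' < Md := by rw [hc']; split_ifs <;> omega
      have hc'cast : (c' : ZMod Md) = if x ∈ X then (c : ZMod Md) else -c := by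
        rw [hc']
        split_ifs
        · rfl
        · rw [Nat.cast_sub hc.le, ZMod.natCast_self, zero_sub]
      apply tr_seq 30 (by simp only [rd, cell, Ex.cost]; omega)
      have hnext : ∀ s2 : St, s2.mem = s1.mem → s2.reg 21 = c' →
          (∀ y, y ≠ 21 → s2.reg y = s1.reg y) →
          Tr w push s2 (350 * n - ((Ex.add (.r 12) (rd (.c 2) (.r 15))).cost + 2) - 30)
          (fun s' => ∃ L', Lev Big Md P (fun q => F q +
        if x < mate x ∧ mate x ∉ X ∧ q.1 = insert (mate x) X ∧ sv < q.2 ∧ G.Adj x q.2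
          then (if x ∈ X then (c : ZMod Md) else -c) else 0) L' s' ∧
      Keep Big (fun q => P ≤ q ∧ q < P + 4) s s' ∧
        s'.reg 24 = L'.length ∧ L'.length ≤ L.length + n) := by
        intro s2 m2 e2 f2
        have hE2 : Env G mate Big Md s2 := hE.keep hp
          (Keep.of_mem (P := fun _ => False) (m2.trans m1)) (fun _ _ h => h)
          (by rw [f2 0 (by decide), f1 0 (by decide)]) (by rw [f2 2 (by decide), f1 2 (by decide)])
          (by rw [f2 3 (by decide), f1 3 (by decide)])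
        refine (tr_push hp hE2 (hL.mem (m2.trans m1)) hP3 hP (insert (mate x) X) x sv c' hc'lt
          (by rw [f2 27 (by decide), f1 27 (by decide), r27])
          (by rw [f2 20 (by decide), e1]) e2
          (by rw [f2 13 (by decide), f1 13 (by decide), r13])
          (by rw [f2 6 (by decide), f1 6 (by decide), r6])
          (by rw [f2 24 (by decide), f1 24 (by decide), r24])).mono
          (by simp only [rd, cell, Ex.cost]; omega) ?_
        rintro s3 ⟨L', h1, h2, h3, h4⟩
        refine ⟨L', h1.congr ?_, (Keep.of_mem (m2.trans m1)).trans h2, h3, h4⟩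
        intro q
        congr 1
        by_cases e : q.1 = insert (mate x) X ∧ sv < q.2 ∧ G.Adj x q.2
        · rw [if_pos e, if_pos ⟨hxm, hmX, e⟩, hc'cast]
        · rw [if_neg e, if_neg (fun h' => e h'.2.2)]
      apply Tr.ite (T := 20) (by simp only [Ex.ok, a16]; split_ifs <;> omega)
        (oc _ _ (by omega)) (by decide)
      · intro h
        simp only [Ex.ev, a16] at h
        have hxX : x ∉ X := by
          intro hxX; rw [if_pos hxX] at h; omega
        apply tr_asg c' (by simp only [Ex.ok, a14, a3]; omega)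
          (by simp only [Ex.ev, a14, a3, hc']; rw [if_neg hxX]) (by decide)
        exact hnext
      · intro h
        simp only [Ex.ev, a16] at h
        have hxX : x ∈ X := by
          by_contra hxX; rw [if_neg hxX] at h; omega
        apply tr_asg c' (by simp only [Ex.ok, a14]; omega)
          (by simp only [Ex.ev, a14, hc']; rw [if_pos hxX]) (by decide)
        exact hnext
    · intro h
      simp only [Ex.ev, r17] at h
      apply Tr.skip
      apply hskip
      rintro ⟨_, hmX⟩
      rw [if_neg hmX] at h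
      omega
  · intro h
    simp only [Ex.ev, r13, r15] at h
    apply Tr.skip
    apply hskip
    rintro ⟨h1, _⟩
    exact h h1

/-- Process one entry. -/
def stepE : HC := .seq loadE (.ite (.c 0) (.r 14) (.seq bits (.seq pushA pushB)) .skip)

open Classical in
/-- The contribution of the entry `p` with value `c` to the entry `q` of the next level. -/
noncomputable def ctb {K : Type*} [Ring K] (G : SimpleGraph (Fin n)) (mate : Fin n → Fin n)
    (sv : Fin n) (p : Finset (Fin n) × Fin n) (c : K) (q : Finset (Fin n) × Fin n) : K :=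
  (if p.2 ∉ p.1 ∧ q.1 = insert p.2 p.1 ∧ sv < q.2 ∧ G.Adj p.2 q.2 then c else 0) +
    (if p.2 < mate p.2 ∧ mate p.2 ∉ p.1 ∧ q.1 = insert (mate p.2) p.1 ∧ sv < q.2 ∧ G.Adj p.2 q.2
      then (if p.2 ∈ p.1 then c else -c) else 0)

theorem ctb_zero {K : Type*} [Ring K] (G : SimpleGraph (Fin n)) (mate : Fin n → Fin n)
    (sv : Fin n) (p : Finset (Fin n) × Fin n) (q : Finset (Fin n) × Fin n) :
    ctb G mate sv p (0 : K) q = 0 := by
  unfold ctb
  split_ifs <;> simp

theorem tr_stepE {w Big Md Qm P P1 : ℕ} {G : SimpleGraph (Fin n)} {mate : Fin n → Fin n}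
    {F F1 : Finset (Fin n) × Fin n → ZMod Md}
    {L L1 : List (Finset (Fin n) × Fin n)} {s : St} (hp : Par n w Big Md Qm)
    (hE : Env G mate Big Md s) (hL : Lev Big Md P F L s) (hP3 : 4 ≤ P) (hPP : P + 4 ≤ P1)
    (hP : P1 + 3 < Qm) (hL1 : Lev Big Md P1 F1 L1 s) (sv : Fin n) {i : ℕ} (hi : i < L.length)
    (r8 : s.reg 8 = P) (r11 : s.reg 11 = i) (r27 : s.reg 27 = P1)
    (r6 : s.reg 6 = sv) (r24 : s.reg 24 = L1.length) :
    Tr w stepE s (1000 * n) (fun s' => ∃ L', Lev Big Md P1 (fun q => F1 q +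
        ctb G mate sv L[i] (F L[i]) q) L' s' ∧
      Keep Big (fun q => q = 3 ∨ (P1 ≤ q ∧ q < P1 + 4)) s s' ∧
        s'.reg 24 = L'.length ∧
        L'.length ≤ L1.length + if F L[i] = 0 then 0 else 2 * n) := by
  classical
  have hb := hp.nb
  have hpb := hp.pb
  have h8 := hp.bw
  have hmw := hp.mw
  have hqq := hp.qq
  have hq8 := hp.qpos
  have hnB := hp.n1b
  have hn3 := hp.n3
  have hn1 : n < 2 ^ w := by omega
  have hvl := hL.vlt L[i]
  have hval := hL.val L[i]
  unfold stepE
  apply tr_seqf _ (tr_loadE hp hE.rg hL (by omega) hi r8 r11) (by omega)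
  rintro s1 ⟨m1, g12, g13, g14⟩ f1
  have hE1 : Env G mate Big Md s1 := hE.keep hp
      (Keep.of_mem (P := fun _ => False) m1) (fun _ _ h => h)
      (f1 0 (by decide)) (f1 2 (by decide)) (f1 3 (by decide))
  apply Tr.ite (T := 890 * n) (by simp only [Ex.ok]; omega)
    (by simp only [Ex.ok, g14]; omega) (by simp only [Ex.cost]; omega)
  · intro hpos
    simp only [Ex.ev, g14] at hpos
    apply tr_seqf _ (tr_bits hp hE1 (L[i]).1 (L[i]).2 g12 g13) (by omega)
    rintro s2 ⟨k2, hbit, h15, h16, h17⟩ f2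
    have hE2 : Env G mate Big Md s2 := hE1.keep hp k2 (fun q hq h => by omega)
      (f2 0 (by decide)) (f2 2 (by decide)) (f2 3 (by decide))
    have hL2 : Lev Big Md P1 F1 L1 s2 := (hL1.mem m1).keep hp k2 (fun q h1 h2 h3 => by omega)
    apply tr_seqf _ (tr_pushA hp hE2 hL2 (by omega) hP (L[i]).1 (L[i]).2 sv _ hvl
      (by rw [f2 27 (by decide), f1 27 (by decide), r27])
      (by rw [f2 12 (by decide), g12]) (by rw [f2 14 (by decide), g14])
      (by rw [f2 13 (by decide), g13]) h16
      (by rw [f2 6 (by decide), f1 6 (by decide), r6])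
      (by rw [f2 24 (by decide), f1 24 (by decide), r24])) (by omega)
    rintro s3 ⟨L', h1, k3, h24, hlen⟩ f3
    have hE3 : Env G mate Big Md s3 := hE2.keep hp k3 (fun q hq h => by omega)
      (f3 0 (by decide)) (f3 2 (by decide)) (f3 3 (by decide))
    refine (tr_pushB hp hE3 h1 (by omega) hP (L[i]).1 (L[i]).2 sv _ hpos hvl
      (by rw [f3 27 (by decide), f2 27 (by decide), f1 27 (by decide), r27])
      (by rw [f3 12 (by decide), f2 12 (by decide), g12])
      (by rw [f3 14 (by decide), f2 14 (by decide), g14])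
      (by rw [f3 13 (by decide), f2 13 (by decide), g13])
      (by rw [f3 15 (by decide), h15]) (by rw [f3 16 (by decide), h16])
      (by rw [f3 17 (by decide), h17])
      (by rw [f3 6 (by decide), f2 6 (by decide), f1 6 (by decide), r6]) h24).mono
      (by omega) ?_
    rintro s4 ⟨L'', i1, k4, i24, ilen⟩
    refine ⟨L'', i1.congr ?_, ?_, i24, ?_⟩
    · intro q
      rw [hval]
      unfold ctb
      rw [add_assoc]
    · refine (Keep.of_mem m1).trans ?_
      refine (k2.mono (fun q h => Or.inl h)).trans ?_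
      exact (k3.mono (fun q h => Or.inr h)).trans (k4.mono (fun q h => Or.inr h))
    · have : F L[i] ≠ 0 := by
        intro h0
        rw [h0, ZMod.natCast_eq_zero_iff] at hval
        have := Nat.le_of_dvd hpos hval
        omega
      rw [if_neg this]
      omega
  · intro hpos
    simp only [Ex.ev, g14] at hpos
    have h0 : bl Big s P (ix L[i]) = 0 := by omega
    rw [h0, Nat.cast_zero] at hval
    refine Tr.skip ⟨L1, (hL1.mem m1).congr ?_, Keep.of_mem m1, ?_, by omega⟩
    · intro q
      rw [← hval, ctb_zero, add_zero]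
    · rw [f1 24 (by decide), r24]

end Run7.h747
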