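import Pool.Agent.Run7.h747.Step
import Pool.Agent.Run7.h747.Walk

/-!
The contributions of all entries of a level give the next level.
-/

set_option autoImplicit false

namespace Run7.h747

open Finset Pool.Agent.H588R2 Pool.Agent.TH687.HL Pool.Agent.TH687.DCS

variable {n : ℕ}

theorem sum_ins {K : Type*} [Ring K] (y : Fin n) (f : Finset (Fin n) → K) (X' : Finset (Fin n))
    (c : Prop) [Decidable c] :
    ∑ X : Finset (Fin n), (if y ∉ X ∧ X' = insert y X ∧ c then f X else 0) =
      if y ∈ X' ∧ c then f (X'.erase y) else 0 := by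
  rw [sum_eq_single (X'.erase y)]
  · by_cases h : y ∈ X'
    · have : insert y (X'.erase y) = X' := insert_erase h
      rw [this]
      simp [h]
    · have : ¬ (X' = insert y (X'.erase y)) := by
        intro e; apply h; rw [e]; exact mem_insert_self _ _
      rw [if_neg (fun h' => this h'.2.1), if_neg (fun h' => h h'.1)]
  · intro X _ hX
    rw [if_neg]
    rintro ⟨h1, h2, _⟩
    apply hX
    rw [h2, erase_insert h1]
  · intro h; exact absurd (mem_univ _) h

open Classical in
theorem sum_ctb {K : Type*} [Ring K] (G : SimpleGraph (Fin n)) (mate : Fin n → Fin n)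
    (sv x : Fin n) (f : Finset (Fin n) → ℤ) (q : Finset (Fin n) × Fin n) :
    ∑ X : Finset (Fin n), ctb G mate sv (X, x) ((f X : ℤ) : K) q =
      if sv < q.2 ∧ G.Adj x q.2 then ((pull mate x f q.1 : ℤ) : K) else 0 := by
  unfold ctb
  simp only []
  rw [sum_add_distrib]
  have e1 := sum_ins x (fun X => ((f X : ℤ) : K)) q.1 (sv < q.2 ∧ G.Adj x q.2)
  rw [e1]
  have e2 : ∑ X : Finset (Fin n), (if x < mate x ∧ mate x ∉ X ∧ q.1 = insert (mate x) X ∧
      sv < q.2 ∧ G.Adj x q.2 then (if x ∈ X then ((f X : ℤ) : K) else -((f X : ℤ) : K)) else 0) =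
      if x < mate x ∧ mate x ∈ q.1 ∧ (sv < q.2 ∧ G.Adj x q.2) then
        (if x ∈ q.1 then ((f (q.1.erase (mate x)) : ℤ) : K)
          else -((f (q.1.erase (mate x)) : ℤ) : K)) else 0 := by
    by_cases h : x < mate x
    · have h3 : x ≠ mate x := ne_of_lt h
      simp only [h, true_and]
      rw [sum_ins (mate x) (fun X => if x ∈ X then ((f X : ℤ) : K) else -((f X : ℤ) : K)) q.1
        (sv < q.2 ∧ G.Adj x q.2)]
      simp only [mem_erase, ne_eq, h3, not_false_eq_true, true_and]
    · simp only [h, false_and, if_false, sum_const_zero]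
  rw [e2]
  unfold pull
  by_cases h1 : sv < q.2 ∧ G.Adj x q.2
  · simp only [h1, and_self, and_true, if_true]
    push_cast
    congr 1
  · simp only [h1, and_false, if_false, add_zero]

/-- The entries of a level. -/
noncomputable def FC (K : Type*) [Ring K] (G : SimpleGraph (Fin n)) (mate : Fin n → Fin n)
    (sv a : Fin n) (j : ℕ) (q : Finset (Fin n) × Fin n) : K :=
  ((Cc G sv a mate j q.2 q.1 : ℤ) : K)

theorem FC_succ (K : Type*) [Ring K] (G : SimpleGraph (Fin n)) (mate : Fin n → Fin n)
    (sv a : Fin n) (j : ℕ) (q : Finset (Fin n) × Fin n) :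
    ∑ p : Finset (Fin n) × Fin n, ctb G mate sv p (FC K G mate sv a j p) q =
      FC K G mate sv a (j + 1) q := by
  classical
  rw [Fintype.sum_prod_type_right]
  have e1 : ∀ x : Fin n, ∑ X : Finset (Fin n), ctb G mate sv (X, x) (FC K G mate sv a j (X, x)) q =
      if sv < q.2 ∧ G.Adj x q.2 then ((pull mate x (Cc G sv a mate j x) q.1 : ℤ) : K) else 0 := by
    intro x
    exact sum_ctb G mate sv x (Cc G sv a mate j x) q
  rw [sum_congr rfl (fun x _ => e1 x)]
  unfold FC
  conv_rhs => unfold Cc
  by_cases h : sv < q.2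
  · rw [if_pos h]
    simp only [h, true_and]
    rw [sum_filter]
    push_cast
    apply sum_congr rfl
    intro x _
    split_ifs <;> simp
  · rw [if_neg h]
    simp [h]

theorem list_sum {K : Type*} [Ring K] {L : List (Finset (Fin n) × Fin n)} (hn : L.Nodup)
    (g : Finset (Fin n) × Fin n → K) (hg : ∀ p, p ∉ L → g p = 0) :
    (L.map g).sum = ∑ p, g p := by
  classical
  rw [← List.sum_toFinset g hn]
  apply sum_subset (subset_univ _)
  intro p _ hp
  rw [List.mem_toFinset] at hp
  exact hg p hp

/-- The number of nonzero entries. -/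
theorem nz_count {Md : ℕ} (G : SimpleGraph (Fin n)) (mate : Fin n → Fin n)
    (sv a : Fin n) (j GB : ℕ) {L : List (Finset (Fin n) × Fin n)} (hn : L.Nodup)
    (hGB : ∀ (w : Fin n) (S : Finset (Finset (Fin n))),
      (∀ X ∈ S, Cc G sv a mate j w X ≠ 0) → S.card ≤ GB) :
    (L.filter (fun p => FC (ZMod Md) G mate sv a j p ≠ 0)).length ≤ n * GB := by
  classical
  have h1 : (L.filter (fun p => FC (ZMod Md) G mate sv a j p ≠ 0)).Nodup := hn.filter _
  rw [← List.toFinset_card_of_nodup h1]
  have h2 : (L.filter (fun p => FC (ZMod Md) G mate sv a j p ≠ 0)).toFinset ⊆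
      univ.biUnion (fun w : Fin n =>
        (univ.filter (fun X : Finset (Fin n) => Cc G sv a mate j w X ≠ 0)).image
          (fun X => (X, w))) := by
    intro p hp
    rw [List.mem_toFinset, List.mem_filter] at hp
    have h3 := hp.2
    simp only [decide_eq_true_eq] at h3
    rw [mem_biUnion]
    refine ⟨p.2, mem_univ _, ?_⟩
    rw [mem_image]
    refine ⟨p.1, ?_, rfl⟩
    rw [mem_filter]
    refine ⟨mem_univ _, ?_⟩
    intro h4
    apply h3
    unfold FC
    rw [h4, Int.cast_zero]
  refine (card_le_card h2).trans ?_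
  refine card_biUnion_le.trans ?_
  calc ∑ w : Fin n, ((univ.filter (fun X : Finset (Fin n) => Cc G sv a mate j w X ≠ 0)).image
          (fun X => (X, w))).card ≤ ∑ _w : Fin n, GB := by
        apply sum_le_sum
        intro w _
        refine card_image_le.trans ?_
        apply hGB w
        intro X hX
        rw [mem_filter] at hX
        exact hX.2
    _ = n * GB := by simp

end Run7.h747
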