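import Pool.Agent.Run7.h747.Vanish

/-!
A non-vanishing coefficient has few untouched pairs.
-/

set_option autoImplicit false

namespace Run7.h747

open Finset

variable {V : Type*} [Fintype V] [LinearOrder V]

theorem MM_ne_zero_local {mate : V → V} {X Y : Finset V} (h : MM mate X Y ≠ 0) (v : V) :
    mu mate X Y v ≠ 0 := by
  unfold MM at h
  rw [prod_ne_zero_iff] at h
  exact h v (mem_univ _)

theorem occ {mate : V → V} (hm : ∀ v, mate (mate v) = v) {X Y : Finset V}
    (h : MM mate X Y ≠ 0) {x : V} (hx : x ∈ Y) : x ∈ X ∨ mate x ∈ X := by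
  by_contra hcon
  push Not at hcon
  obtain ⟨h1, h2⟩ := hcon
  rcases lt_trichotomy x (mate x) with h3 | h3 | h3
  · apply MM_ne_zero_local h x
    unfold mu
    rw [if_neg (ne_of_gt h3), if_pos h3]
    by_cases c : mate x ∈ Y <;> simp [h1, h2, hx, c, pm]
  · apply MM_ne_zero_local h x
    unfold mu
    rw [if_pos h3.symm]
    simp [h1, hx]
  · apply MM_ne_zero_local h (mate x)
    unfold mu
    rw [hm, if_neg (ne_of_gt h3), if_pos h3]
    by_cases c : mate x ∈ Y <;> simp [h1, h2, hx, c, pm]

theorem occ' {mate : V → V} (hm : ∀ v, mate (mate v) = v) {X Y : Finset V}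
    (h : MM mate X Y ≠ 0) {x : V} (hx : x ∈ X) : x ∈ Y ∨ (mate x < x ∧ mate x ∈ Y) := by
  by_contra hcon
  push Not at hcon
  obtain ⟨h1, h2⟩ := hcon
  rcases lt_trichotomy x (mate x) with h3 | h3 | h3
  · apply MM_ne_zero_local h x
    unfold mu
    rw [if_neg (ne_of_gt h3), if_pos h3]
    by_cases c : mate x ∈ Y <;> by_cases d : mate x ∈ X <;> simp [h1, hx, c, d, pm]
  · apply MM_ne_zero_local h x
    unfold mu
    rw [if_pos h3.symm]
    simp [h1, hx]
  · apply MM_ne_zero_local h (mate x)
    have h2' := h2 h3
    unfold mu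
    rw [hm, if_neg (ne_of_gt h3), if_pos h3]
    by_cases d : mate x ∈ X <;> simp [h1, h2', hx, d, pm]

theorem PW_gt {G : SimpleGraph V} {s a : V} (hsa : s < a) : ∀ (l : List V) (w : V),
    PW G s a l w → (s < w ∧ ∀ x ∈ l, s < x) := by
  intro l
  induction l with
  | nil => intro w h; have h' : w = a := h; subst h'; exact ⟨hsa, by simp⟩
  | cons x l ih =>
    intro w h
    obtain ⟨h1, _, _, h4⟩ := h
    have := ih x h4
    refine ⟨h1, ?_⟩
    intro y hy
    rcases List.mem_cons.1 hy with rfl | hy
    · exact this.1
    · exact this.2 y hy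

theorem PW_nodup {G : SimpleGraph V} {s a : V} : ∀ (l : List V) (w : V),
    PW G s a l w → l.Nodup := by
  intro l
  induction l with
  | nil => intro w _; exact List.nodup_nil
  | cons x l ih =>
    intro w h
    obtain ⟨_, _, h3, h4⟩ := h
    exact List.nodup_cons.2 ⟨h3, ih x h4⟩

/-- Number of elements of `l` in `H`. -/
def cntH (H : Finset V) (l : List V) : ℕ := (l.filter (fun x => decide (x ∈ H))).length

theorem cntH_cons (H : Finset V) (x : V) (l : List V) :
    cntH H (x :: l) = (if x ∈ H then 1 else 0) + cntH H l := by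
  unfold cntH
  by_cases h : x ∈ H
  · simp [h]; omega
  · simp [h]

theorem cntH_le {H : Finset V} {l : List V} (h : l.Nodup) : cntH H l ≤ H.card := by
  unfold cntH
  rw [← List.toFinset_card_of_nodup (h.filter _)]
  apply card_le_card
  intro x hx
  simp only [List.mem_toFinset, List.mem_filter, decide_eq_true_eq] at hx
  exact hx.2

theorem card_blk_le_one {mate : V → V} (hm : ∀ v, mate (mate v) = v) (T : Finset V)
    (hT : ∀ v ∈ T, mate v < v) (x : V) : (T.filter (fun v => x ∈ blk mate v)).card ≤ 1 := by
  rw [card_le_one]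
  intro v hv v' hv'
  rw [mem_filter] at hv hv'
  have h1 := hT v hv.1
  have h2 := hT v' hv'.1
  have h3 := hv.2
  have h4 := hv'.2
  unfold blk at h3 h4
  rw [mem_insert, mem_singleton] at h3 h4
  rcases h3 with h3 | h3 <;> rcases h4 with h4 | h4
  · rw [← h3, ← h4]
  · exfalso
    rw [h3] at h4
    rw [h4, hm] at h1
    exact lt_asymm h1 h2
  · exfalso
    rw [h4] at h3
    rw [h3, hm] at h2
    exact lt_asymm h1 h2
  · have : mate v = mate v' := by rw [← h3, ← h4]
    rw [← hm v, this, hm]

open Classical in
theorem touched_le {mate : V → V} (hm : ∀ v, mate (mate v) = v) {D : V → Finset V}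
    {T H : Finset V} (hT : ∀ v ∈ T, mate v < v) : ∀ (l : List V) (w : V),
    (∀ x ∈ w :: l, ∀ v ∈ T, x ∈ D v → x ∈ H) →
    (T.filter (fun v => ¬ NC mate D v l w)).card ≤ 2 * cntH H l + (if w ∈ H then 1 else 0) := by
  intro l
  induction l with
  | nil =>
    intro w _
    have : T.filter (fun v => ¬ NC mate D v [] w) = ∅ := by
      apply filter_eq_empty_iff.2
      intro v _
      simp [NC]
    rw [this]; simp
  | cons x l ih =>
    intro w hP
    have hsub : T.filter (fun v => ¬ NC mate D v (x :: l) w) ⊆
        (if w ∈ H then T.filter (fun v => x ∈ blk mate v) else ∅) ∪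
        ((if x ∈ H then T.filter (fun v => w ∈ blk mate v) else ∅) ∪
          T.filter (fun v => ¬ NC mate D v l x)) := by
      intro v hv
      rw [mem_filter] at hv
      obtain ⟨hvT, hv⟩ := hv
      unfold NC at hv
      rw [mem_union, mem_union]
      by_cases c1 : x ∈ blk mate v ∧ w ∈ D v
      · left
        rw [if_pos (hP w List.mem_cons_self v hvT c1.2), mem_filter]
        exact ⟨hvT, c1.1⟩
      · by_cases c2 : w ∈ blk mate v ∧ x ∈ D v
        · right; left
          rw [if_pos (hP x (List.mem_cons_of_mem _ List.mem_cons_self) v hvT c2.2), mem_filter]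
          exact ⟨hvT, c2.1⟩
        · right; right
          rw [mem_filter]
          refine ⟨hvT, fun h => hv ⟨c1, c2, h⟩⟩
    have ih' := ih x (fun y hy => hP y (List.mem_cons_of_mem _ hy))
    have h1 := card_blk_le_one hm T hT x
    have h2 := card_blk_le_one hm T hT w
    have h3 := card_le_card hsub
    have h4 := card_union_le (if w ∈ H then T.filter (fun v => x ∈ blk mate v) else ∅)
        ((if x ∈ H then T.filter (fun v => w ∈ blk mate v) else ∅) ∪
          T.filter (fun v => ¬ NC mate D v l x))
    have h5 := card_union_le (if x ∈ H then T.filter (fun v => w ∈ blk mate v) else ∅)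
          (T.filter (fun v => ¬ NC mate D v l x))
    rw [cntH_cons]
    split_ifs at * with c1 c2 c2 <;> (try simp only [card_empty] at *) <;> omega

open Classical in
theorem few_untouched {G : SimpleGraph V} {s a : V} (hsa : s < a) {mate : V → V}
    (hm : ∀ v, mate (mate v) = v) {D : V → Finset V} (hDc : ∀ v, Closed mate (D v))
    (hDn : ∀ v, v ∉ D v ∧ mate v ∉ D v)
    (hD : ∀ v x, x ≠ v → x ≠ mate v → x ∉ D v → (G.Adj v x ↔ G.Adj (mate v) x))
    {J H : Finset V} (hJ : ∀ v ∈ J, mate v < v) (hH : Closed mate H)
    {j : ℕ} {w : V} {X : Finset V} (h : Cc G s a mate j w X ≠ 0) :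
    (∀ x ∈ X, s < x) ∧
    (J.filter (fun v => s < mate v ∧ X ∩ (blk mate v ∪ (D v \ H)) = {v})).card ≤
      2 * H.card + 3 := by
  obtain ⟨l, hl, hne, hbad⟩ := Cc_ne_zero hm hDc hD h
  rw [mem_Lw] at hl
  obtain ⟨_, hPW⟩ := hl
  have hgt := PW_gt hsa l w hPW
  have hnd := PW_nodup l w hPW
  refine ⟨?_, ?_⟩
  · intro x hx
    rcases occ' hm hne hx with h1 | ⟨h1, h2⟩
    · exact hgt.2 x (by simpa using h1)
    · exact lt_trans (hgt.2 _ (by simpa using h2)) h1
  · set T := J.filter (fun v => s < mate v ∧ X ∩ (blk mate v ∪ (D v \ H)) = {v}) with hTdef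
    have hT : ∀ v ∈ T, mate v < v := by
      intro v hv
      rw [hTdef, mem_filter] at hv
      exact hJ v hv.1
    have hXv : ∀ v ∈ T, v ∈ X ∧ mate v ∉ X ∧ s < mate v ∧
        ∀ x, x ∈ D v → x ∉ H → x ∉ X := by
      intro v hv
      have hlt := hT v hv
      rw [hTdef, mem_filter] at hv
      obtain ⟨_, h1, h2⟩ := hv
      have hv' : v ∈ X ∩ (blk mate v ∪ (D v \ H)) := by rw [h2]; exact mem_singleton_self v
      refine ⟨(mem_inter.1 hv').1, ?_, h1, ?_⟩
      · intro h3
        have : mate v ∈ X ∩ (blk mate v ∪ (D v \ H)) := by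
          rw [mem_inter, mem_union]
          refine ⟨h3, Or.inl ?_⟩
          unfold blk; simp
        rw [h2, mem_singleton] at this
        exact ne_of_lt hlt this
      · intro x hx hxH hxX
        have : x ∈ X ∩ (blk mate v ∪ (D v \ H)) := by
          rw [mem_inter, mem_union, mem_sdiff]
          exact ⟨hxX, Or.inr ⟨hx, hxH⟩⟩
        rw [h2, mem_singleton] at this
        rw [this] at hx
        exact (hDn v).1 hx
    have hP1 : ∀ x ∈ l, ∀ v ∈ T, x ∈ D v → x ∈ H := by
      intro x hx v hv hxD
      by_contra hxH
      obtain ⟨_, _, _, h4⟩ := hXv v hv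
      have h5 : mate x ∉ H := fun h' => hxH (by rw [← hm x]; exact hH _ h')
      rcases occ hm hne (x := x) (by simpa using hx) with h6 | h6
      · exact h4 x hxD hxH h6
      · exact h4 _ (hDc v x hxD) h5 h6
    have hsub : T ⊆ T.filter (fun v => w ∈ blk mate v) ∪ (T.filter (fun v => a ∈ blk mate v) ∪
        T.filter (fun v => ¬ NC mate D v l w)) := by
      intro v hv
      obtain ⟨h1, h2, h3, _⟩ := hXv v hv
      by_contra hcon
      have c1 : w ∉ blk mate v := fun h =>
        hcon (mem_union_left _ (mem_filter.2 ⟨hv, h⟩))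
      have c2 : a ∉ blk mate v := fun h =>
        hcon (mem_union_right _ (mem_union_left _ (mem_filter.2 ⟨hv, h⟩)))
      have c3 : NC mate D v l w := by
        by_contra h
        exact hcon (mem_union_right _ (mem_union_right _ (mem_filter.2 ⟨hv, h⟩)))
      have : v ∈ badF mate D s a X w l := by
        unfold badF
        rw [mem_filter]
        unfold blk at c1 c2
        rw [mem_insert, mem_singleton, not_or] at c1 c2
        exact ⟨h1, hT v hv, h2, h3, fun e => c1.1 e.symm, fun e => c1.2 e.symm,
          fun e => c2.1 e.symm, fun e => c2.2 e.symm, c3⟩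
      rw [hbad] at this
      exact notMem_empty _ this
    have hT3 : (T.filter (fun v => ¬ NC mate D v l w)).card ≤ 2 * H.card + 1 := by
      cases l with
      | nil =>
        have : T.filter (fun v => ¬ NC mate D v [] w) = ∅ := by
          apply filter_eq_empty_iff.2
          intro v _
          simp [NC]
        rw [this]; simp
      | cons x l =>
        have hsub2 : T.filter (fun v => ¬ NC mate D v (x :: l) w) ⊆
            T.filter (fun v => x ∈ blk mate v) ∪
            ((if x ∈ H then T.filter (fun v => w ∈ blk mate v) else ∅) ∪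
              T.filter (fun v => ¬ NC mate D v l x)) := by
          intro v hv
          rw [mem_filter] at hv
          obtain ⟨hvT, hv⟩ := hv
          unfold NC at hv
          rw [mem_union, mem_union]
          by_cases c1 : x ∈ blk mate v ∧ w ∈ D v
          · left
            rw [mem_filter]
            exact ⟨hvT, c1.1⟩
          · by_cases c2 : w ∈ blk mate v ∧ x ∈ D v
            · right; left
              rw [if_pos (hP1 x List.mem_cons_self v hvT c2.2), mem_filter]
              exact ⟨hvT, c2.1⟩
            · right; right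
              rw [mem_filter]
              refine ⟨hvT, fun h => hv ⟨c1, c2, h⟩⟩
        have h0 := touched_le hm (D := D) (H := H) hT l x hP1
        have h1 := card_blk_le_one hm T hT x
        have h2 := card_blk_le_one hm T hT w
        have h3 := card_le_card hsub2
        have h4 := card_union_le (T.filter (fun v => x ∈ blk mate v))
            ((if x ∈ H then T.filter (fun v => w ∈ blk mate v) else ∅) ∪
              T.filter (fun v => ¬ NC mate D v l x))
        have h5 := card_union_le (if x ∈ H then T.filter (fun v => w ∈ blk mate v) else ∅)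
              (T.filter (fun v => ¬ NC mate D v l x))
        have h6 := cntH_le (H := H) hnd
        rw [cntH_cons] at h6
        split_ifs at * with c1 <;> (try simp only [card_empty] at *) <;> omega
    have h1 := card_blk_le_one hm T hT a
    have h2 := card_blk_le_one hm T hT w
    have h3 := card_le_card hsub
    have h4 := card_union_le (T.filter (fun v => w ∈ blk mate v))
      (T.filter (fun v => a ∈ blk mate v) ∪ T.filter (fun v => ¬ NC mate D v l w))
    have h5 := card_union_le (T.filter (fun v => a ∈ blk mate v))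
      (T.filter (fun v => ¬ NC mate D v l w))
    omega

end Run7.h747
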