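import Pool.Agent.Run7.h747.Walk

/-!
When a coefficient vanishes.
-/

set_option autoImplicit false

namespace Run7.h747

open Finset

variable {V : Type*} [Fintype V] [LinearOrder V]

theorem pm_flip (p q : Bool) : pm false true p q = - pm false true q p := by
  cases p <;> cases q <;> rfl

theorem rep_of_gt {mate : V → V} {v : V} (h : mate v < v) : rep mate v = mate v := by
  unfold rep; rw [if_neg (lt_asymm h)]

theorem mu_lab {mate : V → V} (hm : ∀ v, mate (mate v) = v) {v : V} (h : mate v < v)
    {X : Finset V} (Y : Finset V) (h1 : v ∈ X) (h2 : mate v ∉ X) :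
    mu mate X Y (mate v) = pm false true (decide (mate v ∈ Y)) (decide (v ∈ Y)) := by
  unfold mu
  rw [hm, if_neg (ne_of_gt h), if_pos h]
  simp [h1, h2]

theorem mem_image_swap (v m : V) (Y : Finset V) (x : V) :
    x ∈ Y.image (Equiv.swap v m) ↔ Equiv.swap v m x ∈ Y := by
  rw [mem_image]
  constructor
  · rintro ⟨y, hy, e⟩
    rw [← e, Equiv.swap_apply_self]
    exact hy
  · intro h
    exact ⟨_, h, Equiv.swap_apply_self _ _ _⟩

theorem MM_swap {mate : V → V} (hm : ∀ v, mate (mate v) = v) {v : V} (h : mate v < v)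
    {X : Finset V} (Y : Finset V) (h1 : v ∈ X) (h2 : mate v ∉ X) :
    MM mate X (Y.image (Equiv.swap v (mate v))) = - MM mate X Y := by
  have hr := rep_of_gt h
  have hY : ∀ x, x ≠ v → x ≠ mate v → (x ∈ Y.image (Equiv.swap v (mate v)) ↔ x ∈ Y) := by
    intro x hx1 hx2
    rw [mem_image_swap, Equiv.swap_apply_of_ne_of_ne hx1 hx2]
  rw [MM_eq mate X _ v, MM_eq mate X Y v, MM_split hm v (X' := X) (fun _ _ _ => Iff.rfl) hY, hr,
    mu_lab hm h _ h1 h2, mu_lab hm h _ h1 h2, pm_flip]
  have e1 : mate v ∈ Y.image (Equiv.swap v (mate v)) ↔ v ∈ Y := by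
    rw [mem_image_swap, Equiv.swap_apply_right]
  have e2 : v ∈ Y.image (Equiv.swap v (mate v)) ↔ mate v ∈ Y := by
    rw [mem_image_swap, Equiv.swap_apply_left]
  simp only [e1, e2]
  ring

open Classical in
/-- The pairs with the second vertex only in `X` that the walk does not touch. -/
noncomputable def badF (mate : V → V) (D : V → Finset V) (s a : V) (X : Finset V) (w : V)
    (l : List V) : Finset V :=
  X.filter (fun v : V => mate v < v ∧ mate v ∉ X ∧ s < mate v ∧ v ≠ w ∧ mate v ≠ w ∧ v ≠ a ∧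
    mate v ≠ a ∧ NC mate D v l w)

theorem badF_map {mate : V → V} (hm : ∀ v, mate (mate v) = v) {D : V → Finset V}
    (hD : ∀ v, Closed mate (D v)) (s a : V) (X : Finset V) (w v : V) (l : List V)
    (h1 : w ≠ v) (h2 : w ≠ mate v) :
    badF mate D s a X w (l.map (Equiv.swap v (mate v))) = badF mate D s a X w l := by
  classical
  unfold badF
  apply filter_congr
  intro x _
  have := NC_map hm hD x v l w
  rw [Equiv.swap_apply_of_ne_of_ne h1 h2] at this
  rw [this]

/-- The swap given by the least element of a set. -/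
noncomputable def tauF (mate : V → V) (S : Finset V) : Equiv.Perm V :=
  if h : S.Nonempty then Equiv.swap (S.min' h) (mate (S.min' h)) else 1

theorem Cc_ne_zero {G : SimpleGraph V} {s a : V} {mate : V → V} (hm : ∀ v, mate (mate v) = v)
    {D : V → Finset V} (hDc : ∀ v, Closed mate (D v))
    (hD : ∀ v x, x ≠ v → x ≠ mate v → x ∉ D v → (G.Adj v x ↔ G.Adj (mate v) x))
    {j : ℕ} {w : V} {X : Finset V} (h : Cc G s a mate j w X ≠ 0) :
    ∃ l ∈ Lw G s a j w, MM mate X l.toFinset ≠ 0 ∧ badF mate D s a X w l = ∅ := by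
  classical
  by_contra hcon
  push Not at hcon
  apply h
  rw [Cc_eq G s a hm, ← sum_filter_ne_zero]
  have key : ∀ l ∈ (Lw G s a j w).filter (fun l => MM mate X l.toFinset ≠ 0),
      ∃ v, tauF mate (badF mate D s a X w l) = Equiv.swap v (mate v) ∧ v ∈ X ∧ mate v < v ∧ mate v ∉ X ∧
        s < mate v ∧ v ≠ w ∧ mate v ≠ w ∧ v ≠ a ∧ mate v ≠ a ∧ NC mate D v l w := by
    intro l hl
    rw [mem_filter] at hl
    have hne := hcon l hl.1 hl.2
    have hne' : (badF mate D s a X w l).Nonempty := hne
    have hmem := (badF mate D s a X w l).min'_mem hne'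
    refine ⟨(badF mate D s a X w l).min' hne', ?_, ?_⟩
    · unfold tauF; rw [dif_pos hne']
    · unfold badF at hmem ⊢
      rw [mem_filter] at hmem
      exact hmem
  have tof : ∀ (l : List V) (e : Equiv.Perm V), (l.map e).toFinset = l.toFinset.image e := by
    intro l e
    ext x
    simp
  refine sum_involution (fun l _ => l.map (tauF mate (badF mate D s a X w l))) ?_ ?_ ?_ ?_
  · intro l hl
    obtain ⟨v, e, h1, h2, h3, _⟩ := key l hl
    rw [e, tof, MM_swap hm h2 _ h1 h3]
    ring
  · intro l hl hne heq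
    obtain ⟨v, e, h1, h2, h3, _⟩ := key l hl
    rw [e] at heq
    have : MM mate X l.toFinset = - MM mate X l.toFinset := by
      conv_lhs => rw [← heq]
      rw [tof, MM_swap hm h2 _ h1 h3]
    apply hne
    omega
  · intro l hl
    obtain ⟨v, e, h1, h2, h3, h4, h5, h6, h7, h8, h9⟩ := key l hl
    rw [mem_filter] at hl ⊢
    rw [e]
    refine ⟨?_, ?_⟩
    · rw [mem_Lw] at hl ⊢
      refine ⟨by rw [List.length_map]; exact hl.1.1, ?_⟩
      have := PW_map hm (hD v) (fun e => h7 e.symm) (fun e => h8 e.symm) (lt_trans h4 h2) h4 l w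
        hl.1.2 h9 ?_
      · rwa [Equiv.swap_apply_of_ne_of_ne (fun e => h5 e.symm) (fun e => h6 e.symm)] at this
      · rintro ⟨ha, hb⟩
        rw [List.mem_cons] at ha hb
        have ha' : v ∈ l := ha.resolve_left h5
        have hb' : mate v ∈ l := hb.resolve_left h6
        apply hl.2
        rw [MM_eq mate X _ v, rep_of_gt h2, mu_lab hm h2 _ h1 h3]
        simp [ha', hb', pm]
    · rw [tof, MM_swap hm h2 _ h1 h3]
      exact neg_ne_zero.2 hl.2
  · intro l hl
    obtain ⟨v, e, h1, h2, h3, h4, h5, h6, h7, h8, h9⟩ := key l hl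
    have hbad : badF mate D s a X w (l.map (tauF mate (badF mate D s a X w l))) = badF mate D s a X w l := by
      rw [e]
      exact badF_map hm hDc s a X w v l (fun e => h5 e.symm) (fun e => h6 e.symm)
    rw [hbad, List.map_map, e]
    have : (⇑(Equiv.swap v (mate v)) ∘ ⇑(Equiv.swap v (mate v))) = id := by
      funext x
      simp
    rw [this, List.map_id]

end Run7.h747
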